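import Pool.Agent.Work.MP_a6e60d_ag.DG.Kinj
import Mathlib.CategoryTheory.Linear.LinearFunctor

/-!
MP_a6e60d_ag: the DG functor on complexes given by a `k`-linear functor.
-/

open CategoryTheory CochainComplex HomComplex

namespace Orl

universe v u v' u' w

variable {k : Type w} [CommRing k]
  {D : Type u} [Category.{v} D] [Preadditive D] [Linear k D]
  {C : Type u'} [Category.{v'} C] [Preadditive C] [Linear k C]

/-- a linear functor on cochains -/
@[simps]
def cochainMap (Φ : D ⥤ C) [Φ.Additive] [Φ.Linear k] (K L : CochainComplex D ℤ) (n : ℤ) :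
    Cochain K L n →ₗ[k] Cochain ((Φ.mapHomologicalComplex _).obj K)
      ((Φ.mapHomologicalComplex _).obj L) n where
  toFun z := z.map Φ
  map_add' z z' := Cochain.map_add z z' Φ
  map_smul' c z := by
    ext p q hpq
    exact Functor.map_smul Φ c (z.v p q hpq)

end Orl

namespace Orl

variable {k : Type} [CommRing k]
  {D : Type 1} [Category.{0} D] [Preadditive D] [Linear k D]
  {C : Type 1} [Category.{0} C] [Preadditive C] [Linear k C]

/-- the DG functor on complexes given by a `k`-linear functor -/
noncomputable def mapDG (Φ : D ⥤ C) [Φ.Additive] [Φ.Linear k] :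
    DGFun (cxDG k D) (cxDG k C) where
  obj K := (Φ.mapHomologicalComplex _).obj K
  map {K L n} := cochainMap Φ K L n
  map_d {K L} n m f := (δ_map n m f Φ).symm
  map_id (K : CochainComplex D ℤ) := by
    change Cochain.map (Cochain.ofHom (𝟙 K)) Φ =
      Cochain.ofHom (𝟙 ((Φ.mapHomologicalComplex _).obj K))
    rw [Cochain.map_ofHom, CategoryTheory.Functor.map_id]
  map_comp {K L M n m p} h f g := Cochain.map_comp (Φ := Φ) (F := K) (G := L) (K := M) f g h

end Orl
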