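import Pool.Agent.Work.MP_a6e60d_ag.DG.Mod
import Mathlib.Algebra.Category.ModuleCat.Algebra
import Mathlib.LinearAlgebra.FiniteDimensional.Basic
import Mathlib.RingTheory.Noetherian.Basic
import Mathlib.LinearAlgebra.FreeModule.Finite.Matrix

/-!
MP_a6e60d_ag: the endomorphism DG algebra of an object of a DG category; finite-dimensional
DG algebras.
-/

open CategoryTheory CochainComplex HomComplex

namespace Orl

universe v u w

section EndAlg

variable {k : Type w} [CommRing k]

/-- The complex of morphisms from `a` to `b`. -/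
@[simps]
def DGCat.homCx (A : DGCat.{v, u} k) (a b : A.Obj) : CochainComplex (ModuleCat.{v} k) ℤ where
  X n := ModuleCat.of k (A.Hom a b n)
  d n m := ModuleCat.ofHom (A.d n m)
  shape n m h := by
    ext f
    exact A.d_shape n m f h
  d_comp_d' n m p _ _ := by
    ext f
    exact A.d_d n m p f

/-- The endomorphism DG algebra of the object `a`: the product `x y` is `x` after `y`. -/
def DGCat.endAlg (A : DGCat.{v, u} k) (a : A.Obj) : DGAlg.{v} k where
  cx := A.homCx a a
  mul {n m p} h := (A.comp (a := a) (b := a) (c := a) (n := m) (m := n) (p := p)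
    (by rw [add_comm]; exact h)).flip
  one := A.id a
  one_mul x := A.comp_id x
  mul_one x := A.id_comp x
  mul_assoc h₁ h₂ h₃ h₄ x y z := (A.assoc (by lia) (by lia) (by lia) (by lia) z y x).symm
  d_mul {n m p n' m' p'} h hn hm hp x y :=
    A.d_comp (a := a) (b := a) (c := a) (n := m) (m := n) (p := p) (by lia) hm hn hp y x

theorem DGCat.endAlg_cx (A : DGCat.{v, u} k) (a : A.Obj) : (A.endAlg a).cx = A.homCx a a := rfl

theorem DGCat.endAlg_one (A : DGCat.{v, u} k) (a : A.Obj) : (A.endAlg a).one = A.id a := rfl

theorem DGCat.endAlg_mul (A : DGCat.{v, u} k) (a : A.Obj) {n m p : ℤ} (h : n + m = p)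
    (x : A.Hom a a n) (y : A.Hom a a m) :
    (A.endAlg a).mul h x y = A.comp (by rw [add_comm]; exact h) y x := rfl

end EndAlg

section FinDim

variable {k : Type w} [CommRing k]

/-- A DG algebra is finite-dimensional if its total space is finite-dimensional: all its
homogeneous parts are finite-dimensional and only finitely many of them are nonzero. -/
def DGAlg.IsFinDim (R : DGAlg.{v} k) : Prop :=
  (∀ n, Module.Finite k (R.cx.X n)) ∧ {n : ℤ | Nontrivial (R.cx.X n)}.Finite

variable {C : Type u} [Category.{v} C] [Preadditive C] [Linear k C]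

/-- The cochains of degree `n` between bounded complexes. -/
theorem finite_cochain [IsNoetherianRing k] {K L : CochainComplex C ℤ}
    (hK : {n | ¬ Limits.IsZero (K.X n)}.Finite) (n : ℤ)
    (hf : ∀ p q, Module.Finite k (K.X p ⟶ L.X q)) : Module.Finite k (Cochain K L n) := by
  have : Finite {n | ¬ Limits.IsZero (K.X n)} := hK
  let φ : Cochain K L n →ₗ[k]
      (∀ p : {n | ¬ Limits.IsZero (K.X n)}, K.X p.1 ⟶ L.X (p.1 + n)) :=
    { toFun := fun z p => z.v p.1 (p.1 + n) rfl
      map_add' := fun _ _ => rfl
      map_smul' := fun _ _ => rfl }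
  have hφ : Function.Injective φ := by
    intro z z' h
    ext p q hpq
    subst hpq
    by_cases hp : Limits.IsZero (K.X p)
    · exact hp.eq_of_src _ _
    · exact congrFun h ⟨p, hp⟩
  have : ∀ p q, Module.Finite k (K.X p ⟶ L.X q) := hf
  exact Module.Finite.of_injective φ hφ

/-- The endomorphism DG algebra of a bounded complex with finite-dimensional spaces of
morphisms is finite-dimensional. -/
theorem isFinDim_endAlg [IsNoetherianRing k] {K : CochainComplex C ℤ}
    (hK : {n | ¬ Limits.IsZero (K.X n)}.Finite)
    (hf : ∀ p q, Module.Finite k (K.X p ⟶ K.X q)) :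
    ((cxDG k C).endAlg K).IsFinDim := by
  refine ⟨fun n => finite_cochain hK n hf, ?_⟩
  refine ((hK.prod hK).image fun p => p.2 - p.1).subset ?_
  rintro n ⟨z, z', hz⟩
  by_contra hcon
  apply hz
  refine Cochain.ext _ _ fun p q hpq => ?_
  by_cases hp : Limits.IsZero (K.X p)
  · exact hp.eq_of_src _ _
  by_cases hq : Limits.IsZero (K.X q)
  · exact hq.eq_of_tgt _ _
  exfalso
  apply hcon
  exact ⟨(p, q), ⟨hp, hq⟩, by simp; lia⟩

end FinDim

section Mods

variable {k : Type w} [Field k] {B : Type w} [Ring B] [Algebra k B]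

open ModuleCat

/-- The space of morphisms between finite-dimensional modules over an algebra. -/
theorem finite_hom_moduleCat (M N : ModuleCat.{v} B) (hM : Module.Finite k M)
    (hN : Module.Finite k N) : Module.Finite k (M ⟶ N) := by
  let φ : (M ⟶ N) →ₗ[k] (M →ₗ[k] N) :=
    { toFun := fun f => f.hom.restrictScalars k
      map_add' := fun _ _ => rfl
      map_smul' := fun c f => by
        ext x
        simp }
  have hφ : Function.Injective φ := by
    intro f g h
    ext x
    exact LinearMap.congr_fun h x
  exact Module.Finite.of_injective φ hφ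

/-- The endomorphism DG algebra of a bounded complex of finite-dimensional modules. -/
theorem isFinDim_endAlg_moduleCat {K : CochainComplex (ModuleCat.{v} B) ℤ}
    (hK : {n | ¬ Limits.IsZero (K.X n)}.Finite) (hf : ∀ n, Module.Finite k (K.X n)) :
    ((cxDG k (ModuleCat.{v} B)).endAlg K).IsFinDim :=
  isFinDim_endAlg hK fun p q => finite_hom_moduleCat _ _ (hf p) (hf q)

end Mods

end Orl
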