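import Pool.Agent.Work.MP_a6e60d_ag.DG.Chain
import Pool.Agent.Work.MP_a6e60d_ag.DG.EndFin
import Mathlib.Algebra.Homology.DerivedCategory.KInjective

/-!
MP_a6e60d_ag: the Morita theorem for the endomorphism DG algebra of a complex.
-/

open CategoryTheory CochainComplex HomComplex Limits


namespace Orl

section

variable {k : Type} [CommRing k]

/-- The endomorphism DG algebra of `a` acts on `F a`. -/
noncomputable def StrictAct.ofFun {A B : DGCat.{0, 1} k} (F : DGFun A B) (a : A.Obj) :
    StrictAct (A.endAlg a) B (F.obj a) where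
  map {n} := (F.map : A.Hom a a n →ₗ[k] B.Hom (F.obj a) (F.obj a) n)
  map_one := F.map_id a
  map_mul h x y := F.map_comp (by lia) y x
  map_d n m x := F.map_d n m x

/-- If `Hom (a, a) → Hom (F a, J)` is a quasi-isomorphism then the action is a
quasi-isomorphism. -/
lemma ActQIso.ofFun {A B : DGCat.{0, 1} k} (F : DGFun A B) (a : A.Obj) {J : B.Obj}
    (q : B.Hom (F.obj a) J 0) (h : QIso (mixl F q a)) : ActQIso (StrictAct.ofFun F a) q :=
  ⟨h.inj, h.surj⟩

/-- A DG functor `F : A → B`, an object `a` of `A`, a closed morphism `q : F a → J` such that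
`Hom (J, J) → Hom (F a, J)` and `Hom (a, a) → Hom (F a, J)` are quasi-isomorphisms: the thick
closure of `J` is quasi-equivalent to the perfect DG modules over the endomorphism DG algebra of
`a`. -/
theorem quasiEquivalent_perfDG_endAlg {A B : DGCat.{0, 1} k} (hB : IsPerfectLike B)
    (F : DGFun A B) {a : A.Obj} {J : B.Obj} (q : B.Hom (F.obj a) J 0) (hq : IsClosed q)
    (h₁ : QIso (mixl F q a)) (h₂ : QIso (prec q J)) :
    QuasiEquivalent (perfDG (A.endAlg a)) (B.full (DGCat.Thick J)) :=
  quasiEquivalent_perfDG hB (StrictAct.ofFun F a) q hq (ActQIso.ofFun F a q h₁) h₂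

/-- The same for complexes. -/
theorem quasiEquivalent_perfDG_endAlg_cx {A C : Type 1} [Category.{0} A] [Preadditive A]
    [Linear k A] [Category.{0} C] [Abelian C] [Linear k C] [HasColimitsOfShape (Discrete ℕ) C]
    (Ψ : A ⥤ C) [Ψ.Additive] [Ψ.Linear k] {P : CochainComplex A ℤ} {J : CochainComplex C ℤ}
    [J.IsKInjective] (q : (Ψ.mapHomologicalComplex _).obj P ⟶ J) [QuasiIso q]
    (h : QIso (mixl (mapDG (k := k) Ψ) (b := J) (Cochain.ofHom q) P)) :
    QuasiEquivalent (perfDG ((cxDG k A).endAlg P))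
      ((cxDG k C).full (DGCat.Thick (A := cxDG k C) J)) :=
  quasiEquivalent_perfDG_endAlg isPerfectLike_cxDG (mapDG Ψ) (Cochain.ofHom q) (δ_ofHom _) h
    (prec_qIso_of_quasiIso q)

/-- **The DG part of the construction.**  `Φ : D ⥤ C`, `Ψ : A ⥤ C` linear functors, `I`, `P`
complexes of `D`, `A`, `J` a K-injective complex of `C`, `p : Φ I → J` and `q : Ψ P → J`
quasi-isomorphisms such that `Hom (I, I) → Hom (Φ I, J)` and `Hom (P, P) → Hom (Ψ P, J)` are
quasi-isomorphisms.  Then the thick closure of `I` is quasi-equivalent to the category of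
perfect DG modules over the DG algebra `End P`. -/
theorem quasiEquivalent_of_triple {A C D : Type 1} [Category.{0} A] [Preadditive A]
    [Linear k A] [Category.{0} C] [Abelian C] [Linear k C] [HasColimitsOfShape (Discrete ℕ) C]
    [Category.{0} D] [Abelian D] [Linear k D] [HasColimitsOfShape (Discrete ℕ) D]
    (Φ : D ⥤ C) [Φ.Additive] [Φ.Linear k] (Ψ : A ⥤ C) [Ψ.Additive] [Ψ.Linear k]
    {I : CochainComplex D ℤ} {P : CochainComplex A ℤ} {J : CochainComplex C ℤ} [J.IsKInjective]
    (p : (Φ.mapHomologicalComplex _).obj I ⟶ J) [QuasiIso p]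
    (hp : QIso (mixl (mapDG (k := k) Φ) (b := J) (Cochain.ofHom p) I))
    (q : (Ψ.mapHomologicalComplex _).obj P ⟶ J) [QuasiIso q]
    (hq : QIso (mixl (mapDG (k := k) Ψ) (b := J) (Cochain.ofHom q) P)) :
    QuasiEquivalent ((cxDG k D).full (DGCat.Thick (A := cxDG k D) I))
      (perfDG ((cxDG k A).endAlg P)) :=
  (quasiEquivalent_cx Φ p hp).trans (quasiEquivalent_perfDG_endAlg_cx Ψ q hq).symm

end

section

universe v u w

variable {C : Type u} [Category.{v} C] [Abelian C] [HasDerivedCategory.{w} C]

open DerivedCategory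

/-- A morphism in the derived category to a K-injective complex is represented by a morphism of
complexes. -/
lemma exists_hom_of_kinj {K L : CochainComplex C ℤ} [L.IsKInjective] (f : Q.obj K ⟶ Q.obj L) :
    ∃ q : K ⟶ L, Q.map q = f := by
  obtain ⟨g, hg⟩ := (IsKInjective.Qh_map_bijective ((HomotopyCategory.quotient _ _).obj K)
    L).surjective ((quotientCompQhIso C).hom.app K ≫ f ≫ (quotientCompQhIso C).inv.app L)
  obtain ⟨q, rfl⟩ := (HomotopyCategory.quotient _ _).map_surjective g
  refine ⟨q, ?_⟩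
  have h := (quotientCompQhIso C).hom.naturality q
  rw [Functor.comp_map, hg] at h
  simp only [Category.assoc, Iso.inv_hom_id_app, Category.comp_id] at h
  exact ((cancel_epi _).1 h).symm

/-- An isomorphism in the derived category to a K-injective complex is represented by a
quasi-isomorphism. -/
lemma exists_quasiIso_of_kinj {K L : CochainComplex C ℤ} [L.IsKInjective]
    (e : Q.obj K ≅ Q.obj L) : ∃ q : K ⟶ L, QuasiIso q := by
  obtain ⟨q, hq⟩ := exists_hom_of_kinj e.hom
  refine ⟨q, ?_⟩
  rw [← isIso_Q_map_iff_quasiIso, hq]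
  infer_instance

end

end Orl
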