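import Pool.Agent.Work.MP_a6e60d_ag.DG.Cat

/-!
MP_a6e60d_ag: the DG category of complexes of a `k`-linear category; mapping cones.
-/

open CategoryTheory CochainComplex HomComplex

namespace Orl

universe v u w

variable (k : Type w) [CommRing k] (C : Type u) [Category.{v} C] [Preadditive C] [Linear k C]

/-- The DG category of the complexes of objects of `C`: the morphisms of degree `n` are the
families of maps `K.X p → L.X q`, `p + n = q`; `d f = d ∘ f - (-1) ^ |f| f ∘ d`. -/
noncomputable def cxDG : DGCat.{v, max u v} k where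
  Obj := CochainComplex C ℤ
  Hom K L n := Cochain K L n
  d {K L} n m := δ_hom k K L n m
  d_shape n m f h := δ_shape n m h f
  d_d n m p f := δ_δ n m p f
  id K := Cochain.ofHom (𝟙 K)
  comp {K L M n m p} h := LinearMap.mk₂ k (fun f g => f.comp g h)
    (fun f f' g => Cochain.add_comp f f' g h) (fun c f g => Cochain.smul_comp c f g h)
    (fun f g g' => Cochain.comp_add f g g' h) (fun c f g => Cochain.comp_smul f c g h)
  id_comp f := Cochain.id_comp f
  comp_id f := Cochain.comp_id f
  assoc {a b c e n m l nm ml p} h₁ h₂ h₃ h₄ f g h := by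
    exact Cochain.comp_assoc f g h h₁ h₂ (by lia)
  d_comp h hn hm hp f g := δ_comp f g h _ _ _ hp hn hm

variable {k C}

@[simp] lemma cxDG_d {K L : CochainComplex C ℤ} (n m : ℤ) (f : Cochain K L n) :
    (cxDG k C).d (a := K) (b := L) n m f = δ n m f := rfl

@[simp] lemma cxDG_comp {K L M : CochainComplex C ℤ} {n m p : ℤ} (h : n + m = p)
    (f : Cochain K L n) (g : Cochain L M m) :
    (cxDG k C).comp (a := K) (b := L) (c := M) h f g = f.comp g h := rfl

@[simp] lemma cxDG_id (K : CochainComplex C ℤ) : (cxDG k C).id K = Cochain.ofHom (𝟙 K) := rfl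

open Limits in
/-- the mapping cone of a morphism of complexes -/
noncomputable def cxCone [HasBinaryBiproducts C] {K L : CochainComplex C ℤ} (φ : K ⟶ L) :
    DGCat.Cone (A := cxDG k C) (a := K) (b := L) (Cochain.ofHom φ) (mappingCone φ) where
  inl := mappingCone.inl φ
  inr := Cochain.ofHom (mappingCone.inr φ)
  fst := (mappingCone.fst φ).1
  snd := mappingCone.snd φ
  inl_fst := mappingCone.inl_fst φ
  inl_snd := mappingCone.inl_snd φ
  inr_fst := mappingCone.inr_fst φ
  inr_snd := mappingCone.inr_snd φ
  total := mappingCone.id φ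
  d_inl := by
    change δ (-1) 0 (mappingCone.inl φ) = (Cochain.ofHom φ).comp (Cochain.ofHom _) (add_zero 0)
    rw [mappingCone.δ_inl, Cochain.ofHom_comp]
  d_inr := δ_ofHom _
  d_fst := (mappingCone.fst φ).δ_eq_zero 2
  d_snd := mappingCone.δ_snd φ

end Orl
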