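import Pool.Agent.Work.MP_a6e60d_ag.DG.Split
import Pool.Agent.Work.MP_a6e60d_ag.DG.Cx

/-!
MP_a6e60d_ag: the DG category of complexes has cones, shifts and countable coproducts.
-/

open CategoryTheory CochainComplex HomComplex Limits

namespace Orl

universe w

variable {k : Type w} [CommRing k] {C : Type 1} [Category.{0} C] [Preadditive C] [Linear k C]

section Pow

variable [HasColimitsOfShape (Discrete ℕ) C]

/-- the coproduct of countably many copies of a complex -/
@[simps]
noncomputable def cxPow (K : CochainComplex C ℤ) : CochainComplex C ℤ where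
  X n := ∐ fun _ : ℕ => K.X n
  d n m := Limits.Sigma.map fun _ => K.d n m
  shape n m h := by
    ext j
    simp [K.shape n m h]
  d_comp_d' n m p _ _ := by
    ext j
    simp

/-- the inclusions -/
@[simps]
noncomputable def cxPowι (K : CochainComplex C ℤ) (j : ℕ) : K ⟶ cxPow K where
  f n := Sigma.ι (fun _ : ℕ => K.X n) j
  comm' n m _ := Limits.Sigma.ι_map (fun _ : ℕ => K.d n m) j

/-- the coproduct of countably many copies of a complex -/
noncomputable def cxDGPow (K : CochainComplex C ℤ) :
    Pow (A := cxDG k C) K (cxPow K) where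
  ι j := Cochain.ofHom (cxPowι K j)
  closed j := δ_ofHom _
  desc {c m} f := by
    refine ⟨(Cochain.mk fun p q h => Limits.Sigma.desc fun j => (f j : Cochain K c m).v p q h :
      Cochain (cxPow K) c m), fun j => ?_⟩
    change (Cochain.ofHom (cxPowι K j)).comp _ (zero_add m) = _
    refine Cochain.ext _ _ fun p q h => ?_
    rw [Cochain.zero_cochain_comp_v, Cochain.ofHom_v, Cochain.mk_v]
    exact Limits.Sigma.ι_desc _ j
  ext {c m} g g' h := by
    refine Cochain.ext (g : Cochain (cxPow K) c m) g' fun p q hpq => ?_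
    refine Limits.Sigma.hom_ext _ _ fun j => ?_
    have := congrArg (fun z : Cochain K c m => z.v p q hpq) (h j)
    change ((Cochain.ofHom (cxPowι K j)).comp (g : Cochain (cxPow K) c m) (zero_add m)).v p q hpq =
      ((Cochain.ofHom (cxPowι K j)).comp (g' : Cochain (cxPow K) c m) (zero_add m)).v p q hpq
      at this
    rw [Cochain.zero_cochain_comp_v, Cochain.zero_cochain_comp_v, Cochain.ofHom_v] at this
    exact this

end Pow

/-- shifts of complexes -/
noncomputable def cxDGShift (t : ℤ) (L : CochainComplex C ℤ) :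
    Shift (A := cxDG k C) t L ((L⟦t⟧ : CochainComplex C ℤ)) where
  p := (Cochain.ofHom (𝟙 (L⟦t⟧))).rightUnshift t (zero_add t)
  r := (Cochain.ofHom (𝟙 L)).rightShift t (-t) (neg_add_cancel t)
  p_closed := by
    change δ t (t + 1) _ = 0
    rw [Cochain.δ_rightUnshift _ _ _ _ 1 (by omega), δ_ofHom]
    simp
  r_closed := by
    change δ (-t) (-t + 1) _ = 0
    rw [Cochain.δ_rightShift _ _ _ _ _ 1 (by omega), δ_ofHom]
    simp
  p_r := by
    change Cochain.comp _ _ (add_neg_cancel t) = Cochain.ofHom (𝟙 (L⟦t⟧))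
    ext p
    rw [Cochain.comp_v _ _ (add_neg_cancel t) p (p + t) p rfl (by omega),
      Cochain.rightUnshift_v _ _ _ _ _ _ p (by omega), Cochain.rightShift_v _ _ _ _ _ _ _ (p + t)
        (by omega)]
    simp
  r_p := by
    change Cochain.comp _ _ (neg_add_cancel t) = Cochain.ofHom (𝟙 L)
    ext p
    rw [Cochain.comp_v _ _ (neg_add_cancel t) p (p - t) p (by omega) (by omega),
      Cochain.rightUnshift_v _ _ _ _ _ _ (p - t) (by omega), Cochain.rightShift_v _ _ _ _ _ _ _ p
        (by omega)]
    simp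

theorem isPerfectLike_cxDG [HasBinaryBiproducts C] [HasColimitsOfShape (Discrete ℕ) C] :
    IsPerfectLike (cxDG k C) := by
  refine isPerfectLike_of (fun {a b} f hf => ?_) (fun K => ⟨_, ⟨cxDGPow K⟩⟩)
    (fun t L => ⟨_, ⟨cxDGShift t L⟩⟩)
  change CochainComplex C ℤ at a b
  have hf : δ 0 (0 + 1) (f : Cochain a b 0) = 0 := hf
  obtain ⟨φ, rfl⟩ : ∃ φ : a ⟶ b, Cochain.ofHom φ = f := by
    refine ⟨Cocycle.homOf (Cocycle.mk (f : Cochain a b 0) (0 + 1) rfl hf), ?_⟩
    rw [Cocycle.cochain_ofHom_homOf_eq_coe]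
    rfl
  exact ⟨_, ⟨cxCone φ⟩⟩

end Orl
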