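import Pool.Agent.Work.MP_a6e60d_ag.DG.Kinj
import Pool.Agent.Work.MP_a6e60d_ag.DG.RichCx

/-!
MP_a6e60d_ag: uniqueness of cones; the class of the objects right orthogonal to a given object;
K-injective complexes in the thick closure.
-/

open CategoryTheory CochainComplex HomComplex

namespace Orl

universe w

section dg

variable {k : Type w} [CommRing k] {A : DGCat.{0, 1} k} {a b c c' N : A.Obj}

/-- the comparison of two cones of the same morphism -/
def coneComp {f : A.Hom a b 0} (K : DGCat.Cone f c) (K' : DGCat.Cone f c') : A.Hom c c' 0 :=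
  A.comp (add_neg_cancel 1) K.fst K'.inl + A.comp (add_zero 0) K.snd K'.inr

lemma coneComp_closed {f : A.Hom a b 0} (K : DGCat.Cone f c) (K' : DGCat.Cone f c') :
    IsClosed (coneComp K K') := by
  refine isClosed_of (zero_add 1) ?_
  rw [coneComp, map_add,
    A.d_comp (n' := 2) (m' := 0) (add_neg_cancel 1) (by lia) (by lia) (zero_add 1),
    A.d_comp (n' := 1) (m' := 1) (add_zero 0) (by lia) (by lia) (zero_add 1), K.d_fst, K'.d_inl,
    K'.d_inr, K.d_snd, ← A.assoc (add_zero 1) (add_zero 0) (add_zero 1) (add_zero 1) K.fst f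
      K'.inr]
  simp

lemma inl_coneComp {f : A.Hom a b 0} (K : DGCat.Cone f c) (K' : DGCat.Cone f c') :
    A.comp (add_zero (-1)) K.inl (coneComp K K') = K'.inl := by
  rw [coneComp, map_add,
    ← A.assoc (neg_add_cancel 1) (add_neg_cancel 1) (zero_add (-1)) (add_zero (-1)) K.inl K.fst,
    ← A.assoc (add_zero (-1)) (add_zero 0) (add_zero (-1)) (add_zero (-1)) K.inl K.snd,
    K.inl_fst, K.inl_snd, A.id_comp, map_zero, LinearMap.zero_apply, add_zero]

lemma inr_coneComp {f : A.Hom a b 0} (K : DGCat.Cone f c) (K' : DGCat.Cone f c') :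
    A.comp (add_zero 0) K.inr (coneComp K K') = K'.inr := by
  rw [coneComp, map_add,
    ← A.assoc (zero_add 1) (add_neg_cancel 1) (add_neg_cancel 1) (add_zero 0) K.inr K.fst,
    ← A.assoc (add_zero 0) (add_zero 0) (add_zero 0) (add_zero 0) K.inr K.snd,
    K.inr_fst, K.inr_snd, A.id_comp, map_zero, LinearMap.zero_apply, zero_add]

lemma coneComp_comp {f : A.Hom a b 0} (K : DGCat.Cone f c) (K' : DGCat.Cone f c') :
    A.comp (add_zero 0) (coneComp K K') (coneComp K' K) = A.id c := by
  conv_lhs => rw [coneComp]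
  rw [map_add, LinearMap.add_apply,
    A.assoc (add_neg_cancel 1) (add_zero (-1)) (add_zero 0) (add_neg_cancel 1) K.fst K'.inl,
    A.assoc (add_zero 0) (add_zero 0) (add_zero 0) (add_zero 0) K.snd K'.inr,
    inl_coneComp, inr_coneComp, K.total]

/-- all closed morphisms from `N` to `a` are boundaries -/
def OrthTo (N a : A.Obj) : Prop := ∀ (n : ℤ) (z : A.Hom N a n), IsClosed z → IsBdry z

lemma OrthTo.cone {f : A.Hom a b 0} (hf : IsClosed f) (K : DGCat.Cone f c) (ha : OrthTo N a)
    (hb : OrthTo N b) : OrthTo N c := by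
  intro n z hz
  have hf' : A.d 0 1 f = 0 := hf.d 1
  obtain ⟨α, hα⟩ := (ha (n + 1) (A.comp rfl z K.fst) (hz.comp (Cone.closed_fst K) _)).exists n rfl
  -- `z + d (α inl) = β inr` with `β = z snd + α f`
  have hβ : A.d n (n + 1) (A.comp (add_zero n) z K.snd + A.comp (add_zero n) α f) = 0 := by
    rw [map_add, A.d_comp (n' := n + 1) (m' := 1) (add_zero n) rfl (by lia) rfl,
      A.d_comp (n' := n + 1) (m' := 1) (add_zero n) rfl (by lia) rfl, hf', hα, hz.d, K.d_snd,
      map_neg, ← A.assoc rfl (add_zero 1) (add_zero _) rfl z K.fst f]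
    simp
  obtain ⟨γ, hγ⟩ := hb n _ hβ
  refine ⟨A.comp (add_zero (n - 1)) γ K.inr - A.comp (show n + -1 = n - 1 by lia) α K.inl, ?_⟩
  have e1 : A.d (n - 1) n (A.comp (add_zero (n - 1)) γ K.inr) =
      A.comp (add_zero n) (A.comp (add_zero n) z K.snd + A.comp (add_zero n) α f) K.inr := by
    rw [A.d_comp (n' := n) (m' := 1) (add_zero (n - 1)) (by lia) rfl (by lia), K.d_inr, hγ]
    simp
  have e2 : A.d (n - 1) n (A.comp (show n + -1 = n - 1 by lia) α K.inl) =
      A.comp (add_zero n) (A.comp (add_zero n) α f) K.inr -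
        A.comp (show n + 1 + -1 = n by lia) (A.comp rfl z K.fst) K.inl := by
    rw [A.d_comp (n' := n + 1) (m' := 0) (show n + -1 = n - 1 by lia) rfl (by lia) (by lia),
      K.d_inl, hα, A.assoc (add_zero n) (add_zero 0) (add_zero n) (add_zero n) α f K.inr]
    simp only [Int.negOnePow_neg, Int.negOnePow_one, Units.smul_def, Units.val_neg, Units.val_one,
      neg_smul, one_smul]
    exact (sub_eq_add_neg _ _).symm
  have e3 : A.comp (add_zero n) z (A.comp (add_neg_cancel 1) K.fst K.inl +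
      A.comp (add_zero 0) K.snd K.inr) = z := by
    rw [K.total, A.comp_id]
  rw [map_sub, e1, e2, map_add, LinearMap.add_apply]
  rw [map_add, ← A.assoc (add_zero n) (add_zero 0) (add_zero n) (add_zero n) z K.snd K.inr,
    ← A.assoc rfl (add_neg_cancel 1) (show n + 1 + -1 = n by lia) (add_zero n) z K.fst K.inl] at e3
  conv_rhs => rw [← e3]
  abel

lemma OrthTo.retract {t : ℤ} (h : DGCat.IsRetract t a b) (hb : OrthTo N b) : OrthTo N a := by
  obtain ⟨u, v, hu, hv, huv⟩ := h
  have hu : IsClosed u := isClosed_of rfl hu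
  have hv : IsClosed v := isClosed_of rfl hv
  have huv : IsBdry (A.comp (add_neg_cancel t) u v - A.id a) := huv
  intro n z hz
  have h1 : IsBdry (A.comp rfl z u) := hb (n + t) _ (hz.comp hu _)
  have h2 := IsBdry.comp_right h1 hv (show n + t + -t = n by lia)
  have h3 := IsBdry.comp_left hz huv (add_zero n)
  rw [map_sub, A.comp_id, ← A.assoc rfl (add_neg_cancel t) (show n + t + -t = n by lia)
    (add_zero n)] at h3
  exact h3.symm.of_sub h2

lemma OrthTo.thick {g a N : A.Obj} (hg : OrthTo N g) (h : DGCat.Thick g a) : OrthTo N a := by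
  induction h with
  | gen => exact hg
  | @cone a b c f hf K _ _ h1 h2 => exact OrthTo.cone (isClosed_of (zero_add 1) hf) K h1 h2
  | @retract a b t h _ h1 => exact OrthTo.retract h h1

lemma Shift.isRetract {t : ℤ} {M : A.Obj} (S : Shift t b M) : DGCat.IsRetract t M b :=
  ⟨S.p, S.r, S.p_closed, S.r_closed, 0, by rw [map_zero, S.p_r, sub_self]⟩

/-- a homotopy retract of a shift -/
lemma exists_of_retract {t : ℤ} {M : A.Obj} (h : DGCat.IsRetract t a b) (S : Shift t b M) :
    ∃ (i : A.Hom a M 0) (r : A.Hom M a 0), IsClosed i ∧ IsClosed r ∧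
      ∃ z : A.Hom a a (-1), A.d (-1) 0 z = A.comp (add_zero 0) i r - A.id a := by
  obtain ⟨u, v, hu, hv, huv⟩ := h
  have hu : IsClosed u := isClosed_of rfl hu
  have hv : IsClosed v := isClosed_of rfl hv
  have huv : IsBdry (A.comp (add_neg_cancel t) u v - A.id a) := huv
  refine ⟨A.comp (add_neg_cancel t) u S.r, A.comp (add_neg_cancel t) S.p v,
    hu.comp S.r_closed _, S.p_closed.comp hv _, ?_⟩
  have e : A.comp (add_zero 0) (A.comp (add_neg_cancel t) u S.r)
      (A.comp (add_neg_cancel t) S.p v) = A.comp (add_neg_cancel t) u v := by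
    rw [A.assoc (add_neg_cancel t) (show -t + 0 = -t by lia) (add_zero 0)
      (add_neg_cancel t) u, ← A.assoc (neg_add_cancel t) (add_neg_cancel t)
      (zero_add (-t)) (show -t + 0 = -t by lia) S.r, S.r_p, A.id_comp]
  rw [e]
  exact huv.exists (-1) (by lia)

end dg

section cx

variable {k : Type w} [CommRing k] {C : Type 1} [Category.{0} C] [Abelian C] [Linear k C]

variable (k) in
theorem isKInjective_iff_orthTo (J : CochainComplex C ℤ) :
    J.IsKInjective ↔ ∀ N : CochainComplex C ℤ, N.Acyclic → OrthTo (A := cxDG k C) N J := by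
  constructor
  · intro hJ N hN n z hz
    obtain ⟨α, hα⟩ := IsKInjective.eq_δ_of_cocycle (Cocycle.mk (n := n) z (n + 1) rfl hz) hN
      (n - 1) (by lia)
    exact ⟨α, hα⟩
  · intro h
    refine ⟨fun {N} f hN => ?_⟩
    obtain ⟨α, hα⟩ := (h N hN 0 (Cochain.ofHom f) (δ_ofHom f)).exists (-1) (by lia)
    exact ⟨(Cochain.equivHomotopy f 0).symm ⟨α, by
      rw [Cochain.ofHom_zero, add_zero]
      exact hα.symm⟩⟩

theorem isKInjective_of_thick {I K : CochainComplex C ℤ} (hI : I.IsKInjective)
    (h : DGCat.Thick (A := cxDG k C) I K) : K.IsKInjective :=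
  (isKInjective_iff_orthTo k K).2 fun N hN =>
    OrthTo.thick ((isKInjective_iff_orthTo k I).1 hI N hN) h

lemma exists_ofHom {K L : CochainComplex C ℤ} (z : Cochain K L 0) (hz : δ 0 1 z = 0) :
    ∃ φ : K ⟶ L, Cochain.ofHom φ = z := by
  refine ⟨Cocycle.homOf (Cocycle.mk z 1 (by lia) hz), ?_⟩
  rw [Cocycle.cochain_ofHom_homOf_eq_coe]
  rfl

lemma ofHom_inj {K L : CochainComplex C ℤ} {φ ψ : K ⟶ L}
    (h : Cochain.ofHom φ = Cochain.ofHom ψ) : φ = ψ := by
  ext n
  have := Cochain.congr_v h n n (add_zero n)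
  simpa using this

end cx

end Orl
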