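import Pool.Agent.Work.MP_a6e60d_ag.DG.LeftThick

/-!
MP_a6e60d_ag: approximations of a retract.
-/

open CategoryTheory CochainComplex HomComplex

namespace Orl

section

variable {k : Type} [CommRing k] {A : DGCat.{0, 1} k} {P c : A.Obj}

/-- DG modules which are homotopy retracts of resolved ones are resolved -/
lemma Res.of_isRetract {E : DGCat.{0, 1} k} (hE : IsPerfectLike E) {g a b : E.Obj}
    (h : DGCat.IsRetract 0 a b) (hb : Res g b) : Res g a := by
  obtain ⟨u, v, hu, hv, e⟩ := h
  exact Res.retract hE (v := v) hu hv e hb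

/-- `c` is a homotopy retract of `Z`, and `Z` is approximated from the left by an object of the
thick closure of `P`. -/
theorem leftHom_isRes_of (hs : ∀ c : A.Obj, ∃ c', Nonempty (Shift 1 c' c)) {Z X : A.Obj}
    (hc : DGCat.IsRetract 0 c Z) (hX : DGCat.Thick P X) {z : A.Hom Z X 0} (hz : IsClosed z)
    (h : QIso (prec z P)) : (leftHom A P c).IsRes := by
  have h₁ := leftHom_isRes hs hX hz h
  have h₂ := IsRetract.map (homFun (A := A.op) (StrictAct.selfOp A P)) (isRetract_op hc)
  have e : ∀ U : A.Obj, (homFun (A := A.op) (StrictAct.selfOp A P)).obj U = leftHom A P U :=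
    homMod_selfOp
  rw [e, e] at h₂
  exact Res.of_isRetract (isPerfectLike_modDG _) h₂ h₁

/-- `c` is a homotopy retract of `Z`, and `Z` is approximated from the right by an object of the
thick closure of `P`. -/
theorem rightHom_isRes_of {Z Y : A.Obj} (hc : DGCat.IsRetract 0 c Z) (hY : DGCat.Thick P Y)
    {z : A.Hom Y Z 0} (hz : IsClosed z) (h : QIso (postc z P)) : (rightHom A P c).IsRes := by
  have h₁ := rightHom_isRes hY hz h
  have h₂ := IsRetract.map (homFun (StrictAct.self A P)) hc
  exact Res.of_isRetract (isPerfectLike_modDG _) h₂ h₁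

end

end Orl
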