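import Pool.Agent.Work.MP_a6e60d_ag.DG.Tensor

/-!
MP_a6e60d_ag: DG bimodules, the diagonal bimodule, smooth DG algebras.
-/

open CategoryTheory CochainComplex HomComplex TensorProduct DirectSum

namespace Orl

universe v w

variable {k : Type w} [CommRing k]

/-- A DG bimodule: a complex of `k`-modules with a left action of `R` and a right action of `S`
which commute, with the Leibniz rules `d (r x) = (d r) x + (-1) ^ |r| r (d x)` and
`d (x s) = (d x) s + (-1) ^ |x| x (d s)`. -/
structure DGBimod (R S : DGAlg.{v} k) where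
  /-- the underlying complex -/
  cx : CochainComplex (ModuleCat.{v} k) ℤ
  /-- the left action -/
  lact : ∀ {n m p : ℤ} (_ : n + m = p), R.cx.X n →ₗ[k] cx.X m →ₗ[k] cx.X p
  /-- the right action -/
  ract : ∀ {n m p : ℤ} (_ : n + m = p), cx.X n →ₗ[k] S.cx.X m →ₗ[k] cx.X p
  one_lact : ∀ {n : ℤ} (x : cx.X n), lact (zero_add n) R.one x = x
  ract_one : ∀ {n : ℤ} (x : cx.X n), ract (add_zero n) x S.one = x
  mul_lact : ∀ {n m l nm ml p : ℤ} (h₁ : n + m = nm) (h₂ : m + l = ml) (h₃ : nm + l = p)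
    (h₄ : n + ml = p) (r : R.cx.X n) (r' : R.cx.X m) (x : cx.X l),
    lact h₃ (R.mul h₁ r r') x = lact h₄ r (lact h₂ r' x)
  ract_mul : ∀ {n m l nm ml p : ℤ} (h₁ : n + m = nm) (h₂ : m + l = ml) (h₃ : nm + l = p)
    (h₄ : n + ml = p) (x : cx.X n) (s : S.cx.X m) (s' : S.cx.X l),
    ract h₃ (ract h₁ x s) s' = ract h₄ x (S.mul h₂ s s')
  lact_ract : ∀ {n m l nm ml p : ℤ} (h₁ : n + m = nm) (h₂ : m + l = ml) (h₃ : nm + l = p)
    (h₄ : n + ml = p) (r : R.cx.X n) (x : cx.X m) (s : S.cx.X l),
    ract h₃ (lact h₁ r x) s = lact h₄ r (ract h₂ x s)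
  d_lact : ∀ {n m p n' m' p' : ℤ} (h : n + m = p) (hn : n + 1 = n') (hm : m + 1 = m')
    (_ : p + 1 = p') (r : R.cx.X n) (x : cx.X m),
    cx.d p p' (lact h r x) = lact (by lia) (R.cx.d n n' r) x +
      n.negOnePow • lact (by lia) r (cx.d m m' x)
  d_ract : ∀ {n m p n' m' p' : ℤ} (h : n + m = p) (hn : n + 1 = n') (hm : m + 1 = m')
    (_ : p + 1 = p') (x : cx.X n) (s : S.cx.X m),
    cx.d p p' (ract h x s) = ract (by lia) (cx.d n n' x) s +
      n.negOnePow • ract (by lia) x (S.cx.d m m' s)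

variable {R S : DGAlg.{v} k}

/-- `x (r ⊗ s) = (-1) ^ (|x| |r|) r x s` -/
def DGBimod.bact (B : DGBimod R S) {n m p : ℤ} (h : n + m = p) :
    B.cx.X n →ₗ[k] TensX R.cx S.cx m →ₗ[k] B.cx.X p :=
  LinearMap.flip (tdesc fun i j hij => LinearMap.mk₂ k
    (fun r s => (n * i).negOnePow •
      ((B.ract (n := i + n) (m := j) (p := p) (by lia)).flip s).comp
        (B.lact (n := i) (m := n) rfl r))
    (fun r r' s => by ext x; simp)
    (fun c r s => by ext x; simp [smul_comm c])
    (fun r s s' => by ext x; simp)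
    (fun c r s => by ext x; simp [smul_comm c]))

lemma DGBimod.bact_tp (B : DGBimod R S) {n m p : ℤ} (h : n + m = p) {i j l : ℤ}
    (hij : i + j = m) (hl : i + n = l) (x : B.cx.X n) (r : R.cx.X i) (s : S.cx.X j) :
    B.bact h x (tp hij r s) = (n * i).negOnePow • B.ract (by lia) (B.lact hl r x) s := by
  subst hl
  rw [DGBimod.bact, LinearMap.flip_apply, tdesc_tp]
  rfl

/-- the opposite product as a graded bilinear map -/
abbrev DGAlg.opMul (R : DGAlg.{v} k) : GBil R.cx R.cx R.cx := fun n m p h =>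
  (n * m).negOnePow • (R.mul (n := m) (m := n) (p := p) (by lia)).flip

lemma DGBimod.bact_one (B : DGBimod R S) {n : ℤ} (x : B.cx.X n) :
    B.bact (add_zero n) x (tp (add_zero 0) R.one S.one) = x := by
  rw [B.bact_tp (add_zero n) (add_zero 0) (zero_add n), B.one_lact, B.ract_one, mul_zero,
    Int.negOnePow_zero, one_smul]

lemma DGBimod.bact_mul (B : DGBimod R S) {n m l nm ml p : ℤ} (h₁ : n + m = nm) (h₂ : m + l = ml)
    (h₃ : nm + l = p) (h₄ : n + ml = p) (x : B.cx.X n) (y : TensX R.cx S.cx m)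
    (z : TensX R.cx S.cx l) : B.bact h₃ (B.bact h₁ x y) z =
      B.bact h₄ x (tpair R.opMul (fun _ _ _ h => S.mul h) h₂ y z) := by
  induction y using tens_induction with
  | h0 => simp
  | ha y y' hy hy' => simp only [map_add, LinearMap.add_apply, hy, hy']
  | ht i₁ j₁ e₁ r s =>
    induction z using tens_induction with
    | h0 => simp
    | ha z z' hz hz' => simp only [map_add, hz, hz']
    | ht i₂ j₂ e₂ r' s' =>
      rw [B.bact_tp h₁ e₁ rfl, tpair_tp _ _ h₂ e₁ e₂ (i'' := i₂ + i₁) (add_comm _ _) rfl]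
      simp only [Units.smul_def, map_zsmul, LinearMap.smul_apply, LinearMap.flip_apply]
      rw [B.bact_tp h₃ e₂ rfl, B.bact_tp h₄ _ (l := i₂ + (i₁ + n)) (by lia)]
      simp only [Units.smul_def]
      rw [B.mul_lact rfl rfl (by lia) rfl, ← B.lact_ract (nm := i₂ + (i₁ + n)) rfl (by lia)
        (by lia) rfl, B.ract_mul (nm := i₂ + nm) (ml := j₁ + j₂) (by lia) rfl (by lia) (by lia),
        smul_smul, smul_smul, smul_smul,
        ← Units.val_mul, ← Units.val_mul, ← Units.val_mul, ← Int.negOnePow_add,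
        ← Int.negOnePow_add, ← Int.negOnePow_add]
      congr 3
      rw [← h₁, ← e₁]
      ring

lemma DGBimod.bact_d (B : DGBimod R S) {n m p n' m' p' : ℤ} (h : n + m = p) (hn : n + 1 = n')
    (hm : m + 1 = m') (hp : p + 1 = p') (x : B.cx.X n) (y : TensX R.cx S.cx m) :
    B.cx.d p p' (B.bact h x y) = B.bact (by lia) (B.cx.d n n' x) y +
      n.negOnePow • B.bact (by lia) x (tD R.cx S.cx hm y) := by
  induction y using tens_induction with
  | h0 => simp
  | ha y y' hy hy' =>
    simp only [map_add, hy, hy', smul_add]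
    abel
  | ht i j e r s =>
    subst hn
    rw [B.bact_tp h e rfl, B.bact_tp _ e (l := i + n + 1) (by lia), tD_tp hm e rfl rfl]
    simp only [Units.smul_def, map_zsmul, map_add, LinearMap.add_apply, LinearMap.smul_apply]
    rw [B.d_ract (n' := i + n + 1) (m' := j + 1) _ rfl rfl hp,
      B.d_lact (n' := i + 1) (m' := n + 1) rfl rfl rfl rfl,
      B.bact_tp _ _ (l := i + n + 1) (by lia), B.bact_tp _ _ (l := i + n) rfl]
    simp only [Units.smul_def, map_add, map_zsmul, LinearMap.add_apply, LinearMap.smul_apply,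
      smul_add, smul_smul, mul_add, add_mul, mul_one, one_mul, Int.negOnePow_add,
      Units.val_mul]
    rcases Int.units_eq_one_or n.negOnePow with s1 | s1 <;>
    rcases Int.units_eq_one_or i.negOnePow with s2 | s2 <;>
    rcases Int.units_eq_one_or (n * i).negOnePow with s3 | s3 <;>
    · simp only [s1, s2, s3, Units.val_one, Units.val_neg, mul_one, one_mul, mul_neg,
        neg_mul, neg_neg, one_smul, neg_smul]
      abel

/-- A DG bimodule is a right DG module over the tensor product of `R` with the opposite product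
and `S`: `x (r ⊗ s) = (-1) ^ (|x| |r|) r x s`. -/
def DGBimod.toMod (B : DGBimod R S) : DGMod (R.op.tensor S) where
  cx := B.cx
  act h := B.bact h
  act_one x := B.bact_one x
  act_mul h₁ h₂ h₃ h₄ x y z := B.bact_mul h₁ h₂ h₃ h₄ x y z
  d_act {n m p n' m' p'} h hn hm hp x y := by
    change B.cx.d p p' (B.bact h x y) = B.bact _ (B.cx.d n n' x) y +
      n.negOnePow • B.bact _ x ((ConcreteCategory.hom ((tensCx R.cx S.cx).d m m')) y)
    rw [tensCx_d_apply hm]
    exact B.bact_d h hn hm hp x y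

/-- the diagonal bimodule -/
def DGAlg.diag (R : DGAlg.{v} k) : DGBimod R R where
  cx := R.cx
  lact h := R.mul h
  ract h := R.mul h
  one_lact x := R.one_mul x
  ract_one x := R.mul_one x
  mul_lact h₁ h₂ h₃ h₄ x y z := R.mul_assoc h₁ h₂ h₃ h₄ x y z
  ract_mul h₁ h₂ h₃ h₄ x y z := R.mul_assoc h₁ h₂ h₃ h₄ x y z
  lact_ract h₁ h₂ h₃ h₄ x y z := R.mul_assoc h₁ h₂ h₃ h₄ x y z
  d_lact h hn hm hp x y := R.d_mul h hn hm hp x y
  d_ract h hn hm hp x y := R.d_mul h hn hm hp x y

/-- The closed morphism `f` of degree `0` of right DG modules is a quasi-isomorphism: it induces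
isomorphisms on the cohomology of the underlying complexes. -/
structure DGMod.IsQis {E : DGAlg.{v} k} {M N : DGMod E} (f : (modDG E).Hom M N 0) : Prop where
  closed : (modDG E).d 0 1 f = 0
  inj : ∀ (n : ℤ) (x : M.cx.X n), M.cx.d n (n + 1) x = 0 →
    (∃ y : N.cx.X (n - 1), N.cx.d (n - 1) n y = f.1.v n n (add_zero n) x) →
      ∃ z : M.cx.X (n - 1), M.cx.d (n - 1) n z = x
  surj : ∀ (n : ℤ) (y : N.cx.X n), N.cx.d n (n + 1) y = 0 →
    ∃ x : M.cx.X n, M.cx.d n (n + 1) x = 0 ∧
      ∃ z : N.cx.X (n - 1), N.cx.d (n - 1) n z = y - f.1.v n n (add_zero n) x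

/-- The DG algebra `R` over `k` is smooth: the diagonal bimodule is perfect as a right DG module
over the tensor product of the opposite algebra of `R` and of `R`, that is, there is a
quasi-isomorphism to it from a DG bimodule which is obtained from the free bimodule of rank one by
finitely many shifts, mapping cones and homotopy direct summands. -/
def DGAlg.IsSmooth (R : DGAlg.{v} k) : Prop :=
  ∃ (T : DGMod (R.op.tensor R)) (f : (modDG (R.op.tensor R)).Hom T R.diag.toMod 0),
    DGCat.Thick (A := modDG (R.op.tensor R)) (R.op.tensor R).self T ∧ DGMod.IsQis f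

end Orl
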