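import Pool.Agent.Work.MP_a6e60d_ag.DG.Good
import Mathlib.LinearAlgebra.TensorProduct.Basic
import Mathlib.LinearAlgebra.FiniteDimensional.Basic

/-!
MP_a6e60d_ag: directed blocks in a DG category, decompositions of an object into blocks, the
filtration of the morphisms to it by the index of the target.
-/

open CategoryTheory TensorProduct

namespace Orl

variable {k : Type} [CommRing k] {A : DGCat.{0, 1} k}

/-- the objects `b 0, …, b (r - 1)` have morphisms only in degree `0` and only from smaller to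
larger indices -/
structure IsBlocks {r : ℕ} (b : Fin r → A.Obj) : Prop where
  conc : ∀ (i j : Fin r) (n : ℤ) (f : A.Hom (b i) (b j) n), n ≠ 0 → f = 0
  dir : ∀ (i j : Fin r) (n : ℤ) (f : A.Hom (b i) (b j) n), j < i → f = 0
  fin : ∀ i j : Fin r, Module.Finite k (A.Hom (b i) (b j) 0)

/-- a separability element of the algebra of endomorphisms of degree `0` of `a` -/
structure SepElt (a : A.Obj) where
  /-- the index type -/
  Q : Type
  fin : Fintype Q
  /-- the first components -/
  x : Q → A.Hom a a 0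
  /-- the second components -/
  y : Q → A.Hom a a 0
  one : ∑ q, A.comp (add_zero 0) (y q) (x q) = A.id a
  bal : ∀ c : A.Hom a a 0, ∑ q, A.comp (add_zero 0) (x q) c ⊗ₜ[k] y q =
    ∑ q, x q ⊗ₜ[k] A.comp (add_zero 0) c (y q)

attribute [instance] SepElt.fin

/-- a separability element is balanced -/
lemma SepElt.sum_bal {a : A.Obj} (s : SepElt a) {Z : Type*} [AddCommGroup Z] [Module k Z]
    (f : A.Hom a a 0 →ₗ[k] A.Hom a a 0 →ₗ[k] Z) (c : A.Hom a a 0) :
    ∑ q, f (A.comp (add_zero 0) (s.x q) c) (s.y q) =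
      ∑ q, f (s.x q) (A.comp (add_zero 0) c (s.y q)) := by
  have := congrArg (TensorProduct.lift f) (s.bal c)
  simpa only [map_sum, TensorProduct.lift.tmul] using this

/-- a decomposition of the graded object underlying `P` into shifts of the objects `b j` -/
structure Decomp {r : ℕ} (b : Fin r → A.Obj) (P : A.Obj) where
  /-- the index types -/
  I : Fin r → Type
  fin : ∀ j, Fintype (I j)
  /-- the degrees -/
  deg : ∀ j, I j → ℤ
  /-- the inclusions -/
  ι : ∀ (j : Fin r) (a : I j), A.Hom (b j) P (deg j a)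
  /-- the projections -/
  π : ∀ (j : Fin r) (a : I j), A.Hom P (b j) (-deg j a)
  total : ∑ j, ∑ a, A.comp (neg_add_cancel (deg j a)) (π j a) (ι j a) = A.id P

attribute [instance] Decomp.fin

namespace Decomp

variable {r : ℕ} {b : Fin r → A.Obj} {P : A.Obj} (D : Decomp b P)

lemma expand {U : A.Obj} {n : ℤ} (x : A.Hom U P n) :
    x = ∑ j, ∑ a, A.comp (show n + -D.deg j a + D.deg j a = n by omega)
      (A.comp rfl x (D.π j a)) (D.ι j a) := by
  have h := A.comp_id x
  rw [← D.total, map_sum] at h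
  nth_rewrite 1 [← h]
  refine Finset.sum_congr rfl fun j _ => ?_
  rw [map_sum]
  refine Finset.sum_congr rfl fun a _ => ?_
  exact (A.assoc rfl (neg_add_cancel (D.deg j a)) _ (add_zero n) x (D.π j a) (D.ι j a)).symm

lemma expand_comp {U V : A.Obj} {n m p : ℤ} (h : n + m = p) (x : A.Hom U P n)
    (y : A.Hom P V m) : A.comp h x y = ∑ j, ∑ a,
      A.comp (show n + -D.deg j a + (D.deg j a + m) = p by omega)
        (A.comp rfl x (D.π j a)) (A.comp rfl (D.ι j a) y) := by
  conv_lhs => rw [D.expand x]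
  rw [map_sum, LinearMap.sum_apply]
  refine Finset.sum_congr rfl fun j _ => ?_
  rw [map_sum, LinearMap.sum_apply]
  refine Finset.sum_congr rfl fun a _ => ?_
  exact A.assoc _ rfl h _ _ _ _

/-- the morphisms to `P` whose components in the blocks of index `< l` vanish -/
def J (U : A.Obj) (l : ℕ) (n : ℤ) : Submodule k (A.Hom U P n) where
  carrier := {x | ∀ (j : Fin r) (a : D.I j), (j : ℕ) < l → A.comp rfl x (D.π j a) = 0}
  add_mem' {x y} hx hy j a hj := by
    rw [map_add, LinearMap.add_apply, hx j a hj, hy j a hj, add_zero]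
  zero_mem' j a _ := by rw [map_zero, LinearMap.zero_apply]
  smul_mem' c x hx j a hj := by rw [map_smul, LinearMap.smul_apply, hx j a hj, smul_zero]

variable {D}

lemma mem_J {U : A.Obj} {l : ℕ} {n : ℤ} {x : A.Hom U P n} :
    x ∈ D.J U l n ↔ ∀ (j : Fin r) (a : D.I j), (j : ℕ) < l → A.comp rfl x (D.π j a) = 0 := Iff.rfl

lemma comp_π_of_mem {U : A.Obj} {l : ℕ} {n m : ℤ} {x : A.Hom U P n} (hx : x ∈ D.J U l n)
    {j : Fin r} (a : D.I j) (hj : (j : ℕ) < l) (h : n + -D.deg j a = m) :
    A.comp h x (D.π j a) = 0 := by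
  subst h
  exact hx j a hj

lemma J_anti {U : A.Obj} {l l' : ℕ} (h : l ≤ l') {n : ℤ} {x : A.Hom U P n}
    (hx : x ∈ D.J U l' n) : x ∈ D.J U l n := fun j a hj => hx j a (hj.trans_le h)

lemma mem_J_zero {U : A.Obj} {n : ℤ} (x : A.Hom U P n) : x ∈ D.J U 0 n := fun j a hj => by omega

lemma eq_zero_of_mem_J {U : A.Obj} {l : ℕ} (hl : r ≤ l) {n : ℤ} {x : A.Hom U P n}
    (hx : x ∈ D.J U l n) : x = 0 := by
  rw [D.expand x]
  refine Finset.sum_eq_zero fun j _ => Finset.sum_eq_zero fun a _ => ?_
  rw [hx j a (j.2.trans_le hl), map_zero, LinearMap.zero_apply]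

lemma comp_mem_J {U V : A.Obj} {l : ℕ} {n m p : ℤ} (h : n + m = p) (s : A.Hom V U n)
    {x : A.Hom U P m} (hx : x ∈ D.J U l m) : A.comp h s x ∈ D.J V l p := fun j a hj => by
  rw [A.assoc h rfl rfl (show n + (m + -D.deg j a) = p + -D.deg j a by omega), hx j a hj, map_zero]

variable (hb : IsBlocks b)

include hb in
lemma comp_J_zero {U V : A.Obj} {l : ℕ} {n m p : ℤ} (h : n + m = p)
    {x : A.Hom U P n} (hx : x ∈ D.J U l n) {j : Fin r} (hj : (j : ℕ) < l) (hV : V = b j)
    (y : A.Hom P V m) : A.comp h x y = 0 := by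
  subst hV
  rw [D.expand_comp h x y]
  refine Finset.sum_eq_zero fun i _ => Finset.sum_eq_zero fun a _ => ?_
  by_cases hi : (i : ℕ) < l
  · rw [hx i a hi, map_zero, LinearMap.zero_apply]
  · rw [hb.dir i j _ (A.comp rfl (D.ι i a) y) (by
      rw [Fin.lt_def]
      omega), map_zero]

include hb in
lemma mem_J_comp {U : A.Obj} {l : ℕ} {n m p : ℤ} (h : n + m = p)
    {x : A.Hom U P n} (hx : x ∈ D.J U l n) (s : A.Hom P P m) : A.comp h x s ∈ D.J U l p :=
  fun j a hj => by
  rw [A.assoc h rfl rfl (show n + (m + -D.deg j a) = p + -D.deg j a by omega)]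
  exact comp_J_zero hb _ hx hj rfl _

include hb in
lemma d_mem_J {U : A.Obj} {l : ℕ} {n m : ℤ} (h : n + 1 = m) {x : A.Hom U P n}
    (hx : x ∈ D.J U l n) : A.d n m x ∈ D.J U l m := fun j a hj => by
  have e := A.d_comp (p := n + -D.deg j a) (m' := -D.deg j a + 1) (n' := m)
    (p' := m + -D.deg j a) rfl h rfl (by omega) x (D.π j a)
  rw [hx j a hj, map_zero, comp_J_zero hb _ hx hj rfl (A.d _ _ (D.π j a)), zero_add] at e
  have e' := congrArg (fun z => (-D.deg j a).negOnePow • z) e.symm
  simpa only [smul_smul, Int.units_mul_self, one_smul, smul_zero] using e'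

include hb in
/-- a morphism from a block has no components in smaller blocks -/
lemma mem_J_block (j : Fin r) {n : ℤ} (x : A.Hom (b j) P n) : x ∈ D.J (b j) j n :=
  fun i a hi => hb.dir j i _ _ (by rw [Fin.lt_def]; exact hi)

include hb in
/-- the component of index `l` -/
lemma sub_sum_mem_J {U : A.Obj} (l : Fin r) {n : ℤ} {x : A.Hom U P n} (hx : x ∈ D.J U l n) :
    x - ∑ a, A.comp (show n + -D.deg l a + D.deg l a = n by omega)
      (A.comp rfl x (D.π l a)) (D.ι l a) ∈ D.J U (l + 1) n := fun j c hj => by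
  have hx' : x - ∑ a, A.comp (show n + -D.deg l a + D.deg l a = n by omega)
      (A.comp rfl x (D.π l a)) (D.ι l a) = ∑ i ∈ Finset.univ.erase l, ∑ a,
      A.comp (show n + -D.deg i a + D.deg i a = n by omega)
      (A.comp rfl x (D.π i a)) (D.ι i a) := by
    rw [sub_eq_iff_eq_add']
    refine (D.expand x).trans ?_
    exact (Finset.add_sum_erase _ (fun i => ∑ a, A.comp (show n + -D.deg i a + D.deg i a = n by
      omega) (A.comp rfl x (D.π i a)) (D.ι i a)) (Finset.mem_univ l)).symm
  rw [hx', map_sum, LinearMap.sum_apply]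
  refine Finset.sum_eq_zero fun i hi => ?_
  rw [map_sum, LinearMap.sum_apply]
  refine Finset.sum_eq_zero fun a _ => ?_
  have hne : i ≠ l := (Finset.mem_erase.1 hi).1
  have hne' : (i : ℕ) ≠ l := fun h => hne (Fin.ext h)
  by_cases hil : (i : ℕ) < l
  · rw [hx i a hil]
    simp
  · rw [A.assoc _ rfl rfl (show n + -D.deg i a + (D.deg i a + -D.deg j c) = n + -D.deg j c by
      omega), hb.dir i j _ (A.comp rfl (D.ι i a) (D.π j c)) (by
        rw [Fin.lt_def]
        omega), map_zero]

end Decomp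

end Orl
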