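import Pool.Agent.Work.MP_a6e60d_ag.DG.Acyc
import Mathlib.Algebra.Homology.DerivedCategory.KInjective
import Mathlib.Algebra.Homology.DerivedCategory.Basic

/-!
MP_a6e60d_ag: the thick closure of a K-injective complex in the DG category of complexes and in
the derived category.
-/

open CategoryTheory CochainComplex HomComplex Limits Pretriangulated ZeroObject

namespace Orl

universe w w'

variable {k : Type w} [CommRing k] {C : Type 1} [Category.{0} C] [Abelian C] [Linear k C]
  [HasDerivedCategory.{w'} C]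

lemma Q_map_eq {K L : CochainComplex C ℤ} {φ ψ : K ⟶ L} {z : Cochain K L (-1)}
    (h : δ (-1) 0 z = Cochain.ofHom φ - Cochain.ofHom ψ) :
    DerivedCategory.Q.map φ = DerivedCategory.Q.map ψ :=
  DerivedCategory.Q_map_eq_of_homotopy _ ((Cochain.equivHomotopy φ ψ).symm ⟨z, by
    rw [h, sub_add_cancel]⟩)

omit [HasDerivedCategory.{w'} C] in
/-- a strict isomorphism in the DG category of complexes -/
lemma exists_iso {K L : CochainComplex C ℤ} (u : Cochain K L 0) (v : Cochain L K 0)
    (hu : δ 0 1 u = 0) (hv : δ 0 1 v = 0) (huv : u.comp v (add_zero 0) = Cochain.ofHom (𝟙 K))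
    (hvu : v.comp u (add_zero 0) = Cochain.ofHom (𝟙 L)) : Nonempty (K ≅ L) := by
  obtain ⟨φ, rfl⟩ := exists_ofHom u hu
  obtain ⟨ψ, rfl⟩ := exists_ofHom v hv
  rw [← Cochain.ofHom_comp] at huv hvu
  exact ⟨⟨φ, ψ, ofHom_inj huv, ofHom_inj hvu⟩⟩

variable (k) in
/-- a homotopy retract (with a shift) gives a retract in the derived category -/
theorem exists_Q_retract {a b : CochainComplex C ℤ} {t : ℤ}
    (h : DGCat.IsRetract (A := cxDG k C) t a b) :
    Nonempty (Retract (DerivedCategory.Q.obj a) (DerivedCategory.Q.obj (b⟦t⟧))) := by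
  obtain ⟨i, r, hi, hr, z, hz⟩ := exists_of_retract h (cxDGShift (k := k) t b)
  change Cochain a (b⟦t⟧) 0 at i
  change Cochain (b⟦t⟧) a 0 at r
  change Cochain a a (-1) at z
  change δ (-1) 0 z = i.comp r (add_zero 0) - Cochain.ofHom (𝟙 a) at hz
  obtain ⟨φ, rfl⟩ := exists_ofHom (K := a) (L := b⟦t⟧) i hi
  obtain ⟨ψ, rfl⟩ := exists_ofHom (K := b⟦t⟧) (L := a) r hr
  refine ⟨⟨DerivedCategory.Q.map φ, DerivedCategory.Q.map ψ, ?_⟩⟩
  rw [← CategoryTheory.Functor.map_comp, ← CategoryTheory.Functor.map_id]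
  refine Q_map_eq (z := z) ?_
  rw [Cochain.ofHom_comp, hz]

variable (k) in
theorem thick_le_aux (P : ObjectProperty (DerivedCategory C)) [P.IsTriangulated]
    [P.IsStableUnderRetracts] {I K : (cxDG k C).Obj} (h : DGCat.Thick (A := cxDG k C) I K)
    (hI : P (DerivedCategory.Q.obj (show CochainComplex C ℤ from I))) :
    P (DerivedCategory.Q.obj (show CochainComplex C ℤ from K)) := by
  induction h with
  | gen => exact hI
  | @cone a b c f hf e _ _ h1 h2 =>
    change CochainComplex C ℤ at a b c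
    obtain ⟨φ, rfl⟩ := exists_ofHom (K := a) (L := b) f hf
    obtain ⟨i⟩ := exists_iso (K := c) (L := mappingCone φ) (coneComp e (cxCone φ))
      (coneComp (cxCone φ) e) (coneComp_closed e (cxCone φ)) (coneComp_closed (cxCone φ) e)
      (coneComp_comp e (cxCone φ)) (coneComp_comp (cxCone φ) e)
    have h3 := P.ext_of_isTriangulatedClosed₃ _
      (DerivedCategory.mappingCone_triangle_distinguished φ) h1 h2
    exact P.prop_of_iso (DerivedCategory.Q.mapIso i.symm) h3
  | @retract a b t h _ h1 =>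
    change CochainComplex C ℤ at a b
    obtain ⟨r⟩ := exists_Q_retract k h
    have h2 : P ((DerivedCategory.Q.obj b)⟦t⟧) := P.le_shift t _ h1
    exact P.prop_of_retract r
      (P.prop_of_iso ((DerivedCategory.Q.commShiftIso t).symm.app b) h2)

variable (k) in
theorem thick_le (P : ObjectProperty (DerivedCategory C)) [P.IsTriangulated]
    [P.IsStableUnderRetracts] {I K : CochainComplex C ℤ} (h : DGCat.Thick (A := cxDG k C) I K)
    (hI : P (DerivedCategory.Q.obj I)) : P (DerivedCategory.Q.obj K) :=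
  thick_le_aux k P h hI

/-- the objects of the derived category represented by the members of the thick closure of `I` -/
def thickProp (k : Type w) [CommRing k] [Linear k C] (I : CochainComplex C ℤ) :
    ObjectProperty (DerivedCategory C) := fun X =>
  ∃ J : CochainComplex C ℤ, DGCat.Thick (A := cxDG k C) I J ∧
    Nonempty (DerivedCategory.Q.obj J ≅ X)

instance (I : CochainComplex C ℤ) : (thickProp k I).IsClosedUnderIsomorphisms where
  of_iso e := by
    rintro ⟨J, hJ, ⟨i⟩⟩
    exact ⟨J, hJ, ⟨i ≪≫ e⟩⟩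

omit [Linear k C] in
/-- morphisms to K-injective complexes in the derived category -/
lemma exists_hom {K J : CochainComplex C ℤ} [J.IsKInjective]
    (f : DerivedCategory.Q.obj K ⟶ DerivedCategory.Q.obj J) :
    ∃ φ : K ⟶ J, DerivedCategory.Q.map φ = f := by
  obtain ⟨g, hg⟩ := (IsKInjective.Qh_map_bijective
    ((HomotopyCategory.quotient C (ComplexShape.up ℤ)).obj K) J).2
    ((DerivedCategory.quotientCompQhIso C).hom.app K ≫ f ≫
      (DerivedCategory.quotientCompQhIso C).inv.app J)
  obtain ⟨φ, rfl⟩ := (HomotopyCategory.quotient C (ComplexShape.up ℤ)).map_surjective g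
  refine ⟨φ, ?_⟩
  have h := DerivedCategory.quotientCompQhIso_hom_naturality φ
  rw [hg] at h
  simp only [Category.assoc, Iso.inv_hom_id_app, Category.comp_id] at h
  exact ((cancel_epi _).1 h).symm

omit [Linear k C] in
lemma homotopy_of_eq {K J : CochainComplex C ℤ} [J.IsKInjective] {φ ψ : K ⟶ J}
    (h : DerivedCategory.Q.map φ = DerivedCategory.Q.map ψ) : Nonempty (Homotopy φ ψ) := by
  have h1 := DerivedCategory.quotientCompQhIso_hom_naturality φ
  have h2 := DerivedCategory.quotientCompQhIso_hom_naturality ψ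
  rw [h, ← h2] at h1
  have h3 := (IsKInjective.Qh_map_bijective
    ((HomotopyCategory.quotient C (ComplexShape.up ℤ)).obj K) J).1 ((cancel_mono _).1 h1)
  exact ⟨HomotopyCategory.homotopyOfEq _ _ h3⟩

omit [Linear k C] in
lemma exists_z_of_eq {K J : CochainComplex C ℤ} [J.IsKInjective] {φ ψ : K ⟶ J}
    (h : DerivedCategory.Q.map φ = DerivedCategory.Q.map ψ) :
    ∃ z : Cochain K J (-1), δ (-1) 0 z = Cochain.ofHom φ - Cochain.ofHom ψ := by
  obtain ⟨H⟩ := homotopy_of_eq h
  obtain ⟨z, hz⟩ := Cochain.equivHomotopy φ ψ H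
  exact ⟨z, by rw [hz, add_sub_cancel_right]⟩

variable [HasColimitsOfShape (Discrete ℕ) C]

theorem thickProp_retract {I : CochainComplex C ℤ} (hI : I.IsKInjective) {X Y : DerivedCategory C}
    (r : Retract X Y) (hY : thickProp k I Y) : thickProp k I X := by
  obtain ⟨J, hJ, ⟨e⟩⟩ := hY
  have := isKInjective_of_thick hI hJ
  obtain ⟨ε, hε⟩ := exists_hom (e.hom ≫ r.r ≫ r.i ≫ e.inv)
  obtain ⟨z, hz⟩ := exists_z_of_eq (φ := ε ≫ ε) (ψ := ε) (by
    rw [Functor.map_comp, hε]
    simp)
  obtain ⟨b, p, q, hp, hq, h1, h2⟩ := (isPerfectLike_cxDG (k := k) (C := C)).split (a := J)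
    (Cochain.ofHom ε) 0 (δ_ofHom ε) ⟨z, by
      rw [Cochain.ofHom_comp] at hz
      exact hz⟩
  have hb : DGCat.Thick (A := cxDG k C) I b :=
    .retract 0 ⟨p, q, hp.d _, hq.d _, h1⟩ hJ
  change CochainComplex C ℤ at b
  change Cochain b J 0 at p
  change Cochain J b 0 at q
  obtain ⟨y, hy⟩ := h1
  obtain ⟨w, hw⟩ := h2
  change Cochain b b (-1) at y
  change Cochain J J (-1) at w
  change δ (-1) 0 y = p.comp q (add_zero 0) - Cochain.ofHom (𝟙 b) at hy
  change δ (-1) 0 w = q.comp p (add_zero 0) - Cochain.ofHom ε at hw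
  obtain ⟨π, rfl⟩ := exists_ofHom (K := b) (L := J) p hp
  obtain ⟨ρ, rfl⟩ := exists_ofHom (K := J) (L := b) q hq
  rw [← Cochain.ofHom_comp] at hy hw
  have e1 := Q_map_eq hy
  have e2 := Q_map_eq hw
  rw [Functor.map_comp, CategoryTheory.Functor.map_id] at e1
  rw [Functor.map_comp, hε] at e2
  refine ⟨b, hb, ⟨⟨DerivedCategory.Q.map π ≫ e.hom ≫ r.r,
    r.i ≫ e.inv ≫ DerivedCategory.Q.map ρ, ?_, ?_⟩⟩⟩
  · calc (DerivedCategory.Q.map π ≫ e.hom ≫ r.r) ≫ r.i ≫ e.inv ≫ DerivedCategory.Q.map ρ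
        = DerivedCategory.Q.map π ≫ (e.hom ≫ r.r ≫ r.i ≫ e.inv) ≫ DerivedCategory.Q.map ρ := by
          simp only [Category.assoc]
      _ = (DerivedCategory.Q.map π ≫ DerivedCategory.Q.map ρ) ≫
          (DerivedCategory.Q.map π ≫ DerivedCategory.Q.map ρ) := by
          rw [← e2]
          simp only [Category.assoc]
      _ = 𝟙 _ := by rw [e1, Category.id_comp]
  · calc (r.i ≫ e.inv ≫ DerivedCategory.Q.map ρ) ≫ DerivedCategory.Q.map π ≫ e.hom ≫ r.r
        = r.i ≫ e.inv ≫ (DerivedCategory.Q.map ρ ≫ DerivedCategory.Q.map π) ≫ e.hom ≫ r.r := by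
          simp only [Category.assoc]
      _ = (r.i ≫ r.r) ≫ (r.i ≫ r.r) := by
          rw [e2]
          simp only [Category.assoc, Iso.inv_hom_id_assoc]
      _ = 𝟙 _ := by rw [r.retract, Category.id_comp]

theorem thickProp_shift {I : CochainComplex C ℤ} (n : ℤ) {X : DerivedCategory C}
    (hX : thickProp k I X) : thickProp k I (X⟦n⟧) := by
  obtain ⟨J, hJ, ⟨e⟩⟩ := hX
  exact ⟨J⟦n⟧, .retract n (cxDGShift (k := k) n J).isRetract hJ,
    ⟨(DerivedCategory.Q.commShiftIso n).app J ≪≫ (CategoryTheory.shiftFunctor _ n).mapIso e⟩⟩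

theorem thickProp_cone {I : CochainComplex C ℤ} (hI : I.IsKInjective)
    (T : Triangle (DerivedCategory C)) (hT : T ∈ distTriang (DerivedCategory C))
    (h1 : thickProp k I T.obj₁) (h2 : thickProp k I T.obj₂) : thickProp k I T.obj₃ := by
  obtain ⟨J₁, hJ₁, ⟨e₁⟩⟩ := h1
  obtain ⟨J₂, hJ₂, ⟨e₂⟩⟩ := h2
  have := isKInjective_of_thick hI hJ₂
  obtain ⟨φ, hφ⟩ := exists_hom (e₁.hom ≫ T.mor₁ ≫ e₂.inv)
  have hT' := DerivedCategory.mappingCone_triangle_distinguished φ
  refine ⟨mappingCone φ, .cone (A := cxDG k C) (a := J₁) (b := J₂) (Cochain.ofHom φ)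
    (δ_ofHom φ) (cxCone φ) hJ₁ hJ₂, ⟨?_⟩⟩
  exact Triangle.π₃.mapIso (isoTriangleOfIso₁₂ _ _ hT' hT e₁ e₂ (by
    change DerivedCategory.Q.map φ ≫ e₂.hom = e₁.hom ≫ T.mor₁
    rw [hφ]
    simp))

theorem thickProp_self (I : CochainComplex C ℤ) : thickProp k I (DerivedCategory.Q.obj I) :=
  ⟨I, .gen, ⟨Iso.refl _⟩⟩

variable (k) in
theorem thickProp_isTriangulated {I : CochainComplex C ℤ} (hI : I.IsKInjective) :
    (thickProp k I).IsTriangulated := by
  have h3 : (thickProp k I).IsTriangulatedClosed₃ :=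
    .mk' fun T hT h1 h2 => thickProp_cone hI T hT h1 h2
  have hs : (thickProp k I).IsStableUnderShift ℤ :=
    ⟨fun n => ⟨fun X hX => thickProp_shift n hX⟩⟩
  have h2 : (thickProp k I).IsTriangulatedClosed₂ := .of_isTriangulatedClosed₃
  have hz : (thickProp k I).ContainsZero :=
    ⟨0, isZero_zero _, thickProp_cone hI _
      (contractible_distinguished (DerivedCategory.Q.obj I)) (thickProp_self I)
      (thickProp_self I)⟩
  exact {}

variable (k) in
theorem thickProp_isStableUnderRetracts {I : CochainComplex C ℤ} (hI : I.IsKInjective) :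
    (thickProp k I).IsStableUnderRetracts :=
  ⟨fun r h => thickProp_retract hI r h⟩

variable (k) in
/-- Every object of the thick closure of `I` in the derived category is represented by an object
of the thick closure of `I` in the DG category of complexes, for `I` K-injective. -/
theorem exists_thick {I : CochainComplex C ℤ} (hI : I.IsKInjective) {X : DerivedCategory C}
    (h : ∀ P : ObjectProperty (DerivedCategory C), P.IsTriangulated → P.IsStableUnderRetracts →
      P (DerivedCategory.Q.obj I) → P X) :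
    ∃ J : CochainComplex C ℤ, DGCat.Thick (A := cxDG k C) I J ∧
      Nonempty (DerivedCategory.Q.obj J ≅ X) :=
  h (thickProp k I) (thickProp_isTriangulated k hI) (thickProp_isStableUnderRetracts k hI)
    (thickProp_self I)

variable (k) in
/-- The bridge: for K-injective complexes the thick closure can be computed in the DG category of
complexes or in the derived category. -/
theorem thick_iff {I K : CochainComplex C ℤ} (hI : I.IsKInjective) (hK : K.IsKInjective) :
    DGCat.Thick (A := cxDG k C) I K ↔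
      ∀ P : ObjectProperty (DerivedCategory C), P.IsTriangulated → P.IsStableUnderRetracts →
        P (DerivedCategory.Q.obj I) → P (DerivedCategory.Q.obj K) := by
  constructor
  · intro h P hP hP' hI'
    exact thick_le k P h hI'
  · intro h
    obtain ⟨J, hJ, ⟨e⟩⟩ := exists_thick k hI h
    have hJ' := isKInjective_of_thick hI hJ
    obtain ⟨φ, hφ⟩ := exists_hom e.hom
    obtain ⟨ψ, hψ⟩ := exists_hom e.inv
    obtain ⟨z, hz⟩ := exists_z_of_eq (φ := ψ ≫ φ) (ψ := 𝟙 K) (by
      rw [Functor.map_comp, hφ, hψ, e.inv_hom_id, CategoryTheory.Functor.map_id])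
    rw [Cochain.ofHom_comp] at hz
    exact .retract 0 ⟨Cochain.ofHom ψ, Cochain.ofHom φ, δ_ofHom ψ, δ_ofHom φ, z, hz⟩ hJ

end Orl
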