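import Mathlib.Algebra.Homology.HomotopyCategory.MappingCone
import Mathlib.Algebra.Homology.HomotopyCategory.KInjective
import Mathlib.Algebra.Category.ModuleCat.Basic
import Mathlib.LinearAlgebra.BilinearMap

/-!
MP_a6e60d_ag: DG categories over a field, DG functors, quasi-equivalences.
-/

open CategoryTheory

namespace Orl

universe v u w

/-- A DG category over `k`: complexes of `k`-modules `Hom a b` (`Hom a b n` is the part of degree
`n`, `d` the differential), identities and compositions.  The composition is written in the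
order of the arrows: `comp f g` is `f` followed by `g`, that is `g ∘ f`; in this order the Leibniz
rule `d (g ∘ f) = (d g) ∘ f + (-1) ^ |g| g ∘ (d f)` is the axiom `d_comp`. -/
structure DGCat (k : Type w) [CommRing k] where
  /-- the objects -/
  Obj : Type u
  /-- the morphisms of degree `n` -/
  Hom : Obj → Obj → ℤ → Type v
  [grp : ∀ a b n, AddCommGroup (Hom a b n)]
  [mod : ∀ a b n, Module k (Hom a b n)]
  /-- the differential `Hom a b n → Hom a b m` for `n + 1 = m` (zero for other `n`, `m`) -/
  d : ∀ {a b : Obj} (n m : ℤ), Hom a b n →ₗ[k] Hom a b m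
  d_shape : ∀ {a b : Obj} (n m : ℤ) (f : Hom a b n), n + 1 ≠ m → d n m f = 0
  d_d : ∀ {a b : Obj} (n m p : ℤ) (f : Hom a b n), d m p (d n m f) = 0
  /-- the identity -/
  id : ∀ a : Obj, Hom a a 0
  /-- the composition -/
  comp : ∀ {a b c : Obj} {n m p : ℤ} (_ : n + m = p), Hom a b n →ₗ[k] Hom b c m →ₗ[k] Hom a c p
  id_comp : ∀ {a b : Obj} {n : ℤ} (f : Hom a b n), comp (zero_add n) (id a) f = f
  comp_id : ∀ {a b : Obj} {n : ℤ} (f : Hom a b n), comp (add_zero n) f (id b) = f
  assoc : ∀ {a b c e : Obj} {n m l nm ml p : ℤ} (h₁ : n + m = nm) (h₂ : m + l = ml)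
    (h₃ : nm + l = p) (h₄ : n + ml = p) (f : Hom a b n) (g : Hom b c m) (h : Hom c e l),
    comp h₃ (comp h₁ f g) h = comp h₄ f (comp h₂ g h)
  d_comp : ∀ {a b c : Obj} {n m p n' m' p' : ℤ} (h : n + m = p) (hn : n + 1 = n')
    (hm : m + 1 = m') (hp : p + 1 = p') (f : Hom a b n) (g : Hom b c m),
    d p p' (comp h f g) = comp (by lia) f (d m m' g) +
      m.negOnePow • comp (by lia) (d n n' f) g

attribute [instance] DGCat.grp DGCat.mod
attribute [simp] DGCat.d_d DGCat.id_comp DGCat.comp_id

namespace DGCat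

variable {k : Type w} [CommRing k] (A : DGCat.{v, u} k)

/-- The closed morphisms `f`, `g` of degree `n` are homotopic: `f - g` is a boundary. -/
def Homot {A : DGCat.{v, u} k} {a b : A.Obj} {n : ℤ} (f g : A.Hom a b n) : Prop :=
  ∃ h : A.Hom a b (n - 1), A.d (n - 1) n h = f - g

/-- `a` is a homotopy direct summand of the shift of `b` by `t`: there are closed morphisms
`u : a → b` and `v : b → a` of degrees `t` and `- t` with `v ∘ u` homotopic to the identity. -/
def IsRetract {A : DGCat.{v, u} k} (t : ℤ) (a b : A.Obj) : Prop :=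
  ∃ (p : A.Hom a b t) (r : A.Hom b a (-t)), A.d t (t + 1) p = 0 ∧ A.d (-t) (-t + 1) r = 0 ∧
    Homot (A.comp (add_neg_cancel t) p r) (A.id a)

/-- `a` and `b` are homotopy equivalent. -/
def HEquiv {A : DGCat.{v, u} k} (a b : A.Obj) : Prop :=
  ∃ (f : A.Hom a b 0) (g : A.Hom b a 0), A.d 0 1 f = 0 ∧ A.d 0 1 g = 0 ∧
    Homot (A.comp (add_zero 0) f g) (A.id a) ∧ Homot (A.comp (add_zero 0) g f) (A.id b)

/-- The data of a mapping cone `c` of the closed morphism `f : a → b` of degree `0`: as a graded
object `c` is the direct sum of `a[1]` and `b`, the differential is given by `f`. -/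
structure Cone {A : DGCat.{v, u} k} {a b : A.Obj} (f : A.Hom a b 0) (c : A.Obj) where
  /-- the inclusion of `a[1]` -/
  inl : A.Hom a c (-1)
  /-- the inclusion of `b` -/
  inr : A.Hom b c 0
  /-- the projection to `a[1]` -/
  fst : A.Hom c a 1
  /-- the projection to `b` -/
  snd : A.Hom c b 0
  inl_fst : A.comp (neg_add_cancel 1) inl fst = A.id a
  inl_snd : A.comp (add_zero (-1)) inl snd = 0
  inr_fst : A.comp (zero_add 1) inr fst = 0
  inr_snd : A.comp (add_zero 0) inr snd = A.id b
  total : A.comp (add_neg_cancel 1) fst inl + A.comp (add_zero 0) snd inr = A.id c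
  d_inl : A.d (-1) 0 inl = A.comp (add_zero 0) f inr
  d_inr : A.d 0 1 inr = 0
  d_fst : A.d 1 2 fst = 0
  d_snd : A.d 0 1 snd = - A.comp (add_zero 1) fst f

/-- The thick closure of the object `g`: the smallest class of objects which contains `g`, the
mapping cones of its closed morphisms of degree `0`, and the homotopy direct summands of the
shifts of its members. -/
inductive Thick {A : DGCat.{v, u} k} (g : A.Obj) : A.Obj → Prop
  | gen : Thick g g
  | cone {a b c : A.Obj} (f : A.Hom a b 0) (hf : A.d 0 1 f = 0) (e : Cone f c) :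
      Thick g a → Thick g b → Thick g c
  | retract {a b : A.Obj} (t : ℤ) (h : IsRetract t a b) : Thick g b → Thick g a

/-- the full DG subcategory of the objects with property `P` -/
@[simps Obj Hom d id comp]
def full (P : A.Obj → Prop) : DGCat.{v, u} k where
  Obj := {a : A.Obj // P a}
  Hom a b n := A.Hom a.1 b.1 n
  d n m := A.d n m
  d_shape n m f h := A.d_shape n m f h
  d_d n m p f := A.d_d n m p f
  id a := A.id a.1
  comp h := A.comp h
  id_comp f := A.id_comp f
  comp_id f := A.comp_id f
  assoc h₁ h₂ h₃ h₄ f g h := A.assoc h₁ h₂ h₃ h₄ f g h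
  d_comp h hn hm hp f g := A.d_comp h hn hm hp f g

end DGCat

variable {k : Type w} [CommRing k]

/-- DG functors -/
structure DGFun (A B : DGCat.{v, u} k) where
  /-- the action on objects -/
  obj : A.Obj → B.Obj
  /-- the action on morphisms -/
  map : ∀ {a b : A.Obj} {n : ℤ}, A.Hom a b n →ₗ[k] B.Hom (obj a) (obj b) n
  map_d : ∀ {a b : A.Obj} (n m : ℤ) (f : A.Hom a b n), map (A.d n m f) = B.d n m (map f)
  map_id : ∀ a : A.Obj, map (A.id a) = B.id (obj a)
  map_comp : ∀ {a b c : A.Obj} {n m p : ℤ} (h : n + m = p) (f : A.Hom a b n) (g : A.Hom b c m),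
    map (A.comp h f g) = B.comp h (map f) (map g)

/-- A DG functor is a quasi-equivalence if it induces isomorphisms on the cohomology of the
complexes of morphisms and if every object is homotopy equivalent to an object of the image. -/
structure DGFun.IsQuasiEquiv {A B : DGCat.{v, u} k} (F : DGFun A B) : Prop where
  inj : ∀ {a b : A.Obj} (n : ℤ) (f : A.Hom a b n), A.d n (n + 1) f = 0 →
    (∃ g : B.Hom (F.obj a) (F.obj b) (n - 1), B.d (n - 1) n g = F.map f) →
      ∃ g : A.Hom a b (n - 1), A.d (n - 1) n g = f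
  surj : ∀ {a b : A.Obj} (n : ℤ) (g : B.Hom (F.obj a) (F.obj b) n), B.d n (n + 1) g = 0 →
    ∃ f : A.Hom a b n, A.d n (n + 1) f = 0 ∧
      ∃ h : B.Hom (F.obj a) (F.obj b) (n - 1), B.d (n - 1) n h = g - F.map f
  ess : ∀ b : B.Obj, ∃ a : A.Obj, DGCat.HEquiv (F.obj a) b

/-- Two DG categories are quasi-equivalent if they are connected by a chain of quasi-equivalences
(in both directions). -/
def QuasiEquivalent (A B : DGCat.{v, u} k) : Prop :=
  Relation.EqvGen (fun A B : DGCat.{v, u} k => ∃ F : DGFun A B, F.IsQuasiEquiv) A B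

end Orl
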