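import Pool.Agent.Work.MP_a6e60d_ag.DG.Morita
import Pool.Agent.Work.MP_a6e60d_ag.DG.MapCx

/-!
MP_a6e60d_ag: chains of quasi-equivalences.
-/

open CategoryTheory CochainComplex HomComplex Limits

namespace Orl

section

universe v u w

variable {k : Type w} [CommRing k] {A B C : DGCat.{v, u} k}

lemma QuasiEquivalent.symm (h : QuasiEquivalent A B) : QuasiEquivalent B A :=
  Relation.EqvGen.symm _ _ h

lemma QuasiEquivalent.trans (h : QuasiEquivalent A B) (h' : QuasiEquivalent B C) :
    QuasiEquivalent A C := Relation.EqvGen.trans _ _ _ h h'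

lemma QuasiEquivalent.refl (A : DGCat.{v, u} k) : QuasiEquivalent A A := Relation.EqvGen.refl A

end

variable {k : Type} [CommRing k] {R : DGAlg.{0} k}

/-- the identity functor -/
@[simps obj]
def DGFun.id (A : DGCat.{0, 1} k) : DGFun A A where
  obj a := a
  map := LinearMap.id
  map_d _ _ _ := rfl
  map_id _ := rfl
  map_comp _ _ _ := rfl

/-- A DG functor `F : A → E`, a closed morphism `q : F g → J` such that `Hom (J, J) → Hom (F g, J)`
and `Hom (g, g) → Hom (F g, J)` are quasi-isomorphisms: the thick closures of `g` and `J` are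
quasi-equivalent. -/
theorem quasiEquivalent_thick_of_fun {A E : DGCat.{0, 1} k} (hA : IsPerfectLike A)
    (hE : IsPerfectLike E) (F : DGFun A E) {g : A.Obj} {J : E.Obj} (q : E.Hom (F.obj g) J 0)
    (hq : IsClosed q) (h₁ : QIso (mixl F q g)) (h₂ : QIso (prec q J)) :
    QuasiEquivalent (A.full (DGCat.Thick g)) (E.full (DGCat.Thick J)) :=
  quasiEquivalent_thick₂ F (DGFun.id E) hA hE q hq h₁ ⟨h₂.inj, h₂.surj⟩

section

variable {C D : Type 1} [Category.{0} C] [Abelian C] [Linear k C]
    [HasColimitsOfShape (Discrete ℕ) C] [Category.{0} D] [Abelian D] [Linear k D]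
    [HasColimitsOfShape (Discrete ℕ) D]

/-- The comparison of thick closures of complexes along a linear functor. -/
theorem quasiEquivalent_cx (Φ : D ⥤ C) [Φ.Additive] [Φ.Linear k] {I : CochainComplex D ℤ}
    {J : CochainComplex C ℤ} [J.IsKInjective] (q : (Φ.mapHomologicalComplex _).obj I ⟶ J)
    [QuasiIso q] (h : QIso (mixl (mapDG (k := k) Φ) (b := J) (Cochain.ofHom q) I)) :
    QuasiEquivalent ((cxDG k D).full (DGCat.Thick (A := cxDG k D) I))
      ((cxDG k C).full (DGCat.Thick (A := cxDG k C) J)) :=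
  quasiEquivalent_thick_of_fun isPerfectLike_cxDG isPerfectLike_cxDG (mapDG Φ)
    (Cochain.ofHom q) (δ_ofHom _) h (prec_qIso_of_quasiIso q)

/-- The DG algebra `R` acts strictly on the complex `Q`, `q : Q → J` and `p : Φ I → J` are
quasi-isomorphisms, `J` is K-injective, `R → Hom (Q, J)` and `Hom (I, I) → Hom (Φ I, J)` are
quasi-isomorphisms.  Then the thick closure of `I` is quasi-equivalent to the category of perfect
DG modules over `R`. -/
theorem quasiEquivalent_perfDG_of_fun (Φ : D ⥤ C) [Φ.Additive] [Φ.Linear k]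
    {I : CochainComplex D ℤ} {Q J : CochainComplex C ℤ} [J.IsKInjective]
    (p : (Φ.mapHomologicalComplex _).obj I ⟶ J) [QuasiIso p]
    (hp : QIso (mixl (mapDG (k := k) Φ) (b := J) (Cochain.ofHom p) I))
    (ρ : StrictAct R (cxDG k C) Q) (q : Q ⟶ J) [QuasiIso q] (hq : ActQIso ρ (Cochain.ofHom q)) :
    QuasiEquivalent ((cxDG k D).full (DGCat.Thick (A := cxDG k D) I)) (perfDG R) :=
  (quasiEquivalent_cx Φ p hp).trans (quasiEquivalent_perfDG_cx ρ q hq).symm

end

end Orl
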