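import Pool.Agent.Work.MP_a6e60d_ag.DG.Five

/-!
MP_a6e60d_ag: boundaries, retracts, induction over thick closures.
-/

open CategoryTheory

namespace Orl

universe w

variable {k : Type w} [CommRing k] {A E : DGCat.{0, 1} k}

/-- `f` is a boundary -/
def IsBdry {a b : A.Obj} {n : ℤ} (f : A.Hom a b n) : Prop :=
  ∃ h : A.Hom a b (n - 1), A.d (n - 1) n h = f

/-- `f` is closed -/
def IsClosed {a b : A.Obj} {n : ℤ} (f : A.Hom a b n) : Prop := A.d n (n + 1) f = 0

section

variable {a b c : A.Obj} {n m p : ℤ}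

lemma homot_iff (f g : A.Hom a b n) : DGCat.Homot f g ↔ IsBdry (f - g) := Iff.rfl

lemma IsClosed.d {f : A.Hom a b n} (hf : IsClosed f) (m : ℤ) : A.d n m f = 0 := by
  by_cases h : n + 1 = m
  · subst h; exact hf
  · exact A.d_shape n m f h

lemma isClosed_of {f : A.Hom a b n} (h : n + 1 = m) (hf : A.d n m f = 0) : IsClosed f := by
  subst h; exact hf

lemma IsBdry.of {f : A.Hom a b n} {m : ℤ} (g : A.Hom a b m) (hg : A.d m n g = f) : IsBdry f := by
  by_cases h : m + 1 = n
  · obtain rfl : m = n - 1 := by omega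
    exact ⟨g, hg⟩
  · rw [A.d_shape m n g h] at hg
    exact ⟨0, by rw [map_zero, hg]⟩

lemma IsBdry.exists {f : A.Hom a b n} (hf : IsBdry f) (m : ℤ) (h : m + 1 = n) :
    ∃ g : A.Hom a b m, A.d m n g = f := by
  obtain rfl : m = n - 1 := by omega
  exact hf

lemma IsBdry.isClosed {f : A.Hom a b n} (hf : IsBdry f) : IsClosed f := by
  obtain ⟨g, rfl⟩ := hf
  exact A.d_d _ _ _ _

lemma isBdry_zero : IsBdry (0 : A.Hom a b n) := ⟨0, map_zero _⟩

lemma IsBdry.add {f g : A.Hom a b n} (hf : IsBdry f) (hg : IsBdry g) : IsBdry (f + g) := by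
  obtain ⟨x, hx⟩ := hf
  obtain ⟨y, hy⟩ := hg
  exact ⟨x + y, by rw [map_add, hx, hy]⟩

lemma IsBdry.neg {f : A.Hom a b n} (hf : IsBdry f) : IsBdry (-f) := by
  obtain ⟨x, hx⟩ := hf
  exact ⟨-x, by rw [map_neg, hx]⟩

lemma IsBdry.sub {f g : A.Hom a b n} (hf : IsBdry f) (hg : IsBdry g) : IsBdry (f - g) := by
  rw [sub_eq_add_neg]
  exact hf.add hg.neg

lemma IsBdry.of_sub {f g : A.Hom a b n} (h : IsBdry (f - g)) (hg : IsBdry g) : IsBdry f := by
  have := h.add hg
  rwa [sub_add_cancel] at this

lemma IsBdry.symm {f g : A.Hom a b n} (h : IsBdry (f - g)) : IsBdry (g - f) := by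
  have := h.neg
  rwa [neg_sub] at this

lemma IsBdry.trans {f g h : A.Hom a b n} (h₁ : IsBdry (f - g)) (h₂ : IsBdry (g - h)) :
    IsBdry (f - h) := by
  have := h₁.add h₂
  rwa [sub_add_sub_cancel] at this

lemma IsClosed.add {f g : A.Hom a b n} (hf : IsClosed f) (hg : IsClosed g) :
    IsClosed (f + g) := by
  unfold IsClosed at *
  rw [map_add, hf, hg, add_zero]

lemma IsClosed.sub {f g : A.Hom a b n} (hf : IsClosed f) (hg : IsClosed g) :
    IsClosed (f - g) := by
  unfold IsClosed at *
  rw [map_sub, hf, hg, sub_zero]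

lemma IsClosed.comp {f : A.Hom a b n} {g : A.Hom b c m} (hf : IsClosed f) (hg : IsClosed g)
    (h : n + m = p) : IsClosed (A.comp h f g) := by
  unfold IsClosed
  rw [A.d_comp h rfl rfl rfl, hf, hg]
  simp

lemma IsBdry.comp_left {f : A.Hom a b n} {g : A.Hom b c m} (hf : IsClosed f) (hg : IsBdry g)
    (h : n + m = p) : IsBdry (A.comp h f g) := by
  obtain ⟨x, rfl⟩ := hg
  refine IsBdry.of (A.comp (show n + (m - 1) = p - 1 by omega) f x) ?_
  rw [A.d_comp (n' := n + 1) (m' := m) _ rfl (by omega) (by omega), hf]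
  simp

lemma IsBdry.comp_right {f : A.Hom a b n} {g : A.Hom b c m} (hf : IsBdry f) (hg : IsClosed g)
    (h : n + m = p) : IsBdry (A.comp h f g) := by
  obtain ⟨x, rfl⟩ := hf
  have hg' := hg.d (m + 1)
  refine IsBdry.of (m.negOnePow • A.comp (show n - 1 + m = p - 1 by omega) x g) ?_
  rw [Units.smul_def, map_zsmul, A.d_comp (n' := n) (m' := m + 1) _ (by omega) rfl (by omega), hg',
    map_zero, zero_add, Units.smul_def, smul_smul, ← Units.val_mul, Int.units_mul_self,
    Units.val_one, one_smul]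

lemma IsClosed.id (a : A.Obj) : IsClosed (A.id a) := by
  have := A.d_comp (add_zero 0) (zero_add 1) (zero_add 1) (zero_add 1) (A.id a) (A.id a)
  simp only [DGCat.comp_id, Int.negOnePow_zero, one_smul] at this
  have h := A.id_comp (A.d 0 1 (A.id a))
  rw [h] at this
  exact isClosed_of (zero_add 1) (by simpa using this)

end

section

variable {a b : A.Obj} {c e : E.Obj} {φ : ∀ n : ℤ, A.Hom a b n →ₗ[k] E.Hom c e n}

lemma QIso.isBdry (hφ : QIso φ) {n : ℤ} {x : A.Hom a b n} (hx : IsClosed x)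
    (h : IsBdry (φ n x)) : IsBdry x := hφ.inj n x hx h

lemma QIso.exists_closed (hφ : QIso φ) {n : ℤ} {y : E.Hom c e n} (hy : IsClosed y) :
    ∃ x : A.Hom a b n, IsClosed x ∧ IsBdry (y - φ n x) := hφ.surj n y hy

/-- A retract (up to homotopy, with a shift) of a quasi-isomorphism is a quasi-isomorphism. -/
theorem QIso.retract {a' b' : A.Obj} {c' e' : E.Obj}
    {φ' : ∀ n : ℤ, A.Hom a' b' n →ₗ[k] E.Hom c' e' n} (hφ' : QIso φ') (s : ℤ)
    (i : ∀ n : ℤ, A.Hom a b n →+ A.Hom a' b' (n + s))
    (r : ∀ n : ℤ, A.Hom a' b' (n + s) →+ A.Hom a b n)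
    (j : ∀ n : ℤ, E.Hom c e n →+ E.Hom c' e' (n + s))
    (ρ : ∀ n : ℤ, E.Hom c' e' (n + s) →+ E.Hom c e n)
    (ic : ∀ (n : ℤ) (x : A.Hom a b n), IsClosed x → IsClosed (i n x))
    (rc : ∀ (n : ℤ) (x : A.Hom a' b' (n + s)), IsClosed x → IsClosed (r n x))
    (rb : ∀ (n : ℤ) (x : A.Hom a' b' (n + s)), IsBdry x → IsBdry (r n x))
    (jc : ∀ (n : ℤ) (x : E.Hom c e n), IsClosed x → IsClosed (j n x))
    (jb : ∀ (n : ℤ) (x : E.Hom c e n), IsBdry x → IsBdry (j n x))
    (ρb : ∀ (n : ℤ) (x : E.Hom c' e' (n + s)), IsBdry x → IsBdry (ρ n x))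
    (ri : ∀ (n : ℤ) (x : A.Hom a b n), IsClosed x → IsBdry (r n (i n x) - x))
    (ρj : ∀ (n : ℤ) (y : E.Hom c e n), IsClosed y → IsBdry (ρ n (j n y) - y))
    (hi : ∀ (n : ℤ) (x : A.Hom a b n), IsClosed x → IsBdry (φ' _ (i n x) - j n (φ n x)))
    (hr : ∀ (n : ℤ) (x : A.Hom a' b' (n + s)), IsClosed x →
      IsBdry (φ n (r n x) - ρ n (φ' _ x))) : QIso φ where
  inj n x hx h := by
    have h₁ : IsBdry (j n (φ n x)) := jb _ _ h
    have h₂ : IsBdry (φ' _ (i n x)) := (hi n x hx).of_sub h₁
    have h₃ : IsBdry (i n x) := hφ'.isBdry (ic _ _ hx) h₂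
    exact (ri n x hx).symm.of_sub (rb _ _ h₃)
  surj n y hy := by
    obtain ⟨x, hx, h⟩ := hφ'.exists_closed (jc n y hy)
    refine ⟨r n x, rc _ _ hx, ?_⟩
    have h₁ : IsBdry (ρ n (j n y) - ρ n (φ' _ x)) := by
      rw [← map_sub]
      exact ρb _ _ h
    exact ((ρj n y hy).symm.trans h₁).trans (hr n x hx).symm

end

/-- postcomposition with a morphism of degree `0` -/
def postc {a b : A.Obj} (q : A.Hom a b 0) (c : A.Obj) (n : ℤ) : A.Hom c a n →ₗ[k] A.Hom c b n :=
  (A.comp (add_zero n)).flip q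

/-- precomposition with a morphism of degree `0` -/
def prec {a b : A.Obj} (q : A.Hom a b 0) (c : A.Obj) (n : ℤ) : A.Hom b c n →ₗ[k] A.Hom a c n :=
  A.comp (zero_add n) q

@[simp] lemma postc_apply {a b : A.Obj} (q : A.Hom a b 0) (c : A.Obj) (n : ℤ)
    (x : A.Hom c a n) : postc q c n x = A.comp (add_zero n) x q := rfl

@[simp] lemma prec_apply {a b : A.Obj} (q : A.Hom a b 0) (c : A.Obj) (n : ℤ)
    (x : A.Hom b c n) : prec q c n x = A.comp (zero_add n) q x := rfl

lemma d_postc {a b : A.Obj} {q : A.Hom a b 0} (hq : IsClosed q) (c : A.Obj) (n m : ℤ)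
    (x : A.Hom c a n) : A.d n m (postc q c n x) = postc q c m (A.d n m x) := by
  by_cases h : n + 1 = m
  · exact d_comp_closed (add_zero n) h h _ _ hq
  · rw [A.d_shape _ _ _ h, A.d_shape _ _ _ h, map_zero]

lemma d_prec {a b : A.Obj} {q : A.Hom a b 0} (hq : IsClosed q) (c : A.Obj) (n m : ℤ)
    (x : A.Hom b c n) : A.d n m (prec q c n x) = prec q c m (A.d n m x) := by
  by_cases h : n + 1 = m
  · exact d_closed_comp (zero_add n) h h _ _ hq
  · rw [A.d_shape _ _ _ h, A.d_shape _ _ _ h, map_zero]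

/-- Induction over the thick closure: if `Hom (g, q)` is a quasi-isomorphism then so is
`Hom (T, q)` for all `T` in the thick closure of `g`. -/
theorem postc_qIso {a b : A.Obj} {q : A.Hom a b 0} (hq : IsClosed q) {g : A.Obj}
    (hg : QIso (postc q g)) {T : A.Obj} (hT : DGCat.Thick g T) : QIso (postc q T) := by
  induction hT with
  | gen => exact hg
  | @cone a₁ a₂ c f hf K _ _ h₁ h₂ =>
    refine QIso.cone_left K K (fun _ _ => 0) (d_postc hq c) (d_postc hq a₁) (d_postc hq a₂)
      (fun n x => ?_) (fun n m h x => ?_) h₁ h₂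
    · exact (A.assoc (zero_add n) (add_zero n) (add_zero n) (zero_add n) K.inr x q).symm
    · rw [LinearMap.zero_apply, add_zero]
      exact (A.assoc h (add_zero n) (add_zero m) h K.inl x q).symm
  | @retract a₁ a₂ t h _ h₂ =>
    obtain ⟨u, v, hu, hv, huv⟩ := h
    have hu : IsClosed u := hu
    have hv : IsClosed v := hv
    refine h₂.retract (-t)
      (fun n => ((A.comp (show -t + n = n + -t by omega)) v).toAddMonoidHom)
      (fun n => ((A.comp (show t + (n + -t) = n by omega)) u).toAddMonoidHom)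
      (fun n => ((A.comp (show -t + n = n + -t by omega)) v).toAddMonoidHom)
      (fun n => ((A.comp (show t + (n + -t) = n by omega)) u).toAddMonoidHom)
      (fun n x hx => hv.comp hx _) (fun n x hx => hu.comp hx _)
      (fun n x hx => .comp_left hu hx _) (fun n x hx => hv.comp hx _)
      (fun n x hx => .comp_left hv hx _) (fun n x hx => .comp_left hu hx _)
      (fun n x hx => ?_) (fun n x hx => ?_) (fun n x hx => ?_) (fun n x hx => ?_)
    · have := IsBdry.comp_right huv hx (zero_add n)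
      rw [map_sub, LinearMap.sub_apply, A.id_comp,
        A.assoc (add_neg_cancel t) (show -t + n = n + -t by omega) (zero_add n)
          (show t + (n + -t) = n by omega)] at this
      exact this
    · have := IsBdry.comp_right huv hx (zero_add n)
      rw [map_sub, LinearMap.sub_apply, A.id_comp,
        A.assoc (add_neg_cancel t) (show -t + n = n + -t by omega) (zero_add n)
          (show t + (n + -t) = n by omega)] at this
      exact this
    · convert isBdry_zero using 1
      rw [sub_eq_zero]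
      exact A.assoc (show -t + n = n + -t by omega) (add_zero n) (add_zero _) _ v x q
    · convert isBdry_zero using 1
      rw [sub_eq_zero]
      exact A.assoc (show t + (n + -t) = n by omega) (add_zero _) (add_zero n) _ u x q

/-- Induction over the thick closure: if `Hom (q, g)` is a quasi-isomorphism then so is
`Hom (q, T)` for all `T` in the thick closure of `g`. -/
theorem prec_qIso {a b : A.Obj} {q : A.Hom a b 0} (hq : IsClosed q) {g : A.Obj}
    (hg : QIso (prec q g)) {T : A.Obj} (hT : DGCat.Thick g T) : QIso (prec q T) := by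
  induction hT with
  | gen => exact hg
  | @cone a₁ a₂ c f hf K _ _ h₁ h₂ =>
    refine QIso.cone_right K K (fun _ _ => 0) (d_prec hq c) (d_prec hq a₁) (d_prec hq a₂)
      (fun n m h x => ?_) (fun n m h x => ?_) h₁ h₂
    · exact A.assoc (zero_add n) h h (zero_add m) q x K.fst
    · rw [LinearMap.zero_apply, add_zero]
      exact A.assoc (zero_add n) (add_zero n) (add_zero n) (zero_add n) q x K.snd
  | @retract a₁ a₂ t h _ h₂ =>
    obtain ⟨u, v, hu, hv, huv⟩ := h
    have hu : IsClosed u := hu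
    have hv : IsClosed v := hv
    refine h₂.retract t
      (fun n => ((A.comp (rfl : n + t = n + t)).flip u).toAddMonoidHom)
      (fun n => ((A.comp (show n + t + -t = n by omega)).flip v).toAddMonoidHom)
      (fun n => ((A.comp (rfl : n + t = n + t)).flip u).toAddMonoidHom)
      (fun n => ((A.comp (show n + t + -t = n by omega)).flip v).toAddMonoidHom)
      (fun n x hx => hx.comp hu _) (fun n x hx => hx.comp hv _)
      (fun n x hx => .comp_right hx hv _) (fun n x hx => hx.comp hu _)
      (fun n x hx => .comp_right hx hu _) (fun n x hx => .comp_right hx hv _)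
      (fun n x hx => ?_) (fun n x hx => ?_) (fun n x hx => ?_) (fun n x hx => ?_)
    · have := IsBdry.comp_left hx huv (add_zero n)
      rw [map_sub, A.comp_id,
        ← A.assoc (rfl : n + t = n + t) (add_neg_cancel t) (show n + t + -t = n by omega)
          (add_zero n)] at this
      exact this
    · have := IsBdry.comp_left hx huv (add_zero n)
      rw [map_sub, A.comp_id,
        ← A.assoc (rfl : n + t = n + t) (add_neg_cancel t) (show n + t + -t = n by omega)
          (add_zero n)] at this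
      exact this
    · convert isBdry_zero using 1
      rw [sub_eq_zero]
      exact (A.assoc (zero_add n) rfl rfl (zero_add _) q x u).symm
    · convert isBdry_zero using 1
      rw [sub_eq_zero]
      exact (A.assoc (zero_add _) (show n + t + -t = n by omega) _ (zero_add n) q x v).symm

end Orl
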