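import Pool.Agent.Work.MP_a6e60d_ag.DG.Bimod
import Pool.Agent.Work.MP_a6e60d_ag.DG.Qis

/-!
MP_a6e60d_ag: morphisms of DG modules, elementwise; the free module of rank one; quasi-isomorphisms
of DG modules.
-/

open CategoryTheory CochainComplex HomComplex

namespace Orl

universe v w

namespace DGMod

section

variable {k : Type w} [CommRing k] {E : DGAlg.{v} k} {M N L : DGMod E}

/-- the value of a morphism of degree `n` -/
def ap {n : ℤ} (f : (modDG E).Hom M N n) {p q : ℤ} (h : p + n = q) :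
    M.cx.X p →ₗ[k] N.cx.X q := (f.1.v p q h).hom

/-- a morphism of degree `n` given by its values -/
def mkHom {n : ℤ} (F : ∀ (p q : ℤ) (_ : p + n = q), M.cx.X p →ₗ[k] N.cx.X q)
    (hF : ∀ (p q : ℤ) (h : p + n = q) (m p' q' : ℤ) (hp : p + m = p') (hq : q + m = q')
      (x : M.cx.X p) (r : E.cx.X m),
      F p' q' (by lia) (M.act hp x r) = N.act hq (F p q h x) r) : (modDG E).Hom M N n :=
  ⟨Cochain.mk fun p q h => ModuleCat.ofHom (F p q h), fun p q h m p' q' hp hq x r => by
    simpa using hF p q h m p' q' hp hq x r⟩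

@[simp] lemma ap_mkHom {n : ℤ} (F : ∀ (p q : ℤ) (_ : p + n = q), M.cx.X p →ₗ[k] N.cx.X q)
    (hF) {p q : ℤ} (h : p + n = q) (x : M.cx.X p) : ap (mkHom F hF) h x = F p q h x := rfl

@[ext] lemma hom_ext {n : ℤ} {f g : (modDG E).Hom M N n}
    (H : ∀ (p q : ℤ) (h : p + n = q) (x : M.cx.X p), ap f h x = ap g h x) : f = g := by
  apply Subtype.ext
  ext p q h x
  exact H p q h x

lemma ap_act {n : ℤ} (f : (modDG E).Hom M N n) {p q : ℤ} (h : p + n = q) {m p' q' : ℤ}
    (hp : p + m = p') (hq : q + m = q') (x : M.cx.X p) (r : E.cx.X m) :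
    ap f (show p' + n = q' by lia) (M.act hp x r) = N.act hq (ap f h x) r :=
  f.2 p q h m p' q' hp hq x r

@[simp] lemma ap_id {p : ℤ} (x : M.cx.X p) : ap ((modDG E).id M) (add_zero p) x = x := by
  change (Cochain.ofHom (𝟙 M.cx)).v p p _ x = x
  simp

lemma ap_comp {n m l : ℤ} (h : n + m = l) (f : (modDG E).Hom M N n) (g : (modDG E).Hom N L m)
    {p q r : ℤ} (hp : p + l = r) (hq : p + n = q) (x : M.cx.X p) :
    ap ((modDG E).comp h f g) hp x = ap g (show q + m = r by lia) (ap f hq x) := by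
  change (f.1.comp g.1 h).v p r hp x = _
  rw [Cochain.comp_v _ _ h p q r hq (by lia)]
  rfl

@[simp] lemma ap_add {n : ℤ} (f g : (modDG E).Hom M N n) {p q : ℤ} (h : p + n = q)
    (x : M.cx.X p) : ap (f + g) h x = ap f h x + ap g h x := rfl

@[simp] lemma ap_sub {n : ℤ} (f g : (modDG E).Hom M N n) {p q : ℤ} (h : p + n = q)
    (x : M.cx.X p) : ap (f - g) h x = ap f h x - ap g h x := by
  change ((f - g).1.v p q h).hom x = _
  have : (f - g).1 = f.1 - g.1 := rfl
  rw [this, Cochain.sub_v]
  rfl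

@[simp] lemma ap_neg {n : ℤ} (f : (modDG E).Hom M N n) {p q : ℤ} (h : p + n = q)
    (x : M.cx.X p) : ap (-f) h x = - ap f h x := rfl

@[simp] lemma ap_smul {n : ℤ} (c : k) (f : (modDG E).Hom M N n) {p q : ℤ} (h : p + n = q)
    (x : M.cx.X p) : ap (c • f) h x = c • ap f h x := rfl

@[simp] lemma ap_zero {n : ℤ} {p q : ℤ} (h : p + n = q)
    (x : M.cx.X p) : ap (0 : (modDG E).Hom M N n) h x = 0 := rfl

lemma ap_d {n m : ℤ} (hnm : n + 1 = m) (f : (modDG E).Hom M N n) {p q p' q' : ℤ}
    (h : p + m = q) (hp : p + 1 = p') (hq : q' + 1 = q) (x : M.cx.X p) :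
    ap ((modDG E).d n m f) h x = N.cx.d q' q (ap f (show p + n = q' by lia) x) +
      m.negOnePow • ap f (show p' + n = q by lia) (M.cx.d p p' x) := by
  change (δ n m f.1).v p q h x = _
  rw [δ_v n m hnm _ p q h q' p' (by lia) hp]
  simp only [ModuleCat.hom_add, LinearMap.add_apply, Units.smul_def, ModuleCat.hom_zsmul,
    LinearMap.smul_apply]
  rfl

/-- closed morphisms commute with the differentials up to sign -/
lemma ap_closed {n : ℤ} {f : (modDG E).Hom M N n} (hf : (modDG E).d n (n + 1) f = 0)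
    {p q p' q' : ℤ} (h : p + n = q) (hp : p + 1 = p') (hq : q + 1 = q') (x : M.cx.X p) :
    N.cx.d q q' (ap f h x) = n.negOnePow • ap f (show p' + n = q' by lia) (M.cx.d p p' x) := by
  have := ap_d rfl f (show p + (n + 1) = q' by lia) hp hq x
  rw [hf, ap_zero, Int.negOnePow_succ, Units.neg_smul, ← sub_eq_add_neg, eq_comm,
    sub_eq_zero] at this
  exact this

lemma d_d (M : DGMod E) (a b c : ℤ) (x : M.cx.X a) : M.cx.d b c (M.cx.d a b x) = 0 := by
  rw [← ModuleCat.comp_apply, M.cx.d_comp_d]; rfl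

lemma d_shape (M : DGMod E) (a b : ℤ) (h : a + 1 ≠ b) (x : M.cx.X a) : M.cx.d a b x = 0 := by
  rw [M.cx.shape a b h]; rfl

end

end DGMod

lemma DGAlg.d_one {k : Type w} [CommRing k] (E : DGAlg.{v} k) (n : ℤ) : E.cx.d 0 n E.one = 0 := by
  by_cases h : 0 + 1 = n
  · subst h
    have := E.d_mul (add_zero 0) rfl rfl rfl E.one E.one
    rw [E.one_mul, E.one_mul (n := 0 + 1)] at this
    rw [Int.negOnePow_zero, one_smul, E.mul_one (n := 0 + 1)] at this
    simpa using this
  · rw [E.cx.shape 0 n h]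
    rfl

namespace DGMod

section

variable {k : Type w} [CommRing k] {E : DGAlg.{v} k}

/-- the values at `1` of the morphisms from the free module of rank one -/
def evOne (U : DGMod E) (n : ℤ) : (modDG E).Hom E.self U n →ₗ[k] U.cx.X n where
  toFun f := ap f (zero_add n) E.one
  map_add' _ _ := rfl
  map_smul' _ _ := rfl

/-- the morphism from the free module of rank one with value `x` at `1` -/
def ofEl (U : DGMod E) (n : ℤ) (x : U.cx.X n) : (modDG E).Hom E.self U n :=
  mkHom (fun p q h => (U.act (show n + p = q by lia) x)) fun p q h m p' q' hp hq y r =>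
    (U.act_mul (by lia) hp _ _ x y r).symm

@[simp] lemma evOne_ofEl (U : DGMod E) (n : ℤ) (x : U.cx.X n) : evOne U n (ofEl U n x) = x :=
  U.act_one x

@[simp] lemma ofEl_evOne (U : DGMod E) (n : ℤ) (f : (modDG E).Hom E.self U n) :
    ofEl U n (evOne U n f) = f := by
  ext p q h x
  change U.act _ (ap f (zero_add n) E.one) x = _
  rw [← ap_act f (zero_add n) (zero_add p) (by lia) E.one x]
  congr 1
  exact E.one_mul x

lemma evOne_injective (U : DGMod E) (n : ℤ) : Function.Injective (evOne U n) :=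
  Function.LeftInverse.injective (ofEl_evOne U n)

lemma evOne_d (U : DGMod E) (n m : ℤ) (f : (modDG E).Hom E.self U n) :
    evOne U m ((modDG E).d n m f) = U.cx.d n m (evOne U n f) := by
  by_cases h : n + 1 = m
  · refine (ap_d h f (zero_add m) rfl h E.one).trans ?_
    have : E.self.cx.d 0 (0 + 1) E.one = 0 := E.d_one _
    rw [this, map_zero, smul_zero, add_zero]
    rfl
  · rw [(modDG E).d_shape n m f h, U.d_shape n m h, map_zero]

lemma evOne_postc {U V : DGMod E} (q : (modDG E).Hom U V 0) (n : ℤ)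
    (f : (modDG E).Hom E.self U n) :
    evOne V n ((modDG E).comp (add_zero n) f q) = ap q (add_zero n) (evOne U n f) :=
  ap_comp (add_zero n) f q (zero_add n) (zero_add n) E.one

end

section

variable {k : Type} [CommRing k] {E : DGAlg.{0} k} {U V W : DGMod E}

/-- quasi-isomorphisms of DG modules in terms of morphisms from the free module -/
lemma isQis_iff (q : (modDG E).Hom U V 0) :
    IsQis q ↔ IsClosed (A := modDG E) q ∧ QIso (postc (A := modDG E) q E.self) := by
  constructor
  · intro h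
    refine ⟨h.closed, ⟨fun n f hf => ?_, fun n g hg => ?_⟩⟩
    · rintro ⟨g, hg⟩
      obtain ⟨z, hz⟩ := h.inj n (evOne U n f) (by rw [← evOne_d, hf, map_zero])
        ⟨evOne V (n - 1) g, by rw [← evOne_d, hg, postc_apply]; exact evOne_postc q n f⟩
      refine ⟨ofEl U (n - 1) z, evOne_injective U n ?_⟩
      rw [evOne_d, evOne_ofEl, hz]
    · obtain ⟨x, hx, z, hz⟩ := h.surj n (evOne V n g) (by rw [← evOne_d, hg, map_zero])
      refine ⟨ofEl U n x, evOne_injective U (n + 1) ?_, ofEl V (n - 1) z, evOne_injective V n ?_⟩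
      · rw [evOne_d, evOne_ofEl, hx, map_zero]
      · rw [evOne_d, evOne_ofEl, hz, map_sub, postc_apply]
        congr 1
        exact ((evOne_postc q n _).trans (by rw [evOne_ofEl]; rfl)).symm
  · rintro ⟨hc, h⟩
    refine ⟨hc, fun n x hx => ?_, fun n y hy => ?_⟩
    · rintro ⟨y, hy⟩
      obtain ⟨g, hg⟩ := h.inj n (ofEl U n x) (evOne_injective U (n + 1) (by
        rw [evOne_d, evOne_ofEl, hx, map_zero])) ⟨ofEl V (n - 1) y, evOne_injective V n (by
          rw [evOne_d, evOne_ofEl, hy, postc_apply]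
          exact ((evOne_postc q n _).trans (by rw [evOne_ofEl]; rfl)).symm)⟩
      exact ⟨evOne U (n - 1) g, by rw [← evOne_d, hg, evOne_ofEl]⟩
    · obtain ⟨f, hf, z, hz⟩ := h.surj n (ofEl V n y) (evOne_injective V (n + 1) (by
        rw [evOne_d, evOne_ofEl, hy, map_zero]))
      refine ⟨evOne U n f, by rw [← evOne_d, hf, map_zero], evOne V (n - 1) z, ?_⟩
      rw [← evOne_d, hz, map_sub, evOne_ofEl, postc_apply]
      congr 1
      exact evOne_postc q n f

end

end DGMod

end Orl
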