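import Pool.Agent.Work.MP_a6e60d_ag.DG.Good

/-!
MP_a6e60d_ag: retracts of good morphisms; the equivalence theorem.
-/

open CategoryTheory

namespace Orl

universe w

variable {k : Type w} [CommRing k] {B E : DGCat.{0, 1} k} {Φ : DGFun B E}

section Retract

variable {a a' : E.Obj} {b b' : B.Obj} {t : ℤ} {u : E.Hom a a' t} {v : E.Hom a' a (-t)}
  {p : B.Hom b b' t} {r : B.Hom b' b (-t)} {q' : E.Hom a' (Φ.obj b') 0}

/-- the retract of a morphism -/
def retHom (u : E.Hom a a' t) (q' : E.Hom a' (Φ.obj b') 0) (r : B.Hom b' b (-t)) :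
    E.Hom a (Φ.obj b) 0 :=
  E.comp (add_neg_cancel t) u (E.comp (zero_add (-t)) q' (Φ.map r))

lemma retHom_closed (hu : IsClosed u) (hr : IsClosed r) (hq : IsClosed q') :
    IsClosed (retHom u q' r) := hu.comp (hq.comp (hr.map Φ) _) _

/-- `q ∘ v ~ Φ r ∘ q'` -/
lemma v_retHom (hr : IsClosed r) (hq : IsClosed q')
    (hpr : IsBdry (B.comp (add_neg_cancel t) p r - B.id b))
    (hc : IsBdry (E.comp (add_zero 0) (E.comp (neg_add_cancel t) v u) q' -
      E.comp (add_zero 0) q' (Φ.map (B.comp (neg_add_cancel t) r p)))) :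
    IsBdry (E.comp (add_zero (-t)) v (retHom u q' r) - E.comp (zero_add (-t)) q' (Φ.map r)) := by
  have h₁ := IsBdry.comp_right hc (hr.map Φ) (zero_add (-t))
  rw [map_sub, LinearMap.sub_apply] at h₁
  have h₂ := IsBdry.comp_left hr hpr (add_zero (-t))
  rw [map_sub, B.comp_id] at h₂
  have h₃ := IsBdry.comp_left hq (h₂.map Φ) (zero_add (-t))
  rw [map_sub, map_sub] at h₃
  have e₁ : E.comp (add_zero (-t)) v (retHom u q' r) = E.comp (zero_add (-t))
      (E.comp (add_zero 0) (E.comp (neg_add_cancel t) v u) q') (Φ.map r) := by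
    rw [retHom, E.assoc (add_zero 0) (zero_add (-t)) (zero_add (-t)) (zero_add (-t)),
      E.assoc (neg_add_cancel t) (add_neg_cancel t) (zero_add (-t)) (add_zero (-t))]
  have e₂ : E.comp (zero_add (-t)) (E.comp (add_zero 0) q'
      (Φ.map (B.comp (neg_add_cancel t) r p))) (Φ.map r) =
      E.comp (zero_add (-t)) q' (Φ.map (B.comp (add_zero (-t)) r
        (B.comp (add_neg_cancel t) p r))) := by
    rw [E.assoc (add_zero 0) (zero_add (-t)) (zero_add (-t)) (zero_add (-t)), ← Φ.map_comp,
      B.assoc (neg_add_cancel t) (add_neg_cancel t) (zero_add (-t)) (add_zero (-t))]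
  rw [e₁]
  rw [e₂] at h₁
  exact h₁.trans h₃

/-- `Φ p ∘ q ~ q' ∘ u` -/
lemma retHom_p (hu : IsClosed u) (hq : IsClosed q')
    (huv : IsBdry (E.comp (add_neg_cancel t) u v - E.id a))
    (hc : IsBdry (E.comp (add_zero 0) (E.comp (neg_add_cancel t) v u) q' -
      E.comp (add_zero 0) q' (Φ.map (B.comp (neg_add_cancel t) r p)))) :
    IsBdry (E.comp (zero_add t) (retHom u q' r) (Φ.map p) - E.comp (add_zero t) u q') := by
  have h₁ := IsBdry.comp_left hu hc (add_zero t)
  rw [map_sub] at h₁
  have h₂ := IsBdry.comp_right huv hu (zero_add t)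
  rw [map_sub, LinearMap.sub_apply, E.id_comp] at h₂
  have h₃ := IsBdry.comp_right h₂ hq (add_zero t)
  rw [map_sub, LinearMap.sub_apply] at h₃
  have e₁ : E.comp (zero_add t) (retHom u q' r) (Φ.map p) = E.comp (add_zero t) u
      (E.comp (add_zero 0) q' (Φ.map (B.comp (neg_add_cancel t) r p))) := by
    rw [retHom, E.assoc (add_neg_cancel t) (neg_add_cancel t) (zero_add t) (add_zero t),
      E.assoc (zero_add (-t)) (neg_add_cancel t) (neg_add_cancel t) (add_zero 0), Φ.map_comp]
  have e₂ : E.comp (add_zero t) u (E.comp (add_zero 0) (E.comp (neg_add_cancel t) v u) q') =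
      E.comp (add_zero t) (E.comp (zero_add t) (E.comp (add_neg_cancel t) u v) u) q' := by
    rw [E.assoc (add_neg_cancel t) (neg_add_cancel t) (zero_add t) (add_zero t),
      E.assoc (add_zero t) (add_zero 0) (add_zero t) (add_zero t)]
  rw [e₁]
  rw [e₂] at h₁
  exact h₁.symm.trans h₃

theorem retract_good {g : E.Obj} {h : B.Obj} (hu : IsClosed u) (hv : IsClosed v)
    (hp : IsClosed p) (hr : IsClosed r)
    (huv : IsBdry (E.comp (add_neg_cancel t) u v - E.id a))
    (hpr : IsBdry (B.comp (add_neg_cancel t) p r - B.id b))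
    (hc : IsBdry (E.comp (add_zero 0) (E.comp (neg_add_cancel t) v u) q' -
      E.comp (add_zero 0) q' (Φ.map (B.comp (neg_add_cancel t) r p))))
    (H : IsGood Φ g h q') : IsGood Φ g h (retHom u q' r) := by
  have hq := H.closed
  have hQ := retHom_closed hu hr hq
  have hV := v_retHom (u := u) (v := v) hr hq hpr hc
  have hP := retHom_p (r := r) (p := p) hu hq huv hc
  have hp' := hp.map Φ
  have hr' := hr.map Φ
  refine ⟨hQ, ?_, ?_⟩
  · refine H.left.retract t
      (fun n => ((E.comp (rfl : n + t = n + t)).flip u).toAddMonoidHom)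
      (fun n => ((E.comp (show n + t + -t = n by omega)).flip v).toAddMonoidHom)
      (fun n => ((E.comp (rfl : n + t = n + t)).flip (Φ.map p)).toAddMonoidHom)
      (fun n => ((E.comp (show n + t + -t = n by omega)).flip (Φ.map r)).toAddMonoidHom)
      (fun n x hx => hx.comp hu _) (fun n x hx => hx.comp hv _)
      (fun n x hx => .comp_right hx hv _) (fun n x hx => hx.comp hp' _)
      (fun n x hx => .comp_right hx hp' _) (fun n x hx => .comp_right hx hr' _)
      (fun n x hx => ?_) (fun n x hx => ?_) (fun n x hx => ?_) (fun n x hx => ?_)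
    · have := IsBdry.comp_left hx huv (add_zero n)
      rw [map_sub, E.comp_id,
        ← E.assoc (rfl : n + t = n + t) (add_neg_cancel t) (show n + t + -t = n by omega)
          (add_zero n)] at this
      exact this
    · have := IsBdry.comp_left hx (IsBdry.map Φ hpr) (add_zero n)
      rw [map_sub, Φ.map_id, Φ.map_comp, map_sub, E.comp_id,
        ← E.assoc (rfl : n + t = n + t) (add_neg_cancel t) (show n + t + -t = n by omega)
          (add_zero n)] at this
      exact this
    · have := IsBdry.comp_left hx hP (show n + t = n + t from rfl)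
      rw [map_sub, ← E.assoc (rfl : n + t = n + t) (add_zero t) (add_zero (n + t)) rfl,
        ← E.assoc (add_zero n) (zero_add t) rfl rfl] at this
      exact this.symm
    · have := IsBdry.comp_left hx hV (show n + t + -t = n by omega)
      rw [map_sub, ← E.assoc (show n + t + -t = n by omega) (add_zero (-t)) (add_zero n) _,
        ← E.assoc (add_zero (n + t)) (zero_add (-t)) (show n + t + -t = n by omega) _] at this
      exact this
  · refine H.right.retract (-t)
      (fun n => (B.comp (show -t + n = n + -t by omega) r).toAddMonoidHom)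
      (fun n => (B.comp (show t + (n + -t) = n by omega) p).toAddMonoidHom)
      (fun n => (E.comp (show -t + n = n + -t by omega) v).toAddMonoidHom)
      (fun n => (E.comp (show t + (n + -t) = n by omega) u).toAddMonoidHom)
      (fun n x hx => hr.comp hx _) (fun n x hx => hp.comp hx _)
      (fun n x hx => .comp_left hp hx _) (fun n x hx => hv.comp hx _)
      (fun n x hx => .comp_left hv hx _) (fun n x hx => .comp_left hu hx _)
      (fun n x hx => ?_) (fun n x hx => ?_) (fun n x hx => ?_) (fun n x hx => ?_)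
    · have := IsBdry.comp_right hpr hx (zero_add n)
      rw [map_sub, LinearMap.sub_apply, B.id_comp,
        B.assoc (add_neg_cancel t) (show -t + n = n + -t by omega) (zero_add n)
          (show t + (n + -t) = n by omega)] at this
      exact this
    · have := IsBdry.comp_right huv hx (zero_add n)
      rw [map_sub, LinearMap.sub_apply, E.id_comp,
        E.assoc (add_neg_cancel t) (show -t + n = n + -t by omega) (zero_add n)
          (show t + (n + -t) = n by omega)] at this
      exact this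
    · have := IsBdry.comp_right hV (hx.map Φ) (show -t + n = n + -t by omega)
      rw [map_sub, LinearMap.sub_apply,
        E.assoc (zero_add (-t)) (show -t + n = n + -t by omega) _ (zero_add (n + -t)),
        E.assoc (add_zero (-t)) (zero_add n) _ (show -t + n = n + -t by omega),
        ← Φ.map_comp] at this
      exact this.symm
    · have := IsBdry.comp_right hP (hx.map Φ) (show t + (n + -t) = n by omega)
      rw [map_sub, LinearMap.sub_apply,
        E.assoc (zero_add t) (show t + (n + -t) = n by omega) _ (zero_add n),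
        E.assoc (add_zero t) (zero_add (n + -t)) _ (show t + (n + -t) = n by omega),
        ← Φ.map_comp] at this
      exact this

end Retract

/-- the DG category has mapping cones, and homotopy idempotents split, with all shifts -/
structure IsPerfectLike (A : DGCat.{0, 1} k) : Prop where
  cone : ∀ {a b : A.Obj} (f : A.Hom a b 0), IsClosed f → ∃ c, Nonempty (DGCat.Cone f c)
  split : ∀ {a : A.Obj} (e : A.Hom a a 0) (t : ℤ), IsClosed e →
    IsBdry (A.comp (add_zero 0) e e - e) → ∃ (b : A.Obj) (p : A.Hom b a t) (r : A.Hom a b (-t)),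
      IsClosed p ∧ IsClosed r ∧ IsBdry (A.comp (add_neg_cancel t) p r - A.id b) ∧
        IsBdry (A.comp (neg_add_cancel t) r p - e)

/-- `v u` is a homotopy idempotent if `u v` is homotopic to the identity -/
lemma idem_of_retract {A : DGCat.{0, 1} k} {a a' : A.Obj} {t : ℤ} {u : A.Hom a a' t}
    {v : A.Hom a' a (-t)} (hu : IsClosed u) (hv : IsClosed v)
    (huv : IsBdry (A.comp (add_neg_cancel t) u v - A.id a)) :
    IsBdry (A.comp (add_zero 0) (A.comp (neg_add_cancel t) v u) (A.comp (neg_add_cancel t) v u) -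
      A.comp (neg_add_cancel t) v u) := by
  have := IsBdry.comp_left hv (IsBdry.comp_right huv hu (zero_add t)) (neg_add_cancel t)
  rw [map_sub, LinearMap.sub_apply, map_sub, A.id_comp,
    A.assoc (add_neg_cancel t) (neg_add_cancel t) (zero_add t) (add_zero t),
    ← A.assoc (neg_add_cancel t) (add_zero t) (add_zero 0) (neg_add_cancel t)] at this
  exact this

lemma idem_transport {a : E.Obj} {b : B.Obj} {q : E.Hom a (Φ.obj b) 0} {e : E.Hom a a 0}
    {ε : B.Hom b b 0} (he : IsClosed e) (hε : IsClosed ε)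
    (h : IsBdry (E.comp (add_zero 0) e q - E.comp (add_zero 0) q (Φ.map ε))) :
    IsBdry (E.comp (add_zero 0) (E.comp (add_zero 0) e e) q -
      E.comp (add_zero 0) q (Φ.map (B.comp (add_zero 0) ε ε))) := by
  have h₁ := IsBdry.comp_left he h (add_zero 0)
  have h₂ := IsBdry.comp_right h (hε.map Φ) (add_zero 0)
  rw [map_sub, ← E.assoc (add_zero 0) (add_zero 0) (add_zero 0) (add_zero 0),
    ← E.assoc (add_zero 0) (add_zero 0) (add_zero 0) (add_zero 0)] at h₁
  rw [map_sub, LinearMap.sub_apply, E.assoc (add_zero 0) (add_zero 0) (add_zero 0) (add_zero 0) q,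
    ← Φ.map_comp] at h₂
  exact h₁.trans h₂

section

variable {g : E.Obj} {h : B.Obj} {q₀ : E.Hom g (Φ.obj h) 0}

lemma exists_good_left (hB : IsPerfectLike B) (hq₀ : IsGood Φ g h q₀) {a : E.Obj}
    (ha : DGCat.Thick g a) : ∃ (b : B.Obj) (_ : DGCat.Thick h b) (q : E.Hom a (Φ.obj b) 0),
      IsGood Φ g h q := by
  induction ha with
  | gen => exact ⟨h, .gen, q₀, hq₀⟩
  | @cone a₁ a₂ c f hf K _ _ h₁ h₂ =>
    obtain ⟨b₁, hb₁, q₁, G₁⟩ := h₁
    obtain ⟨b₂, hb₂, q₂, G₂⟩ := h₂
    have hf : IsClosed f := hf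
    obtain ⟨y, hy, hys⟩ := (mixc_qIso Φ G₁.closed G₁.right hb₂).exists_closed
      (hf.comp G₂.closed (add_zero 0))
    obtain ⟨s, hs⟩ := hys.exists (-1) (neg_add_cancel 1)
    obtain ⟨b, ⟨L⟩⟩ := hB.cone y hy
    exact ⟨b, .cone y hy L hb₁ hb₂, _, coneHom_good K L q₁ q₂ s hs G₁ G₂⟩
  | @retract a a' t h' _ ih =>
    obtain ⟨u, v, hu, hv, huv⟩ := h'
    have hu : IsClosed u := hu
    have hv : IsClosed v := hv
    have huv : IsBdry (E.comp (add_neg_cancel t) u v - E.id a) := huv
    obtain ⟨b', hb', q', G'⟩ := ih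
    have hq' := G'.closed
    have he : IsClosed (E.comp (neg_add_cancel t) v u) := hv.comp hu _
    have hQ := mixc_qIso Φ G'.closed G'.right hb'
    obtain ⟨ε, hε, hεs⟩ := hQ.exists_closed (he.comp hq' (add_zero 0))
    rw [mixc_apply] at hεs
    have hεε : IsBdry (B.comp (add_zero 0) ε ε - ε) := by
      refine hQ.isBdry ((hε.comp hε _).sub hε) ?_
      have h₁ := IsBdry.comp_right (idem_of_retract hu hv huv) hq' (add_zero 0)
      rw [map_sub, LinearMap.sub_apply] at h₁
      rw [map_sub]
      exact ((idem_transport he hε hεs).symm.trans h₁).trans hεs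
    obtain ⟨b, p, r, hp, hr, hpr, hrp⟩ := hB.split ε t hε hεε
    refine ⟨b, .retract t ⟨p, r, hp, hr, hpr⟩ hb', _,
      retract_good (p := p) (r := r) hu hv hp hr huv hpr ?_ G'⟩
    have h₁ := IsBdry.comp_left hq' (IsBdry.map Φ hrp) (add_zero 0)
    rw [map_sub, map_sub] at h₁
    exact hεs.trans h₁.symm

lemma exists_good_right (hE : IsPerfectLike E) (hq₀ : IsGood Φ g h q₀) {b : B.Obj}
    (hb : DGCat.Thick h b) : ∃ (a : E.Obj) (_ : DGCat.Thick g a) (q : E.Hom a (Φ.obj b) 0),
      IsGood Φ g h q := by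
  induction hb with
  | gen => exact ⟨g, .gen, q₀, hq₀⟩
  | @cone b₁ b₂ c y hy L _ _ h₁ h₂ =>
    obtain ⟨a₁, ha₁, q₁, G₁⟩ := h₁
    obtain ⟨a₂, ha₂, q₂, G₂⟩ := h₂
    have hy : IsClosed y := hy
    obtain ⟨f, hf, hfs⟩ := (postc_qIso G₂.closed G₂.left ha₁).exists_closed
      (G₁.closed.comp (hy.map Φ) (add_zero 0))
    rw [postc_apply] at hfs
    obtain ⟨s, hs⟩ := hfs.symm.exists (-1) (neg_add_cancel 1)
    obtain ⟨a, ⟨K⟩⟩ := hE.cone f hf
    exact ⟨a, .cone f hf K ha₁ ha₂, _, coneHom_good K L q₁ q₂ s hs G₁ G₂⟩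
  | @retract b b' t h' _ ih =>
    obtain ⟨p, r, hp, hr, hpr⟩ := h'
    have hp : IsClosed p := hp
    have hr : IsClosed r := hr
    have hpr : IsBdry (B.comp (add_neg_cancel t) p r - B.id b) := hpr
    obtain ⟨a', ha', q', G'⟩ := ih
    have hq' := G'.closed
    have hε : IsClosed (B.comp (neg_add_cancel t) r p) := hr.comp hp _
    have hQ := postc_qIso G'.closed G'.left ha'
    obtain ⟨e, he, hes⟩ := hQ.exists_closed (hq'.comp (hε.map Φ) (add_zero 0))
    rw [postc_apply] at hes
    have hee : IsBdry (E.comp (add_zero 0) e e - e) := by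
      refine hQ.isBdry ((he.comp he _).sub he) ?_
      have h₁ := IsBdry.comp_left hq' (IsBdry.map Φ (idem_of_retract hp hr hpr)) (add_zero 0)
      rw [map_sub, map_sub] at h₁
      rw [map_sub]
      exact ((idem_transport he hε hes.symm).trans h₁).trans hes
    obtain ⟨a, u, v, hu, hv, huv, hvu⟩ := hE.split e t he hee
    refine ⟨a, .retract t ⟨u, v, hu, hv, huv⟩ ha', _,
      retract_good (p := p) (r := r) hu hv hp hr huv hpr ?_ G'⟩
    have h₁ := IsBdry.comp_right hvu hq' (add_zero 0)
    rw [map_sub, LinearMap.sub_apply] at h₁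
    exact h₁.trans hes.symm

end

variable (Φ) in
/-- The equivalence theorem. -/
theorem quasiEquivalent_thick (hB : IsPerfectLike B) (hE : IsPerfectLike E) {g : E.Obj}
    {h : B.Obj} (q₀ : E.Hom g (Φ.obj h) 0) (hq₀ : IsGood Φ g h q₀) :
    QuasiEquivalent (E.full (DGCat.Thick g)) (B.full (DGCat.Thick h)) := by
  refine quasiEquivalent_of_roof (DGFun.incl E (DGCat.Thick g)) (Φ.res (DGCat.Thick h))
    (fun x => IsGood Φ g h (a := x.a.1) (b := x.b.1) x.q) ?_ ?_ ?_ ?_
  · intro x _ y hy
    change IsGood Φ g h (a := y.a.1) (b := y.b.1) y.q at hy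
    have hc := hy.closed
    have hl := hy.left
    have := postc_qIso hc hl x.a.2
    exact ⟨this.inj, this.surj⟩
  · intro x hx y _
    have := mixc_qIso Φ (IsGood.closed hx) (IsGood.right hx) y.b.2
    exact ⟨this.inj, this.surj⟩
  · rintro ⟨a, ha⟩
    obtain ⟨b, hb, q, hq⟩ := exists_good_left hB hq₀ ha
    exact ⟨⟨⟨a, ha⟩, ⟨b, hb⟩, q, hq.closed⟩, hq, rfl⟩
  · rintro ⟨b, hb⟩
    obtain ⟨a, ha, q, hq⟩ := exists_good_right hE hq₀ hb
    exact ⟨⟨⟨a, ha⟩, ⟨b, hb⟩, q, hq.closed⟩, hq, rfl⟩

end Orl
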