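import Pool.Agent.Work.MP_a6e60d_ag.DG.Equiv

/-!
MP_a6e60d_ag: the equivalence theorem for two DG functors `F : A → E`, `G : B → E` and a closed
morphism `q₀ : F g → G h`.
-/

open CategoryTheory

namespace Orl

universe w

variable {k : Type w} [CommRing k] {A B E : DGCat.{0, 1} k} (F : DGFun A E) (G : DGFun B E)

/-- `x ↦ q ∘ F x` -/
def mixl {a : A.Obj} {b : E.Obj} (q : E.Hom (F.obj a) b 0) (T : A.Obj) (n : ℤ) :
    A.Hom T a n →ₗ[k] E.Hom (F.obj T) b n :=
  ((E.comp (add_zero n)).flip q).comp F.map

@[simp] lemma mixl_apply {a : A.Obj} {b : E.Obj} (q : E.Hom (F.obj a) b 0) (T : A.Obj) (n : ℤ)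
    (x : A.Hom T a n) : mixl F q T n x = E.comp (add_zero n) (F.map x) q := rfl

lemma d_mixl {a : A.Obj} {b : E.Obj} {q : E.Hom (F.obj a) b 0} (hq : IsClosed q) (T : A.Obj)
    (n m : ℤ) (x : A.Hom T a n) : E.d n m (mixl F q T n x) = mixl F q T m (A.d n m x) := by
  rw [mixl_apply, mixl_apply, F.map_d]
  exact d_postc hq _ n m (F.map x)

theorem mixl_qIso {a : A.Obj} {b : E.Obj} {q : E.Hom (F.obj a) b 0} (hq : IsClosed q) {g : A.Obj}
    (hg : QIso (mixl F q g)) {T : A.Obj} (hT : DGCat.Thick g T) : QIso (mixl F q T) := by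
  induction hT with
  | gen => exact hg
  | @cone a₁ a₂ c f hf K _ _ h₁ h₂ =>
    refine QIso.cone_left K (F.mapCone K) (fun _ _ => 0) (d_mixl F hq c) (d_mixl F hq a₁)
      (d_mixl F hq a₂) (fun n x => ?_) (fun n m h x => ?_) h₁ h₂
    · simp only [mixl_apply, F.map_comp]
      exact (E.assoc (zero_add n) (add_zero n) (add_zero n) (zero_add n) (F.map K.inr)
        (F.map x) q).symm
    · simp only [mixl_apply, F.map_comp, LinearMap.zero_apply, add_zero]
      exact (E.assoc h (add_zero n) (add_zero m) h (F.map K.inl) (F.map x) q).symm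
  | @retract a₁ a₂ t h _ h₂ =>
    obtain ⟨u, v, hu, hv, huv⟩ := h
    have hu : IsClosed u := hu
    have hv : IsClosed v := hv
    have hu' : IsClosed (F.map u) := hu.map F
    have hv' : IsClosed (F.map v) := hv.map F
    refine h₂.retract (-t)
      (fun n => ((A.comp (show -t + n = n + -t by omega)) v).toAddMonoidHom)
      (fun n => ((A.comp (show t + (n + -t) = n by omega)) u).toAddMonoidHom)
      (fun n => ((E.comp (show -t + n = n + -t by omega)) (F.map v)).toAddMonoidHom)
      (fun n => ((E.comp (show t + (n + -t) = n by omega)) (F.map u)).toAddMonoidHom)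
      (fun n x hx => hv.comp hx _) (fun n x hx => hu.comp hx _)
      (fun n x hx => .comp_left hu hx _) (fun n x hx => hv'.comp hx _)
      (fun n x hx => .comp_left hv' hx _) (fun n x hx => .comp_left hu' hx _)
      (fun n x hx => ?_) (fun n x hx => ?_) (fun n x hx => ?_) (fun n x hx => ?_)
    · have := IsBdry.comp_right huv hx (zero_add n)
      rw [map_sub, LinearMap.sub_apply, A.id_comp,
        A.assoc (add_neg_cancel t) (show -t + n = n + -t by omega) (zero_add n)
          (show t + (n + -t) = n by omega)] at this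
      exact this
    · have := IsBdry.comp_right (IsBdry.map F huv) hx (zero_add n)
      rw [map_sub, map_sub, LinearMap.sub_apply, F.map_id, F.map_comp, E.id_comp,
        E.assoc (add_neg_cancel t) (show -t + n = n + -t by omega) (zero_add n)
          (show t + (n + -t) = n by omega)] at this
      exact this
    · convert isBdry_zero using 1
      rw [sub_eq_zero]
      change E.comp _ (F.map (A.comp _ v x)) q = E.comp _ (F.map v) (E.comp _ (F.map x) q)
      rw [F.map_comp]
      exact E.assoc (show -t + n = n + -t by omega) (add_zero n) (add_zero _) _ (F.map v)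
        (F.map x) q
    · convert isBdry_zero using 1
      rw [sub_eq_zero]
      change E.comp _ (F.map (A.comp _ u x)) q = E.comp _ (F.map u) (E.comp _ (F.map x) q)
      rw [F.map_comp]
      exact E.assoc (show t + (n + -t) = n by omega) (add_zero _) (add_zero n) _ (F.map u)
        (F.map x) q

/-- The closed morphism `q : F a → G b` identifies `Hom (g, a)` with `Hom (F g, G b)` and
`Hom (b, h)` with `Hom (F a, G h)`. -/
structure IsGood₂ (g : A.Obj) (h : B.Obj) {a : A.Obj} {b : B.Obj}
    (q : E.Hom (F.obj a) (G.obj b) 0) : Prop where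
  closed : IsClosed q
  left : QIso (mixl F q g)
  right : QIso (mixc G q h)

variable {F G}

theorem coneHom_good₂ {a₁ a₂ a : A.Obj} {f : A.Hom a₁ a₂ 0} (K : DGCat.Cone f a)
    {b₁ b₂ b : B.Obj} {y : B.Hom b₁ b₂ 0} (L : DGCat.Cone y b)
    (q₁ : E.Hom (F.obj a₁) (G.obj b₁) 0) (q₂ : E.Hom (F.obj a₂) (G.obj b₂) 0)
    (s : E.Hom (F.obj a₁) (G.obj b₂) (-1))
    (hs : E.d (-1) 0 s = E.comp (add_zero 0) (F.map f) q₂ - E.comp (add_zero 0) q₁ (G.map y))
    {g : A.Obj} {h : B.Obj} (h₁ : IsGood₂ F G g h q₁) (h₂ : IsGood₂ F G g h q₂) :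
    IsGood₂ F G g h (a := a) (b := b) (coneHom (F.mapCone K) L q₁ q₂ s) where
  closed := coneHom_closed (F.mapCone K) L q₁ q₂ s hs h₁.closed h₂.closed
  left := by
    have hc := coneHom_closed (F.mapCone K) L q₁ q₂ s hs h₁.closed h₂.closed
    have e₁ := coneHom_fst (F.mapCone K) L q₁ q₂ s
    have e₂ := coneHom_snd (F.mapCone K) L q₁ q₂ s
    refine QIso.cone_right K (G.mapCone L)
      (fun n m => if h : n + -1 = m then ((E.comp h).flip s).comp F.map else 0)
      (d_mixl F hc g) (d_mixl F h₁.closed g) (d_mixl F h₂.closed g)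
      (fun n m h x => ?_) (fun n m h x => ?_) h₁.left h₂.left
    · change E.comp h (E.comp (add_zero n) (F.map x) (coneHom (F.mapCone K) L q₁ q₂ s))
        (G.map L.fst) = E.comp (add_zero m) (F.map (A.comp h x K.fst)) q₁
      rw [E.assoc (add_zero n) (zero_add 1) h h, e₁, F.map_comp,
        E.assoc h (add_zero 1) (add_zero m) h]
      rfl
    · have h' : m + -1 = n := by omega
      simp only [dif_pos h']
      change E.comp (add_zero n) (E.comp (add_zero n) (F.map x)
          (coneHom (F.mapCone K) L q₁ q₂ s)) (G.map L.snd) =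
        E.comp (add_zero n) (F.map (A.comp (add_zero n) x K.snd)) q₂ +
          E.comp h' (F.map (A.comp h x K.fst)) s
      rw [E.assoc (add_zero n) (add_zero 0) (add_zero n) (add_zero n), e₂, map_add,
        F.map_comp, F.map_comp, E.assoc (add_zero n) (add_zero 0) (add_zero n) (add_zero n),
        E.assoc h (add_neg_cancel 1) h' (add_zero n)]
      rfl
  right := by
    have hc := coneHom_closed (F.mapCone K) L q₁ q₂ s hs h₁.closed h₂.closed
    have e₁ := coneHom_inr (F.mapCone K) L q₁ q₂ s
    have e₂ := coneHom_inl (F.mapCone K) L q₁ q₂ s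
    refine QIso.cone_left L (F.mapCone K)
      (fun n m => if h : -1 + n = m then (E.comp h s).comp G.map else 0)
      (d_mixc G hc h) (d_mixc G h₁.closed h) (d_mixc G h₂.closed h)
      (fun n x => ?_) (fun n m h x => ?_) h₁.right h₂.right
    · change E.comp (zero_add n) (F.mapCone K).inr (E.comp (zero_add n)
          (coneHom (F.mapCone K) L q₁ q₂ s) (G.map x)) =
        E.comp (zero_add n) q₂ (G.map (B.comp (zero_add n) L.inr x))
      rw [← E.assoc (add_zero 0) (zero_add n) (zero_add n) (zero_add n), e₁,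
        E.assoc (add_zero 0) (zero_add n) (zero_add n) (zero_add n), G.map_comp]
    · simp only [dif_pos h]
      change E.comp h (F.mapCone K).inl (E.comp (zero_add n)
          (coneHom (F.mapCone K) L q₁ q₂ s) (G.map x)) =
        E.comp (zero_add m) q₁ (G.map (B.comp h L.inl x)) +
          E.comp h s (G.map (B.comp (zero_add n) L.inr x))
      rw [← E.assoc (add_zero (-1)) (zero_add n) h h, e₂, map_add, LinearMap.add_apply,
        E.assoc (zero_add (-1)) h h (zero_add m), E.assoc (add_zero (-1)) (zero_add n) h h,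
        G.map_comp, G.map_comp]

theorem retract_good₂ {a a' : A.Obj} {b b' : B.Obj} {t : ℤ} {u : A.Hom a a' t}
    {v : A.Hom a' a (-t)} {p : B.Hom b b' t} {r : B.Hom b' b (-t)}
    {q' : E.Hom (F.obj a') (G.obj b') 0} {g : A.Obj} {h : B.Obj} (hu : IsClosed u)
    (hv : IsClosed v) (hp : IsClosed p) (hr : IsClosed r)
    (huv : IsBdry (A.comp (add_neg_cancel t) u v - A.id a))
    (hpr : IsBdry (B.comp (add_neg_cancel t) p r - B.id b))
    (hc : IsBdry (E.comp (add_zero 0) (F.map (A.comp (neg_add_cancel t) v u)) q' -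
      E.comp (add_zero 0) q' (G.map (B.comp (neg_add_cancel t) r p))))
    (H : IsGood₂ F G g h q') : IsGood₂ F G g h (a := a) (b := b) (retHom (F.map u) q' r) := by
  have hq := H.closed
  have hu' := hu.map F
  have hv' := hv.map F
  have huv' : IsBdry (E.comp (add_neg_cancel t) (F.map u) (F.map v) - E.id (F.obj a)) := by
    have := IsBdry.map F huv
    rwa [map_sub, F.map_comp, F.map_id] at this
  rw [F.map_comp] at hc
  have hQ := retHom_closed hu' hr hq
  have hV := v_retHom (u := F.map u) (v := F.map v) hr hq hpr hc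
  have hP := retHom_p (r := r) (p := p) hu' hq huv' hc
  have hp' := hp.map G
  have hr' := hr.map G
  refine ⟨hQ, ?_, ?_⟩
  · refine H.left.retract t
      (fun n => ((A.comp (rfl : n + t = n + t)).flip u).toAddMonoidHom)
      (fun n => ((A.comp (show n + t + -t = n by omega)).flip v).toAddMonoidHom)
      (fun n => ((E.comp (rfl : n + t = n + t)).flip (G.map p)).toAddMonoidHom)
      (fun n => ((E.comp (show n + t + -t = n by omega)).flip (G.map r)).toAddMonoidHom)
      (fun n x hx => hx.comp hu _) (fun n x hx => hx.comp hv _)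
      (fun n x hx => .comp_right hx hv _) (fun n x hx => hx.comp hp' _)
      (fun n x hx => .comp_right hx hp' _) (fun n x hx => .comp_right hx hr' _)
      (fun n x hx => ?_) (fun n x hx => ?_) (fun n x hx => ?_) (fun n x hx => ?_)
    · have := IsBdry.comp_left hx huv (add_zero n)
      rw [map_sub, A.comp_id,
        ← A.assoc (rfl : n + t = n + t) (add_neg_cancel t) (show n + t + -t = n by omega)
          (add_zero n)] at this
      exact this
    · have := IsBdry.comp_left hx (IsBdry.map G hpr) (add_zero n)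
      rw [map_sub, G.map_id, G.map_comp, map_sub, E.comp_id,
        ← E.assoc (rfl : n + t = n + t) (add_neg_cancel t) (show n + t + -t = n by omega)
          (add_zero n)] at this
      exact this
    · have := IsBdry.comp_left (hx.map F) hP (show n + t = n + t from rfl)
      rw [map_sub, ← E.assoc (rfl : n + t = n + t) (add_zero t) (add_zero (n + t)) rfl,
        ← E.assoc (add_zero n) (zero_add t) rfl rfl, ← F.map_comp] at this
      exact this.symm
    · have := IsBdry.comp_left (hx.map F) hV (show n + t + -t = n by omega)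
      rw [map_sub, ← E.assoc (show n + t + -t = n by omega) (add_zero (-t)) (add_zero n) _,
        ← E.assoc (add_zero (n + t)) (zero_add (-t)) (show n + t + -t = n by omega) _,
        ← F.map_comp] at this
      exact this
  · refine H.right.retract (-t)
      (fun n => (B.comp (show -t + n = n + -t by omega) r).toAddMonoidHom)
      (fun n => (B.comp (show t + (n + -t) = n by omega) p).toAddMonoidHom)
      (fun n => (E.comp (show -t + n = n + -t by omega) (F.map v)).toAddMonoidHom)
      (fun n => (E.comp (show t + (n + -t) = n by omega) (F.map u)).toAddMonoidHom)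
      (fun n x hx => hr.comp hx _) (fun n x hx => hp.comp hx _)
      (fun n x hx => .comp_left hp hx _) (fun n x hx => hv'.comp hx _)
      (fun n x hx => .comp_left hv' hx _) (fun n x hx => .comp_left hu' hx _)
      (fun n x hx => ?_) (fun n x hx => ?_) (fun n x hx => ?_) (fun n x hx => ?_)
    · have := IsBdry.comp_right hpr hx (zero_add n)
      rw [map_sub, LinearMap.sub_apply, B.id_comp,
        B.assoc (add_neg_cancel t) (show -t + n = n + -t by omega) (zero_add n)
          (show t + (n + -t) = n by omega)] at this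
      exact this
    · have := IsBdry.comp_right huv' hx (zero_add n)
      rw [map_sub, LinearMap.sub_apply, E.id_comp,
        E.assoc (add_neg_cancel t) (show -t + n = n + -t by omega) (zero_add n)
          (show t + (n + -t) = n by omega)] at this
      exact this
    · have := IsBdry.comp_right hV (hx.map G) (show -t + n = n + -t by omega)
      rw [map_sub, LinearMap.sub_apply,
        E.assoc (zero_add (-t)) (show -t + n = n + -t by omega) _ (zero_add (n + -t)),
        E.assoc (add_zero (-t)) (zero_add n) _ (show -t + n = n + -t by omega),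
        ← G.map_comp] at this
      exact this.symm
    · have := IsBdry.comp_right hP (hx.map G) (show t + (n + -t) = n by omega)
      rw [map_sub, LinearMap.sub_apply,
        E.assoc (zero_add t) (show t + (n + -t) = n by omega) _ (zero_add n),
        E.assoc (add_zero t) (zero_add (n + -t)) _ (show t + (n + -t) = n by omega),
        ← G.map_comp] at this
      exact this

section

variable {g : A.Obj} {h : B.Obj} {q₀ : E.Hom (F.obj g) (G.obj h) 0}

lemma exists_good₂_left (hB : IsPerfectLike B) (hq₀ : IsGood₂ F G g h q₀) {a : A.Obj}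
    (ha : DGCat.Thick g a) : ∃ (b : B.Obj) (_ : DGCat.Thick h b)
      (q : E.Hom (F.obj a) (G.obj b) 0), IsGood₂ F G g h q := by
  induction ha with
  | gen => exact ⟨h, .gen, q₀, hq₀⟩
  | @cone a₁ a₂ c f hf K _ _ h₁ h₂ =>
    obtain ⟨b₁, hb₁, q₁, G₁⟩ := h₁
    obtain ⟨b₂, hb₂, q₂, G₂⟩ := h₂
    have hf : IsClosed f := hf
    obtain ⟨y, hy, hys⟩ := (mixc_qIso G G₁.closed G₁.right hb₂).exists_closed
      ((hf.map F).comp G₂.closed (add_zero 0))
    obtain ⟨s, hs⟩ := hys.exists (-1) (neg_add_cancel 1)
    obtain ⟨b, ⟨L⟩⟩ := hB.cone y hy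
    exact ⟨b, .cone y hy L hb₁ hb₂, _, coneHom_good₂ K L q₁ q₂ s hs G₁ G₂⟩
  | @retract a a' t h' _ ih =>
    obtain ⟨u, v, hu, hv, huv⟩ := h'
    have hu : IsClosed u := hu
    have hv : IsClosed v := hv
    have huv : IsBdry (A.comp (add_neg_cancel t) u v - A.id a) := huv
    obtain ⟨b', hb', q', G'⟩ := ih
    have hq' := G'.closed
    have he : IsClosed (A.comp (neg_add_cancel t) v u) := hv.comp hu _
    have hQ := mixc_qIso G G'.closed G'.right hb'
    obtain ⟨ε, hε, hεs⟩ := hQ.exists_closed ((he.map F).comp hq' (add_zero 0))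
    rw [mixc_apply] at hεs
    have hεε : IsBdry (B.comp (add_zero 0) ε ε - ε) := by
      refine hQ.isBdry ((hε.comp hε _).sub hε) ?_
      have h₁ := IsBdry.comp_right (IsBdry.map F (idem_of_retract hu hv huv)) hq' (add_zero 0)
      rw [map_sub, map_sub, LinearMap.sub_apply, F.map_comp (add_zero 0)] at h₁
      rw [map_sub]
      exact ((idem_transport (he.map F) hε hεs).symm.trans h₁).trans hεs
    obtain ⟨b, p, r, hp, hr, hpr, hrp⟩ := hB.split ε t hε hεε
    refine ⟨b, .retract t ⟨p, r, hp, hr, hpr⟩ hb', _,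
      retract_good₂ (p := p) (r := r) hu hv hp hr huv hpr ?_ G'⟩
    have h₁ := IsBdry.comp_left hq' (IsBdry.map G hrp) (add_zero 0)
    rw [map_sub, map_sub] at h₁
    exact hεs.trans h₁.symm

lemma exists_good₂_right (hA : IsPerfectLike A) (hq₀ : IsGood₂ F G g h q₀) {b : B.Obj}
    (hb : DGCat.Thick h b) : ∃ (a : A.Obj) (_ : DGCat.Thick g a)
      (q : E.Hom (F.obj a) (G.obj b) 0), IsGood₂ F G g h q := by
  induction hb with
  | gen => exact ⟨g, .gen, q₀, hq₀⟩
  | @cone b₁ b₂ c y hy L _ _ h₁ h₂ =>
    obtain ⟨a₁, ha₁, q₁, G₁⟩ := h₁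
    obtain ⟨a₂, ha₂, q₂, G₂⟩ := h₂
    have hy : IsClosed y := hy
    obtain ⟨f, hf, hfs⟩ := (mixl_qIso F G₂.closed G₂.left ha₁).exists_closed
      (G₁.closed.comp (hy.map G) (add_zero 0))
    rw [mixl_apply] at hfs
    obtain ⟨s, hs⟩ := hfs.symm.exists (-1) (neg_add_cancel 1)
    obtain ⟨a, ⟨K⟩⟩ := hA.cone f hf
    exact ⟨a, .cone f hf K ha₁ ha₂, _, coneHom_good₂ K L q₁ q₂ s hs G₁ G₂⟩
  | @retract b b' t h' _ ih =>
    obtain ⟨p, r, hp, hr, hpr⟩ := h'
    have hp : IsClosed p := hp
    have hr : IsClosed r := hr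
    have hpr : IsBdry (B.comp (add_neg_cancel t) p r - B.id b) := hpr
    obtain ⟨a', ha', q', G'⟩ := ih
    have hq' := G'.closed
    have hε : IsClosed (B.comp (neg_add_cancel t) r p) := hr.comp hp _
    have hQ := mixl_qIso F G'.closed G'.left ha'
    obtain ⟨e, he, hes⟩ := hQ.exists_closed (hq'.comp (hε.map G) (add_zero 0))
    rw [mixl_apply] at hes
    have hee : IsBdry (A.comp (add_zero 0) e e - e) := by
      refine hQ.isBdry ((he.comp he _).sub he) ?_
      have h₁ := IsBdry.comp_left hq' (IsBdry.map G (idem_of_retract hp hr hpr)) (add_zero 0)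
      rw [map_sub, map_sub] at h₁
      rw [map_sub, mixl_apply, F.map_comp]
      exact ((idem_transport (he.map F) hε hes.symm).trans h₁).trans hes
    obtain ⟨a, u, v, hu, hv, huv, hvu⟩ := hA.split e t he hee
    refine ⟨a, .retract t ⟨u, v, hu, hv, huv⟩ ha', _,
      retract_good₂ (p := p) (r := r) hu hv hp hr huv hpr ?_ G'⟩
    have h₁ := IsBdry.comp_right (IsBdry.map F hvu) hq' (add_zero 0)
    rw [map_sub, map_sub, LinearMap.sub_apply] at h₁
    exact h₁.trans hes.symm

end

/-- The equivalence theorem for two DG functors. -/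
theorem quasiEquivalent_thick₂ (F : DGFun A E) (G : DGFun B E) (hA : IsPerfectLike A)
    (hB : IsPerfectLike B) {g : A.Obj} {h : B.Obj} (q₀ : E.Hom (F.obj g) (G.obj h) 0)
    (hc : IsClosed q₀) (h₁ : QIso (mixl F q₀ g)) (h₂ : QIso (mixc G q₀ h)) :
    QuasiEquivalent (A.full (DGCat.Thick g)) (B.full (DGCat.Thick h)) := by
  have hq₀ : IsGood₂ F G g h q₀ := ⟨hc, h₁, h₂⟩
  refine quasiEquivalent_of_roof (F.res (DGCat.Thick g)) (G.res (DGCat.Thick h))
    (fun x => IsGood₂ F G g h (a := x.a.1) (b := x.b.1) x.q) ?_ ?_ ?_ ?_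
  · intro x _ y hy
    change IsGood₂ F G g h (a := y.a.1) (b := y.b.1) y.q at hy
    have hc := hy.closed
    have hl := hy.left
    have := mixl_qIso F hc hl x.a.2
    exact ⟨this.inj, this.surj⟩
  · intro x hx y _
    change IsGood₂ F G g h (a := x.a.1) (b := x.b.1) x.q at hx
    have := mixc_qIso G hx.closed hx.right y.b.2
    exact ⟨this.inj, this.surj⟩
  · rintro ⟨a, ha⟩
    obtain ⟨b, hb, q, hq⟩ := exists_good₂_left hB hq₀ ha
    exact ⟨⟨⟨a, ha⟩, ⟨b, hb⟩, q, hq.closed⟩, hq, rfl⟩
  · rintro ⟨b, hb⟩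
    obtain ⟨a, ha, q, hq⟩ := exists_good₂_right hA hq₀ hb
    exact ⟨⟨⟨a, ha⟩, ⟨b, hb⟩, q, hq.closed⟩, hq, rfl⟩

end Orl
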