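import Pool.Agent.Work.MP_a6e60d_ag.DG.Roof

/-!
MP_a6e60d_ag: five lemmas for mapping cones in DG categories, retracts.
-/

open CategoryTheory

namespace Orl

universe w

variable {k : Type w} [CommRing k] {A E : DGCat.{0, 1} k}

section Lift

variable {a b : A.Obj} {c e : E.Obj} {φ : ∀ n : ℤ, A.Hom a b n →ₗ[k] E.Hom c e n}

lemma QIso.lift (hφ : QIso φ) (hd : ∀ (n m : ℤ) (x : A.Hom a b n), E.d n m (φ n x) =
    φ m (A.d n m x)) {l m n p : ℤ} (h₁ : l + 1 = m) (h₂ : m + 1 = n) (h₃ : n + 1 = p)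
    (x : A.Hom a b n) (y : E.Hom c e m) (hx : A.d n p x = 0) (hy : E.d m n y = φ n x) :
    ∃ (x' : A.Hom a b m) (y' : E.Hom c e l), A.d m n x' = x ∧ E.d l m y' = y - φ m x' := by
  obtain rfl : m = n - 1 := by omega
  obtain rfl : l = n - 1 - 1 := by omega
  obtain rfl : p = n + 1 := by omega
  obtain ⟨x₁, hx₁⟩ := hφ.inj n x hx ⟨y, hy⟩
  obtain ⟨x₂, hx₂, z, hz⟩ := hφ.surj (n - 1) (y - φ _ x₁) (by
    have e : n - 1 + 1 = n := by omega
    rw [e, map_sub, hy, hd, hx₁, sub_self])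
  have e : n - 1 + 1 = n := by omega
  rw [e] at hx₂
  exact ⟨x₁ + x₂, z, by rw [map_add, hx₁, hx₂, add_zero], by rw [hz, map_add]; abel⟩

lemma QIso.of_lift (H : ∀ (l m n p : ℤ) (_ : l + 1 = m) (_ : m + 1 = n) (_ : n + 1 = p)
    (x : A.Hom a b n) (y : E.Hom c e m) (_ : A.d n p x = 0) (_ : E.d m n y = φ n x),
    ∃ (x' : A.Hom a b m) (y' : E.Hom c e l), A.d m n x' = x ∧ E.d l m y' = y - φ m x') :
    QIso φ where
  inj n x hx := by
    rintro ⟨y, hy⟩
    obtain ⟨x', -, h, -⟩ := H (n - 1 - 1) (n - 1) n (n + 1) (by omega) (by omega) rfl x y hx hy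
    exact ⟨x', h⟩
  surj n y hy := by
    obtain ⟨x', y', h, h'⟩ := H (n - 1) n (n + 1) (n + 1 + 1) (by omega) rfl rfl 0 y (by simp)
      (by simpa using hy)
    exact ⟨x', h, y', h'⟩

end Lift

/-- the Leibniz rule for a closed first factor -/
lemma d_closed_comp {a b c : A.Obj} {n m p m' p' : ℤ} (h : n + m = p) (hm : m + 1 = m')
    (hp : p + 1 = p') (f : A.Hom a b n) (g : A.Hom b c m) (hf : A.d n (n + 1) f = 0) :
    A.d p p' (A.comp h f g) = A.comp (by omega) f (A.d m m' g) := by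
  rw [A.d_comp h rfl hm hp, hf]
  simp

/-- the Leibniz rule for a closed second factor of degree `0` -/
lemma d_comp_closed {a b c : A.Obj} {n p n' p' : ℤ} (h : n + 0 = p) (hn : n + 1 = n')
    (hp : p + 1 = p') (f : A.Hom a b n) (g : A.Hom b c 0) (hg : A.d 0 1 g = 0) :
    A.d p p' (A.comp h f g) = A.comp (by omega) (A.d n n' f) g := by
  rw [A.d_comp h hn (zero_add 1) hp, hg]
  simp

lemma Cone.decomp {a₁ a₂ a a' : A.Obj} {g : A.Hom a₁ a₂ 0} (K : DGCat.Cone g a) {n m : ℤ}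
    (h : -1 + n = m) (x : A.Hom a a' n) :
    x = A.comp (zero_add n) K.snd (A.comp (zero_add n) K.inr x) +
      A.comp (show 1 + m = n by omega) K.fst (A.comp h K.inl x) := by
  rw [← A.assoc (add_zero 0) (zero_add n) (zero_add n) (zero_add n) K.snd K.inr x,
    ← A.assoc (add_neg_cancel 1) h (zero_add n) (show 1 + m = n by omega) K.fst K.inl x,
    ← LinearMap.add_apply, ← map_add, add_comm, K.total, A.id_comp]

lemma Cone.decomp' {a₁ a₂ a a' : A.Obj} {g : A.Hom a₁ a₂ 0} (K : DGCat.Cone g a) {n m : ℤ}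
    (h : n + 1 = m) (x : A.Hom a' a n) :
    x = A.comp (add_zero n) (A.comp (add_zero n) x K.snd) K.inr +
      A.comp (show m + (-1) = n by omega) (A.comp h x K.fst) K.inl := by
  rw [A.assoc (add_zero n) (add_zero 0) (add_zero n) (add_zero n) x K.snd K.inr,
    A.assoc h (add_neg_cancel 1) (show m + (-1) = n by omega) (add_zero n) x K.fst K.inl,
    ← map_add, add_comm, K.total, A.comp_id]

section Contra

variable {a₁ a₂ a a' : A.Obj} {g : A.Hom a₁ a₂ 0} (K : DGCat.Cone g a)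
  {c₁ c₂ c e : E.Obj} {f : E.Hom c₁ c₂ 0} (L : DGCat.Cone f c)
  {φ : ∀ n : ℤ, A.Hom a a' n →ₗ[k] E.Hom c e n}
  {φ₁ : ∀ n : ℤ, A.Hom a₁ a' n →ₗ[k] E.Hom c₁ e n}
  {φ₂ : ∀ n : ℤ, A.Hom a₂ a' n →ₗ[k] E.Hom c₂ e n}
  (η : ∀ n m : ℤ, A.Hom a₂ a' n →ₗ[k] E.Hom c₁ e m)

include K L in
/-- five lemma, morphisms out of a cone -/
theorem QIso.cone_left
    (hd : ∀ (n m : ℤ) (x : A.Hom a a' n), E.d n m (φ n x) = φ m (A.d n m x))
    (hd₁ : ∀ (n m : ℤ) (x : A.Hom a₁ a' n), E.d n m (φ₁ n x) = φ₁ m (A.d n m x))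
    (hd₂ : ∀ (n m : ℤ) (x : A.Hom a₂ a' n), E.d n m (φ₂ n x) = φ₂ m (A.d n m x))
    (h₂ : ∀ (n : ℤ) (x : A.Hom a a' n), E.comp (zero_add n) L.inr (φ n x) =
      φ₂ n (A.comp (zero_add n) K.inr x))
    (h₁ : ∀ (n m : ℤ) (h : -1 + n = m) (x : A.Hom a a' n), E.comp h L.inl (φ n x) =
      φ₁ m (A.comp h K.inl x) + η n m (A.comp (zero_add n) K.inr x))
    (H₁ : QIso φ₁) (H₂ : QIso φ₂) : QIso φ := by
  refine .of_lift fun l m n p hl hm hn x y hx hy => ?_
  obtain ⟨j, hj⟩ : ∃ j, j + 1 = l := ⟨l - 1, by omega⟩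
  -- the second component
  obtain ⟨x₂, y₂, hx₂, hy₂⟩ := H₂.lift hd₂ hl hm hn (A.comp (zero_add n) K.inr x)
    (E.comp (zero_add m) L.inr y)
    (by rw [d_closed_comp (zero_add n) hn hn _ _ K.d_inr, hx, map_zero])
    (by rw [d_closed_comp (zero_add m) hm hm _ _ L.d_inr, hy, h₂])
  -- the corrected elements
  obtain ⟨x', hx'⟩ : ∃ x', x' = x - A.d m n (A.comp (zero_add m) K.snd x₂) := ⟨_, rfl⟩
  obtain ⟨y', hy'⟩ : ∃ y', y' = y - φ m (A.comp (zero_add m) K.snd x₂) -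
    E.d l m (E.comp (zero_add l) L.snd y₂) := ⟨_, rfl⟩
  have isx : A.comp (zero_add m) K.inr (A.comp (zero_add m) K.snd x₂) = x₂ := by
    rw [← A.assoc (add_zero 0) (zero_add m) (zero_add m) (zero_add m), K.inr_snd, A.id_comp]
  have isy : E.comp (zero_add l) L.inr (E.comp (zero_add l) L.snd y₂) = y₂ := by
    rw [← E.assoc (add_zero 0) (zero_add l) (zero_add l) (zero_add l), L.inr_snd, E.id_comp]
  have F₁ : A.comp (zero_add n) K.inr x' = 0 := by
    rw [hx', map_sub, ← d_closed_comp (zero_add m) hm hm _ _ K.d_inr, isx, hx₂, sub_self]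
  have F₂ : E.comp (zero_add m) L.inr y' = 0 := by
    rw [hy', map_sub, map_sub, ← d_closed_comp (zero_add l) hl hl _ _ L.d_inr, isy, hy₂, h₂, isx]
    abel
  have F₃ : A.d n p x' = 0 := by rw [hx', map_sub, hx, A.d_d, sub_zero]
  have F₄ : E.d m n y' = φ n x' := by
    rw [hy', hx', map_sub, map_sub, hy, hd, E.d_d, map_sub, sub_zero]
  obtain ⟨x₁, y₁, hx₁, hy₁⟩ := H₁.lift hd₁ hj hl hm (A.comp (show -1 + n = m by omega) K.inl x')
    (E.comp (show -1 + m = l by omega) L.inl y')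
    (by
      rw [A.d_comp (n' := 0) _ (by omega) hn hm, F₃, K.d_inl,
        A.assoc (add_zero 0) (zero_add n) (zero_add n) (zero_add n), F₁]
      simp)
    (by
      rw [E.d_comp (n' := 0) _ (by omega) hm hl, F₄, L.d_inl,
        E.assoc (add_zero 0) (zero_add m) (zero_add m) (zero_add m), F₂, h₁ _ _ _ _, F₁]
      simp)
  refine ⟨A.comp (zero_add m) K.snd x₂ + A.comp (show 1 + l = m by omega) K.fst x₁,
    E.comp (zero_add l) L.snd y₂ + E.comp (show 1 + j = l by omega) L.fst y₁, ?_, ?_⟩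
  · have e := Cone.decomp K (show -1 + n = m by omega) x'
    rw [F₁, map_zero, zero_add] at e
    rw [map_add, d_closed_comp (show 1 + l = m by omega) hl hm _ _ K.d_fst, hx₁, ← e, hx']
    abel
  · have e := Cone.decomp L (show -1 + m = l by omega) y'
    rw [F₂, map_zero, zero_add] at e
    have e' := Cone.decomp L (show -1 + m = l by omega)
      (φ m (A.comp (show 1 + l = m by omega) K.fst x₁))
    have e₂ : A.comp (zero_add m) K.inr (A.comp (show 1 + l = m by omega) K.fst x₁) = 0 := by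
      rw [← A.assoc (zero_add 1) (show 1 + l = m by omega) (show 1 + l = m by omega) (zero_add m),
        K.inr_fst]
      simp
    have e₁ : A.comp (show -1 + m = l by omega) K.inl (A.comp (show 1 + l = m by omega) K.fst x₁) =
        x₁ := by
      rw [← A.assoc (neg_add_cancel 1) (show 1 + l = m by omega) (zero_add l)
        (show -1 + m = l by omega), K.inl_fst, A.id_comp]
    rw [h₂, h₁ _ _ _ _, e₂, e₁, map_zero, map_zero, map_zero, zero_add, add_zero] at e'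
    rw [map_add, d_closed_comp (show 1 + j = l by omega) hj hl _ _ L.d_fst, hy₁, map_sub, ← e, hy',
      map_add, e']
    abel

end Contra

section Co

variable {a₁ a₂ a a' : A.Obj} {g : A.Hom a₁ a₂ 0} (K : DGCat.Cone g a)
  {c₁ c₂ c e : E.Obj} {f : E.Hom c₁ c₂ 0} (L : DGCat.Cone f c)
  {φ : ∀ n : ℤ, A.Hom a' a n →ₗ[k] E.Hom e c n}
  {φ₁ : ∀ n : ℤ, A.Hom a' a₁ n →ₗ[k] E.Hom e c₁ n}
  {φ₂ : ∀ n : ℤ, A.Hom a' a₂ n →ₗ[k] E.Hom e c₂ n}
  (η : ∀ n m : ℤ, A.Hom a' a₁ n →ₗ[k] E.Hom e c₂ m)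

include K L in
/-- five lemma, morphisms into a cone -/
theorem QIso.cone_right
    (hd : ∀ (n m : ℤ) (x : A.Hom a' a n), E.d n m (φ n x) = φ m (A.d n m x))
    (hd₁ : ∀ (n m : ℤ) (x : A.Hom a' a₁ n), E.d n m (φ₁ n x) = φ₁ m (A.d n m x))
    (hd₂ : ∀ (n m : ℤ) (x : A.Hom a' a₂ n), E.d n m (φ₂ n x) = φ₂ m (A.d n m x))
    (h₁ : ∀ (n m : ℤ) (h : n + 1 = m) (x : A.Hom a' a n), E.comp h (φ n x) L.fst =
      φ₁ m (A.comp h x K.fst))
    (h₂ : ∀ (n m : ℤ) (h : n + 1 = m) (x : A.Hom a' a n), E.comp (add_zero n) (φ n x) L.snd =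
      φ₂ n (A.comp (add_zero n) x K.snd) + η m n (A.comp h x K.fst))
    (H₁ : QIso φ₁) (H₂ : QIso φ₂) : QIso φ := by
  refine .of_lift fun l m n p hl hm hn x y hx hy => ?_
  -- the first component
  obtain ⟨x₁, y₁, hx₁, hy₁⟩ := H₁.lift hd₁ hm hn rfl (A.comp hn x K.fst)
    (- E.comp hm y L.fst)
    (by
      rw [A.d_comp hn hn (show 1 + 1 = 2 by omega) rfl, hx, K.d_fst]
      simp)
    (by
      rw [map_neg, E.d_comp hm hm (show 1 + 1 = 2 by omega) hn, hy, L.d_fst, ← h₁ n p hn x]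
      simp)
  obtain ⟨w, hw⟩ : ∃ w, w = A.comp (show n + (-1) = m by omega) x₁ K.inl := ⟨_, rfl⟩
  obtain ⟨t, ht⟩ : ∃ t, t = E.comp (show m + (-1) = l by omega) y₁ L.inl := ⟨_, rfl⟩
  obtain ⟨x', hx'⟩ : ∃ x', x' = x + A.d m n w := ⟨_, rfl⟩
  obtain ⟨y', hy'⟩ : ∃ y', y' = y + φ m w - E.d l m t := ⟨_, rfl⟩
  have wf : A.comp hm w K.fst = x₁ := by
    rw [hw, A.assoc _ (neg_add_cancel 1) hm (add_zero n), K.inl_fst, A.comp_id]
  have tf : E.comp hl t L.fst = y₁ := by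
    rw [ht, E.assoc _ (neg_add_cancel 1) hl (add_zero m), L.inl_fst, E.comp_id]
  have dwf : A.comp hn (A.d m n w) K.fst = - A.comp hn x K.fst := by
    have := A.d_comp hm hm (show 1 + 1 = 2 by omega) hn w K.fst
    rw [wf, hx₁, K.d_fst, map_zero, zero_add, Int.negOnePow_one, Units.neg_smul, one_smul] at this
    rw [this, neg_neg]
  have dtf : E.comp hm (E.d l m t) L.fst = E.comp hm y L.fst + φ₁ n x₁ := by
    have := E.d_comp hl hl (show 1 + 1 = 2 by omega) hm t L.fst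
    rw [tf, hy₁, L.d_fst, map_zero, zero_add, Int.negOnePow_one, Units.neg_smul, one_smul] at this
    rw [← neg_inj, ← this]
    abel
  have F₁ : A.comp hn x' K.fst = 0 := by
    rw [hx', map_add, LinearMap.add_apply, dwf, add_neg_cancel]
  have F₂ : E.comp hm y' L.fst = 0 := by
    rw [hy', map_sub, map_add, LinearMap.sub_apply, LinearMap.add_apply, dtf, h₁ m n hm, wf]
    abel
  have F₃ : A.d n p x' = 0 := by rw [hx', map_add, hx, A.d_d, add_zero]
  have F₄ : E.d m n y' = φ n x' := by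
    rw [hy', hx', map_sub, map_add, map_add, hy, hd, E.d_d, sub_zero]
  obtain ⟨x₂, y₂, hx₂, hy₂⟩ := H₂.lift hd₂ hl hm hn (A.comp (add_zero n) x' K.snd)
    (E.comp (add_zero m) y' L.snd)
    (by
      rw [A.d_comp (m' := 1) (add_zero n) hn (zero_add 1) hn, F₃, K.d_snd, map_neg,
        ← A.assoc hn (add_zero 1) (show p + 0 = p by omega) hn, F₁]
      simp)
    (by
      rw [E.d_comp (m' := 1) (add_zero m) hm (zero_add 1) hm, F₄, L.d_snd, map_neg,
        ← E.assoc hm (add_zero 1) (show n + 0 = n by omega) hm, F₂, Int.negOnePow_zero, one_smul,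
        h₂ n p hn, F₁]
      simp)
  have ex := Cone.decomp' K hn x'
  rw [F₁, map_zero, LinearMap.zero_apply, add_zero, ← hx₂] at ex
  have ey := Cone.decomp' L hm y'
  rw [F₂, map_zero, LinearMap.zero_apply, add_zero] at ey
  have e' := Cone.decomp' L hm (φ m (A.comp (add_zero m) x₂ K.inr))
  have e₁ : A.comp hm (A.comp (add_zero m) x₂ K.inr) K.fst = 0 := by
    rw [A.assoc (add_zero m) (zero_add 1) hm hm, K.inr_fst, map_zero]
  have e₂ : A.comp (add_zero m) (A.comp (add_zero m) x₂ K.inr) K.snd = x₂ := by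
    rw [A.assoc (add_zero m) (add_zero 0) (add_zero m) (add_zero m), K.inr_snd, A.comp_id]
  rw [h₁ m n hm, h₂ m n hm, e₁, e₂, map_zero, map_zero, map_zero, LinearMap.zero_apply, add_zero,
    add_zero] at e'
  refine ⟨A.comp (add_zero m) x₂ K.inr - w, E.comp (add_zero l) y₂ L.inr + t, ?_, ?_⟩
  · rw [map_sub, d_comp_closed (add_zero m) hm hm _ _ K.d_inr, ← ex, hx']
    abel
  · rw [map_add, d_comp_closed (add_zero l) hl hl _ _ L.d_inr, hy₂, map_sub, map_sub,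
      LinearMap.sub_apply, ← ey, e', hy']
    abel

end Co

end Orl
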