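import Pool.Agent.Work.MP_a6e60d_ag.DG.Qis

/-!
MP_a6e60d_ag: a DG functor `Φ : B → E` and a closed morphism `q₀ : g → Φ h` which induces
quasi-isomorphisms identify the thick closures of `g` and `h`.
-/

open CategoryTheory

namespace Orl

universe w

variable {k : Type w} [CommRing k]

/-- the inclusion of a full DG subcategory, followed by a DG functor -/
def DGFun.res {A E : DGCat.{0, 1} k} (F : DGFun A E) (P : A.Obj → Prop) :
    DGFun (A.full P) E where
  obj a := F.obj a.1
  map := F.map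
  map_d n m f := F.map_d n m f
  map_id a := F.map_id a.1
  map_comp h f g := F.map_comp h f g

/-- the inclusion of a full DG subcategory -/
def DGFun.incl (A : DGCat.{0, 1} k) (P : A.Obj → Prop) : DGFun (A.full P) A where
  obj a := a.1
  map := LinearMap.id
  map_d _ _ _ := rfl
  map_id _ := rfl
  map_comp _ _ _ := rfl

/-- DG functors preserve cones -/
def DGFun.mapCone {A E : DGCat.{0, 1} k} (F : DGFun A E) {a b c : A.Obj} {f : A.Hom a b 0}
    (K : DGCat.Cone f c) : DGCat.Cone (F.map f) (F.obj c) where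
  inl := F.map K.inl
  inr := F.map K.inr
  fst := F.map K.fst
  snd := F.map K.snd
  inl_fst := by rw [← F.map_comp, K.inl_fst, F.map_id]
  inl_snd := by rw [← F.map_comp, K.inl_snd, map_zero]
  inr_fst := by rw [← F.map_comp, K.inr_fst, map_zero]
  inr_snd := by rw [← F.map_comp, K.inr_snd, F.map_id]
  total := by rw [← F.map_comp, ← F.map_comp, ← map_add, K.total, F.map_id]
  d_inl := by rw [← F.map_d, K.d_inl, F.map_comp]
  d_inr := by rw [← F.map_d, K.d_inr, map_zero]
  d_fst := by rw [← F.map_d, K.d_fst, map_zero]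
  d_snd := by rw [← F.map_d, K.d_snd, map_neg, F.map_comp]

lemma IsClosed.map {A E : DGCat.{0, 1} k} (F : DGFun A E) {a b : A.Obj} {n : ℤ}
    {f : A.Hom a b n} (hf : IsClosed f) : IsClosed (F.map f) := by
  unfold IsClosed
  rw [← F.map_d, hf.d, map_zero]

lemma IsBdry.map {A E : DGCat.{0, 1} k} (F : DGFun A E) {a b : A.Obj} {n : ℤ}
    {f : A.Hom a b n} (hf : IsBdry f) : IsBdry (F.map f) := by
  obtain ⟨x, rfl⟩ := hf
  exact ⟨F.map x, (F.map_d _ _ _).symm⟩

variable {B E : DGCat.{0, 1} k} (Φ : DGFun B E)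

/-- `y ↦ Φ y ∘ q` -/
def mixc {a : E.Obj} {b : B.Obj} (q : E.Hom a (Φ.obj b) 0) (T : B.Obj) (n : ℤ) :
    B.Hom b T n →ₗ[k] E.Hom a (Φ.obj T) n :=
  (E.comp (zero_add n) q).comp Φ.map

@[simp] lemma mixc_apply {a : E.Obj} {b : B.Obj} (q : E.Hom a (Φ.obj b) 0) (T : B.Obj) (n : ℤ)
    (y : B.Hom b T n) : mixc Φ q T n y = E.comp (zero_add n) q (Φ.map y) := rfl

lemma d_mixc {a : E.Obj} {b : B.Obj} {q : E.Hom a (Φ.obj b) 0} (hq : IsClosed q) (T : B.Obj)
    (n m : ℤ) (y : B.Hom b T n) : E.d n m (mixc Φ q T n y) = mixc Φ q T m (B.d n m y) := by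
  rw [mixc_apply, mixc_apply, Φ.map_d]
  exact d_prec hq _ n m (Φ.map y)

theorem mixc_qIso {a : E.Obj} {b : B.Obj} {q : E.Hom a (Φ.obj b) 0} (hq : IsClosed q) {h : B.Obj}
    (hh : QIso (mixc Φ q h)) {T : B.Obj} (hT : DGCat.Thick h T) : QIso (mixc Φ q T) := by
  induction hT with
  | gen => exact hh
  | @cone a₁ a₂ c f hf K _ _ h₁ h₂ =>
    refine QIso.cone_right K (Φ.mapCone K) (fun _ _ => 0) (d_mixc Φ hq c) (d_mixc Φ hq a₁)
      (d_mixc Φ hq a₂) (fun n m h x => ?_) (fun n m h x => ?_) h₁ h₂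
    · simp only [mixc_apply, Φ.map_comp]
      exact E.assoc (zero_add n) h h (zero_add m) q (Φ.map x) (Φ.map K.fst)
    · simp only [mixc_apply, Φ.map_comp, LinearMap.zero_apply, add_zero]
      exact E.assoc (zero_add n) (add_zero n) (add_zero n) (zero_add n) q (Φ.map x) (Φ.map K.snd)
  | @retract a₁ a₂ t h _ h₂ =>
    obtain ⟨u, v, hu, hv, huv⟩ := h
    have hu : IsClosed u := hu
    have hv : IsClosed v := hv
    have hu' : IsClosed (Φ.map u) := hu.map Φ
    have hv' : IsClosed (Φ.map v) := hv.map Φ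
    refine h₂.retract t
      (fun n => ((B.comp (rfl : n + t = n + t)).flip u).toAddMonoidHom)
      (fun n => ((B.comp (show n + t + -t = n by omega)).flip v).toAddMonoidHom)
      (fun n => ((E.comp (rfl : n + t = n + t)).flip (Φ.map u)).toAddMonoidHom)
      (fun n => ((E.comp (show n + t + -t = n by omega)).flip (Φ.map v)).toAddMonoidHom)
      (fun n x hx => hx.comp hu _) (fun n x hx => hx.comp hv _)
      (fun n x hx => .comp_right hx hv _) (fun n x hx => hx.comp hu' _)
      (fun n x hx => .comp_right hx hu' _) (fun n x hx => .comp_right hx hv' _)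
      (fun n x hx => ?_) (fun n x hx => ?_) (fun n x hx => ?_) (fun n x hx => ?_)
    · have := IsBdry.comp_left hx huv (add_zero n)
      rw [map_sub, B.comp_id,
        ← B.assoc (rfl : n + t = n + t) (add_neg_cancel t) (show n + t + -t = n by omega)
          (add_zero n)] at this
      exact this
    · have := IsBdry.comp_left hx (IsBdry.map Φ huv) (add_zero n)
      rw [map_sub, Φ.map_id, Φ.map_comp, map_sub, E.comp_id,
        ← E.assoc (rfl : n + t = n + t) (add_neg_cancel t) (show n + t + -t = n by omega)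
          (add_zero n)] at this
      exact this
    · convert isBdry_zero using 1
      rw [sub_eq_zero]
      change E.comp _ q (Φ.map (B.comp _ x u)) = E.comp _ (E.comp _ q (Φ.map x)) (Φ.map u)
      rw [Φ.map_comp]
      exact (E.assoc (zero_add n) rfl rfl (zero_add _) q (Φ.map x) (Φ.map u)).symm
    · convert isBdry_zero using 1
      rw [sub_eq_zero]
      change E.comp _ q (Φ.map (B.comp _ x v)) = E.comp _ (E.comp _ q (Φ.map x)) (Φ.map v)
      rw [Φ.map_comp]
      exact (E.assoc (zero_add _) (show n + t + -t = n by omega) _ (zero_add n) q (Φ.map x)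
        (Φ.map v)).symm

/-- The closed morphism `q : a → Φ b` identifies `Hom (g, a)` with `Hom (g, Φ b)` and
`Hom (b, h)` with `Hom (a, Φ h)`. -/
structure IsGood (g : E.Obj) (h : B.Obj) {a : E.Obj} {b : B.Obj} (q : E.Hom a (Φ.obj b) 0) :
    Prop where
  closed : IsClosed q
  left : QIso (postc q g)
  right : QIso (mixc Φ q h)

variable {Φ}

section Cone

variable {a₁ a₂ a : E.Obj} {f : E.Hom a₁ a₂ 0} (K : DGCat.Cone f a)
  {b₁ b₂ b : B.Obj} {y : B.Hom b₁ b₂ 0} (L : DGCat.Cone y b)
  (q₁ : E.Hom a₁ (Φ.obj b₁) 0) (q₂ : E.Hom a₂ (Φ.obj b₂) 0) (s : E.Hom a₁ (Φ.obj b₂) (-1))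

/-- the morphism of cones -/
def coneHom : E.Hom a (Φ.obj b) 0 :=
  E.comp (add_zero 0) K.snd (E.comp (add_zero 0) q₂ (Φ.map L.inr)) +
    E.comp (add_neg_cancel 1) K.fst (E.comp (zero_add (-1)) q₁ (Φ.map L.inl) +
      E.comp (add_zero (-1)) s (Φ.map L.inr))

variable (hs : E.d (-1) 0 s = E.comp (add_zero 0) f q₂ - E.comp (add_zero 0) q₁ (Φ.map y))

lemma coneHom_inr : E.comp (add_zero 0) K.inr (coneHom K L q₁ q₂ s) =
    E.comp (add_zero 0) q₂ (Φ.map L.inr) := by
  rw [coneHom, map_add, ← E.assoc (add_zero 0) (add_zero 0) (add_zero 0) (add_zero 0), K.inr_snd,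
    E.id_comp, ← E.assoc (zero_add 1) (add_neg_cancel 1) (add_neg_cancel 1) (add_zero 0),
    K.inr_fst, map_zero, LinearMap.zero_apply, add_zero]

lemma coneHom_inl : E.comp (add_zero (-1)) K.inl (coneHom K L q₁ q₂ s) =
    E.comp (zero_add (-1)) q₁ (Φ.map L.inl) + E.comp (add_zero (-1)) s (Φ.map L.inr) := by
  rw [coneHom, map_add, ← E.assoc (add_zero (-1)) (add_zero 0) (add_zero (-1)) (add_zero (-1)),
    K.inl_snd, map_zero, LinearMap.zero_apply, zero_add,
    ← E.assoc (neg_add_cancel 1) (add_neg_cancel 1) (zero_add (-1)) (add_zero (-1)), K.inl_fst,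
    E.id_comp]

lemma coneHom_fst : E.comp (zero_add 1) (coneHom K L q₁ q₂ s) (Φ.map L.fst) =
    E.comp (add_zero 1) K.fst q₁ := by
  rw [coneHom, map_add, LinearMap.add_apply, E.assoc (add_zero 0) (zero_add 1) (zero_add 1)
    (zero_add 1), E.assoc (add_zero 0) (zero_add 1) (zero_add 1) (zero_add 1), ← Φ.map_comp,
    L.inr_fst, E.assoc (add_neg_cancel 1) (neg_add_cancel 1) (zero_add 1) (add_zero 1),
    map_add, LinearMap.add_apply, E.assoc (zero_add (-1)) (neg_add_cancel 1) (neg_add_cancel 1)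
      (add_zero 0), ← Φ.map_comp, L.inl_fst, Φ.map_id, E.comp_id,
    E.assoc (add_zero (-1)) (zero_add 1) (neg_add_cancel 1) (neg_add_cancel 1), ← Φ.map_comp,
    L.inr_fst]
  simp

lemma coneHom_snd : E.comp (add_zero 0) (coneHom K L q₁ q₂ s) (Φ.map L.snd) =
    E.comp (add_zero 0) K.snd q₂ + E.comp (add_neg_cancel 1) K.fst s := by
  rw [coneHom, map_add, LinearMap.add_apply, E.assoc (add_zero 0) (add_zero 0) (add_zero 0)
    (add_zero 0), E.assoc (add_zero 0) (add_zero 0) (add_zero 0) (add_zero 0), ← Φ.map_comp,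
    L.inr_snd, Φ.map_id, E.comp_id,
    E.assoc (add_neg_cancel 1) (add_zero (-1)) (add_zero 0) (add_neg_cancel 1),
    map_add, LinearMap.add_apply, E.assoc (zero_add (-1)) (add_zero (-1)) (add_zero (-1))
      (zero_add (-1)), ← Φ.map_comp, L.inl_snd,
    E.assoc (add_zero (-1)) (add_zero 0) (add_zero (-1)) (add_zero (-1)), ← Φ.map_comp,
    L.inr_snd, Φ.map_id, E.comp_id]
  simp

include hs in
lemma coneHom_closed (hq₁ : IsClosed q₁) (hq₂ : IsClosed q₂) :
    IsClosed (coneHom K L q₁ q₂ s) := by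
  have h₁ : E.d 0 1 (E.comp (add_zero 0) q₂ (Φ.map L.inr)) = 0 :=
    (hq₂.comp (IsClosed.map Φ (show IsClosed L.inr from L.d_inr)) (add_zero 0)).d 1
  have h₂ : E.d (-1) 0 (E.comp (zero_add (-1)) q₁ (Φ.map L.inl) +
      E.comp (add_zero (-1)) s (Φ.map L.inr)) =
      E.comp (add_zero 0) f (E.comp (add_zero 0) q₂ (Φ.map L.inr)) := by
    rw [map_add, d_closed_comp (zero_add (-1)) (neg_add_cancel 1) (neg_add_cancel 1) _ _ hq₁,
      ← Φ.map_d, L.d_inl, d_comp_closed (add_zero (-1)) (neg_add_cancel 1) (neg_add_cancel 1) _ _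
        (IsClosed.map Φ (show IsClosed L.inr from L.d_inr)), hs, map_sub, LinearMap.sub_apply,
      Φ.map_comp, E.assoc (add_zero 0) (add_zero 0) (add_zero 0) (add_zero 0),
      E.assoc (add_zero 0) (add_zero 0) (add_zero 0) (add_zero 0)]
    abel
  refine isClosed_of (zero_add 1) ?_
  rw [coneHom, map_add, E.d_comp (add_zero 0) (zero_add 1) (zero_add 1) (zero_add 1), h₁, K.d_snd,
    d_closed_comp (add_neg_cancel 1) (neg_add_cancel 1) (zero_add 1) _ _
      (show IsClosed K.fst from K.d_fst), h₂, map_zero, zero_add, Int.negOnePow_zero, one_smul,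
    map_neg, LinearMap.neg_apply, E.assoc (add_zero 1) (add_zero 0) (add_zero 1) (add_zero 1),
    neg_add_cancel]

include hs in
theorem coneHom_good {g : E.Obj} {h : B.Obj} (h₁ : IsGood Φ g h q₁) (h₂ : IsGood Φ g h q₂) :
    IsGood Φ g h (coneHom K L q₁ q₂ s) where
  closed := coneHom_closed K L q₁ q₂ s hs h₁.closed h₂.closed
  left := by
    have hc := coneHom_closed K L q₁ q₂ s hs h₁.closed h₂.closed
    refine QIso.cone_right K (Φ.mapCone L)
      (fun n m => if h : n + -1 = m then (E.comp h).flip s else 0)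
      (d_postc hc g) (d_postc h₁.closed g) (d_postc h₂.closed g)
      (fun n m h x => ?_) (fun n m h x => ?_) h₁.left h₂.left
    · change E.comp h (E.comp (add_zero n) x (coneHom K L q₁ q₂ s)) (Φ.map L.fst) =
        E.comp (add_zero m) (E.comp h x K.fst) q₁
      rw [E.assoc (add_zero n) (zero_add 1) h h, coneHom_fst,
        E.assoc h (add_zero 1) (add_zero m) h]
    · have h' : m + -1 = n := by omega
      simp only [dif_pos h']
      change E.comp (add_zero n) (E.comp (add_zero n) x (coneHom K L q₁ q₂ s)) (Φ.map L.snd) =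
        E.comp (add_zero n) (E.comp (add_zero n) x K.snd) q₂ + E.comp h' (E.comp h x K.fst) s
      rw [E.assoc (add_zero n) (add_zero 0) (add_zero n) (add_zero n), coneHom_snd, map_add,
        E.assoc (add_zero n) (add_zero 0) (add_zero n) (add_zero n),
        E.assoc h (add_neg_cancel 1) h' (add_zero n)]
  right := by
    have hc := coneHom_closed K L q₁ q₂ s hs h₁.closed h₂.closed
    refine QIso.cone_left L K
      (fun n m => if h : -1 + n = m then (E.comp h s).comp Φ.map else 0)
      (d_mixc Φ hc h) (d_mixc Φ h₁.closed h) (d_mixc Φ h₂.closed h)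
      (fun n x => ?_) (fun n m h x => ?_) h₁.right h₂.right
    · change E.comp (zero_add n) K.inr (E.comp (zero_add n) (coneHom K L q₁ q₂ s) (Φ.map x)) =
        E.comp (zero_add n) q₂ (Φ.map (B.comp (zero_add n) L.inr x))
      rw [← E.assoc (add_zero 0) (zero_add n) (zero_add n) (zero_add n), coneHom_inr,
        E.assoc (add_zero 0) (zero_add n) (zero_add n) (zero_add n), Φ.map_comp]
    · simp only [dif_pos h]
      change E.comp h K.inl (E.comp (zero_add n) (coneHom K L q₁ q₂ s) (Φ.map x)) =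
        E.comp (zero_add m) q₁ (Φ.map (B.comp h L.inl x)) +
          E.comp h s (Φ.map (B.comp (zero_add n) L.inr x))
      rw [← E.assoc (add_zero (-1)) (zero_add n) h h, coneHom_inl, map_add, LinearMap.add_apply,
        E.assoc (zero_add (-1)) h h (zero_add m), E.assoc (add_zero (-1)) (zero_add n) h h,
        Φ.map_comp, Φ.map_comp]

end Cone

end Orl
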