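import Pool.Agent.Work.MP_a6e60d_ag.DG.Mod

/-!
MP_a6e60d_ag: strict actions of a DG algebra `R` on an object `t` of a DG category and the DG
functor `a ↦ Hom (t, a)` to the right DG modules over `R`.
-/

open CategoryTheory CochainComplex HomComplex

namespace Orl

universe v u w

variable {k : Type} [CommRing k]

/-- A homomorphism of DG algebras from `R` to the endomorphisms of the object `t`. -/
structure StrictAct (R : DGAlg.{0} k) (A : DGCat.{0, 1} k) (t : A.Obj) where
  /-- the action -/
  map : ∀ {n : ℤ}, R.cx.X n →ₗ[k] A.Hom t t n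
  map_one : map R.one = A.id t
  map_mul : ∀ {n m p : ℤ} (h : n + m = p) (x : R.cx.X n) (y : R.cx.X m),
    map (R.mul h x y) = A.comp (by lia) (map y) (map x)
  map_d : ∀ (n m : ℤ) (x : R.cx.X n), map (R.cx.d n m x) = A.d n m (map x)

variable {R : DGAlg.{0} k} {A : DGCat.{0, 1} k} {t : A.Obj} (ρ : StrictAct R A t)

/-- the complex `Hom (a, b)` as a complex of modules -/
@[simps X]
def homCx (a b : A.Obj) : CochainComplex (ModuleCat.{0} k) ℤ where
  X n := ModuleCat.of k (A.Hom a b n)
  d n m := ModuleCat.ofHom (A.d n m)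
  shape n m h := by
    ext f
    exact A.d_shape n m f h
  d_comp_d' n m p _ _ := by
    ext f
    exact A.d_d n m p f

lemma homCx_d {a b : A.Obj} (n m : ℤ) (x : A.Hom a b n) :
    (ConcreteCategory.hom ((homCx a b).d n m)) x = A.d n m x := rfl

/-- `Hom (t, a)` as a right DG module over `R` -/
@[simps]
def homMod (a : A.Obj) : DGMod R where
  cx := homCx t a
  act {n m p} h := ((A.comp (show m + n = p by lia)).comp ρ.map).flip
  act_one {n} x := by
    change A.comp _ (ρ.map R.one) x = x
    rw [ρ.map_one, A.id_comp]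
  act_mul {n m l nm ml p} h₁ h₂ h₃ h₄ x r s := by
    change A.comp _ (ρ.map s) (A.comp _ (ρ.map r) x) = A.comp _ (ρ.map (R.mul h₂ r s)) x
    rw [ρ.map_mul, A.assoc]
  d_act {n m p n' m' p'} h hn hm hp x r := by
    change A.d p p' (A.comp (show m + n = p by lia) (ρ.map r) x) =
      A.comp (show m + n' = p' by lia) (ρ.map r) (A.d n n' x) +
        n.negOnePow • A.comp (show m' + n = p' by lia) (ρ.map (R.cx.d m m' r)) x
    rw [A.d_comp (n' := m') (m' := n') _ hm hn hp, ρ.map_d]

/-- postcomposition with `f` -/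
def postComp {t a b : A.Obj} {n : ℤ} (f : A.Hom a b n) : Cochain (homCx t a) (homCx t b) n :=
  Cochain.mk fun _ _ h => ModuleCat.ofHom ((A.comp h).flip f)

lemma postComp_v {t a b : A.Obj} {n : ℤ} (f : A.Hom a b n) (p q : ℤ) (h : p + n = q)
    (x : A.Hom t a p) : (ConcreteCategory.hom ((postComp (t := t) f).v p q h)) x =
      A.comp h x f := rfl

lemma postComp_lin {a b : A.Obj} {n : ℤ} (f : A.Hom a b n) :
    postComp f ∈ DGMod.lin (homMod ρ a) (homMod ρ b) n := by
  intro p q h m p' q' hp hq x r
  change A.comp _ (A.comp (show m + p = p' by lia) (ρ.map r) x) f =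
    A.comp (show m + q = q' by lia) (ρ.map r) (A.comp h x f)
  rw [A.assoc]

lemma δ_postComp {t a b : A.Obj} {n m : ℤ} (f : A.Hom a b n) :
    postComp (t := t) (A.d n m f) = δ n m (postComp f) := by
  by_cases h : n + 1 = m
  swap
  · rw [δ_shape _ _ h, A.d_shape _ _ _ h]
    ext p q hpq x
    change A.comp hpq x 0 = 0
    simp
  ext p q hpq x
  rw [δ_v n m h _ p q hpq (q - 1) (p + 1) rfl rfl]
  change A.comp hpq x (A.d n m f) = _
  simp only [ModuleCat.hom_add, LinearMap.add_apply, Units.smul_def, ModuleCat.hom_zsmul,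
    LinearMap.smul_apply]
  change _ = A.d (q - 1) q (A.comp (show p + n = q - 1 by lia) x f) +
    (m.negOnePow : ℤ) • A.comp (show p + 1 + n = q by lia) (A.d p (p + 1) x) f
  have s1 : (m.negOnePow : ℤ) = -(n.negOnePow : ℤ) := by
    rw [← h, Int.negOnePow_succ, Units.val_neg]
  rw [A.d_comp (m' := m) (n' := p + 1) _ rfl h (by lia), Units.smul_def, s1, neg_smul]
  abel

/-- the DG functor `a ↦ Hom (t, a)` -/
def homFun : DGFun A (modDG R) where
  obj a := homMod ρ a
  map {a b n} :=
    { toFun f := ⟨postComp f, postComp_lin ρ f⟩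
      map_add' f g := by
        apply Subtype.ext
        ext p q hpq x
        change A.comp hpq x (f + g) = A.comp hpq x f + A.comp hpq x g
        simp
      map_smul' c f := by
        apply Subtype.ext
        ext p q hpq x
        change A.comp hpq x (c • f) = c • A.comp hpq x f
        simp }
  map_d n m f := Subtype.ext (δ_postComp f)
  map_id a := by
    apply Subtype.ext
    ext p x
    change A.comp (add_zero p) x (A.id a) = x
    simp
  map_comp {a b c n m p} h f g := by
    apply Subtype.ext
    ext i j hij x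
    change A.comp hij x (A.comp h f g) = ((postComp f).comp (postComp g) h).v i j hij x
    rw [Cochain.comp_v _ _ h i (i + n) j rfl (by lia)]
    change _ = A.comp _ (A.comp _ x f) g
    rw [A.assoc]

end Orl
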