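import Pool.Agent.Work.MP_a6e60d_ag.DG.ModStr
import Mathlib.Algebra.Category.ModuleCat.Abelian
import Mathlib.Algebra.Homology.HomologicalComplexAbelian
import Mathlib.CategoryTheory.Idempotents.Basic
import Mathlib.Algebra.Homology.Linear
import Mathlib.FieldTheory.Minpoly.Field
import Mathlib.RingTheory.PrincipalIdealDomain

/-!
MP_a6e60d_ag: homotopy idempotents of finite-dimensional DG modules over a field split.
-/

open CategoryTheory CochainComplex HomComplex Polynomial

namespace Orl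

universe v w

section Poly

variable {k : Type w} [Field k] {A : Type v} [Ring A] [Algebra k A]

/-- A polynomial which makes an idempotent from an idempotent modulo an ideal. -/
theorem exists_idem_poly (e : A) (he : IsIntegral k e) :
    ∃ P s : k[X], aeval e P * aeval e P = aeval e P ∧ P - X = (X * X - X) * s := by
  have hq : minpoly k e * (X * (X - C 1)) ≠ 0 :=
    mul_ne_zero (minpoly.ne_zero he) (mul_ne_zero X_ne_zero (X_sub_C_ne_zero 1))
  have hq0 : aeval e (minpoly k e * (X * (X - C 1))) = 0 := by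
    rw [map_mul, minpoly.aeval, zero_mul]
  obtain ⟨r, hr, hr1⟩ := exists_eq_pow_rootMultiplicity_mul_and_not_dvd _ hq 1
  set q : k[X] := minpoly k e * (X * (X - C 1)) with hqdef
  set b := q.rootMultiplicity 1
  have hcop : IsCoprime ((X - C 1 : k[X]) ^ b) r :=
    ((irreducible_X_sub_C (1 : k)).coprime_iff_not_dvd.2 hr1).pow_left
  have hXX : IsCoprime (X : k[X]) (X - C 1) := by
    refine ⟨1, -1, ?_⟩
    simp
  have hb : b ≠ 0 := by
    intro h0
    apply hr1
    rw [h0, pow_zero, one_mul] at hr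
    rw [← hr, hqdef]
    exact ⟨minpoly k e * X, by ring⟩
  have hXr : (X : k[X]) ∣ r := by
    have : (X : k[X]) ∣ (X - C 1) ^ b * r := by
      rw [← hr, hqdef]
      exact ⟨minpoly k e * (X - C 1), by ring⟩
    exact (hXX.pow_right).dvd_of_dvd_mul_left this
  obtain ⟨u, v, huv⟩ := hcop
  have h1 : (X - C 1 : k[X]) ∣ v * r - X := by
    rw [dvd_iff_isRoot, IsRoot.def]
    have := congrArg (eval 1) huv
    simp only [eval_add, eval_mul, eval_pow, eval_sub, eval_X, eval_C, sub_self,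
      zero_pow hb, mul_zero, zero_add, eval_one] at this
    simp [this]
  have h0 : (X : k[X]) ∣ v * r - X := dvd_sub (hXr.mul_left v) dvd_rfl
  obtain ⟨s, hs⟩ := hXX.mul_dvd h0 h1
  refine ⟨v * r, s, ?_, ?_⟩
  · have e₁ : v * r * (v * r) - v * r = - (u * v) * q := by
      have e₂ : v * r - 1 = - (u * (X - C 1) ^ b) := by rw [← huv]; ring
      calc v * r * (v * r) - v * r = v * r * (v * r - 1) := by ring
        _ = - (u * v) * ((X - C 1) ^ b * r) := by rw [e₂]; ring
        _ = _ := by rw [← hr]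
    have e₃ := congrArg (aeval e) e₁
    rw [map_mul (aeval e) _ q, hq0, mul_zero, map_sub, map_mul, sub_eq_zero] at e₃
    exact e₃
  · rw [hs, C_1]
    ring

end Poly

section Split

variable {k : Type w} [Field k]

/-- The endomorphism algebra of a complex with finite-dimensional total space. -/
lemma CxFin.isIntegral {K : CochainComplex (ModuleCat.{v} k) ℤ} (hK : CxFin K) (f : End K) :
    IsIntegral k f := by
  have : Finite {n | Nontrivial (K.X n)} := hK.2
  have h₁ : ∀ n, Module.Finite k (K.X n) := hK.1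
  let φ : End K →ₗ[k] (∀ n : {n | Nontrivial (K.X n)}, K.X n.1 →ₗ[k] K.X n.1) :=
    { toFun := fun z n => (HomologicalComplex.Hom.f z n.1).hom
      map_add' := fun _ _ => rfl
      map_smul' := fun _ _ => rfl }
  have hφ : Function.Injective φ := by
    intro z z' h
    refine HomologicalComplex.Hom.ext (funext fun n => ?_)
    by_cases hn : Nontrivial (K.X n)
    · exact ModuleCat.hom_ext (congrFun h ⟨n, hn⟩)
    · rw [not_nontrivial_iff_subsingleton] at hn
      ext x
      exact Subsingleton.elim _ _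
  have : Module.Finite k (End K) := Module.Finite.of_injective φ hφ
  exact IsIntegral.of_finite k f

variable {R : DGAlg.{v} k}

lemma DGMod.lin_aeval {M : DGMod R} {f : M.cx ⟶ M.cx}
    (hf : Cochain.ofHom f ∈ DGMod.lin M M 0) (P : k[X]) :
    ∀ a : M.cx ⟶ M.cx, a = aeval (A := End M.cx) f P → Cochain.ofHom a ∈ DGMod.lin M M 0 := by
  induction P using Polynomial.induction_on' with
  | add p q hp hq =>
    intro a ha
    rw [map_add] at ha
    obtain ⟨b, hb⟩ : ∃ b : M.cx ⟶ M.cx, b = aeval (A := End M.cx) f p := ⟨_, rfl⟩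
    obtain ⟨c, hc⟩ : ∃ c : M.cx ⟶ M.cx, c = aeval (A := End M.cx) f q := ⟨_, rfl⟩
    have e : a = b + c := by rw [ha, hb, hc]
    rw [e, Cochain.ofHom_add]
    exact Submodule.add_mem _ (hp b hb) (hq c hc)
  | monomial n c =>
    intro a ha
    rw [← smul_X_eq_monomial, map_smul] at ha
    have h : ∀ b : M.cx ⟶ M.cx, b = aeval (A := End M.cx) f (X ^ n : k[X]) →
        Cochain.ofHom b ∈ DGMod.lin M M 0 := by
      clear ha
      induction n with
      | zero =>
        intro b hb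
        rw [pow_zero, map_one] at hb
        subst hb
        exact DGMod.lin_id M
      | succ n ih =>
        intro b hb
        obtain ⟨b', hb'⟩ : ∃ b' : M.cx ⟶ M.cx, b' = aeval (A := End M.cx) f (X ^ n : k[X]) :=
          ⟨_, rfl⟩
        have := DGMod.lin_comp (add_zero 0) hf (ih b' hb')
        rw [← Cochain.ofHom_comp] at this
        have e : b = f ≫ b' := by
          rw [pow_succ, map_mul, aeval_X, ← hb'] at hb
          exact hb
        rw [e]
        exact this
    obtain ⟨b, hb⟩ : ∃ b : M.cx ⟶ M.cx, b = aeval (A := End M.cx) f (X ^ n : k[X]) := ⟨_, rfl⟩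
    have h' := Submodule.smul_mem (DGMod.lin M M 0) c (h b hb)
    have e : a = c • b := by rw [ha, hb]
    convert h' using 1
    refine Cochain.ext₀ _ _ fun p => ?_
    rw [Cochain.smul_v, Cochain.ofHom_v, Cochain.ofHom_v, e]
    rfl

open DGMod in
/-- Homotopy idempotents of finite-dimensional DG modules over a field split, with `p ∘ i` equal
to the identity. -/
theorem exists_split_modDG (T : (modDG R).Obj) (hT : CxFin (DGMod.cx T))
    (e : (modDG R).Hom T T 0) (he : (modDG R).d 0 1 e = 0)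
    (hee : DGCat.Homot ((modDG R).comp (add_zero 0) e e) e) :
    ∃ (T' : (modDG R).Obj) (i : (modDG R).Hom T' T 0) (p : (modDG R).Hom T T' 0),
      (modDG R).d 0 1 i = 0 ∧ (modDG R).d 0 1 p = 0 ∧
        (modDG R).comp (add_zero 0) i p = (modDG R).id T' ∧
        DGCat.Homot ((modDG R).comp (add_zero 0) p i) e ∧ CxFin (DGMod.cx T') := by
  change DGMod R at T
  obtain ⟨f, hl⟩ := e
  have hf : δ 0 1 f = 0 := congrArg Subtype.val he
  obtain ⟨φ, rfl⟩ : ∃ φ : T.cx ⟶ T.cx, Cochain.ofHom φ = f := by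
    refine ⟨Cocycle.homOf (Cocycle.mk (f : Cochain T.cx T.cx 0) 1 rfl hf), ?_⟩
    rw [Cocycle.cochain_ofHom_homOf_eq_coe]
    rfl
  obtain ⟨⟨h, hh⟩, hhe⟩ := hee
  have hhe : δ (0 - 1) 0 h = (Cochain.ofHom φ).comp (Cochain.ofHom φ) (add_zero 0) -
    Cochain.ofHom φ := congrArg Subtype.val hhe
  obtain ⟨P, s, hP, hs⟩ := exists_idem_poly (k := k) (A := End T.cx) φ (hT.isIntegral φ)
  obtain ⟨π, hπ⟩ : ∃ π : T.cx ⟶ T.cx, π = aeval (A := End T.cx) φ P := ⟨_, rfl⟩
  obtain ⟨ψ, hψ⟩ : ∃ ψ : T.cx ⟶ T.cx, ψ = aeval (A := End T.cx) φ s := ⟨_, rfl⟩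
  have hππ : π ≫ π = π := by
    rw [← hπ] at hP
    exact hP
  have hψφ : π - φ = ψ ≫ (φ ≫ φ - φ) := by
    have := congrArg (aeval (A := End T.cx) φ) hs
    rw [map_sub, aeval_X, map_mul, map_sub, map_mul, aeval_X, ← hπ, ← hψ] at this
    exact this
  obtain ⟨Y, i, p, hip, hpi⟩ := IsIdempotentComplete.idempotents_split T.cx π hππ
  have hPl : Cochain.ofHom π ∈ lin T T 0 := DGMod.lin_aeval hl P π hπ
  have hsl : Cochain.ofHom ψ ∈ lin T T 0 := DGMod.lin_aeval hl s ψ hψ
  have e₁ : (Cochain.ofHom i).comp (Cochain.ofHom p) (add_zero 0) = Cochain.ofHom (𝟙 Y) := by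
    rw [← Cochain.ofHom_comp, hip]
  have e₂ : (Cochain.ofHom p).comp (Cochain.ofHom i) (add_zero 0) ∈ lin T T 0 := by
    rw [← Cochain.ofHom_comp, hpi]
    exact hPl
  have e₃ : δ (0 - 1) 0 ((Cochain.ofHom ψ).comp h (zero_add (0 - 1))) =
      (Cochain.ofHom p).comp (Cochain.ofHom i) (add_zero 0) - Cochain.ofHom φ := by
    rw [δ_ofHom_comp, hhe, ← Cochain.ofHom_comp, ← Cochain.ofHom_comp, hpi, ← Cochain.ofHom_sub,
      ← Cochain.ofHom_comp, ← Cochain.ofHom_sub, hψφ]
  refine ⟨transfer T Y (add_zero 0) (Cochain.ofHom i) (Cochain.ofHom p) (δ_ofHom i) (δ_ofHom p)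
    e₁ e₂, ⟨_, tr_lin_i T Y (add_zero 0) (Cochain.ofHom i) (Cochain.ofHom p) (δ_ofHom i)
      (δ_ofHom p) e₁ e₂⟩, ⟨_, tr_lin_p T Y (add_zero 0) (Cochain.ofHom i) (Cochain.ofHom p)
      (δ_ofHom i) (δ_ofHom p) e₁ e₂⟩, Subtype.ext (δ_ofHom i), Subtype.ext (δ_ofHom p),
    Subtype.ext e₁, ⟨⟨_, DGMod.lin_comp (zero_add (0 - 1)) hsl hh⟩, Subtype.ext e₃⟩, ?_⟩
  refine hT.of_cochain (add_zero 0) (Cochain.ofHom p) fun n m hnm y => ?_
  obtain rfl : m = n := by lia
  exact ⟨i.f m y, tr_pi T Y (add_zero 0) (Cochain.ofHom i) (Cochain.ofHom p) e₁ (add_zero m) y⟩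

end Split

end Orl
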