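import Pool.Agent.Work.MP_a6e60d_ag.DG.Split

/-!
MP_a6e60d_ag: the objects `U` of a DG category which are resolved by the thick closure of `g`:
there is a closed morphism `T → U` with `T` in the thick closure of `g` which induces a
quasi-isomorphism on the morphisms from `g`.  Closure under mapping cones, sums and retracts.
-/

open CategoryTheory

namespace Orl

universe w

variable {k : Type w} [CommRing k] {A : DGCat.{0, 1} k}

section Basic

variable {g a b c : A.Obj}

/-- quasi-isomorphisms with respect to `g` -/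
structure GQis (g : A.Obj) {a b : A.Obj} (q : A.Hom a b 0) : Prop where
  closed : IsClosed q
  inj : ∀ {n : ℤ} {x : A.Hom g a n}, IsClosed x → IsBdry (A.comp (add_zero n) x q) → IsBdry x
  surj : ∀ {n : ℤ} {y : A.Hom g b n}, IsClosed y → ∃ x : A.Hom g a n, IsClosed x ∧
    IsBdry (y - A.comp (add_zero n) x q)

lemma GQis.qiso {q : A.Hom a b 0} (h : GQis g q) : QIso (postc q g) where
  inj _ _ hx hb := h.inj hx hb
  surj _ _ hy := h.surj hy

lemma gqis_of {q : A.Hom a b 0} (hq : IsClosed q) (h : QIso (postc q g)) : GQis g q where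
  closed := hq
  inj hx hb := h.isBdry hx hb
  surj hy := h.exists_closed hy

lemma GQis.thick {q : A.Hom a b 0} (h : GQis g q) {T : A.Obj} (hT : DGCat.Thick g T) :
    GQis T q := gqis_of h.closed (postc_qIso h.closed h.qiso hT)

lemma GQis.id (g a : A.Obj) : GQis g (A.id a) where
  closed := .id a
  inj _ hb := by rwa [A.comp_id] at hb
  surj {n y} hy := ⟨y, hy, by rw [A.comp_id, sub_self]; exact isBdry_zero⟩

lemma GQis.comp {q : A.Hom a b 0} {q' : A.Hom b c 0} (h : GQis g q) (h' : GQis g q') :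
    GQis g (A.comp (add_zero 0) q q') where
  closed := h.closed.comp h'.closed _
  inj {n x} hx hb := by
    rw [← A.assoc (add_zero n) (add_zero 0) (add_zero n) (add_zero n)] at hb
    exact h.inj hx (h'.inj (hx.comp h.closed _) hb)
  surj {n y} hy := by
    obtain ⟨z, hz, hz'⟩ := h'.surj hy
    obtain ⟨x, hx, hx'⟩ := h.surj hz
    refine ⟨x, hx, hz'.trans ?_⟩
    rw [← A.assoc (add_zero n) (add_zero 0) (add_zero n) (add_zero n), ← LinearMap.sub_apply,
      ← map_sub]
    exact hx'.comp_right h'.closed _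

lemma GQis.of_comp {q : A.Hom a b 0} {q' : A.Hom b c 0} (hq : IsClosed q) (h' : GQis g q')
    (h : GQis g (A.comp (add_zero 0) q q')) : GQis g q where
  closed := hq
  inj {n x} hx hb := by
    refine h.inj hx ?_
    rw [← A.assoc (add_zero n) (add_zero 0) (add_zero n) (add_zero n)]
    exact hb.comp_right h'.closed _
  surj {n y} hy := by
    obtain ⟨x, hx, hx'⟩ := h.surj (hy.comp h'.closed (add_zero n))
    refine ⟨x, hx, h'.inj (hy.sub (hx.comp hq _)) ?_⟩
    rw [map_sub, LinearMap.sub_apply, A.assoc (add_zero n) (add_zero 0) (add_zero n)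
      (add_zero n)]
    exact hx'

lemma GQis.of_comp' {q : A.Hom a b 0} {q' : A.Hom b c 0} (hq' : IsClosed q') (h : GQis g q)
    (h' : GQis g (A.comp (add_zero 0) q q')) : GQis g q' where
  closed := hq'
  inj {n x} hx hb := by
    obtain ⟨z, hz, hz'⟩ := h.surj hx
    have h₁ : IsBdry (A.comp (add_zero n) x q' -
        A.comp (add_zero n) z (A.comp (add_zero 0) q q')) := by
      rw [← A.assoc (add_zero n) (add_zero 0) (add_zero n) (add_zero n), ← LinearMap.sub_apply,
        ← map_sub]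
      exact hz'.comp_right hq' _
    have h₂ := h'.inj hz (h₁.symm.of_sub hb)
    exact hz'.of_sub (h₂.comp_right h.closed _)
  surj {n y} hy := by
    obtain ⟨x, hx, hx'⟩ := h'.surj hy
    refine ⟨A.comp (add_zero n) x q, hx.comp h.closed _, ?_⟩
    rw [A.assoc (add_zero n) (add_zero 0) (add_zero n) (add_zero n)]
    exact hx'

lemma GQis.of_homot {q q' : A.Hom a b 0} (h : GQis g q) (hq' : IsClosed q')
    (hh : IsBdry (q - q')) : GQis g q' where
  closed := hq'
  inj {n x} hx hb := by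
    refine h.inj hx (IsBdry.of_sub (g := A.comp (add_zero n) x q') ?_ hb)
    rw [← map_sub]
    exact .comp_left hx hh _
  surj {n y} hy := by
    obtain ⟨x, hx, hx'⟩ := h.surj hy
    refine ⟨x, hx, hx'.trans ?_⟩
    rw [← map_sub]
    exact .comp_left hx hh _

/-- `U` is resolved by an object of the thick closure of `g` -/
def Res (g U : A.Obj) : Prop := ∃ T, DGCat.Thick g T ∧ ∃ q : A.Hom T U 0, GQis g q

lemma Res.of_thick {T : A.Obj} (h : DGCat.Thick g T) : Res g T := ⟨T, h, A.id T, .id g T⟩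

lemma Res.of_qis {q : A.Hom a b 0} (h : GQis g q) (ha : Res g a) : Res g b := by
  obtain ⟨T, hT, p, hp⟩ := ha
  exact ⟨T, hT, _, hp.comp h⟩

/-- lifting a morphism from an object of the thick closure -/
lemma GQis.lift {q : A.Hom a b 0} (h : GQis g q) {T : A.Obj} (hT : DGCat.Thick g T) {n : ℤ}
    {f : A.Hom T b n} (hf : IsClosed f) : ∃ f' : A.Hom T a n, IsClosed f' ∧
      IsBdry (f - A.comp (add_zero n) f' q) := (h.thick hT).surj hf

lemma Res.of_qis' {q : A.Hom a b 0} (h : GQis g q) (hb : Res g b) : Res g a := by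
  obtain ⟨T, hT, p, hp⟩ := hb
  obtain ⟨f, hf, hf'⟩ := h.lift hT hp.closed
  exact ⟨T, hT, f, .of_comp hf h (hp.of_homot (hf.comp h.closed _) hf')⟩

end Basic

section Cone

variable {g : A.Obj} (hA : ∀ {a b : A.Obj} (f : A.Hom a b 0), IsClosed f →
  ∃ c, Nonempty (DGCat.Cone f c))

/-- the identity DG functor -/
@[simps]
def DGFun.idFun (A : DGCat.{0, 1} k) : DGFun A A where
  obj a := a
  map := LinearMap.id
  map_d _ _ _ := rfl
  map_id _ := rfl
  map_comp _ _ _ := rfl

lemma GQis.cone {a₁ a₂ a b₁ b₂ b : A.Obj} {f : A.Hom a₁ a₂ 0} (K : DGCat.Cone f a)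
    {y : A.Hom b₁ b₂ 0} (L : DGCat.Cone y b) {q₁ : A.Hom a₁ b₁ 0} {q₂ : A.Hom a₂ b₂ 0}
    (h₁ : GQis g q₁) (h₂ : GQis g q₂)
    (hs : IsBdry (A.comp (add_zero 0) f q₂ - A.comp (add_zero 0) q₁ y)) :
    ∃ q : A.Hom a b 0, GQis g q := by
  obtain ⟨s, hs⟩ := hs.exists (-1) (neg_add_cancel 1)
  obtain ⟨q, hc, e₁, e₂⟩ : ∃ q : A.Hom a b 0, IsClosed q ∧
      A.comp (zero_add 1) q L.fst = A.comp (add_zero 1) K.fst q₁ ∧
      A.comp (add_zero 0) q L.snd = A.comp (add_zero 0) K.snd q₂ +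
        A.comp (add_neg_cancel 1) K.fst s :=
    ⟨coneHom (Φ := DGFun.idFun A) K L q₁ q₂ s,
      coneHom_closed (Φ := DGFun.idFun A) K L q₁ q₂ s hs h₁.closed h₂.closed,
      coneHom_fst (Φ := DGFun.idFun A) K L q₁ q₂ s, coneHom_snd (Φ := DGFun.idFun A) K L q₁ q₂ s⟩
  refine ⟨q, gqis_of hc ?_⟩
  refine QIso.cone_right K L
    (fun n m => if h : n + -1 = m then (A.comp h).flip s else 0)
    (d_postc hc g) (d_postc h₁.closed g) (d_postc h₂.closed g)
    (fun n m h x => ?_) (fun n m h x => ?_) h₁.qiso h₂.qiso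
  · change A.comp h (A.comp (add_zero n) x q) L.fst =
      A.comp (add_zero m) (A.comp h x K.fst) q₁
    rw [A.assoc (add_zero n) (zero_add 1) h h, e₁, A.assoc h (add_zero 1) (add_zero m) h]
  · have h' : m + -1 = n := by omega
    simp only [dif_pos h']
    change A.comp (add_zero n) (A.comp (add_zero n) x q) L.snd =
      A.comp (add_zero n) (A.comp (add_zero n) x K.snd) q₂ + A.comp h' (A.comp h x K.fst) s
    rw [A.assoc (add_zero n) (add_zero 0) (add_zero n) (add_zero n), e₂, map_add,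
      A.assoc (add_zero n) (add_zero 0) (add_zero n) (add_zero n),
      A.assoc h (add_neg_cancel 1) h' (add_zero n)]

include hA in
theorem Res.cone {a b c : A.Obj} {f : A.Hom a b 0} (hf : IsClosed f) (K : DGCat.Cone f c)
    (ha : Res g a) (hb : Res g b) : Res g c := by
  obtain ⟨T, hT, q, hq⟩ := ha
  obtain ⟨T', hT', q', hq'⟩ := hb
  obtain ⟨y, hy, hy'⟩ := hq'.lift hT (hq.closed.comp hf (add_zero 0))
  obtain ⟨S, ⟨L⟩⟩ := hA y hy
  obtain ⟨p, hp⟩ := GQis.cone L K hq hq' hy'.symm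
  exact ⟨S, .cone y hy L hT hT', p, hp⟩

end Cone

section Retract

variable {g a b : A.Obj}

theorem Res.retract (hA : IsPerfectLike A) {u : A.Hom a b 0} {v : A.Hom b a 0} (hu : IsClosed u)
    (hv : IsClosed v) (huv : IsBdry (A.comp (add_zero 0) u v - A.id a)) (hb : Res g b) :
    Res g a := by
  obtain ⟨T, hT, q, hq⟩ := hb
  have cqv : IsClosed (A.comp (add_zero 0) q v) := hq.closed.comp hv _
  obtain ⟨e, he, he'⟩ := hq.lift hT (f := A.comp (add_zero 0) (A.comp (add_zero 0) q v) u)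
    (cqv.comp hu _)
  -- `he' : q v u ~ e q`
  have hqT := hq.thick hT
  have E₁ : IsBdry (A.comp (add_zero 0) (A.comp (add_zero 0) e q) v -
      A.comp (add_zero 0) q v) := by
    have h₁ := he'.symm.comp_right hv (add_zero 0)
    rw [map_sub, LinearMap.sub_apply] at h₁
    refine h₁.trans ?_
    have h₂ := IsBdry.comp_left cqv huv (add_zero 0)
    rw [map_sub, A.comp_id] at h₂
    rw [A.assoc (add_zero 0) (add_zero 0) (add_zero 0) (add_zero 0) _ u v]
    exact h₂
  have hee : IsBdry (A.comp (add_zero 0) e e - e) := by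
    refine hqT.inj ((he.comp he _).sub he) ?_
    rw [map_sub, LinearMap.sub_apply, A.assoc (add_zero 0) (add_zero 0) (add_zero 0) (add_zero 0)]
    have h₁ := IsBdry.comp_left he he'.symm (add_zero 0)
    rw [map_sub] at h₁
    refine h₁.trans ?_
    have h₂ := IsBdry.comp_right E₁ hu (add_zero 0)
    rw [map_sub, LinearMap.sub_apply] at h₂
    rw [← A.assoc (add_zero 0) (add_zero 0) (add_zero 0) (add_zero 0) e,
      ← A.assoc (add_zero 0) (add_zero 0) (add_zero 0) (add_zero 0) e]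
    exact h₂.trans he'
  obtain ⟨S, p, r, hp, hr, hpr, hrp⟩ := hA.split e 0 he hee
  have hr0 : ∃ r' : A.Hom T S 0, IsClosed r' ∧ IsBdry (A.comp (add_zero 0) p r' - A.id S) ∧
      IsBdry (A.comp (add_zero 0) r' p - e) := ⟨r, hr, hpr, hrp⟩
  obtain ⟨r', hr', hpr', hrp'⟩ := hr0
  refine ⟨S, .retract 0 ⟨p, r, hp, hr, hpr⟩ hT, A.comp (add_zero 0) p (A.comp (add_zero 0) q v),
    ⟨hp.comp cqv _, fun {n x} hx hb => ?_, fun {n y} hy => ?_⟩⟩
  · -- injectivity
    have h₁ : IsBdry (A.comp (add_zero n) (A.comp (add_zero n) x p) e) := by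
      refine hq.inj ((hx.comp hp _).comp he _) ?_
      rw [A.assoc (add_zero n) (add_zero 0) (add_zero n) (add_zero n)]
      have h₂ := IsBdry.comp_left (hx.comp hp (add_zero n)) he'.symm (add_zero n)
      rw [map_sub] at h₂
      refine h₂.of_sub ?_
      rw [← A.assoc (add_zero n) (add_zero 0) (add_zero n) (add_zero n),
        A.assoc (add_zero n) (add_zero 0) (add_zero n) (add_zero n) x p]
      exact hb.comp_right hu _
    have h₃ : IsBdry (A.comp (add_zero n) x p) := by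
      have h₄ := IsBdry.comp_left (hx.comp hp (add_zero n)) hrp' (add_zero n)
      rw [map_sub, ← A.assoc (add_zero n) (add_zero 0) (add_zero n) (add_zero n),
        A.assoc (add_zero n) (add_zero 0) (add_zero n) (add_zero n) x p r'] at h₄
      have h₅ := IsBdry.comp_left hx hpr' (add_zero n)
      rw [map_sub, A.comp_id] at h₅
      have h₆ := h₅.comp_right hp (add_zero n)
      rw [map_sub, LinearMap.sub_apply] at h₆
      exact (h₆.symm.trans h₄).of_sub h₁
    have h₅ := IsBdry.comp_left hx hpr' (add_zero n)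
    rw [map_sub, A.comp_id, ← A.assoc (add_zero n) (add_zero 0) (add_zero n) (add_zero n)] at h₅
    exact h₅.symm.of_sub (h₃.comp_right hr' _)
  · -- surjectivity
    obtain ⟨x, hx, hx'⟩ := hq.surj (hy.comp hu (add_zero n))
    refine ⟨A.comp (add_zero n) x r', hx.comp hr' _, ?_⟩
    have h₁ := IsBdry.comp_left hy huv (add_zero n)
    rw [map_sub, A.comp_id, ← A.assoc (add_zero n) (add_zero 0) (add_zero n) (add_zero n)] at h₁
    have h₂ := hx'.comp_right hv (add_zero n)
    rw [map_sub, LinearMap.sub_apply, A.assoc (add_zero n) (add_zero 0) (add_zero n)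
      (add_zero n) x] at h₂
    refine (h₁.symm.trans h₂).trans ?_
    have h₃ := IsBdry.comp_left hx E₁ (add_zero n)
    rw [map_sub, A.assoc (add_zero 0) (add_zero 0) (add_zero 0) (add_zero 0) e] at h₃
    have h₄ := (IsBdry.comp_left hx hrp' (add_zero n)).comp_right cqv (add_zero n)
    rw [map_sub, map_sub, LinearMap.sub_apply] at h₄
    rw [A.assoc (add_zero n) (add_zero 0) (add_zero n) (add_zero n) x e] at h₄
    refine h₃.symm.trans (h₄.symm.trans ?_)
    convert isBdry_zero using 1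
    rw [sub_eq_zero, ← A.assoc (add_zero n) (add_zero 0) (add_zero n) (add_zero n) x r' p,
      A.assoc (add_zero n) (add_zero 0) (add_zero n) (add_zero n) _ p]

/-- contractible objects are resolved -/
theorem Res.of_contractible (h : IsBdry (A.id a)) : Res g a := by
  refine .of_thick (.retract 0 ⟨0, 0, map_zero _, map_zero _, ?_⟩ .gen)
  rw [homot_iff]
  have : A.comp (add_neg_cancel 0) (0 : A.Hom a g 0) (0 : A.Hom g a (-0)) - A.id a =
    - A.id a := by simp
  rw [this]
  exact h.neg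

end Retract

section Sum

/-- `c` is the direct sum of `a` and `b` -/
structure Biprod (a b c : A.Obj) where
  /-- the first inclusion -/
  i₁ : A.Hom a c 0
  /-- the second inclusion -/
  i₂ : A.Hom b c 0
  /-- the first projection -/
  p₁ : A.Hom c a 0
  /-- the second projection -/
  p₂ : A.Hom c b 0
  i₁_closed : IsClosed i₁
  i₂_closed : IsClosed i₂
  p₁_closed : IsClosed p₁
  p₂_closed : IsClosed p₂
  i₁_p₁ : A.comp (add_zero 0) i₁ p₁ = A.id a
  i₁_p₂ : A.comp (add_zero 0) i₁ p₂ = 0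
  i₂_p₁ : A.comp (add_zero 0) i₂ p₁ = 0
  i₂_p₂ : A.comp (add_zero 0) i₂ p₂ = A.id b
  total : A.comp (add_zero 0) p₁ i₁ + A.comp (add_zero 0) p₂ i₂ = A.id c

variable {a a' b c : A.Obj}

/-- the direct sum as a mapping cone -/
def Biprod.toCone (P : Biprod a b c) (S : Shift 1 a' a) :
    DGCat.Cone (0 : A.Hom a' b 0) c where
  inl := A.comp (add_zero (-1)) S.r P.i₁
  inr := P.i₂
  fst := A.comp (zero_add 1) P.p₁ S.p
  snd := P.p₂
  inl_fst := by
    rw [A.assoc (add_zero (-1)) (zero_add 1) (neg_add_cancel 1) (neg_add_cancel 1),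
      ← A.assoc (add_zero 0) (zero_add 1) (zero_add 1) (zero_add 1), P.i₁_p₁, A.id_comp]
    exact S.r_p
  inl_snd := by
    rw [A.assoc (add_zero (-1)) (add_zero 0) (add_zero (-1)) (add_zero (-1)), P.i₁_p₂, map_zero]
  inr_fst := by
    rw [← A.assoc (add_zero 0) (zero_add 1) (zero_add 1) (zero_add 1), P.i₂_p₁, map_zero,
      LinearMap.zero_apply]
  inr_snd := P.i₂_p₂
  total := by
    rw [← P.total]
    congr 1
    rw [A.assoc (zero_add 1) (add_neg_cancel 1) (add_neg_cancel 1) (add_zero 0),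
      ← A.assoc (add_neg_cancel 1) (add_zero (-1)) (add_zero 0) (add_neg_cancel 1)]
    have := S.p_r
    rw [this, A.id_comp]
  d_inl := by
    rw [map_zero, LinearMap.zero_apply]
    exact (S.r_closed.comp P.i₁_closed (add_zero (-1))).d 0
  d_inr := P.i₂_closed.d 1
  d_fst := (P.p₁_closed.comp S.p_closed (zero_add 1)).d 2
  d_snd := by
    rw [map_zero, neg_zero]
    exact P.p₂_closed.d 1

theorem Thick.biprod {g : A.Obj} (hs : ∀ (t : ℤ) (L : A.Obj), ∃ M, Nonempty (Shift t L M))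
    (P : Biprod a b c) (ha : DGCat.Thick g a) (hb : DGCat.Thick g b) : DGCat.Thick g c := by
  obtain ⟨a', ⟨S⟩⟩ := hs (-1) a
  have S' : Shift 1 a' a := ⟨S.r, S.p, S.r_closed, S.p_closed, S.r_p, S.p_r⟩
  refine .cone 0 (map_zero _) (P.toCone S') ?_ hb
  refine .retract (-1) ⟨S.p, S.r, S.p_closed, S.r_closed, ?_⟩ ha
  have := S.p_r
  rw [homot_iff, this, sub_self]
  exact isBdry_zero

/-- the mapping cone of a zero morphism is a direct sum -/
def Biprod.ofCone (S : Shift 1 a' a) (K : DGCat.Cone (0 : A.Hom a' b 0) c) : Biprod a b c where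
  i₁ := A.comp (add_neg_cancel 1) S.p K.inl
  i₂ := K.inr
  p₁ := A.comp (add_neg_cancel 1) K.fst S.r
  p₂ := K.snd
  i₁_closed := by
    refine S.p_closed.comp ?_ _
    refine isClosed_of (neg_add_cancel 1) ?_
    rw [K.d_inl, map_zero, LinearMap.zero_apply]
  i₂_closed := K.d_inr
  p₁_closed := by
    have h : IsClosed K.fst := K.d_fst
    exact h.comp S.r_closed _
  p₂_closed := by
    refine isClosed_of (zero_add 1) ?_
    rw [K.d_snd, map_zero, neg_zero]
  i₁_p₁ := by
    rw [A.assoc (add_neg_cancel 1) (add_zero (-1)) (add_zero 0) (add_neg_cancel 1),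
      ← A.assoc (neg_add_cancel 1) (add_neg_cancel 1) (zero_add (-1)) (add_zero (-1)), K.inl_fst,
      A.id_comp]
    exact S.p_r
  i₁_p₂ := by
    rw [A.assoc (add_neg_cancel 1) (add_zero (-1)) (add_zero 0) (add_neg_cancel 1), K.inl_snd,
      map_zero]
  i₂_p₁ := by
    rw [← A.assoc (zero_add 1) (add_neg_cancel 1) (add_neg_cancel 1) (add_zero 0), K.inr_fst,
      map_zero, LinearMap.zero_apply]
  i₂_p₂ := K.inr_snd
  total := by
    rw [← K.total]
    congr 1
    rw [A.assoc (add_neg_cancel 1) (add_zero (-1)) (add_zero 0) (add_neg_cancel 1),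
      ← A.assoc (neg_add_cancel 1) (add_neg_cancel 1) (zero_add (-1)) (add_zero (-1))]
    have := S.r_p
    rw [this, A.id_comp]

theorem exists_biprod (hs : ∀ (t : ℤ) (L : A.Obj), ∃ M, Nonempty (Shift t L M))
    (hc : ∀ {a b : A.Obj} (f : A.Hom a b 0), IsClosed f → ∃ c, Nonempty (DGCat.Cone f c))
    (a b : A.Obj) : ∃ c, Nonempty (Biprod a b c) := by
  obtain ⟨a', ⟨S⟩⟩ := hs (-1) a
  have S' : Shift 1 a' a := ⟨S.r, S.p, S.r_closed, S.p_closed, S.r_p, S.p_r⟩
  obtain ⟨c, ⟨K⟩⟩ := hc (0 : A.Hom a' b 0) (map_zero _)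
  exact ⟨c, ⟨Biprod.ofCone S' K⟩⟩

variable {g b' c' : A.Obj}

lemma GQis.biprod (P : Biprod a b c) (P' : Biprod a' b' c') {q₁ : A.Hom a a' 0}
    {q₂ : A.Hom b b' 0} (h₁ : GQis g q₁) (h₂ : GQis g q₂) :
    GQis g (A.comp (add_zero 0) (A.comp (add_zero 0) P.p₁ q₁) P'.i₁ +
      A.comp (add_zero 0) (A.comp (add_zero 0) P.p₂ q₂) P'.i₂) := by
  have as : ∀ {x y z w : A.Obj} {n : ℤ} (f : A.Hom x y n) (g : A.Hom y z 0) (h : A.Hom z w 0),
      A.comp (add_zero n) (A.comp (add_zero n) f g) h =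
        A.comp (add_zero n) f (A.comp (add_zero 0) g h) := fun {x y z w n} f g h =>
    A.assoc (add_zero n) (add_zero 0) (add_zero n) (add_zero n) f g h
  refine ⟨((P.p₁_closed.comp h₁.closed _).comp P'.i₁_closed _).add
    ((P.p₂_closed.comp h₂.closed _).comp P'.i₂_closed _), fun {n x} hx hb => ?_,
    fun {n y} hy => ?_⟩
  · rw [map_add] at hb
    have e₁ := hb.comp_right P'.p₁_closed (add_zero n)
    have e₂ := hb.comp_right P'.p₂_closed (add_zero n)
    simp only [map_add, LinearMap.add_apply, as, P'.i₁_p₁, P'.i₂_p₁, P'.i₁_p₂, P'.i₂_p₂,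
      A.comp_id, map_zero, add_zero, zero_add] at e₁ e₂
    rw [← as] at e₁ e₂
    have f₁ := h₁.inj (hx.comp P.p₁_closed _) e₁
    have f₂ := h₂.inj (hx.comp P.p₂_closed _) e₂
    have := (f₁.comp_right P.i₁_closed (add_zero n)).add
      (f₂.comp_right P.i₂_closed (add_zero n))
    rwa [as, as, ← map_add, P.total, A.comp_id] at this
  · obtain ⟨x₁, hx₁, hx₁'⟩ := h₁.surj (hy.comp P'.p₁_closed (add_zero n))
    obtain ⟨x₂, hx₂, hx₂'⟩ := h₂.surj (hy.comp P'.p₂_closed (add_zero n))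
    refine ⟨A.comp (add_zero n) x₁ P.i₁ + A.comp (add_zero n) x₂ P.i₂,
      (hx₁.comp P.i₁_closed _).add (hx₂.comp P.i₂_closed _), ?_⟩
    have := (hx₁'.comp_right P'.i₁_closed (add_zero n)).add
      (hx₂'.comp_right P'.i₂_closed (add_zero n))
    convert this using 1
    have r₁ : A.comp (add_zero 0) P.i₁ (A.comp (add_zero 0) (A.comp (add_zero 0) P.p₁ q₁) P'.i₁ +
        A.comp (add_zero 0) (A.comp (add_zero 0) P.p₂ q₂) P'.i₂) =
        A.comp (add_zero 0) q₁ P'.i₁ := by
      rw [map_add, ← as, ← as, ← as, ← as, P.i₁_p₁, P.i₁_p₂, A.id_comp]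
      simp
    have r₂ : A.comp (add_zero 0) P.i₂ (A.comp (add_zero 0) (A.comp (add_zero 0) P.p₁ q₁) P'.i₁ +
        A.comp (add_zero 0) (A.comp (add_zero 0) P.p₂ q₂) P'.i₂) =
        A.comp (add_zero 0) q₂ P'.i₂ := by
      rw [map_add, ← as, ← as, ← as, ← as, P.i₂_p₁, P.i₂_p₂, A.id_comp]
      simp
    have t : y = A.comp (add_zero n) (A.comp (add_zero n) y P'.p₁) P'.i₁ +
        A.comp (add_zero n) (A.comp (add_zero n) y P'.p₂) P'.i₂ := by
      rw [as, as, ← map_add, P'.total, A.comp_id]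
    rw [map_sub, map_sub, LinearMap.sub_apply, LinearMap.sub_apply, map_add (A.comp (add_zero n)),
      LinearMap.add_apply, as x₁ P.i₁, as x₂ P.i₂, r₁, r₂, as x₁ q₁, as x₂ q₂]
    nth_rewrite 1 [t]
    abel

theorem Res.biprod (hs : ∀ (t : ℤ) (L : A.Obj), ∃ M, Nonempty (Shift t L M))
    (hc : ∀ {a b : A.Obj} (f : A.Hom a b 0), IsClosed f → ∃ c, Nonempty (DGCat.Cone f c))
    (P : Biprod a b c) (ha : Res g a) (hb : Res g b) : Res g c := by
  obtain ⟨T, hT, q, hq⟩ := ha
  obtain ⟨T', hT', q', hq'⟩ := hb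
  obtain ⟨S, ⟨Q⟩⟩ := exists_biprod hs hc T T'
  exact ⟨S, Thick.biprod hs Q hT hT', _, GQis.biprod Q P hq hq'⟩

end Sum

end Orl
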