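import Pool.Agent.Work.MP_a6e60d_ag.DG.Elem
import Pool.Agent.Work.MP_a6e60d_ag.DG.HomFun
import Pool.Agent.Work.MP_a6e60d_ag.DG.Res
import Pool.Agent.Work.MP_a6e60d_ag.DG.EndFin
import Pool.Agent.Work.MP_a6e60d_ag.Sm.ThickF

/-!
MP_a6e60d_ag: the opposite of a DG category; the DG modules `Hom (P, c)` and `Hom (c, P)` over the
endomorphism DG algebra of `P` and its opposite.
-/

open CategoryTheory CochainComplex HomComplex

namespace Orl

universe v u w

section Op

variable {k : Type w} [CommRing k]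

/-- The opposite DG category: `f` followed by `g` in the opposite category is
`(-1) ^ (|f| |g|)` times `g` followed by `f`. -/
@[simps Obj Hom d id]
def DGCat.op (A : DGCat.{v, u} k) : DGCat.{v, u} k where
  Obj := A.Obj
  Hom a b n := A.Hom b a n
  d n m := A.d n m
  d_shape n m f h := A.d_shape n m f h
  d_d n m p f := A.d_d n m p f
  id a := A.id a
  comp {a b c n m p} h := (n * m).negOnePow • (A.comp (a := c) (b := b) (c := a) (n := m) (m := n)
    (p := p) (by lia)).flip
  id_comp f := by
    simp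
  comp_id f := by
    simp
  assoc {a b c e n m l nm ml p} h₁ h₂ h₃ h₄ f g h := by
    simp only [Units.smul_def, LinearMap.smul_apply, LinearMap.flip_apply, map_zsmul, smul_smul]
    rw [A.assoc (show l + m = ml by lia) (show m + n = nm by lia) (by lia) (by lia) h g f,
      ← Units.val_mul, ← Units.val_mul, ← Int.negOnePow_add, ← Int.negOnePow_add]
    congr 3
    subst h₁ h₂
    ring
  d_comp {a b c n m p n' m' p'} h hn hm hp f g := by
    subst hn hm
    simp only [Units.smul_def, LinearMap.smul_apply, LinearMap.flip_apply, map_zsmul]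
    rw [A.d_comp (show m + n = p by lia) rfl rfl hp g f]
    simp only [Units.smul_def, smul_add, smul_smul, mul_add, add_mul, mul_one,
      one_mul, Int.negOnePow_add, Units.val_mul]
    rcases Int.units_eq_one_or n.negOnePow with s1 | s1 <;>
    rcases Int.units_eq_one_or m.negOnePow with s2 | s2 <;>
    rcases Int.units_eq_one_or (n * m).negOnePow with s3 | s3 <;>
    · simp only [s1, s2, s3, Units.val_one, Units.val_neg, mul_one, mul_neg, neg_neg, one_smul,
        neg_smul]
      abel

lemma DGCat.op_comp (A : DGCat.{v, u} k) {a b c : A.Obj} {n m p : ℤ} (h : n + m = p)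
    (f : A.Hom b a n) (g : A.Hom c b m) :
    (A.op.comp (a := a) (b := b) (c := c) h f g : A.Hom c a p) =
      (n * m).negOnePow • A.comp (show m + n = p by lia) g f := rfl

lemma isRetract_mk {A : DGCat.{v, u} k} {a b : A.Obj} {t s : ℤ} (h : t + s = 0)
    (p : A.Hom a b t) (r : A.Hom b a s) (hp : A.d t (t + 1) p = 0) (hr : A.d s (s + 1) r = 0)
    (e : DGCat.Homot (A.comp h p r) (A.id a)) : DGCat.IsRetract t a b := by
  obtain rfl : s = -t := by lia
  exact ⟨p, r, hp, hr, e⟩

lemma isRetract_op {A : DGCat.{v, u} k} {a b : A.Obj} {t : ℤ} (h : DGCat.IsRetract t a b) :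
    DGCat.IsRetract (A := A.op) (-t) a b := by
  obtain ⟨p, r, hp, hr, z, hz⟩ := h
  refine isRetract_mk (A := A.op) (neg_add_cancel t) r (t.negOnePow • p) hr ?_ ⟨z, ?_⟩
  · change A.d t (t + 1) (t.negOnePow • p) = 0
    rw [Units.smul_def, map_zsmul, hp, smul_zero]
  · change A.d (0 - 1) 0 z = _
    rw [hz, DGCat.op_comp, Units.smul_def, Units.smul_def, map_zsmul, LinearMap.smul_apply,
      smul_smul, ← Units.val_mul, ← Int.negOnePow_add,
      (Int.negOnePow_eq_one_iff _).2 (by
        rw [show -t * t + t = t * (1 - t) by ring]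
        exact Int.even_mul.2 (by
          rcases Int.even_or_odd t with h | h
          · exact Or.inl h
          · exact Or.inr (Odd.sub_odd odd_one h))), Units.val_one, one_smul]
    rfl

end Op

section Thick

variable {k : Type w} [CommRing k] {A : DGCat.{0, 1} k}

lemma comp_mid {a b c c' : A.Obj} (S : Shift 1 c' c) {n m l n' m' : ℤ} (x : A.Hom a c n)
    (y : A.Hom c b m) (h₁ : n + 1 = n') (h₂ : -1 + m = m') (h₃ : n' + m' = l) (h₄ : n + m = l) :
    A.comp h₃ (A.comp h₁ x S.p) (A.comp h₂ S.r y) = A.comp h₄ x y := by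
  rw [A.assoc h₁ (show 1 + m' = m by lia) h₃ h₄,
    ← A.assoc (add_neg_cancel 1) h₂ (zero_add m) (show 1 + m' = m by lia), S.p_r, A.id_comp]

/-- a mapping cone in the opposite category -/
def coneOp {a b c c' : A.Obj} {f : A.Hom a b 0} (K : DGCat.Cone f c) (S : Shift 1 c' c) :
    DGCat.Cone (A := A.op) (a := b) (b := a) f c' where
  inl := -A.comp (add_zero (-1)) S.r K.snd
  inr := A.comp (neg_add_cancel 1) S.r K.fst
  fst := A.comp (zero_add 1) K.inr S.p
  snd := A.comp (neg_add_cancel 1) K.inl S.p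
  inl_fst := by
    change ((-1 : ℤ) * 1).negOnePow • A.comp (show (1 : ℤ) + -1 = 0 by rfl)
      (A.comp (zero_add 1) K.inr S.p) (-A.comp (add_zero (-1)) S.r K.snd) = A.id b
    rw [map_neg, comp_mid S K.inr K.snd (zero_add 1) (add_zero (-1)) _ (add_zero 0), K.inr_snd]
    simp
  inl_snd := by
    change ((-1 : ℤ) * 0).negOnePow • A.comp (show (0 : ℤ) + -1 = -1 by rfl)
      (A.comp (neg_add_cancel 1) K.inl S.p) (-A.comp (add_zero (-1)) S.r K.snd) = 0
    rw [map_neg, comp_mid S K.inl K.snd (neg_add_cancel 1) (add_zero (-1)) _ (add_zero (-1)),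
      K.inl_snd]
    simp
  inr_fst := by
    change ((0 : ℤ) * 1).negOnePow • A.comp (show (1 : ℤ) + 0 = 1 by rfl)
      (A.comp (zero_add 1) K.inr S.p) (A.comp (neg_add_cancel 1) S.r K.fst) = 0
    rw [comp_mid S K.inr K.fst (zero_add 1) (neg_add_cancel 1) _ (zero_add 1), K.inr_fst,
      smul_zero]
  inr_snd := by
    change ((0 : ℤ) * 0).negOnePow • A.comp (show (0 : ℤ) + 0 = 0 by rfl)
      (A.comp (neg_add_cancel 1) K.inl S.p) (A.comp (neg_add_cancel 1) S.r K.fst) = A.id a
    rw [comp_mid S K.inl K.fst (neg_add_cancel 1) (neg_add_cancel 1) _ (neg_add_cancel 1),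
      K.inl_fst, mul_zero, Int.negOnePow_zero, one_smul]
  total := by
    change ((1 : ℤ) * -1).negOnePow • A.comp (show (-1 : ℤ) + 1 = 0 by rfl)
      (-A.comp (add_zero (-1)) S.r K.snd) (A.comp (zero_add 1) K.inr S.p) +
      ((0 : ℤ) * 0).negOnePow • A.comp (show (0 : ℤ) + 0 = 0 by rfl)
      (A.comp (neg_add_cancel 1) S.r K.fst) (A.comp (neg_add_cancel 1) K.inl S.p) = A.id c'
    rw [map_neg, LinearMap.neg_apply,
      A.assoc (add_zero (-1)) (zero_add 1) (neg_add_cancel 1) (neg_add_cancel 1) S.r K.snd,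
      A.assoc (neg_add_cancel 1) (add_zero 1) (add_zero 0) (neg_add_cancel 1) S.r K.fst,
      ← A.assoc (add_zero 0) (zero_add 1) (zero_add 1) (zero_add 1) K.snd K.inr S.p,
      ← A.assoc (add_neg_cancel 1) (neg_add_cancel 1) (zero_add 1) (add_zero 1) K.fst K.inl S.p]
    have s₁ : ((1 : ℤ) * -1).negOnePow = -1 := by simp
    rw [s₁, mul_zero, Int.negOnePow_zero, one_smul, Units.neg_smul, one_smul, neg_neg, ← map_add,
      ← LinearMap.add_apply, ← map_add, add_comm, K.total, A.id_comp]
    exact S.r_p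
  d_inl := by
    change A.d (-1) 0 (-A.comp (add_zero (-1)) S.r K.snd) =
      ((0 : ℤ) * 0).negOnePow • A.comp (show (0 : ℤ) + 0 = 0 by rfl)
        (A.comp (neg_add_cancel 1) S.r K.fst) f
    rw [map_neg, d_closed_comp (m' := 1) (p' := 0) (add_zero (-1)) (by lia) (by lia) _ _
      S.r_closed, K.d_snd, map_neg, neg_neg,
      A.assoc (neg_add_cancel 1) (add_zero 1) (add_zero 0) (neg_add_cancel 1), mul_zero,
      Int.negOnePow_zero, one_smul]
  d_inr := by
    change A.d 0 1 (A.comp (neg_add_cancel 1) S.r K.fst) = 0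
    rw [d_closed_comp (m' := 2) (p' := 1) (neg_add_cancel 1) (by lia) (by lia) _ _
      S.r_closed, K.d_fst, map_zero]
  d_fst := by
    change A.d 1 2 (A.comp (zero_add 1) K.inr S.p) = 0
    rw [d_closed_comp (m' := 2) (p' := 2) (zero_add 1) (by lia) (by lia) _ _ K.d_inr,
      show A.d 1 2 S.p = 0 from S.p_closed, map_zero]
  d_snd := by
    change A.d 0 1 (A.comp (neg_add_cancel 1) K.inl S.p) =
      -(((1 : ℤ) * 0).negOnePow • A.comp (show (0 : ℤ) + 1 = 1 by rfl) f
        (A.comp (zero_add 1) K.inr S.p))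
    rw [A.d_comp (n' := 0) (m' := 2) (neg_add_cancel 1) (by lia) (by lia) (by lia),
      show A.d 1 2 S.p = 0 from S.p_closed, map_zero, zero_add, K.d_inl,
      A.assoc (add_zero 0) (zero_add 1) (zero_add 1) (zero_add 1), mul_zero,
      Int.negOnePow_zero, one_smul, Int.negOnePow_one, Units.neg_smul, one_smul]

/-- The thick closure of an object is the same in the opposite category. -/
theorem Thick.op (hs : ∀ c : A.Obj, ∃ c', Nonempty (Shift 1 c' c)) {P a : A.Obj}
    (h : DGCat.Thick P a) : DGCat.Thick (A := A.op) P a := by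
  induction h with
  | gen => exact .gen
  | @cone a b c f hf K _ _ ha hb =>
    obtain ⟨c', ⟨S⟩⟩ := hs c
    have h₁ : DGCat.Thick (A := A.op) P c' := .cone (A := A.op) (a := b) (b := a) (c := c') f hf
      (coneOp K S) hb ha
    refine .retract (A := A.op) (-1) ?_ h₁
    refine isRetract_mk (A := A.op) (neg_add_cancel 1) (S.r : A.op.Hom c c' (-1))
      (-S.p : A.Hom c c' 1) S.r_closed ?_ ⟨(0 : A.Hom c c (0 - 1)), ?_⟩
    · change A.d 1 (1 + 1) (-S.p) = 0
      rw [map_neg, show A.d 1 (1 + 1) S.p = 0 from S.p_closed, neg_zero]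
    · change A.d (0 - 1) 0 0 = ((-1 : ℤ) * 1).negOnePow • A.comp (show (1 : ℤ) + -1 = 0 by rfl)
        (-S.p) S.r - A.id c
      have s₁ : ((-1 : ℤ) * 1).negOnePow = -1 := by simp
      rw [map_zero, s₁, map_neg, LinearMap.neg_apply, Units.neg_smul, one_smul, neg_neg]
      exact (sub_eq_zero.2 S.p_r).symm
  | retract t h _ hb => exact .retract (A := A.op) (-t) (isRetract_op h) hb

end Thick

section Hom

variable {k : Type w} [CommRing k] (A : DGCat.{v, u} k) (P : A.Obj)

variable {A P} in
lemma lh_one {U : A.Obj} {n : ℤ} (x : A.Hom U P n) :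
    (n * 0).negOnePow • A.comp (add_zero n) x (A.id P) = x := by
  rw [mul_zero, Int.negOnePow_zero, one_smul, A.comp_id]

variable {A P} in
lemma lh_mul {U : A.Obj} {n m l nm ml p : ℤ} (h₁ : n + m = nm) (h₂ : m + l = ml)
    (h₃ : nm + l = p) (h₄ : n + ml = p) (x : A.Hom U P n) (r : A.Hom P P m) (s : A.Hom P P l) :
    (nm * l).negOnePow • A.comp h₃ ((n * m).negOnePow • A.comp h₁ x r) s =
      (n * ml).negOnePow • A.comp h₄ x ((m * l).negOnePow • A.comp h₂ r s) := by
  simp only [Units.smul_def, LinearMap.smul_apply, map_zsmul, smul_smul]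
  rw [A.assoc h₁ h₂ h₃ h₄, ← Units.val_mul, ← Units.val_mul, ← Int.negOnePow_add,
    ← Int.negOnePow_add]
  congr 3
  subst h₁ h₂
  ring

variable {A P} in
lemma lh_d {U : A.Obj} {n m p n' m' p' : ℤ} (h : n + m = p) (hn : n + 1 = n') (hm : m + 1 = m')
    (hp : p + 1 = p') (x : A.Hom U P n) (r : A.Hom P P m) :
    A.d p p' ((n * m).negOnePow • A.comp h x r) =
      (n' * m).negOnePow • A.comp (show n' + m = p' by lia) (A.d n n' x) r +
        n.negOnePow • (n * m').negOnePow • A.comp (show n + m' = p' by lia) x (A.d m m' r) := by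
  subst hn hm
  simp only [Units.smul_def, map_zsmul]
  rw [A.d_comp h rfl rfl hp x r]
  simp only [Units.smul_def, smul_add, smul_smul, mul_add, add_mul, mul_one,
    one_mul, Int.negOnePow_add, Units.val_mul]
  rcases Int.units_eq_one_or n.negOnePow with s1 | s1 <;>
  rcases Int.units_eq_one_or m.negOnePow with s2 | s2 <;>
  rcases Int.units_eq_one_or (n * m).negOnePow with s3 | s3 <;>
  · simp only [s1, s2, s3, Units.val_one, Units.val_neg, mul_one, mul_neg, neg_neg, one_smul,
      neg_smul]
    abel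

variable {A P} in
lemma lh_map {U U' : A.Obj} (u : A.Hom U U' 0) {p m p' : ℤ} (hp : p + m = p')
    (x : A.Hom U' P p) (r : A.Hom P P m) :
    A.comp (zero_add p') u ((p * m).negOnePow • A.comp hp x r) =
      (p * m).negOnePow • A.comp hp (A.comp (zero_add p) u x) r := by
  rw [Units.smul_def, map_zsmul, A.assoc (zero_add p) hp hp (zero_add p')]
  rfl

/-- `Hom (U, P)` as a right DG module over the opposite of the endomorphism DG algebra of `P`:
`x r` is `(-1) ^ (|x| |r|)` times `x` followed by `r` -/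
def leftHom (U : A.Obj) : DGMod (A.endAlg P).op where
  cx := A.homCx U P
  act {n m p} h := (n * m).negOnePow • (A.comp (a := U) (b := P) (c := P) (n := n) (m := m) h)
  act_one x := lh_one x
  act_mul h₁ h₂ h₃ h₄ x r s := lh_mul h₁ h₂ h₃ h₄ x r s
  d_act h hn hm hp x r := lh_d h hn hm hp x r

/-- `Hom (P, V)` as a right DG module over the endomorphism DG algebra of `P`: `y s` is `s`
followed by `y` -/
def rightHom (V : A.Obj) : DGMod (A.endAlg P) where
  cx := A.homCx P V
  act {n m p} h := (A.comp (a := P) (b := P) (c := V) (n := m) (m := n) (p := p) (by lia)).flip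
  act_one {n} x := A.id_comp x
  act_mul {n m l nm ml p} h₁ h₂ h₃ h₄ x r s :=
    (A.assoc (show l + m = ml by lia) (show m + n = nm by lia) (show ml + n = p by lia)
      (show l + nm = p by lia) s r x).symm
  d_act {n m p n' m' p'} h hn hm hp x r :=
    A.d_comp (show m + n = p by lia) hm hn hp r x

variable {A P}

lemma leftHom_act {U : A.Obj} {n m p : ℤ} (h : n + m = p) (x : A.Hom U P n) (r : A.Hom P P m) :
    (leftHom A P U).act h x r = (n * m).negOnePow • A.comp h x r := rfl

lemma rightHom_act {V : A.Obj} {n m p : ℤ} (h : n + m = p) (y : A.Hom P V n) (s : A.Hom P P m) :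
    (rightHom A P V).act h y s = A.comp (show m + n = p by lia) s y := rfl

lemma leftHom_self : leftHom A P P = (A.endAlg P).op.self := rfl

lemma rightHom_self : rightHom A P P = (A.endAlg P).self := rfl

/-- precomposition `Hom (U', P) → Hom (U, P)` with a morphism `U → U'` of degree `0` -/
def leftMap {U U' : A.Obj} (u : A.Hom U U' 0) :
    (modDG (A.endAlg P).op).Hom (leftHom A P U') (leftHom A P U) 0 :=
  DGMod.mkHom (fun p q h => A.comp (show 0 + p = q by lia) u) fun p q h m p' q' hp hq x r => by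
    obtain rfl : p = q := by lia
    obtain rfl : p' = q' := by lia
    exact lh_map u hp x r

/-- postcomposition `Hom (P, V) → Hom (P, V')` with a morphism `V → V'` of degree `0` -/
def rightMap {V V' : A.Obj} (v : A.Hom V V' 0) :
    (modDG (A.endAlg P)).Hom (rightHom A P V) (rightHom A P V') 0 :=
  DGMod.mkHom (fun p q h => (A.comp (n := p) (m := 0) (p := q) h).flip v)
    fun p q h m p' q' hp hq x r => by
      obtain rfl : p = q := by lia
      obtain rfl : p' = q' := by lia
      exact A.assoc (show m + p = p' by lia) (add_zero p) (add_zero p') (show m + p = p' by lia)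
        r x v

lemma ap_leftMap {U U' : A.Obj} (u : A.Hom U U' 0) {p q : ℤ} (h : p + 0 = q)
    (x : A.Hom U' P p) : DGMod.ap (leftMap (P := P) u) h x = A.comp (show 0 + p = q by lia) u x :=
  rfl

lemma ap_rightMap {V V' : A.Obj} (v : A.Hom V V' 0) {p q : ℤ} (h : p + 0 = q)
    (x : A.Hom P V p) : DGMod.ap (rightMap (P := P) v) h x = A.comp h x v := rfl

end Hom

end Orl
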