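import Pool.Agent.Work.MP_a6e60d_ag.DG.ResMod

/-!
MP_a6e60d_ag: morphisms of degree `0`, submodules, products and finite powers of DG modules.
-/

open CategoryTheory CochainComplex HomComplex

namespace Orl

noncomputable section

namespace DGMod

variable {k : Type} [CommRing k] {E : DGAlg.{0} k}

section Hom

variable {M N L : DGMod E}

/-- a morphism of degree `0` given by its values -/
def mkHom₀ (F : ∀ p : ℤ, M.cx.X p →ₗ[k] N.cx.X p)
    (hF : ∀ (p m q : ℤ) (h : p + m = q) (x : M.cx.X p) (r : E.cx.X m),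
      F q (M.act h x r) = N.act h (F p x) r) : (modDG E).Hom M N 0 :=
  mkHom (fun p q h => (ap ((modDG E).id N) h).comp (F p)) fun p q h m p' q' hp hq x r => by
    obtain rfl : p = q := by omega
    obtain rfl : p' = q' := by omega
    simp only [LinearMap.comp_apply, ap_id]
    exact hF _ _ _ hp x r

@[simp] lemma ap_mkHom₀ (F : ∀ p : ℤ, M.cx.X p →ₗ[k] N.cx.X p) (hF) {p : ℤ} (x : M.cx.X p) :
    ap (mkHom₀ F hF) (add_zero p) x = F p x := by
  change ap ((modDG E).id N) (add_zero p) (F p x) = _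
  rw [ap_id]

lemma hom_ext₀ {f g : (modDG E).Hom M N 0}
    (H : ∀ (p : ℤ) (x : M.cx.X p), ap f (add_zero p) x = ap g (add_zero p) x) : f = g := by
  ext p q h x
  obtain rfl : p = q := by omega
  exact H p x

lemma ap_comp₀ (f : (modDG E).Hom M N 0) (g : (modDG E).Hom N L 0) {p : ℤ} (x : M.cx.X p) :
    ap ((modDG E).comp (add_zero 0) f g) (add_zero p) x =
      ap g (add_zero p) (ap f (add_zero p) x) := ap_comp _ _ _ _ (add_zero p) x

lemma isClosed_iff₀ {f : (modDG E).Hom M N 0} : IsClosed (A := modDG E) f ↔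
    ∀ (n m : ℤ) (_ : n + 1 = m) (x : M.cx.X n),
      N.cx.d n m (ap f (add_zero n) x) = ap f (add_zero m) (M.cx.d n m x) := by
  constructor
  · intro h n m hn x
    have := ap_closed h (add_zero n) hn hn x
    rwa [Int.negOnePow_zero, one_smul] at this
  · intro h
    refine isClosed_of (zero_add 1) ?_
    ext n m hn x
    rw [ap_d (zero_add 1) f hn hn hn, ap_zero, Int.negOnePow_one, Units.neg_smul, one_smul,
      h n m hn x, add_neg_cancel]

lemma isClosed_mkHom₀ (F : ∀ p : ℤ, M.cx.X p →ₗ[k] N.cx.X p) (hF)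
    (hd : ∀ (n m : ℤ) (_ : n + 1 = m) (x : M.cx.X n), N.cx.d n m (F n x) = F m (M.cx.d n m x)) :
    IsClosed (A := modDG E) (mkHom₀ F hF) := isClosed_iff₀.2 fun n m h x => by
  rw [ap_mkHom₀, ap_mkHom₀, hd n m h]

end Hom

section Sub

variable (M : DGMod E) (W : ∀ n, Submodule k (M.cx.X n))
  (hd : ∀ (n m : ℤ), n + 1 = m → ∀ x ∈ W n, M.cx.d n m x ∈ W m)
  (ha : ∀ {n m p : ℤ} (h : n + m = p) (x) (_ : x ∈ W n) (r : E.cx.X m), M.act h x r ∈ W p)

/-- the differential of a DG submodule -/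
def subD (n m : ℤ) : W n →ₗ[k] W m :=
  if h : n + 1 = m then (M.cx.d n m).hom.restrict (hd n m h) else 0

lemma subD_coe {n m : ℤ} (x : W n) : (M.subD W hd n m x : M.cx.X m) = M.cx.d n m x.1 := by
  unfold subD
  split_ifs with h
  · rfl
  · rw [M.cx.shape n m h]
    rfl

/-- the complex underlying a DG submodule -/
@[simps]
def subCx : CochainComplex (ModuleCat.{0} k) ℤ where
  X n := ModuleCat.of k (W n)
  d n m := ModuleCat.ofHom (M.subD W hd n m)
  shape n m h := by
    have : M.subD W hd n m = 0 := dif_neg h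
    rw [this]
    rfl
  d_comp_d' n m p h h' := by
    rw [← ModuleCat.ofHom_comp]
    refine congrArg ModuleCat.ofHom (LinearMap.ext fun x => Subtype.ext ?_)
    change (M.subD W hd m p (M.subD W hd n m x) : M.cx.X p) = 0
    rw [subD_coe, subD_coe]
    exact M.d_d n m p x.1

/-- the action on a DG submodule -/
def subAct {n m p : ℤ} (h : n + m = p) : W n →ₗ[k] E.cx.X m →ₗ[k] W p :=
  LinearMap.mk₂ k (fun (x : W n) (r : E.cx.X m) => (⟨M.act h x.1 r, ha h x.1 x.2 r⟩ : W p))
    (fun x x' r => Subtype.ext (by simp)) (fun c x r => Subtype.ext (by simp))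
    (fun x r r' => Subtype.ext (by simp)) (fun c x r => Subtype.ext (by simp))

/-- a DG submodule -/
def sub : DGMod E where
  cx := M.subCx W hd
  act {n m p} h := M.subAct W ha h
  act_one x := Subtype.ext (M.act_one x.1)
  act_mul h₁ h₂ h₃ h₄ x r s := Subtype.ext (M.act_mul h₁ h₂ h₃ h₄ x.1 r s)
  d_act {n m p n' m' p'} h hn hm hp x r := by
    refine Subtype.ext ?_
    have h₁ := M.subD_coe W hd (m := n') x
    have h₂ := M.subD_coe W hd (m := p') (⟨M.act h x.1 r, ha h x.1 x.2 r⟩ : W p)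
    refine h₂.trans ((M.d_act h hn hm hp x.1 r).trans ?_)
    rw [← h₁]
    rfl

/-- the inclusion of a DG submodule -/
def subι : (modDG E).Hom (M.sub W hd ha) M 0 :=
  mkHom₀ (fun p => (W p).subtype) fun _ _ _ _ _ _ => rfl

lemma ap_subι {n : ℤ} (x : W n) : ap (M.subι W hd ha) (add_zero n) x = x.1 :=
  ap_mkHom₀ (M := M.sub W hd ha) (N := M) (fun p => (W p).subtype) _ x

lemma sub_d {n m : ℤ} (h : n + 1 = m) (x : W n) :
    (M.sub W hd ha).cx.d n m x = (⟨M.cx.d n m x.1, hd n m h x.1 x.2⟩ : W m) :=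
  Subtype.ext (M.subD_coe W hd x)

lemma subι_closed : IsClosed (A := modDG E) (M.subι W hd ha) :=
  isClosed_mkHom₀ _ _ fun n m h x => (congrArg Subtype.val (M.sub_d W hd ha h x)).symm

/-- a morphism of degree `0` with values in a DG submodule -/
def subLift {N : DGMod E} (f : (modDG E).Hom N M 0)
    (hf : ∀ (n : ℤ) (x : N.cx.X n), ap f (add_zero n) x ∈ W n) :
    (modDG E).Hom N (M.sub W hd ha) 0 :=
  mkHom₀ (fun p => LinearMap.codRestrict (W p) (ap f (add_zero p)) (hf p))
    fun p m q h x r => Subtype.ext (ap_act f (add_zero p) h h x r)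

lemma ap_subLift {N : DGMod E} (f : (modDG E).Hom N M 0)
    (hf : ∀ (n : ℤ) (x : N.cx.X n), ap f (add_zero n) x ∈ W n) {n : ℤ} (x : N.cx.X n) :
    ap (M.subLift W hd ha f hf) (add_zero n) x = (⟨ap f (add_zero n) x, hf n x⟩ : W n) :=
  ap_mkHom₀ _ _ x

lemma subLift_closed {N : DGMod E} {f : (modDG E).Hom N M 0} (hc : IsClosed (A := modDG E) f)
    (hf : ∀ (n : ℤ) (x : N.cx.X n), ap f (add_zero n) x ∈ W n) :
    IsClosed (A := modDG E) (M.subLift W hd ha f hf) :=
  isClosed_mkHom₀ _ _ fun n m h x => (M.sub_d W hd ha h _).trans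
    (Subtype.ext (isClosed_iff₀.1 hc n m h x))

end Sub

section Prod

variable (M N : DGMod E)

/-- the direct sum of two DG modules -/
def prod : DGMod E where
  cx :=
    { X := fun n => ModuleCat.of k (M.cx.X n × N.cx.X n)
      d := fun n m => ModuleCat.ofHom ((M.cx.d n m).hom.prodMap (N.cx.d n m).hom)
      shape := fun n m h => by
        rw [M.cx.shape n m h, N.cx.shape n m h]
        rfl
      d_comp_d' := fun n m p h h' => by
        rw [← ModuleCat.ofHom_comp]
        refine congrArg ModuleCat.ofHom (LinearMap.ext fun x => Prod.ext ?_ ?_)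
        · exact M.d_d n m p x.1
        · exact N.d_d n m p x.2 }
  act {n m p} h := LinearMap.mk₂ k (fun x r => (M.act h x.1 r, N.act h x.2 r))
    (fun x x' r => by ext <;> simp) (fun c x r => by ext <;> simp) (fun x r r' => by ext <;> simp)
    (fun c x r => by ext <;> simp)
  act_one x := Prod.ext (M.act_one x.1) (N.act_one x.2)
  act_mul h₁ h₂ h₃ h₄ x r s := Prod.ext (M.act_mul h₁ h₂ h₃ h₄ x.1 r s)
    (N.act_mul h₁ h₂ h₃ h₄ x.2 r s)
  d_act {n m p n' m' p'} h hn hm hp x r := Prod.ext (M.d_act h hn hm hp x.1 r)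
    (N.d_act h hn hm hp x.2 r)

lemma prod_inl_act (p m q : ℤ) (h : p + m = q) (x : M.cx.X p) (r : E.cx.X m) :
    LinearMap.inl k (M.cx.X q) (N.cx.X q) (M.act h x r) =
      (M.prod N).act h (LinearMap.inl k (M.cx.X p) (N.cx.X p) x) r := Prod.ext rfl (by
  change (0 : N.cx.X q) = N.act h 0 r
  simp)

lemma prod_inr_act (p m q : ℤ) (h : p + m = q) (x : N.cx.X p) (r : E.cx.X m) :
    LinearMap.inr k (M.cx.X q) (N.cx.X q) (N.act h x r) =
      (M.prod N).act h (LinearMap.inr k (M.cx.X p) (N.cx.X p) x) r := Prod.ext (by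
  change (0 : M.cx.X q) = M.act h 0 r
  simp) rfl

lemma prod_fst_act (p m q : ℤ) (h : p + m = q) (x : (M.prod N).cx.X p) (r : E.cx.X m) :
    LinearMap.fst k (M.cx.X q) (N.cx.X q) ((M.prod N).act h x r) =
      M.act h (LinearMap.fst k (M.cx.X p) (N.cx.X p) x) r := rfl

lemma prod_snd_act (p m q : ℤ) (h : p + m = q) (x : (M.prod N).cx.X p) (r : E.cx.X m) :
    LinearMap.snd k (M.cx.X q) (N.cx.X q) ((M.prod N).act h x r) =
      N.act h (LinearMap.snd k (M.cx.X p) (N.cx.X p) x) r := rfl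

/-- the direct sum of two DG modules as a direct sum in the DG category -/
def prodBiprod : Biprod (A := modDG E) M N (M.prod N) where
  i₁ := mkHom₀ (fun p => LinearMap.inl k _ _) (prod_inl_act M N)
  i₂ := mkHom₀ (fun p => LinearMap.inr k _ _) (prod_inr_act M N)
  p₁ := mkHom₀ (fun p => LinearMap.fst k _ _) (prod_fst_act M N)
  p₂ := mkHom₀ (fun p => LinearMap.snd k _ _) (prod_snd_act M N)
  i₁_closed := isClosed_mkHom₀ _ _ fun n m h x => Prod.ext rfl (by
    change N.cx.d n m 0 = 0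
    rw [map_zero])
  i₂_closed := isClosed_mkHom₀ _ _ fun n m h x => Prod.ext (by
    change M.cx.d n m 0 = 0
    rw [map_zero]) rfl
  p₁_closed := isClosed_mkHom₀ _ _ fun n m h x => rfl
  p₂_closed := isClosed_mkHom₀ _ _ fun n m h x => rfl
  i₁_p₁ := hom_ext₀ fun p x => by
    rw [ap_comp₀, ap_mkHom₀, ap_mkHom₀, ap_id]; rfl
  i₁_p₂ := hom_ext₀ fun p x => by
    rw [ap_comp₀, ap_mkHom₀, ap_mkHom₀, ap_zero]; rfl
  i₂_p₁ := hom_ext₀ fun p x => by
    rw [ap_comp₀, ap_mkHom₀, ap_mkHom₀, ap_zero]; rfl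
  i₂_p₂ := hom_ext₀ fun p x => by
    rw [ap_comp₀, ap_mkHom₀, ap_mkHom₀, ap_id]; rfl
  total := hom_ext₀ fun p x => by
    rw [ap_add, ap_comp₀, ap_mkHom₀, ap_mkHom₀, ap_comp₀, ap_mkHom₀, ap_mkHom₀, ap_id]
    exact Prod.ext (add_zero _) (zero_add _)

lemma ap_prod_i₁ {n : ℤ} (x : M.cx.X n) : ap (M.prodBiprod N).i₁ (add_zero n) x =
    ((x, 0) : M.cx.X n × N.cx.X n) :=
  ap_mkHom₀ _ (prod_inl_act M N) x

lemma ap_prod_i₂ {n : ℤ} (x : N.cx.X n) : ap (M.prodBiprod N).i₂ (add_zero n) x =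
    ((0, x) : M.cx.X n × N.cx.X n) :=
  ap_mkHom₀ _ (prod_inr_act M N) x

lemma ap_prod_p₁ {n : ℤ} (x : M.cx.X n) (y : N.cx.X n) : ap (M.prodBiprod N).p₁ (add_zero n)
    ((x, y) : M.cx.X n × N.cx.X n) = x :=
  ap_mkHom₀ _ (prod_fst_act M N) _

lemma ap_prod_p₂ {n : ℤ} (x : M.cx.X n) (y : N.cx.X n) : ap (M.prodBiprod N).p₂ (add_zero n)
    ((x, y) : M.cx.X n × N.cx.X n) = y :=
  ap_mkHom₀ _ (prod_snd_act M N) _

lemma exists_shift (t : ℤ) (L : DGMod E) : ∃ M : DGMod E, Nonempty (Shift (A := modDG E) t L M) :=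
  ⟨_, ⟨modDGShift t L⟩⟩

theorem IsRes.prod {M N : DGMod E} (hM : M.IsRes) (hN : N.IsRes) : (M.prod N).IsRes :=
  Res.biprod exists_shift (isPerfectLike_modDG E).cone (M.prodBiprod N) hM hN

end Prod

section Pow

variable (ι : Type) (M : DGMod E)

/-- the power of a DG module -/
def fpow : DGMod E where
  cx :=
    { X := fun n => ModuleCat.of k (ι → M.cx.X n)
      d := fun n m => ModuleCat.ofHom ((M.cx.d n m).hom.compLeft ι)
      shape := fun n m h => by
        rw [M.cx.shape n m h]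
        rfl
      d_comp_d' := fun n m p h h' => by
        rw [← ModuleCat.ofHom_comp]
        refine congrArg ModuleCat.ofHom (LinearMap.ext fun x => funext fun i => ?_)
        exact M.d_d n m p (x i) }
  act {n m p} h := LinearMap.mk₂ k (fun x r i => M.act h (x i) r)
    (fun x x' r => by ext; simp) (fun c x r => by ext; simp) (fun x r r' => by ext; simp)
    (fun c x r => by ext; simp)
  act_one x := funext fun i => M.act_one (x i)
  act_mul h₁ h₂ h₃ h₄ x r s := funext fun i => M.act_mul h₁ h₂ h₃ h₄ (x i) r s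
  d_act {n m p n' m' p'} h hn hm hp x r := funext fun i => M.d_act h hn hm hp (x i) r

/-- the power with exponent `m + 1` is a direct sum -/
def fpowBiprod (m : ℕ) : Biprod (A := modDG E) M (M.fpow (Fin m)) (M.fpow (Fin (m + 1))) where
  i₁ := mkHom₀ (fun p => LinearMap.pi (Fin.cons LinearMap.id (fun _ => 0)))
    fun p l q h x r => funext fun i => by
      refine Fin.cases ?_ (fun i => ?_) i
      · rfl
      · change (0 : M.cx.X q) = M.act h 0 r
        simp
  i₂ := mkHom₀ (fun p => LinearMap.pi (Fin.cons 0 (fun i => LinearMap.proj i)))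
    fun p l q h x r => funext fun i => by
      refine Fin.cases ?_ (fun i => ?_) i
      · change (0 : M.cx.X q) = M.act h 0 r
        simp
      · rfl
  p₁ := mkHom₀ (fun p => LinearMap.proj 0) fun p m q h x r => rfl
  p₂ := mkHom₀ (fun p => LinearMap.pi fun i => LinearMap.proj i.succ) fun p m q h x r => rfl
  i₁_closed := isClosed_mkHom₀ _ _ fun n l h x => funext fun i => by
      refine Fin.cases ?_ (fun i => ?_) i
      · rfl
      · change M.cx.d n l 0 = 0
        rw [map_zero]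
  i₂_closed := isClosed_mkHom₀ _ _ fun n l h x => funext fun i => by
      refine Fin.cases ?_ (fun i => ?_) i
      · change M.cx.d n l 0 = 0
        rw [map_zero]
      · rfl
  p₁_closed := isClosed_mkHom₀ _ _ fun n m h x => rfl
  p₂_closed := isClosed_mkHom₀ _ _ fun n m h x => rfl
  i₁_p₁ := hom_ext₀ fun p x => by
    rw [ap_comp₀, ap_mkHom₀, ap_mkHom₀, ap_id]; rfl
  i₁_p₂ := hom_ext₀ fun p x => by
    rw [ap_comp₀, ap_mkHom₀, ap_mkHom₀, ap_zero]; rfl
  i₂_p₁ := hom_ext₀ fun p x => by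
    rw [ap_comp₀, ap_mkHom₀, ap_mkHom₀, ap_zero]; rfl
  i₂_p₂ := hom_ext₀ fun p x => by
    rw [ap_comp₀, ap_mkHom₀, ap_mkHom₀, ap_id]; rfl
  total := hom_ext₀ fun p x => by
    rw [ap_add, ap_comp₀, ap_mkHom₀, ap_mkHom₀, ap_comp₀, ap_mkHom₀, ap_mkHom₀, ap_id]
    refine funext fun i => ?_
    refine Fin.cases ?_ (fun i => ?_) i
    · exact add_zero _
    · exact zero_add _

theorem IsRes.fpow {M : DGMod E} (hM : M.IsRes) (m : ℕ) : (M.fpow (Fin m)).IsRes := by
  induction m with
  | zero =>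
    refine Res.of_contractible (A := modDG E) ?_
    have : (modDG E).id (M.fpow (Fin 0)) = 0 := hom_ext₀ fun p x => funext fun i => i.elim0
    rw [this]
    exact isBdry_zero
  | succ m ih => exact Res.biprod exists_shift (isPerfectLike_modDG E).cone (M.fpowBiprod m) hM ih

/-- a DG module which vanishes in all degrees is perfect -/
theorem IsRes.of_zero {M : DGMod E} (h : ∀ (n : ℤ) (x : M.cx.X n), x = 0) : M.IsRes := by
  refine Res.of_contractible (A := modDG E) ?_
  have : (modDG E).id M = 0 := hom_ext₀ fun p x => by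
    rw [ap_id, ap_zero]
    exact h p x
  rw [this]
  exact isBdry_zero

/-- retracts of perfect DG modules are perfect -/
theorem IsRes.retract {M N : DGMod E} (hN : N.IsRes) {u : (modDG E).Hom M N 0}
    {v : (modDG E).Hom N M 0} (hu : IsClosed (A := modDG E) u) (hv : IsClosed (A := modDG E) v)
    (huv : ∀ (n : ℤ) (x : M.cx.X n), ap v (add_zero n) (ap u (add_zero n) x) = x) :
    M.IsRes := by
  refine Res.retract (isPerfectLike_modDG E) hu hv ?_ hN
  have : (modDG E).comp (add_zero 0) u v = (modDG E).id M := hom_ext₀ fun p x => by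
    rw [ap_comp₀, huv, ap_id]
  rw [this, sub_self]
  exact isBdry_zero

end Pow

end DGMod

end

end Orl
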