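import Pool.Agent.Work.MP_a6e60d_ag.DG.Blocks
import Pool.Agent.Work.MP_a6e60d_ag.DG.LeftHom
import Pool.Agent.Work.MP_a6e60d_ag.DG.ModSum

/-!
MP_a6e60d_ag: the filtrations of the left modules `Hom (U, P)` and of the diagonal bimodule.
-/

open CategoryTheory

namespace Orl

noncomputable section

lemma units_smul_mem {k M : Type*} [CommRing k] [AddCommGroup M] [Module k M]
    (S : Submodule k M) (c : ℤˣ) {x : M} (h : x ∈ S) : c • x ∈ S := by
  rcases Int.units_eq_one_or c with rfl | rfl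
  · rwa [one_smul]
  · rw [Units.neg_smul, one_smul]
    exact S.neg_mem h

variable {k : Type} [CommRing k] {A : DGCat.{0, 1} k} {r : ℕ} {b : Fin r → A.Obj} {P : A.Obj}
  (hb : IsBlocks b) (D : Decomp b P)

/-- the submodule of `Hom (U, P)` of the morphisms without components in blocks of index `< l` -/
def JL (U : A.Obj) (l : ℕ) : DGMod (A.endAlg P).op :=
  (leftHom A P U).sub (D.J U l) (fun _ _ h _ hx => Decomp.d_mem_J hb h hx)
    (fun {_ _ _} h _ hx r => units_smul_mem _ _ (Decomp.mem_J_comp hb h hx r))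

include hb in
lemma diag_bact_mem {l : ℕ} {n m p : ℤ} (h : n + m = p) {x : A.Hom P P n} (hx : x ∈ D.J P l n)
    (s : TensX (A.endAlg P).cx (A.endAlg P).cx m) :
    (A.endAlg P).diag.bact h x s ∈ D.J P l p := by
  induction s using tens_induction with
  | h0 => rw [map_zero]; exact Submodule.zero_mem _
  | ha s s' hs hs' => rw [map_add]; exact Submodule.add_mem _ hs hs'
  | ht i j hij s s' =>
    rw [DGBimod.bact_tp _ h hij rfl]
    refine units_smul_mem (D.J P l p) _ ?_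
    refine Decomp.comp_mem_J (A := A) (show j + (i + n) = p by omega) s' ?_
    exact Decomp.mem_J_comp hb (show n + i = i + n by omega) hx s

/-- the subbimodule of the diagonal bimodule of the morphisms without components in blocks of index
`< l` -/
def JB (l : ℕ) : DGMod ((A.endAlg P).op.tensor (A.endAlg P)) :=
  (A.endAlg P).diag.toMod.sub (D.J P l) (fun _ _ h _ hx => Decomp.d_mem_J hb h hx)
    (fun {_ _ _} h _ hx r => diag_bact_mem hb D h hx r)

/-- the inclusion -/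
def JLι (U : A.Obj) (l : ℕ) : (modDG (A.endAlg P).op).Hom (JL hb D U l) (leftHom A P U) 0 :=
  (leftHom A P U).subι (D.J U l) (fun _ _ h _ hx => Decomp.d_mem_J hb h hx)
    (fun {_ _ _} h _ hx r => units_smul_mem _ _ (Decomp.mem_J_comp hb h hx r))

/-- the inclusion -/
def JBι (l : ℕ) : (modDG ((A.endAlg P).op.tensor (A.endAlg P))).Hom (JB hb D l)
    (A.endAlg P).diag.toMod 0 :=
  (A.endAlg P).diag.toMod.subι (D.J P l) (fun _ _ h _ hx => Decomp.d_mem_J hb h hx)
    (fun {_ _ _} h _ hx r => diag_bact_mem hb D h hx r)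

lemma ap_JLι (U : A.Obj) (l : ℕ) {n : ℤ} (x : D.J U l n) :
    DGMod.ap (JLι hb D U l) (add_zero n) x = x.1 :=
  DGMod.ap_subι (leftHom A P U) (D.J U l) (fun _ _ h _ hx => Decomp.d_mem_J hb h hx)
    (fun {_ _ _} h _ hx r => units_smul_mem _ _ (Decomp.mem_J_comp hb h hx r)) x

lemma ap_JBι (l : ℕ) {n : ℤ} (x : D.J P l n) :
    DGMod.ap (JBι hb D l) (add_zero n) x = x.1 :=
  DGMod.ap_subι (A.endAlg P).diag.toMod (D.J P l) (fun _ _ h _ hx => Decomp.d_mem_J hb h hx)
    (fun {_ _ _} h _ hx r => diag_bact_mem hb D h hx r) x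

lemma JLι_closed (U : A.Obj) (l : ℕ) :
    IsClosed (A := modDG (A.endAlg P).op) (JLι hb D U l) :=
  DGMod.subι_closed (leftHom A P U) (D.J U l) (fun _ _ h _ hx => Decomp.d_mem_J hb h hx)
    (fun {_ _ _} h _ hx r => units_smul_mem _ _ (Decomp.mem_J_comp hb h hx r))

lemma JBι_closed (l : ℕ) :
    IsClosed (A := modDG ((A.endAlg P).op.tensor (A.endAlg P))) (JBι hb D l) :=
  DGMod.subι_closed (A.endAlg P).diag.toMod (D.J P l)
    (fun _ _ h _ hx => Decomp.d_mem_J hb h hx)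
    (fun {_ _ _} h _ hx r => diag_bact_mem hb D h hx r)

/-- a morphism of degree `0` with values in `JL` -/
def toJL {U : A.Obj} {l : ℕ} {N : DGMod (A.endAlg P).op}
    (f : (modDG (A.endAlg P).op).Hom N (leftHom A P U) 0)
    (hf : ∀ (n : ℤ) (x : N.cx.X n), DGMod.ap f (add_zero n) x ∈ D.J U l n) :
    (modDG (A.endAlg P).op).Hom N (JL hb D U l) 0 :=
  (leftHom A P U).subLift (D.J U l) (fun _ _ h _ hx => Decomp.d_mem_J hb h hx)
    (fun {_ _ _} h _ hx r => units_smul_mem _ _ (Decomp.mem_J_comp hb h hx r)) f hf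

lemma toJL_closed {U : A.Obj} {l : ℕ} {N : DGMod (A.endAlg P).op}
    {f : (modDG (A.endAlg P).op).Hom N (leftHom A P U) 0}
    (hc : IsClosed (A := modDG (A.endAlg P).op) f)
    (hf : ∀ (n : ℤ) (x : N.cx.X n), DGMod.ap f (add_zero n) x ∈ D.J U l n) :
    IsClosed (A := modDG (A.endAlg P).op) (toJL hb D f hf) :=
  DGMod.subLift_closed (leftHom A P U) (D.J U l) (fun _ _ h _ hx => Decomp.d_mem_J hb h hx)
    (fun {_ _ _} h _ hx r => units_smul_mem _ _ (Decomp.mem_J_comp hb h hx r)) hc hf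

lemma ap_toJL {U : A.Obj} {l : ℕ} {N : DGMod (A.endAlg P).op}
    (f : (modDG (A.endAlg P).op).Hom N (leftHom A P U) 0)
    (hf : ∀ (n : ℤ) (x : N.cx.X n), DGMod.ap f (add_zero n) x ∈ D.J U l n) {n : ℤ}
    (x : N.cx.X n) : DGMod.ap (toJL hb D f hf) (add_zero n) x =
      (⟨DGMod.ap f (add_zero n) x, hf n x⟩ : D.J U l n) :=
  DGMod.ap_subLift (leftHom A P U) (D.J U l) (fun _ _ h _ hx => Decomp.d_mem_J hb h hx)
    (fun {_ _ _} h _ hx r => units_smul_mem _ _ (Decomp.mem_J_comp hb h hx r)) f hf x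

/-- a morphism of degree `0` with values in `JB` -/
def toJB {l : ℕ} {N : DGMod ((A.endAlg P).op.tensor (A.endAlg P))}
    (f : (modDG ((A.endAlg P).op.tensor (A.endAlg P))).Hom N (A.endAlg P).diag.toMod 0)
    (hf : ∀ (n : ℤ) (x : N.cx.X n), DGMod.ap f (add_zero n) x ∈ D.J P l n) :
    (modDG ((A.endAlg P).op.tensor (A.endAlg P))).Hom N (JB hb D l) 0 :=
  (A.endAlg P).diag.toMod.subLift (D.J P l) (fun _ _ h _ hx => Decomp.d_mem_J hb h hx)
    (fun {_ _ _} h _ hx r => diag_bact_mem hb D h hx r) f hf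

lemma toJB_closed {l : ℕ} {N : DGMod ((A.endAlg P).op.tensor (A.endAlg P))}
    {f : (modDG ((A.endAlg P).op.tensor (A.endAlg P))).Hom N (A.endAlg P).diag.toMod 0}
    (hc : IsClosed (A := modDG ((A.endAlg P).op.tensor (A.endAlg P))) f)
    (hf : ∀ (n : ℤ) (x : N.cx.X n), DGMod.ap f (add_zero n) x ∈ D.J P l n) :
    IsClosed (A := modDG ((A.endAlg P).op.tensor (A.endAlg P))) (toJB hb D f hf) :=
  DGMod.subLift_closed (A.endAlg P).diag.toMod (D.J P l)
    (fun _ _ h _ hx => Decomp.d_mem_J hb h hx)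
    (fun {_ _ _} h _ hx r => diag_bact_mem hb D h hx r) hc hf

lemma ap_toJB {l : ℕ} {N : DGMod ((A.endAlg P).op.tensor (A.endAlg P))}
    (f : (modDG ((A.endAlg P).op.tensor (A.endAlg P))).Hom N (A.endAlg P).diag.toMod 0)
    (hf : ∀ (n : ℤ) (x : N.cx.X n), DGMod.ap f (add_zero n) x ∈ D.J P l n) {n : ℤ}
    (x : N.cx.X n) : DGMod.ap (toJB hb D f hf) (add_zero n) x =
      (⟨DGMod.ap f (add_zero n) x, hf n x⟩ : D.J P l n) :=
  DGMod.ap_subLift (A.endAlg P).diag.toMod (D.J P l)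
    (fun _ _ h _ hx => Decomp.d_mem_J hb h hx)
    (fun {_ _ _} h _ hx r => diag_bact_mem hb D h hx r) f hf x

end

end Orl
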