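import Pool.Agent.Work.MP_a6e60d_ag.DG.Qis
import Pool.Agent.Work.MP_a6e60d_ag.DG.Cx
import Mathlib.Algebra.Homology.HomotopyCategory.KInjective
import Mathlib.Algebra.Homology.HomotopyCategory.KProjective

/-!
MP_a6e60d_ag: quasi-isomorphisms of complexes and morphisms to K-injective complexes (from
K-projective complexes).
-/

open CategoryTheory CochainComplex HomComplex

namespace Orl

section

universe w

variable {k : Type w} [CommRing k] {A : DGCat.{0, 1} k} {a b c J : A.Obj}

lemma Cone.closed_fst {f : A.Hom a b 0} (K : DGCat.Cone f c) : IsClosed K.fst := K.d_fst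

lemma Cone.closed_inr {f : A.Hom a b 0} (K : DGCat.Cone f c) : IsClosed K.inr := K.d_inr

/-- If all closed morphisms from the cone of `f` to `J` are boundaries then composition with `f`
is a quasi-isomorphism. -/
theorem prec_qIso_of_cone {f : A.Hom a b 0} (K : DGCat.Cone f c)
    (h : ∀ (n : ℤ) (z : A.Hom c J n), IsClosed z → IsBdry z) : QIso (prec f J) where
  inj n x hx := by
    rintro ⟨y, hy⟩
    have hx' : A.d n (n + 1) x = 0 := hx
    have hy' : A.d (n - 1) n y = A.comp (zero_add n) f x := hy
    let z : A.Hom c J n := A.comp (zero_add n) K.snd x +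
      n.negOnePow • A.comp (show 1 + (n - 1) = n by lia) K.fst y
    have hz : IsClosed z := by
      change A.d n (n + 1) (A.comp (zero_add n) K.snd x +
        n.negOnePow • A.comp (show 1 + (n - 1) = n by lia) K.fst y) = 0
      rw [map_add, Units.smul_def, map_zsmul, A.d_comp (zero_add n) (zero_add 1) rfl rfl, hx',
        K.d_snd, A.d_comp (n' := 2) (m' := n) (show 1 + (n - 1) = n by lia) (by lia) (by lia) rfl,
        K.d_fst,
        hy', map_zero, map_zero, LinearMap.zero_apply, smul_zero, add_zero, zero_add, map_neg,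
        LinearMap.neg_apply, Units.smul_def, smul_neg,
        ← A.assoc (add_zero 1) (zero_add n) (by lia) (by lia) K.fst f x, neg_add_cancel]
    obtain ⟨w, hw⟩ := (h n z hz).exists (n - 1) (by lia)
    refine ⟨A.comp (zero_add (n - 1)) K.inr w, ?_⟩
    rw [A.d_comp (n' := 1) (m' := n) _ rfl (by lia) (by lia), hw, K.d_inr]
    change A.comp _ K.inr (A.comp (zero_add n) K.snd x +
      n.negOnePow • A.comp (show 1 + (n - 1) = n by lia) K.fst y) + _ = x
    rw [map_add, Units.smul_def, map_zsmul,
      ← A.assoc (add_zero 0) (zero_add n) (zero_add n) (zero_add n) K.inr K.snd x,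
      ← A.assoc (zero_add 1) (show 1 + (n - 1) = n by lia) (show 1 + (n - 1) = n by lia)
        (zero_add n) K.inr K.fst y,
      K.inr_snd, K.inr_fst, A.id_comp]
    simp
  surj n y hy := by
    have hz : IsClosed (A.comp (show 1 + n = n + 1 by lia) K.fst y) :=
      (Cone.closed_fst K).comp hy _
    obtain ⟨w, hw⟩ := (h _ _ hz).exists n rfl
    refine ⟨-(n.negOnePow • A.comp (zero_add n) K.inr w), ?_, A.comp (by lia) K.inl w, ?_⟩
    · change A.d n (n + 1) (-(n.negOnePow • A.comp (zero_add n) K.inr w)) = 0
      rw [map_neg, Units.smul_def, map_zsmul, A.d_comp (zero_add n) (zero_add 1) rfl rfl, hw,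
        K.d_inr, ← A.assoc (zero_add 1) (show 1 + n = n + 1 by lia)
          (show 1 + n = n + 1 by lia) (zero_add _) K.inr K.fst y, K.inr_fst]
      simp
    · rw [A.d_comp (n' := 0) (m' := n + 1) _ (by lia) rfl (by lia), hw, K.d_inl,
        ← A.assoc (neg_add_cancel 1) (show 1 + n = n + 1 by lia) (zero_add n)
          (show -1 + (n + 1) = n by lia) K.inl K.fst y, K.inl_fst, A.id_comp, prec_apply,
        map_neg]
      simp only [Units.smul_def, map_zsmul]
      rw [A.assoc (add_zero 0) (zero_add n) (zero_add n) (zero_add n) f K.inr w, sub_neg_eq_add]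

/-- If all closed morphisms from `P` to the cone of `f` are boundaries then composition with `f`
is a quasi-isomorphism. -/
theorem postc_qIso_of_cone {P : A.Obj} {f : A.Hom a b 0} (K : DGCat.Cone f c)
    (h : ∀ (n : ℤ) (z : A.Hom P c n), IsClosed z → IsBdry z) : QIso (postc f P) where
  inj n x hx := by
    rintro ⟨y, hy⟩
    have hx' : A.d n (n + 1) x = 0 := hx
    have hy' : A.d (n - 1) n y = A.comp (add_zero n) x f := hy
    let z : A.Hom P c (n - 1) := A.comp (show n + -1 = n - 1 by lia) x K.inl -
      A.comp (add_zero (n - 1)) y K.inr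
    have hz : A.d (n - 1) n z = 0 := by
      change A.d (n - 1) n (A.comp (show n + -1 = n - 1 by lia) x K.inl -
        A.comp (add_zero (n - 1)) y K.inr) = 0
      rw [map_sub, A.d_comp (n' := n + 1) (m' := 0) _ rfl (by lia) (by lia), hx', K.d_inl,
        A.d_comp (n' := n) (m' := 1) (add_zero (n - 1)) (by lia) rfl (by lia), hy', K.d_inr,
        ← A.assoc (add_zero n) (add_zero 0) (add_zero n) (add_zero n) x f K.inr]
      simp
    obtain ⟨w, hw⟩ := (h _ z (isClosed_of (by lia) hz)).exists (n - 2) (by lia)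
    refine ⟨-A.comp (show n - 2 + 1 = n - 1 by lia) w K.fst, ?_⟩
    rw [map_neg, A.d_comp (n' := n - 1) (m' := 2) _ (by lia) rfl (by lia), hw, K.d_fst]
    change -(_ + Int.negOnePow 1 • A.comp _ (A.comp (show n + -1 = n - 1 by lia) x K.inl -
        A.comp (add_zero (n - 1)) y K.inr) K.fst) = x
    rw [map_sub, LinearMap.sub_apply,
      A.assoc (show n + -1 = n - 1 by lia) (neg_add_cancel 1) (show n - 1 + 1 = n by lia)
        (add_zero n) x K.inl K.fst,
      A.assoc (add_zero (n - 1)) (zero_add 1) (show n - 1 + 1 = n by lia)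
        (show n - 1 + 1 = n by lia) y K.inr K.fst, K.inl_fst, K.inr_fst, A.comp_id]
    simp
  surj n y hy := by
    have hz : IsClosed (A.comp (add_zero n) y K.inr) := IsClosed.comp hy (Cone.closed_inr K) _
    obtain ⟨w, hw⟩ := (h _ _ hz).exists (n - 1) (by lia)
    refine ⟨A.comp (show n - 1 + 1 = n by lia) w K.fst, ?_, A.comp (add_zero (n - 1)) w K.snd, ?_⟩
    · rw [A.d_comp (n' := n) (m' := 2) _ (by lia) rfl rfl, hw, K.d_fst,
        A.assoc (add_zero n) (zero_add 1) rfl rfl y K.inr K.fst, K.inr_fst]
      simp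
    · rw [A.d_comp (n' := n) (m' := 1) _ (by lia) rfl (by lia), hw, K.d_snd,
        A.assoc (add_zero n) (add_zero 0) (add_zero n) (add_zero n) y K.inr K.snd, K.inr_snd,
        A.comp_id, postc_apply, map_neg,
        ← A.assoc (show n - 1 + 1 = n by lia) (add_zero 1) (add_zero n)
          (show n - 1 + 1 = n by lia) w K.fst f]
      simp only [Int.negOnePow_zero, one_smul]
      abel

end

section cx

universe u

variable {C : Type u} [Category.{0} C] [Abelian C]

theorem acyclic_mappingCone {K L : CochainComplex C ℤ} (q : K ⟶ L) [QuasiIso q] :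
    (mappingCone q).Acyclic := by
  have h1 : HomotopyCategory.quasiIso C (ComplexShape.up ℤ)
      ((HomotopyCategory.quotient C (ComplexShape.up ℤ)).map q) := by
    rw [HomotopyCategory.quotient_map_mem_quasiIso_iff]
    exact (HomologicalComplex.mem_quasiIso_iff q).2 inferInstance
  rw [HomotopyCategory.quasiIso_eq_trW_subcategoryAcyclic] at h1
  rw [← HomotopyCategory.quotient_obj_mem_subcategoryAcyclic_iff_acyclic]
  exact (ObjectProperty.trW_iff_of_distinguished _ _
    (HomotopyCategory.mappingCone_triangleh_distinguished q)).1 h1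

end cx

section cx2

variable {C : Type 1} [Category.{0} C] [Abelian C] {k : Type} [CommRing k] [Linear k C]

/-- A quasi-isomorphism induces quasi-isomorphisms of the morphisms to a K-injective complex. -/
theorem prec_qIso_of_quasiIso {K L J : CochainComplex C ℤ} (q : K ⟶ L) [QuasiIso q]
    [J.IsKInjective] :
    QIso (prec (A := cxDG k C) (a := K) (b := L) (Cochain.ofHom q) J) := by
  refine prec_qIso_of_cone (cxCone (k := k) q) fun n z hz => ?_
  obtain ⟨α, hα⟩ := IsKInjective.eq_δ_of_cocycle (Cocycle.mk (n := n) z (n + 1) rfl hz)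
    (acyclic_mappingCone q) (n - 1) (by lia)
  exact ⟨α, hα⟩

set_option backward.defeqAttrib.useBackward true in
set_option backward.isDefEq.respectTransparency false in
theorem IsKProjective.eq_δ_of_cocycle {K L : CochainComplex C ℤ} {n : ℤ}
    (z : Cocycle K L n) [K.IsKProjective] (hL : L.Acyclic) (m : ℤ) (hm : m + 1 = n) :
    ∃ (α : Cochain K L m), δ m n α = z.1 := by
  have hL' : (L⟦n⟧).Acyclic := by
    rw [← HomotopyCategory.quotient_obj_mem_subcategoryAcyclic_iff_acyclic] at hL ⊢
    exact (HomotopyCategory.subcategoryAcyclic C).prop_of_iso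
      (((HomotopyCategory.quotient C (ComplexShape.up ℤ)).commShiftIso n).symm.app L)
      ((HomotopyCategory.subcategoryAcyclic C).le_shift n _ hL)
  obtain ⟨φ, hφ⟩ := (Cocycle.equivHom ..).surjective (z.rightShift n 0 (zero_add n))
  rw [Cocycle.ext_iff] at hφ
  dsimp at hφ
  obtain ⟨h⟩ := IsKProjective.nonempty_homotopy_zero φ hL'
  obtain ⟨f, hf⟩ := Cochain.equivHomotopy _ _ h
  simp only [Int.reduceNeg, Cochain.ofHom_zero, add_zero] at hf
  refine ⟨n.negOnePow • Cochain.rightUnshift f m (by lia), ?_⟩
  apply (Cochain.rightShiftAddEquiv _ _ _ n 0 (by simp)).injective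
  dsimp
  rw [← hφ, hf, δ_units_smul, Cochain.rightShift_units_smul,
    Cochain.δ_rightUnshift _ _ _ _ 0 (by simp)]
  simp [smul_smul]

/-- A quasi-isomorphism induces quasi-isomorphisms of the morphisms from a K-projective
complex. -/
theorem postc_qIso_of_quasiIso {K L P : CochainComplex C ℤ} (q : K ⟶ L) [QuasiIso q]
    [P.IsKProjective] :
    QIso (postc (A := cxDG k C) (a := K) (b := L) (Cochain.ofHom q) P) := by
  refine postc_qIso_of_cone (cxCone (k := k) q) fun n z hz => ?_
  obtain ⟨α, hα⟩ := IsKProjective.eq_δ_of_cocycle (Cocycle.mk (n := n) z (n + 1) rfl hz)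
    (acyclic_mappingCone q) (n - 1) (by lia)
  exact ⟨α, hα⟩

end cx2

end Orl
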