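import Pool.Agent.Work.MP_a6e60d_ag.DG.Cx

/-!
MP_a6e60d_ag: DG algebras, right DG modules, the DG category of DG modules.
-/

open CategoryTheory CochainComplex HomComplex

namespace Orl

universe v w

/-- A DG algebra over `k`: a complex of `k`-modules with a unit and an associative multiplication
which satisfies the Leibniz rule `d (x y) = (d x) y + (-1) ^ |x| x (d y)`. -/
structure DGAlg (k : Type w) [CommRing k] where
  /-- the underlying complex -/
  cx : CochainComplex (ModuleCat.{v} k) ℤ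
  /-- the multiplication -/
  mul : ∀ {n m p : ℤ} (_ : n + m = p), cx.X n →ₗ[k] cx.X m →ₗ[k] cx.X p
  /-- the unit -/
  one : cx.X 0
  one_mul : ∀ {n : ℤ} (x : cx.X n), mul (zero_add n) one x = x
  mul_one : ∀ {n : ℤ} (x : cx.X n), mul (add_zero n) x one = x
  mul_assoc : ∀ {n m l nm ml p : ℤ} (h₁ : n + m = nm) (h₂ : m + l = ml) (h₃ : nm + l = p)
    (h₄ : n + ml = p) (x : cx.X n) (y : cx.X m) (z : cx.X l),
    mul h₃ (mul h₁ x y) z = mul h₄ x (mul h₂ y z)
  d_mul : ∀ {n m p n' m' p' : ℤ} (h : n + m = p) (hn : n + 1 = n') (hm : m + 1 = m')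
    (_ : p + 1 = p') (x : cx.X n) (y : cx.X m),
    cx.d p p' (mul h x y) = mul (by lia) (cx.d n n' x) y +
      n.negOnePow • mul (by lia) x (cx.d m m' y)

variable {k : Type w} [CommRing k]

/-- A right DG module over the DG algebra `R`: a complex of `k`-modules with an action of `R`
which satisfies the Leibniz rule `d (x r) = (d x) r + (-1) ^ |x| x (d r)`. -/
structure DGMod (R : DGAlg.{v} k) where
  /-- the underlying complex -/
  cx : CochainComplex (ModuleCat.{v} k) ℤ
  /-- the action -/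
  act : ∀ {n m p : ℤ} (_ : n + m = p), cx.X n →ₗ[k] R.cx.X m →ₗ[k] cx.X p
  act_one : ∀ {n : ℤ} (x : cx.X n), act (add_zero n) x R.one = x
  act_mul : ∀ {n m l nm ml p : ℤ} (h₁ : n + m = nm) (h₂ : m + l = ml) (h₃ : nm + l = p)
    (h₄ : n + ml = p) (x : cx.X n) (r : R.cx.X m) (s : R.cx.X l),
    act h₃ (act h₁ x r) s = act h₄ x (R.mul h₂ r s)
  d_act : ∀ {n m p n' m' p' : ℤ} (h : n + m = p) (hn : n + 1 = n') (hm : m + 1 = m')
    (_ : p + 1 = p') (x : cx.X n) (r : R.cx.X m),
    cx.d p p' (act h x r) = act (by lia) (cx.d n n' x) r +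
      n.negOnePow • act (by lia) x (R.cx.d m m' r)

/-- `R` as a right DG module over itself -/
@[simps]
def DGAlg.self (R : DGAlg.{v} k) : DGMod R where
  cx := R.cx
  act h := R.mul h
  act_one x := R.mul_one x
  act_mul h₁ h₂ h₃ h₄ x r s := R.mul_assoc h₁ h₂ h₃ h₄ x r s
  d_act h hn hm hp x r := R.d_mul h hn hm hp x r

namespace DGMod

variable {R : DGAlg.{v} k}

/-- The morphisms of degree `n` of right DG modules: the `R`-linear maps of degree `n`. -/
def lin (M N : DGMod R) (n : ℤ) : Submodule k (Cochain M.cx N.cx n) where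
  carrier := {z | ∀ (p q : ℤ) (h : p + n = q) (m p' q' : ℤ) (hp : p + m = p') (hq : q + m = q')
    (x : M.cx.X p) (r : R.cx.X m),
    z.v p' q' (by lia) (M.act hp x r) = N.act hq (z.v p q h x) r}
  add_mem' {z z'} hz hz' p q h m p' q' hp hq x r := by
    simp only [Cochain.add_v, ModuleCat.hom_add, LinearMap.add_apply, map_add]
    rw [hz p q h m p' q' hp hq, hz' p q h m p' q' hp hq]
  zero_mem' p q h m p' q' hp hq x r := by simp
  smul_mem' c z hz p q h m p' q' hp hq x r := by
    simp only [Cochain.smul_v, ModuleCat.hom_smul, LinearMap.smul_apply, map_smul]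
    rw [hz p q h m p' q' hp hq]

lemma mem_lin {M N : DGMod R} {n : ℤ} {z : Cochain M.cx N.cx n} :
    z ∈ lin M N n ↔ ∀ (p q : ℤ) (h : p + n = q) (m p' q' : ℤ) (hp : p + m = p')
      (hq : q + m = q') (x : M.cx.X p) (r : R.cx.X m),
      z.v p' q' (by lia) (M.act hp x r) = N.act hq (z.v p q h x) r := Iff.rfl

lemma lin_comp {M N L : DGMod R} {n m p : ℤ} (h : n + m = p) {z : Cochain M.cx N.cx n}
    {z' : Cochain N.cx L.cx m} (hz : z ∈ lin M N n) (hz' : z' ∈ lin N L m) :
    z.comp z' h ∈ lin M L p := by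
  intro a b hab l a' b' ha hb x r
  subst h
  rw [Cochain.comp_v z z' rfl a' (a' + n) b' rfl (by lia),
    Cochain.comp_v z z' rfl a (a + n) b rfl (by lia)]
  simp only [ModuleCat.hom_comp, LinearMap.comp_apply]
  rw [hz a (a + n) rfl l a' (a' + n) ha (by lia), hz' (a + n) b (by lia) l (a' + n) b' (by lia) hb]

lemma lin_δ {M N : DGMod R} {n m : ℤ} {z : Cochain M.cx N.cx n} (hz : z ∈ lin M N n) :
    δ n m z ∈ lin M N m := by
  by_cases h : n + 1 = m
  swap
  · rw [δ_shape _ _ h]
    exact Submodule.zero_mem _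
  intro a b hab l a' b' ha hb x r
  rw [δ_v n m h z a' b' (by lia) (b' - 1) (a' + 1) rfl rfl,
    δ_v n m h z a b hab (b - 1) (a + 1) rfl rfl]
  simp only [Units.smul_def, ModuleCat.hom_add, LinearMap.add_apply, ModuleCat.hom_comp,
    LinearMap.comp_apply, ModuleCat.hom_zsmul, LinearMap.smul_apply, map_add]
  rw [hz a (b - 1) (by lia) l a' (b' - 1) ha (by lia), N.d_act (n' := b) (m' := l + 1) (by lia) (by lia) rfl (by lia),
    M.d_act ha rfl rfl rfl, map_add, hz (a + 1) b (by lia) l (a' + 1) b' (by lia) hb]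
  simp only [Units.smul_def, map_zsmul]
  rw [hz a (b - 1) (by lia) (l + 1) (a' + 1) b' (by lia) (by lia)]
  have e : ((b - 1).negOnePow : ℤ) = -((m.negOnePow : ℤ) * (a.negOnePow : ℤ)) := by
    subst hab
    rw [Int.negOnePow_sub, Int.negOnePow_add, Int.negOnePow_one, mul_neg_one, Units.val_neg,
      Units.val_mul, mul_comm]
  rw [e, smul_add, smul_smul, neg_smul, LinearMap.smul_apply]
  have key : ∀ A B D : N.cx.X b', A + -B + (D + B) = A + D := fun A B D => by abel
  exact key _ _ _

lemma lin_id (M : DGMod R) : Cochain.ofHom (𝟙 M.cx) ∈ lin M M 0 := by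
  intro p q h m p' q' hp hq x r
  obtain rfl : p = q := by lia
  obtain rfl : p' = q' := by lia
  simp

end DGMod

/-- the DG category of the right DG modules over the DG algebra `R` -/
noncomputable def modDG (R : DGAlg.{v} k) : DGCat.{v, max (v + 1) w} k where
  Obj := DGMod R
  Hom M N n := DGMod.lin M N n
  d {M N} n m := (δ_hom k M.cx N.cx n m).restrict fun _ hz => DGMod.lin_δ hz
  d_shape n m f h := Subtype.ext (δ_shape n m h f.1)
  d_d n m p f := Subtype.ext (δ_δ n m p f.1)
  id M := ⟨Cochain.ofHom (𝟙 M.cx), DGMod.lin_id M⟩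
  comp {K L M n m p} h := LinearMap.mk₂ k
    (fun f g => ⟨f.1.comp g.1 h, DGMod.lin_comp h f.2 g.2⟩)
    (fun f f' g => Subtype.ext (Cochain.add_comp f.1 f'.1 g.1 h))
    (fun c f g => Subtype.ext (Cochain.smul_comp c f.1 g.1 h))
    (fun f g g' => Subtype.ext (Cochain.comp_add f.1 g.1 g'.1 h))
    (fun c f g => Subtype.ext (Cochain.comp_smul f.1 c g.1 h))
  id_comp f := Subtype.ext (Cochain.id_comp f.1)
  comp_id f := Subtype.ext (Cochain.comp_id f.1)
  assoc h₁ h₂ h₃ h₄ f g h := Subtype.ext (Cochain.comp_assoc f.1 g.1 h.1 h₁ h₂ (by lia))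
  d_comp h hn hm hp f g := Subtype.ext (δ_comp f.1 g.1 h _ _ _ hp hn hm)

/-- The DG category of perfect right DG modules over the DG algebra `R`: the DG modules which are
obtained from `R` by finitely many shifts, mapping cones and homotopy direct summands. -/
noncomputable def perfDG (R : DGAlg.{v} k) : DGCat.{v, max (v + 1) w} k :=
  (modDG R).full fun M => DGCat.Thick (A := modDG R) R.self M

end Orl
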