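import Pool.Agent.Work.MP_a6e60d_ag.DG.RichCx
import Pool.Agent.Work.MP_a6e60d_ag.DG.Mod
import Mathlib.LinearAlgebra.Finsupp.LSum
import Mathlib.Algebra.Category.ModuleCat.Abelian

/-!
MP_a6e60d_ag: the DG category of right DG modules has cones, shifts and countable coproducts.
-/

open CategoryTheory CochainComplex HomComplex Limits

namespace Orl

variable {k : Type} [CommRing k] {R : DGAlg.{0} k}

namespace DGMod

/-! ### Countable coproducts -/

/-- the complex `ℕ →₀ M` -/
@[simps X]
noncomputable def powCx (M : CochainComplex (ModuleCat.{0} k) ℤ) :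
    CochainComplex (ModuleCat.{0} k) ℤ where
  X n := ModuleCat.of k (ℕ →₀ M.X n)
  d n m := ModuleCat.ofHom (Finsupp.mapRange.linearMap (M.d n m).hom)
  shape n m h := by
    refine ModuleCat.hom_ext (LinearMap.ext fun (x : ℕ →₀ M.X n) => Finsupp.ext fun j => ?_)
    change (M.d n m).hom (x j) = 0
    rw [M.shape n m h]
    rfl
  d_comp_d' n m p _ _ := by
    refine ModuleCat.hom_ext (LinearMap.ext fun (x : ℕ →₀ M.X n) => Finsupp.ext fun j => ?_)
    change (M.d m p).hom ((M.d n m).hom (x j)) = 0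
    rw [← LinearMap.comp_apply, ← ModuleCat.hom_comp, M.d_comp_d]
    rfl

/-- the action on `ℕ →₀ M` -/
noncomputable def powAct (M : DGMod R) {n m p : ℤ} (h : n + m = p) :
    (ℕ →₀ M.cx.X n) →ₗ[k] R.cx.X m →ₗ[k] (ℕ →₀ M.cx.X p) :=
  LinearMap.mk₂ k (fun x r => Finsupp.mapRange.linearMap ((M.act h).flip r) x)
    (fun x x' r => map_add _ _ _) (fun c x r => map_smul _ _ _)
    (fun x r r' => by
      ext j
      simp)
    (fun c x r => by
      ext j
      simp)

@[simp] lemma powAct_apply (M : DGMod R) {n m p : ℤ} (h : n + m = p) (x : ℕ →₀ M.cx.X n)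
    (r : R.cx.X m) (j : ℕ) : powAct M h x r j = M.act h (x j) r := rfl

/-- the DG module `ℕ →₀ M` -/
@[simps cx]
noncomputable def pow (M : DGMod R) : DGMod R where
  cx := powCx M.cx
  act h := powAct M h
  act_one x := Finsupp.ext fun j => M.act_one _
  act_mul h₁ h₂ h₃ h₄ x r s := Finsupp.ext fun j => M.act_mul h₁ h₂ h₃ h₄ _ r s
  d_act {n m p n' m' p'} h hn hm hp x r := by
    refine Finsupp.ext fun j => ?_
    change (M.cx.d p p').hom (M.act h (DFunLike.coe (F := ℕ →₀ M.cx.X n) x j) r) = _
    rw [M.d_act h hn hm hp]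
    rfl

/-- the inclusions -/
noncomputable def powι (M : DGMod R) (j : ℕ) : M.cx ⟶ M.pow.cx where
  f n := ModuleCat.ofHom (Finsupp.lsingle j)
  comm' n m _ := by
    refine ModuleCat.hom_ext (LinearMap.ext fun x => ?_)
    exact Finsupp.mapRange_single (hf := map_zero _)

lemma powι_apply (M : DGMod R) (j : ℕ) (n : ℤ) (x : M.cx.X n) :
    (ConcreteCategory.hom ((powι M j).f n)) x = Finsupp.single j x := rfl

lemma powι_lin (M : DGMod R) (j : ℕ) : Cochain.ofHom (powι M j) ∈ lin M M.pow 0 := by
  intro p q h m p' q' hp hq x r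
  obtain rfl : p = q := by omega
  obtain rfl : p' = q' := by omega
  rw [Cochain.ofHom_v, Cochain.ofHom_v]
  exact (Finsupp.mapRange_single (f := fun y => M.act hp y r) (hf := by simp)).symm

/-- the morphism out of `ℕ →₀ M` given by a family -/
noncomputable def powDesc {M c : DGMod R} {m : ℤ} (f : ℕ → lin M c m) :
    Cochain M.pow.cx c.cx m :=
  Cochain.mk fun p q h => ModuleCat.ofHom (Finsupp.lsum ℕ fun j => ((f j).1.v p q h).hom)

lemma powDesc_v {M c : DGMod R} {m : ℤ} (f : ℕ → lin M c m) (p q : ℤ) (h : p + m = q) (j : ℕ)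
    (x : M.cx.X p) : (ConcreteCategory.hom ((powDesc f).v p q h)) (Finsupp.single j x) =
      (ConcreteCategory.hom ((f j).1.v p q h)) x := by
  change Finsupp.lsum ℕ (fun j => ((f j).1.v p q h).hom) (Finsupp.single j x) = _
  rw [Finsupp.lsum_single]

lemma powDesc_lin {M c : DGMod R} {m : ℤ} (f : ℕ → lin M c m) : powDesc f ∈ lin M.pow c m := by
  intro p q h l p' q' hp hq x r
  refine LinearMap.congr_fun (Finsupp.lhom_ext (M := M.cx.X p) (N := c.cx.X q')
    (φ := ((powDesc f).v p' q' (by lia)).hom ∘ₗ (M.pow.act hp).flip r)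
    (ψ := (c.act hq).flip r ∘ₗ ((powDesc f).v p q h).hom) fun j x => ?_) x
  change ((powDesc f).v p' q' _).hom (M.pow.act hp (Finsupp.single j x) r) =
    c.act hq ((ConcreteCategory.hom ((powDesc f).v p q h)) (Finsupp.single j x)) r
  have : M.pow.act hp (Finsupp.single j x) r = Finsupp.single j (M.act hp x r) :=
    Finsupp.mapRange_single (f := fun y => M.act hp y r) (hf := by simp)
  rw [powDesc_v, this]
  refine (powDesc_v f p' q' _ j _).trans ?_
  exact (f j).2 p q h l p' q' hp hq x r

end DGMod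

open DGMod in
/-- the coproduct of countably many copies of a DG module -/
noncomputable def modDGPow (M : DGMod R) : Pow (A := modDG R) M M.pow where
  ι j := ⟨Cochain.ofHom (powι M j), powι_lin M j⟩
  closed j := Subtype.ext (δ_ofHom (powι M j))
  desc {c m} f := by
    refine ⟨⟨powDesc f, powDesc_lin f⟩, fun j => Subtype.ext ?_⟩
    change (Cochain.ofHom (powι M j)).comp (powDesc f) (zero_add m) = (f j).1
    ext p q h x
    rw [Cochain.zero_cochain_comp_v, Cochain.ofHom_v]
    exact powDesc_v f p q h j x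
  ext {c m} g g' h := by
    refine Subtype.ext (Cochain.ext (F := M.pow.cx) (G := DGMod.cx c) g.1 g'.1 fun p q hpq => ?_)
    refine ModuleCat.hom_ext (Finsupp.lhom_ext fun j x => ?_)
    have := congrArg (fun z : lin M c m => (z.1.v p q hpq).hom x) (h j)
    change (((Cochain.ofHom (powι M j)).comp (g.1 : Cochain M.pow.cx (DGMod.cx c) m)
      (zero_add m)).v p q hpq).hom x = (((Cochain.ofHom (powι M j)).comp
        (g'.1 : Cochain M.pow.cx (DGMod.cx c) m) (zero_add m)).v p q hpq).hom x at this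
    rw [Cochain.zero_cochain_comp_v, Cochain.zero_cochain_comp_v, Cochain.ofHom_v] at this
    exact this

namespace DGMod

/-! ### Shifts -/

/-- the shift of a right DG module -/
@[simps cx]
noncomputable def shift (M : DGMod R) (t : ℤ) : DGMod R where
  cx := (M.cx⟦t⟧ : CochainComplex (ModuleCat.{0} k) ℤ)
  act {n m p} h := M.act (show n + t + m = p + t by lia)
  act_one x := M.act_one x
  act_mul {n m l nm ml p} h₁ h₂ h₃ h₄ x r s :=
    M.act_mul (show n + t + m = nm + t by lia) h₂ (show nm + t + l = p + t by lia)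
      (show n + t + ml = p + t by lia) x r s
  d_act {n m p n' m' p'} h hn hm hp x r := by
    change t.negOnePow • (M.cx.d (p + t) (p' + t)).hom
        (M.act (show n + t + m = p + t by lia) x r) =
      M.act (show n' + t + m = p' + t by lia) (t.negOnePow • (M.cx.d (n + t) (n' + t)).hom x) r +
        n.negOnePow • M.act (show n + t + m' = p' + t by lia) x ((R.cx.d m m').hom r)
    have := M.d_act (show n + t + m = p + t by lia) (show n + t + 1 = n' + t by lia) hm
      (show p + t + 1 = p' + t by lia) x r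
    refine (congrArg (t.negOnePow • ·) this).trans ?_
    rw [Int.negOnePow_add, smul_add, smul_smul, mul_comm n.negOnePow, ← mul_assoc,
      Int.units_mul_self, one_mul]
    simp only [Units.smul_def, map_zsmul, LinearMap.smul_apply]

lemma shiftp_v (K : CochainComplex (ModuleCat.{0} k) ℤ) (t p : ℤ) (x : K.X (p + t)) :
    (ConcreteCategory.hom (((Cochain.ofHom (𝟙 (K⟦t⟧))).rightUnshift t (zero_add t)).v p (p + t)
      rfl)) x = x := by
  rw [Cochain.rightUnshift_v _ _ _ _ _ _ p (by omega)]
  simp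
  rfl

lemma shiftr_v (K : CochainComplex (ModuleCat.{0} k) ℤ) (t p : ℤ) (x : K.X (p + t)) :
    (ConcreteCategory.hom (((Cochain.ofHom (𝟙 K)).rightShift t (-t) (neg_add_cancel t)).v (p + t) p
      (by omega))) x = x := by
  rw [Cochain.rightShift_v _ _ _ _ _ _ _ (p + t) (by omega)]
  simp
  rfl

lemma shiftp_lin (M : DGMod R) (t : ℤ) :
    (Cochain.ofHom (𝟙 (M.cx⟦t⟧))).rightUnshift t (zero_add t) ∈ lin (M.shift t) M t := by
  intro p q h m p' q' hp hq x r
  obtain rfl : q' = p' + t := by omega
  obtain rfl : q = p + t := by omega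
  exact (shiftp_v M.cx t p' _).trans
    (congrArg (fun y => M.act hq y r) (shiftp_v M.cx t p x)).symm

lemma shiftr_lin (M : DGMod R) (t : ℤ) :
    (Cochain.ofHom (𝟙 M.cx)).rightShift t (-t) (neg_add_cancel t) ∈ lin M (M.shift t) (-t) := by
  intro p q h m p' q' hp hq x r
  obtain rfl : p' = q' + t := by omega
  obtain rfl : p = q + t := by omega
  exact (shiftr_v M.cx t q' _).trans
    (congrArg (fun y => M.act hp y r) (shiftr_v M.cx t q x)).symm

end DGMod

/-- the shift of a DG module -/
noncomputable def modDGShift (t : ℤ) (M : DGMod R) : Shift (A := modDG R) t M (M.shift t) where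
  p := ⟨_, M.shiftp_lin t⟩
  r := ⟨_, M.shiftr_lin t⟩
  p_closed := Subtype.ext (cxDGShift (k := k) t M.cx).p_closed
  r_closed := Subtype.ext (cxDGShift (k := k) t M.cx).r_closed
  p_r := Subtype.ext (cxDGShift (k := k) t M.cx).p_r
  r_p := Subtype.ext (cxDGShift (k := k) t M.cx).r_p

namespace DGMod

/-! ### Cones -/

section Cone

variable {K L : CochainComplex (ModuleCat.{0} k) ℤ} (φ : K ⟶ L)

lemma cone_fst_inl {n m : ℤ} (h : n + 1 = m) (x : K.X m) :
    ((mappingCone.fst φ).1.v n m h).hom (((mappingCone.inl φ).v m n (by lia)).hom x) = x := by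
  have := congrArg (fun z => z.hom x) (mappingCone.inl_v_fst_v φ m n h)
  exact this

lemma cone_snd_inl {n m : ℤ} (h : n + 1 = m) (x : K.X m) :
    ((mappingCone.snd φ).v n n (add_zero n)).hom (((mappingCone.inl φ).v m n (by lia)).hom x) =
      0 := by
  have := congrArg (fun z => z.hom x) (mappingCone.inl_v_snd_v φ m n (by lia))
  exact this

lemma cone_fst_inr {n m : ℤ} (h : n + 1 = m) (x : L.X n) :
    ((mappingCone.fst φ).1.v n m h).hom (((mappingCone.inr φ).f n).hom x) = 0 := by
  have := congrArg (fun z => z.hom x) (mappingCone.inr_f_fst_v φ n m h)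
  exact this

lemma cone_snd_inr (n : ℤ) (x : L.X n) :
    ((mappingCone.snd φ).v n n (add_zero n)).hom (((mappingCone.inr φ).f n).hom x) = x := by
  have := congrArg (fun z => z.hom x) (mappingCone.inr_f_snd_v φ n)
  exact this

lemma cone_decomp {n m : ℤ} (h : n + 1 = m) (x : (mappingCone φ).X n) :
    ((mappingCone.inl φ).v m n (by lia)).hom (((mappingCone.fst φ).1.v n m h).hom x) +
      ((mappingCone.inr φ).f n).hom (((mappingCone.snd φ).v n n (add_zero n)).hom x) = x := by
  have := congrArg (fun z => z.hom x) (mappingCone.id_X φ n m h)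
  simpa using this

lemma cone_ext {n m : ℤ} (h : n + 1 = m) {x y : (mappingCone φ).X n}
    (h₁ : ((mappingCone.fst φ).1.v n m h).hom x = ((mappingCone.fst φ).1.v n m h).hom y)
    (h₂ : ((mappingCone.snd φ).v n n (add_zero n)).hom x =
      ((mappingCone.snd φ).v n n (add_zero n)).hom y) : x = y := by
  rw [← cone_decomp φ h x, ← cone_decomp φ h y, h₁, h₂]

lemma cone_fst_d {i j l : ℤ} (hij : i + 1 = j) (hjl : j + 1 = l) (x : (mappingCone φ).X i) :
    ((mappingCone.fst φ).1.v j l hjl).hom (((mappingCone φ).d i j).hom x) =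
      -(K.d j l).hom (((mappingCone.fst φ).1.v i j hij).hom x) := by
  have := congrArg (fun z => z.hom x) (mappingCone.d_fst_v φ i j l hij hjl)
  simpa using this

lemma cone_snd_d {i j : ℤ} (hij : i + 1 = j) (x : (mappingCone φ).X i) :
    ((mappingCone.snd φ).v j j (add_zero j)).hom (((mappingCone φ).d i j).hom x) =
      (φ.f j).hom (((mappingCone.fst φ).1.v i j hij).hom x) +
        (L.d i j).hom (((mappingCone.snd φ).v i i (add_zero i)).hom x) := by
  have := congrArg (fun z => z.hom x) (mappingCone.d_snd_v φ i j hij)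
  simpa using this

end Cone

variable {M N : DGMod R} (φ : M.cx ⟶ N.cx) (hφ : Cochain.ofHom φ ∈ lin M N 0)

/-- the action on the mapping cone -/
noncomputable def coneAct {n m p : ℤ} (h : n + m = p) :
    (mappingCone φ).X n →ₗ[k] R.cx.X m →ₗ[k] (mappingCone φ).X p :=
  ((M.act (show n + 1 + m = p + 1 by lia)).comp
    ((mappingCone.fst φ).1.v n (n + 1) rfl).hom).compr₂
      ((mappingCone.inl φ).v (p + 1) p (by lia)).hom +
  ((N.act h).comp ((mappingCone.snd φ).v n n (add_zero n)).hom).compr₂
    ((mappingCone.inr φ).f p).hom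

lemma fst_coneAct {n m p n' p' : ℤ} (h : n + m = p) (hn : n + 1 = n') (hp : p + 1 = p')
    (x : (mappingCone φ).X n) (r : R.cx.X m) :
    ((mappingCone.fst φ).1.v p p' hp).hom (coneAct φ h x r) =
      M.act (by lia) (((mappingCone.fst φ).1.v n n' hn).hom x) r := by
  subst hn hp
  change ((mappingCone.fst φ).1.v p (p + 1) rfl).hom
    (((mappingCone.inl φ).v (p + 1) p (by lia)).hom (M.act _ _ r) +
      ((mappingCone.inr φ).f p).hom (N.act h _ r)) = _
  rw [map_add, cone_fst_inl, cone_fst_inr, add_zero]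

lemma snd_coneAct {n m p : ℤ} (h : n + m = p) (x : (mappingCone φ).X n) (r : R.cx.X m) :
    ((mappingCone.snd φ).v p p (add_zero p)).hom (coneAct φ h x r) =
      N.act h (((mappingCone.snd φ).v n n (add_zero n)).hom x) r := by
  change ((mappingCone.snd φ).v p p (add_zero p)).hom
    (((mappingCone.inl φ).v (p + 1) p (by lia)).hom (M.act _ _ r) +
      ((mappingCone.inr φ).f p).hom (N.act h _ r)) = _
  rw [map_add, cone_snd_inl φ rfl, cone_snd_inr, zero_add]

/-- the mapping cone of a morphism of DG modules -/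
@[simps cx]
noncomputable def cone : DGMod R where
  cx := mappingCone φ
  act h := coneAct φ h
  act_one {n} x := by
    refine cone_ext φ rfl ?_ ?_
    · rw [fst_coneAct φ _ rfl rfl]
      exact M.act_one _
    · rw [snd_coneAct]
      exact N.act_one _
  act_mul {n m l nm ml p} h₁ h₂ h₃ h₄ x r s := by
    refine cone_ext φ rfl ?_ ?_
    · rw [fst_coneAct φ _ rfl rfl, fst_coneAct φ _ rfl rfl, fst_coneAct φ _ rfl rfl]
      exact M.act_mul _ _ _ _ _ _ _
    · rw [snd_coneAct, snd_coneAct, snd_coneAct]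
      exact N.act_mul _ _ _ _ _ _ _
  d_act {n m p n' m' p'} h hn hm hp x r := by
    refine cone_ext φ rfl ?_ ?_
    · change ((mappingCone.fst φ).1.v p' (p' + 1) rfl).hom
        (((mappingCone φ).d p p').hom (coneAct φ h x r)) =
        ((mappingCone.fst φ).1.v p' (p' + 1) rfl).hom
          (coneAct φ (show n' + m = p' by lia) (((mappingCone φ).d n n').hom x) r +
            n.negOnePow • coneAct φ (show n + m' = p' by lia) x ((R.cx.d m m').hom r))
      rw [cone_fst_d φ hp rfl, fst_coneAct φ h hn hp, map_add, Units.smul_def, map_zsmul,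
        fst_coneAct φ _ rfl rfl, fst_coneAct φ _ hn rfl, cone_fst_d φ hn rfl, map_neg,
        LinearMap.neg_apply]
      have := M.d_act (n := n') (m := m) (p := p') (n' := n' + 1) (m' := m') (p' := p' + 1)
        (by lia) rfl hm rfl (((mappingCone.fst φ).1.v n n' hn).hom x) r
      refine (congrArg Neg.neg this).trans ?_
      have s : (n'.negOnePow : ℤˣ) = -n.negOnePow := by rw [← hn, Int.negOnePow_succ]
      rw [neg_add, s, Units.smul_def, Units.val_neg, neg_smul, neg_neg]
    · change ((mappingCone.snd φ).v p' p' (add_zero p')).hom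
        (((mappingCone φ).d p p').hom (coneAct φ h x r)) =
        ((mappingCone.snd φ).v p' p' (add_zero p')).hom
          (coneAct φ (show n' + m = p' by lia) (((mappingCone φ).d n n').hom x) r +
            n.negOnePow • coneAct φ (show n + m' = p' by lia) x ((R.cx.d m m').hom r))
      rw [cone_snd_d φ hp, fst_coneAct φ h hn hp, snd_coneAct, map_add, Units.smul_def,
        map_zsmul, snd_coneAct, snd_coneAct, cone_snd_d φ hn, map_add, LinearMap.add_apply,
        add_assoc]
      have e₁ := N.d_act h hn hm hp (((mappingCone.snd φ).v n n (add_zero n)).hom x) r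
      have e₂ := hφ n' n' (add_zero n') m p' p' (by lia) (by lia)
        (((mappingCone.fst φ).1.v n n' hn).hom x) r
      rw [Cochain.ofHom_v, Cochain.ofHom_v] at e₂
      exact congrArg₂ (· + ·) e₂ e₁

lemma cone_inl_lin : (mappingCone.inl φ : Cochain M.cx (cone φ hφ).cx (-1)) ∈
    lin M (cone φ hφ) (-1) := by
  intro p q h m p' q' hp hq x r
  obtain rfl : p = q + 1 := by omega
  obtain rfl : p' = q' + 1 := by omega
  refine cone_ext φ rfl ?_ ?_
  · refine (cone_fst_inl φ rfl _).trans ((fst_coneAct φ hq rfl rfl _ r).trans ?_).symm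
    exact congrArg (fun y => M.act hp y r) (cone_fst_inl φ rfl x)
  · refine (cone_snd_inl φ rfl _).trans ((snd_coneAct φ hq _ r).trans ?_).symm
    refine (congrArg (fun y => N.act hq y r) (cone_snd_inl φ rfl x)).trans ?_
    simp

lemma cone_inr_lin : (Cochain.ofHom (mappingCone.inr φ) : Cochain N.cx (cone φ hφ).cx 0) ∈
    lin N (cone φ hφ) 0 := by
  intro p q h m p' q' hp hq x r
  obtain rfl : p = q := by omega
  obtain rfl : p' = q' := by omega
  have e : ∀ (n : ℤ) (y : N.cx.X n),
      (ConcreteCategory.hom ((Cochain.ofHom (mappingCone.inr φ)).v n n (add_zero n))) y =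
        ((mappingCone.inr φ).f n).hom y := fun n y => by rw [Cochain.ofHom_v]
  refine (e _ _).trans (Eq.trans ?_ (congrArg (fun y => coneAct φ hq y r) (e _ _)).symm)
  refine cone_ext φ rfl ?_ ?_
  · refine (cone_fst_inr φ rfl _).trans ((fst_coneAct φ hq rfl rfl _ r).trans ?_).symm
    refine (congrArg (fun y => M.act (show p + 1 + m = p' + 1 by lia) y r)
      (cone_fst_inr φ rfl x)).trans ?_
    simp
  · refine (cone_snd_inr φ _ _).trans ((snd_coneAct φ hq _ r).trans ?_).symm
    exact congrArg (fun y => N.act hq y r) (cone_snd_inr φ p x)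

lemma cone_fst_lin : ((mappingCone.fst φ).1 : Cochain (cone φ hφ).cx M.cx 1) ∈
    lin (cone φ hφ) M 1 := by
  intro p q h m p' q' hp hq x r
  exact fst_coneAct φ hp h (by lia) x r

lemma cone_snd_lin : (mappingCone.snd φ : Cochain (cone φ hφ).cx N.cx 0) ∈
    lin (cone φ hφ) N 0 := by
  intro p q h m p' q' hp hq x r
  obtain rfl : p = q := by omega
  obtain rfl : p' = q' := by omega
  exact snd_coneAct φ hp x r

end DGMod

open DGMod in
/-- the mapping cone of a morphism of DG modules -/
noncomputable def modDGCone {M N : DGMod R} (φ : M.cx ⟶ N.cx)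
    (hφ : Cochain.ofHom φ ∈ lin M N 0) :
    DGCat.Cone (A := modDG R) (a := M) (b := N) ⟨_, hφ⟩ (cone φ hφ) where
  inl := ⟨_, cone_inl_lin φ hφ⟩
  inr := ⟨_, cone_inr_lin φ hφ⟩
  fst := ⟨_, cone_fst_lin φ hφ⟩
  snd := ⟨_, cone_snd_lin φ hφ⟩
  inl_fst := Subtype.ext (cxCone (k := k) φ).inl_fst
  inl_snd := Subtype.ext (cxCone (k := k) φ).inl_snd
  inr_fst := Subtype.ext (cxCone (k := k) φ).inr_fst
  inr_snd := Subtype.ext (cxCone (k := k) φ).inr_snd
  total := Subtype.ext (cxCone (k := k) φ).total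
  d_inl := Subtype.ext (cxCone (k := k) φ).d_inl
  d_inr := Subtype.ext (cxCone (k := k) φ).d_inr
  d_fst := Subtype.ext (cxCone (k := k) φ).d_fst
  d_snd := Subtype.ext (cxCone (k := k) φ).d_snd

theorem isPerfectLike_modDG (R : DGAlg.{0} k) : IsPerfectLike (modDG R) := by
  refine isPerfectLike_of (fun {a b} f hf => ?_) (fun K => ⟨_, ⟨modDGPow K⟩⟩)
    (fun t L => ⟨_, ⟨modDGShift t L⟩⟩)
  change DGMod R at a b
  obtain ⟨f, hfl⟩ := f
  have hf : δ 0 (0 + 1) (f : Cochain a.cx b.cx 0) = 0 := congrArg Subtype.val hf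
  obtain ⟨φ, rfl⟩ : ∃ φ : a.cx ⟶ b.cx, Cochain.ofHom φ = f := by
    refine ⟨Cocycle.homOf (Cocycle.mk (f : Cochain a.cx b.cx 0) (0 + 1) rfl hf), ?_⟩
    rw [Cocycle.cochain_ofHom_homOf_eq_coe]
    rfl
  exact ⟨_, ⟨modDGCone φ hfl⟩⟩

end Orl
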