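import Pool.Agent.Work.MP_a6e60d_ag.DG.Elem
import Pool.Agent.Work.MP_a6e60d_ag.DG.Res
import Pool.Agent.Work.MP_a6e60d_ag.DG.RichMod

/-!
MP_a6e60d_ag: resolved DG modules: short exact sequences, submodules, finite powers.
-/

open CategoryTheory CochainComplex HomComplex

namespace Orl

namespace DGMod

variable {k : Type} [CommRing k] {E : DGAlg.{0} k}

lemma isQis_iff_gqis {U V : DGMod E} (q : (modDG E).Hom U V 0) :
    IsQis q ↔ GQis (A := modDG E) E.self q := by
  rw [isQis_iff]
  exact ⟨fun h => gqis_of h.1 h.2, fun h => ⟨h.closed, h.qiso⟩⟩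

/-- `U` is perfect: it is resolved by the thick closure of the free module of rank one -/
abbrev IsRes (U : DGMod E) : Prop := Res (A := modDG E) E.self U

section Ses

variable {U' U U'' : DGMod E} {i : (modDG E).Hom U' U 0} {p : (modDG E).Hom U U'' 0}

theorem IsRes.of_ses (hi : IsClosed (A := modDG E) i) (hp : IsClosed (A := modDG E) p)
    (inj : ∀ (n : ℤ) (x : U'.cx.X n), ap i (add_zero n) x = 0 → x = 0)
    (hpi : ∀ (n : ℤ) (x : U'.cx.X n), ap p (add_zero n) (ap i (add_zero n) x) = 0)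
    (ex : ∀ (n : ℤ) (y : U.cx.X n), ap p (add_zero n) y = 0 → ∃ x, ap i (add_zero n) x = y)
    (surj : ∀ (n : ℤ) (z : U''.cx.X n), ∃ y, ap p (add_zero n) y = z)
    (h' : U'.IsRes) (h : U.IsRes) : U''.IsRes := by
  obtain ⟨c, ⟨K⟩⟩ := (isPerfectLike_modDG E).cone (a := U') (b := U) i hi
  have hc : Res (A := modDG E) E.self c := Res.cone (isPerfectLike_modDG E).cone hi K h' h
  change DGMod E at c
  have pc : ∀ {n m : ℤ} (hn : n + 1 = m) (x : U.cx.X n), U''.cx.d n m (ap p (add_zero n) x) =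
      ap p (add_zero m) (U.cx.d n m x) := fun {n m} hn x => by
    have := ap_closed hp (add_zero n) hn hn x
    rwa [Int.negOnePow_zero, one_smul] at this
  have ic : ∀ {n m : ℤ} (hn : n + 1 = m) (x : U'.cx.X n), U.cx.d n m (ap i (add_zero n) x) =
      ap i (add_zero m) (U'.cx.d n m x) := fun {n m} hn x => by
    have := ap_closed hi (add_zero n) hn hn x
    rwa [Int.negOnePow_zero, one_smul] at this
  have hip : (modDG E).comp (add_zero 0) i p = 0 := by
    ext n m hnm x
    obtain rfl : n = m := by omega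
    rw [ap_comp (add_zero 0) i p hnm (add_zero n)]
    exact hpi n x
  have hq : IsClosed (A := modDG E) ((modDG E).comp (add_zero 0) K.snd p) := by
    refine isClosed_of (zero_add 1) ?_
    rw [d_comp_closed (add_zero 0) (zero_add 1) (zero_add 1) _ _ (hp.d 1), K.d_snd, map_neg,
      LinearMap.neg_apply, (modDG E).assoc (add_zero 1) (add_zero 0) (add_zero 1) (add_zero 1),
      hip, map_zero, neg_zero]
  -- the components of an element of the cone
  let fs : ∀ {n m : ℤ} (_ : n + 1 = m), c.cx.X n →ₗ[k] U'.cx.X m := fun {n m} h =>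
    ap (M := c) (N := U') K.fst h
  let sn : ∀ n : ℤ, c.cx.X n →ₗ[k] U.cx.X n := fun n => ap (M := c) (N := U) K.snd (add_zero n)
  have tot : ∀ {n m : ℤ} (h : n + 1 = m) (z : c.cx.X n), ap (M := U') (N := c) K.inl
      (show m + -1 = n by omega) (fs h z) + ap (M := U) (N := c) K.inr (add_zero n) (sn n z) =
      z := fun {n m} h z => by
    have := congrArg (fun f => ap (M := c) (N := c) f (add_zero n) z) K.total
    simp only [ap_add, ap_id] at this
    rwa [ap_comp _ _ _ _ h, ap_comp _ _ _ _ (add_zero n)] at this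
  have ext0 : ∀ {n m : ℤ} (h : n + 1 = m) (z w : c.cx.X n), fs h z = fs h w → sn n z = sn n w →
      z = w := fun {n m} h z w h₁ h₂ => by rw [← tot h z, ← tot h w, h₁, h₂]
  have mk : ∀ {n m : ℤ} (h : n + 1 = m) (x : U'.cx.X m) (y : U.cx.X n), ∃ z : c.cx.X n,
      fs h z = x ∧ sn n z = y := fun {n m} h x y => by
    refine ⟨ap (M := U') (N := c) K.inl (show m + -1 = n by omega) x +
      ap (M := U) (N := c) K.inr (add_zero n) y, ?_, ?_⟩
    · have e₁ := congrArg (fun f => ap (M := U') (N := U') f (add_zero m) x) K.inl_fst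
      have e₂ := congrArg (fun f => ap (M := U) (N := U') f h y) K.inr_fst
      simp only [ap_id, ap_zero] at e₁ e₂
      rw [ap_comp _ _ _ _ (show m + -1 = n by omega)] at e₁
      rw [ap_comp _ _ _ _ (add_zero n)] at e₂
      rw [map_add]
      exact (congrArg₂ (· + ·) e₁ e₂).trans (add_zero x)
    · have e₁ := congrArg (fun f => ap (M := U') (N := U) f (show m + -1 = n by omega) x)
        K.inl_snd
      have e₂ := congrArg (fun f => ap (M := U) (N := U) f (add_zero n) y) K.inr_snd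
      simp only [ap_id, ap_zero] at e₁ e₂
      rw [ap_comp _ _ _ _ (show m + -1 = n by omega)] at e₁
      rw [ap_comp _ _ _ _ (add_zero n)] at e₂
      rw [map_add]
      exact (congrArg₂ (· + ·) e₁ e₂).trans (zero_add y)
  have dfs : ∀ {n m l : ℤ} (h : n + 1 = m) (h' : m + 1 = l) (z : c.cx.X n),
      fs h' (c.cx.d n m z) = - U'.cx.d m l (fs h z) := fun {n m l} h h' z => by
    have := ap_closed (M := c) (N := U') (f := K.fst) K.d_fst h h h' z
    rw [Int.negOnePow_one, Units.neg_smul, one_smul] at this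
    exact (neg_eq_iff_eq_neg.2 (this)).symm
  have dsn : ∀ {n m : ℤ} (h : n + 1 = m) (z : c.cx.X n),
      sn m (c.cx.d n m z) = U.cx.d n m (sn n z) + ap i (add_zero m) (fs h z) :=
    fun {n m} h z => by
    have := ap_d (M := c) (N := U) (zero_add 1) K.snd h h h z
    rw [Int.negOnePow_one, Units.neg_smul, one_smul, K.d_snd, ap_neg,
      ap_comp _ _ _ _ h] at this
    have e : ∀ a b d : U.cx.X m, -a = b + -d → d = b + a := fun a b d h => by
      rw [eq_add_neg_iff_add_eq] at h
      rw [← h]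
      abel
    exact e _ _ _ this
  refine Res.of_qis ((isQis_iff_gqis _).1 ?_) hc (q := (modDG E).comp (add_zero 0) K.snd p)
  have apq : ∀ (n : ℤ) (z : c.cx.X n), ap (M := c) (N := U'')
      ((modDG E).comp (add_zero 0) K.snd p) (add_zero n) z = ap p (add_zero n) (sn n z) :=
    fun n z => ap_comp _ _ _ _ (add_zero n) z
  refine ⟨hq, fun n z hz => ?_, fun n y hy => ?_⟩
  · rintro ⟨y, hy⟩
    obtain ⟨m, hm⟩ : ∃ m, m = n + 1 := ⟨_, rfl⟩
    rw [← hm] at hz
    have hn : n - 1 + 1 = n := by omega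
    obtain ⟨y', rfl⟩ := surj (n - 1) y
    have hy : U''.cx.d (n - 1) n (ap p (add_zero (n - 1)) y') = ap p (add_zero n) (sn n z) :=
      hy.trans (apq n z)
    obtain ⟨x, hx⟩ := ex n (sn n z - U.cx.d (n - 1) n y') (by
      rw [map_sub, ← hy, pc hn, sub_self])
    obtain ⟨w, hw₁, hw₂⟩ := mk hn x y'
    refine ⟨w, ext0 hm.symm _ _ ?_ ?_⟩
    · rw [dfs hn hm.symm, hw₁]
      have h₁ := dsn hm.symm z
      rw [hz, map_zero] at h₁
      have h₂ : ap i (add_zero m) (fs hm.symm z + U'.cx.d n m x) = 0 := by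
        rw [map_add, ← ic hm.symm, hx, map_sub, U.d_d, sub_zero, add_comm, ← h₁]
      have := inj _ _ h₂
      rw [neg_eq_iff_add_eq_zero, add_comm]
      exact this
    · rw [dsn hn, hw₁, hw₂, hx]
      abel
  · obtain ⟨m, hm⟩ : ∃ m, m = n + 1 := ⟨_, rfl⟩
    rw [← hm] at hy ⊢
    obtain ⟨u, rfl⟩ := surj n y
    obtain ⟨x, hx⟩ := ex m (U.cx.d n m u) (by rw [← pc hm.symm, hy])
    obtain ⟨z, hz₁, hz₂⟩ := mk hm.symm (-x) u
    refine ⟨z, ext0 (m := m + 1) rfl _ _ ?_ ?_, 0, ?_⟩
    · rw [dfs hm.symm rfl, hz₁, map_neg, neg_neg, map_zero]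
      refine inj _ _ ?_
      rw [← ic rfl, hx, U.d_d]
    · rw [dsn hm.symm, hz₁, hz₂, map_neg, hx, map_zero, add_neg_cancel]
    · rw [map_zero, eq_comm, sub_eq_zero]
      refine Eq.symm ((apq n z).trans ?_)
      rw [hz₂]

end Ses

end DGMod

end Orl
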