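import Pool.Agent.Work.MP_a6e60d_ag.DG.LeftHom
import Pool.Agent.Work.MP_a6e60d_ag.DG.ResMod

/-!
MP_a6e60d_ag: the DG modules `Hom (P, c)` and `Hom (c, P)` for `c` in the thick closure of `P`, and
for `c` which is approximated by an object of the thick closure.
-/

open CategoryTheory CochainComplex HomComplex

namespace Orl

section

variable {k : Type} [CommRing k] {A : DGCat.{0, 1} k} {P : A.Obj}

/-- every object is a shift by `1` -/
lemma exists_shift_one (hs : ∀ (t : ℤ) (L : A.Obj), ∃ M, Nonempty (Shift t L M)) (c : A.Obj) :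
    ∃ c', Nonempty (Shift 1 c' c) := by
  obtain ⟨M, ⟨S⟩⟩ := hs (-1) c
  exact ⟨M, ⟨⟨S.r, S.p, S.r_closed, S.p_closed, S.r_p, S.p_r⟩⟩⟩

/-- the endomorphism DG algebra of `P` acts on `P` -/
def StrictAct.self (A : DGCat.{0, 1} k) (P : A.Obj) : StrictAct (A.endAlg P) A P where
  map := LinearMap.id
  map_one := rfl
  map_mul _ _ _ := rfl
  map_d _ _ _ := rfl

/-- the opposite of the endomorphism DG algebra of `P` acts on `P` in the opposite category -/
def StrictAct.selfOp (A : DGCat.{0, 1} k) (P : A.Obj) : StrictAct (A.endAlg P).op A.op P where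
  map := LinearMap.id
  map_one := rfl
  map_mul {n m p} h x y := by
    change (n * m).negOnePow • A.comp _ x y = (m * n).negOnePow • A.comp _ x y
    rw [mul_comm]
  map_d _ _ _ := rfl

lemma homMod_self (V : A.Obj) : homMod (StrictAct.self A P) V = rightHom A P V := rfl

lemma homMod_selfOp (U : A.Obj) :
    homMod (A := A.op) (StrictAct.selfOp A P) U = leftHom A P U := by
  unfold leftHom homMod
  congr 1
  funext n m p h
  change (((m * n).negOnePow • (A.comp (a := U) (b := P) (c := P) (n := n) (m := m) (p := p)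
    h).flip) ∘ₗ LinearMap.id).flip =
    (n * m).negOnePow • A.comp (a := U) (b := P) (c := P) (n := n) (m := m) (p := p) h
  rw [mul_comm]
  rfl

theorem thick_rightHom {c : A.Obj} (h : DGCat.Thick P c) :
    DGCat.Thick (A := modDG (A.endAlg P)) (A.endAlg P).self (rightHom A P c) :=
  Thick.map (homFun (StrictAct.self A P)) h

theorem thick_leftHom (hs : ∀ c : A.Obj, ∃ c', Nonempty (Shift 1 c' c)) {c : A.Obj}
    (h : DGCat.Thick P c) :
    DGCat.Thick (A := modDG (A.endAlg P).op) (A.endAlg P).op.self (leftHom A P c) := by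
  have h₁ := Thick.map (homFun (A := A.op) (StrictAct.selfOp A P)) (Thick.op hs h)
  have e : ∀ U : A.Obj, (homFun (A := A.op) (StrictAct.selfOp A P)).obj U = leftHom A P U :=
    homMod_selfOp
  rw [e, e] at h₁
  exact h₁

lemma lh_closed {U U' : A.Obj} {u : A.Hom U U' 0} (hu : IsClosed u) {p : ℤ}
    (x : A.Hom U' P p) : A.d p (p + 1) (A.comp (zero_add p) u x) + (1 : ℤ).negOnePow •
      A.comp (zero_add (p + 1)) u (A.d p (p + 1) x) = 0 := by
  rw [d_closed_comp (m' := p + 1) (p' := p + 1) (zero_add p) rfl rfl _ _ hu,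
    Int.negOnePow_one, Units.neg_smul, one_smul, add_neg_cancel]

lemma rh_closed {V V' : A.Obj} {v : A.Hom V V' 0} (hv : IsClosed v) {p : ℤ}
    (x : A.Hom P V p) : A.d p (p + 1) (A.comp (add_zero p) x v) + (1 : ℤ).negOnePow •
      A.comp (add_zero (p + 1)) (A.d p (p + 1) x) v = 0 := by
  rw [d_comp_closed (n' := p + 1) (p' := p + 1) (add_zero p) rfl rfl _ _ hv,
    Int.negOnePow_one, Units.neg_smul, one_smul, add_neg_cancel]

/-- Precomposition with a closed morphism `U → U'` of degree `0` which induces a
quasi-isomorphism `Hom (U', P) → Hom (U, P)`. -/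
theorem isQis_leftMap {U U' : A.Obj} {u : A.Hom U U' 0} (hu : IsClosed u)
    (h : QIso (prec u P)) : DGMod.IsQis (leftMap (P := P) u) where
  closed := by
    refine DGMod.hom_ext fun p q h x => ?_
    refine (DGMod.ap_d (zero_add 1) (leftMap (P := P) u) h (p' := p + 1) (q' := p) rfl
      (by lia) x).trans ?_
    obtain rfl : q = p + 1 := by lia
    exact lh_closed hu x
  inj n x hx hy := h.inj n x hx hy
  surj n y hy := h.surj n y hy

/-- Postcomposition with a closed morphism `V → V'` of degree `0` which induces a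
quasi-isomorphism `Hom (P, V) → Hom (P, V')`. -/
theorem isQis_rightMap {V V' : A.Obj} {v : A.Hom V V' 0} (hv : IsClosed v)
    (h : QIso (postc v P)) : DGMod.IsQis (rightMap (P := P) v) where
  closed := by
    refine DGMod.hom_ext fun p q h x => ?_
    refine (DGMod.ap_d (zero_add 1) (rightMap (P := P) v) h (p' := p + 1) (q' := p) rfl
      (by lia) x).trans ?_
    obtain rfl : q = p + 1 := by lia
    exact rh_closed hv x
  inj n x hx hy := h.inj n x hx hy
  surj n y hy := h.surj n y hy

/-- If `c` is approximated from the left by an object of the thick closure of `P`, then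
`Hom (c, P)` is resolved by a DG module in the thick closure of the free module. -/
theorem leftHom_isRes (hs : ∀ c : A.Obj, ∃ c', Nonempty (Shift 1 c' c)) {c c' : A.Obj}
    (hc : DGCat.Thick P c') {u : A.Hom c c' 0} (hu : IsClosed u) (h : QIso (prec u P)) :
    (leftHom A P c).IsRes :=
  ⟨leftHom A P c', thick_leftHom hs hc, leftMap u, by
    obtain ⟨h₁, h₂⟩ := (DGMod.isQis_iff _).1 (isQis_leftMap hu h)
    exact gqis_of (A := modDG (A.endAlg P).op) h₁ h₂⟩

/-- If `c` is approximated from the right by an object of the thick closure of `P`, then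
`Hom (P, c)` is resolved by a DG module in the thick closure of the free module. -/
theorem rightHom_isRes {c c' : A.Obj} (hc : DGCat.Thick P c') {v : A.Hom c' c 0}
    (hv : IsClosed v) (h : QIso (postc v P)) : (rightHom A P c).IsRes :=
  ⟨rightHom A P c', thick_rightHom hc, rightMap v, by
    obtain ⟨h₁, h₂⟩ := (DGMod.isQis_iff _).1 (isQis_rightMap hv h)
    exact gqis_of (A := modDG (A.endAlg P)) h₁ h₂⟩

end

end Orl
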