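import Pool.Agent.Work.MP_a6e60d_ag.DG.EndFin
import Pool.Agent.Work.MP_a6e60d_ag.DG.Cx
import Mathlib.RingTheory.Finiteness.Prod
import Mathlib.Algebra.Category.ModuleCat.Biproducts

/-!
MP_a6e60d_ag: DG module structures on shifts, graded direct summands and mapping cones.
-/

open CategoryTheory CochainComplex HomComplex

namespace Orl

universe v w

variable {k : Type w} [CommRing k] {R : DGAlg.{v} k}

namespace DGMod

section Transfer

variable (M : DGMod R) (K : CochainComplex (ModuleCat.{v} k) ℤ) {t s : ℤ} (hts : t + s = 0)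
  (i : Cochain K M.cx t) (p : Cochain M.cx K s)

/-- The action on a graded direct summand. -/
noncomputable def trAct {n m q : ℤ} (h : n + m = q) :
    K.X n →ₗ[k] R.cx.X m →ₗ[k] K.X q :=
  ((M.act (n := n + t) (m := m) (p := q + t) (by lia)).comp (i.v n (n + t) rfl).hom).compr₂
    (p.v (q + t) q (by lia)).hom

lemma trAct_apply {n m q : ℤ} (h : n + m = q) (x : K.X n) (r : R.cx.X m)
    (n' q' : ℤ) (hn : n + t = n') (hq : q + t = q') :
    M.trAct K hts i p h x r = p.v q' q (by lia) (M.act (by lia) (i.v n n' hn x) r) := by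
  subst hn hq
  rfl

variable (hi : δ t (t + 1) i = 0) (hp : δ s (s + 1) p = 0)
  (hip : i.comp p hts = Cochain.ofHom (𝟙 K))
  (he : p.comp i (by lia : s + t = 0) ∈ lin M M 0)

include hip in
lemma tr_pi {n n' : ℤ} (h : n + t = n') (x : K.X n) :
    p.v n' n (by lia) (i.v n n' h x) = x := by
  have := congrArg (fun z : Cochain K K 0 => z.v n n (add_zero n)) hip
  simp only [Cochain.comp_v i p hts n n' n h (by lia), Cochain.ofHom_v, HomologicalComplex.id_f]
    at this
  exact (ConcreteCategory.congr_hom this x : _)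

include he in
lemma tr_e {n m q n' q' : ℤ} (h : n' + m = q') (hn : n + t = n') (hq : q + t = q')
    (y : M.cx.X n') (r : R.cx.X m) :
    i.v q q' hq (p.v q' q (by lia) (M.act h y r)) =
      M.act h (i.v n n' hn (p.v n' n (by lia) y)) r := by
  have := he n' n' (add_zero _) m q' q' h h y r
  rw [Cochain.comp_v p i _ q' q q' (by lia) hq, Cochain.comp_v p i _ n' n n' (by lia) hn] at this
  exact this

include hi in
lemma tr_di {n n₁ n' n₁' : ℤ} (h : n + 1 = n₁) (hn : n + t = n') (hn₁ : n₁ + t = n₁')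
    (x : K.X n) : M.cx.d n' n₁' (i.v n n' hn x) = t.negOnePow • i.v n₁ n₁' hn₁ (K.d n n₁ x) := by
  have := congrArg (fun z : Cochain K M.cx (t + 1) => z.v n n₁' (by lia)) hi
  rw [δ_v t (t + 1) rfl i n n₁' (by lia) n' n₁ (by lia) h] at this
  have := (ConcreteCategory.congr_hom this x : _)
  simp only [Units.smul_def, Int.negOnePow_succ, Units.val_neg, neg_smul, ModuleCat.hom_add,
    ModuleCat.hom_neg, ModuleCat.hom_zsmul, ModuleCat.hom_comp, LinearMap.add_apply,
    LinearMap.neg_apply, LinearMap.smul_apply, LinearMap.comp_apply, Cochain.zero_v,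
    ModuleCat.hom_zero, LinearMap.zero_apply] at this
  rw [Units.smul_def]
  exact eq_of_sub_eq_zero (by rw [sub_eq_add_neg]; exact this)

include hp in
lemma tr_dp {n n₁ n' n₁' : ℤ} (h : n + 1 = n₁) (hn : n + t = n') (hn₁ : n₁ + t = n₁')
    (y : M.cx.X n') : K.d n n₁ (p.v n' n (by lia) y) =
      t.negOnePow • p.v n₁' n₁ (by lia) (M.cx.d n' n₁' y) := by
  have := congrArg (fun z : Cochain M.cx K (s + 1) => z.v n' n₁ (by lia)) hp
  rw [δ_v s (s + 1) rfl p n' n₁ (by lia) n n₁' (by lia) (by lia)] at this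
  have := (ConcreteCategory.congr_hom this y : _)
  have e : s.negOnePow = t.negOnePow := by
    rw [Int.negOnePow_eq_iff]
    exact ⟨-t, by lia⟩
  simp only [Units.smul_def, Int.negOnePow_succ, Units.val_neg, neg_smul, ModuleCat.hom_add,
    ModuleCat.hom_neg, ModuleCat.hom_zsmul, ModuleCat.hom_comp, LinearMap.add_apply,
    LinearMap.neg_apply, LinearMap.smul_apply, LinearMap.comp_apply, Cochain.zero_v,
    ModuleCat.hom_zero, LinearMap.zero_apply, e] at this
  rw [Units.smul_def]
  exact eq_of_sub_eq_zero (by rw [sub_eq_add_neg]; exact this)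

/-- The DG module structure on a graded direct summand. -/
noncomputable def transfer : DGMod R where
  cx := K
  act h := M.trAct K hts i p h
  act_one {n} x := by
    rw [trAct_apply M K hts i p _ x _ (n + t) (n + t) rfl rfl, M.act_one]
    exact tr_pi M K hts i p hip rfl x
  act_mul {n m l nm ml q} h₁ h₂ h₃ h₄ x r s := by
    rw [trAct_apply M K hts i p h₃ _ s (nm + t) (q + t) rfl rfl,
      trAct_apply M K hts i p h₁ x r (n + t) (nm + t) rfl rfl,
      trAct_apply M K hts i p h₄ x _ (n + t) (q + t) rfl rfl,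
      tr_e M K hts i p he (by lia) rfl rfl, tr_pi M K hts i p hip rfl,
      M.act_mul _ h₂ _ (by lia)]
  d_act {n m q n' m' q'} h hn hm hq x r := by
    rw [trAct_apply M K hts i p h x r (n + t) (q + t) rfl rfl,
      trAct_apply M K hts i p _ _ r (n' + t) (q' + t) rfl rfl,
      trAct_apply M K hts i p _ x _ (n + t) (q' + t) rfl rfl,
      tr_dp M K hts p hp hq rfl rfl,
      M.d_act (n' := n' + t) (m' := m') (p' := q' + t) (by lia) (by lia) hm (by lia),
      tr_di M K i hi hn rfl rfl]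
    simp only [Units.smul_def, map_add, map_zsmul, LinearMap.smul_apply, smul_add, smul_smul]
    rw [← Units.val_mul, ← Units.val_mul, ← Int.negOnePow_add, ← Int.negOnePow_add]
    congr 2
    · rw [show (t + t).negOnePow = 1 from by rw [Int.negOnePow_eq_one_iff]; exact ⟨t, rfl⟩]
      simp
    · rw [Units.val_inj, Int.negOnePow_eq_iff]
      exact ⟨t, by lia⟩

lemma transfer_cx : (transfer M K hts i p hi hp hip he).cx = K := rfl

lemma tr_lin_i : (i : Cochain (transfer M K hts i p hi hp hip he).cx M.cx t) ∈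
    lin (transfer M K hts i p hi hp hip he) M t := by
  intro a b hab l a' b' ha hb x r
  change K.X a at x
  change i.v a' b' _ (M.trAct K hts i p ha x r) = _
  rw [trAct_apply M K hts i p ha x r b b' hab (by lia), tr_e M K hts i p he hb hab (by lia),
    tr_pi M K hts i p hip hab]
  rfl

lemma tr_lin_p : (p : Cochain M.cx (transfer M K hts i p hi hp hip he).cx s) ∈
    lin M (transfer M K hts i p hi hp hip he) s := by
  intro a b hab l a' b' ha hb x r
  change _ = M.trAct K hts i p hb (p.v a b hab x) r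
  rw [trAct_apply M K hts i p hb _ r a a' (by lia) (by lia),
    ← tr_e M K hts i p he (q := b') (q' := a') ha (by lia) (by lia),
    tr_pi M K hts i p hip (by lia)]
  rfl

end Transfer

section Shift

variable (M : DGMod R) (t : ℤ)

/-- the isomorphism of degree `t` from the shift -/
noncomputable def shI (K : CochainComplex (ModuleCat.{v} k) ℤ) (t : ℤ) : Cochain (K⟦t⟧) K t :=
  (Cochain.ofHom (𝟙 (K⟦t⟧))).rightUnshift t (zero_add t)

/-- the isomorphism of degree `- t` to the shift -/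
noncomputable def shP (K : CochainComplex (ModuleCat.{v} k) ℤ) (t : ℤ) : Cochain K (K⟦t⟧) (-t) :=
  (Cochain.ofHom (𝟙 K)).rightShift t (-t) (neg_add_cancel t)

variable (K : CochainComplex (ModuleCat.{v} k) ℤ)

lemma δ_shI : δ t (t + 1) (shI K t) = 0 := by
  rw [shI, Cochain.δ_rightUnshift _ _ _ _ 1 (by omega), δ_ofHom]
  simp

lemma δ_shP : δ (-t) (-t + 1) (shP K t) = 0 := by
  rw [shP, Cochain.δ_rightShift _ _ _ _ _ 1 (by omega), δ_ofHom]
  simp

lemma shI_shP : (shI K t).comp (shP K t) (add_neg_cancel t) = Cochain.ofHom (𝟙 (K⟦t⟧)) := by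
  refine Cochain.ext₀ _ _ fun p => ?_
  rw [Cochain.comp_v _ _ (add_neg_cancel t) p (p + t) p rfl (by omega), shI, shP,
    Cochain.rightUnshift_v _ _ _ _ _ _ p (by omega), Cochain.rightShift_v _ _ _ _ _ _ _ (p + t)
      (by omega)]
  simp only [Cochain.ofHom_v, HomologicalComplex.id_f, shiftFunctor_obj_X', shiftFunctorObjXIso,
    HomologicalComplex.XIsoOfEq_rfl, Iso.refl_hom, Iso.refl_inv, Category.comp_id]
  exact (Category.id_comp _).trans ((Category.id_comp _).trans rfl)

lemma shP_shI : (shP K t).comp (shI K t) (neg_add_cancel t) = Cochain.ofHom (𝟙 K) := by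
  refine Cochain.ext₀ _ _ fun p => ?_
  rw [Cochain.comp_v _ _ (neg_add_cancel t) p (p - t) p (by omega) (by omega), shI, shP,
    Cochain.rightUnshift_v _ _ _ _ _ _ (p - t) (by omega), Cochain.rightShift_v _ _ _ _ _ _ _ p
      (by omega)]
  simp

/-- the shift of a DG module -/
noncomputable def shiftMod : DGMod R :=
  transfer M (M.cx⟦t⟧) (add_neg_cancel t) (shI M.cx t) (shP M.cx t) (δ_shI t M.cx)
    (δ_shP t M.cx) (shI_shP t M.cx) (by rw [shP_shI]; exact lin_id M)

lemma shiftMod_cx : (M.shiftMod t).cx = M.cx⟦t⟧ := rfl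

end Shift


section Cone

open mappingCone

variable {M N : DGMod R} (φ : M.cx ⟶ N.cx)

/-- the action on the mapping cone -/
noncomputable def mcAct {n m q : ℤ} (h : n + m = q) :
    (mappingCone φ).X n →ₗ[k] R.cx.X m →ₗ[k] (mappingCone φ).X q :=
  ((M.act (n := n + 1) (m := m) (p := q + 1) (by lia)).comp
    ((fst φ).1.v n (n + 1) rfl).hom).compr₂ ((inl φ).v (q + 1) q (by lia)).hom +
  ((N.act h).comp ((snd φ).v n n (add_zero n)).hom).compr₂ ((inr φ).f q).hom

lemma mcAct_apply {n m q : ℤ} (h : n + m = q) (x : (mappingCone φ).X n) (r : R.cx.X m) :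
    mcAct φ h x r = (inl φ).v (q + 1) q (by lia)
      (M.act (p := q + 1) (by lia) ((fst φ).1.v n (n + 1) rfl x) r) +
      (inr φ).f q (N.act h ((snd φ).v n n (add_zero n) x) r) := rfl

lemma fst_mcAct {n m q n' q' : ℤ} (h : n + m = q) (hn : n + 1 = n') (hq : q + 1 = q')
    (x : (mappingCone φ).X n) (r : R.cx.X m) :
    (fst φ).1.v q q' hq (mcAct φ h x r) = M.act (by lia) ((fst φ).1.v n n' hn x) r := by
  subst hn hq
  have e₁ := (ConcreteCategory.congr_hom (inl_v_fst_v φ (q + 1) q rfl)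
    (M.act (p := q + 1) (by lia) ((fst φ).1.v n (n + 1) rfl x) r) : _)
  have e₂ := (ConcreteCategory.congr_hom (inr_f_fst_v φ q (q + 1) rfl)
    (N.act h ((snd φ).v n n (add_zero n) x) r) : _)
  rw [mcAct_apply, map_add]
  refine (congrArg₂ (· + ·) e₁ e₂).trans ?_
  exact add_zero _

lemma snd_mcAct {n m q : ℤ} (h : n + m = q) (x : (mappingCone φ).X n) (r : R.cx.X m) :
    (snd φ).v q q (add_zero q) (mcAct φ h x r) =
      N.act h ((snd φ).v n n (add_zero n) x) r := by
  have e₁ := (ConcreteCategory.congr_hom (inl_v_snd_v φ (q + 1) q (by lia))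
    (M.act (p := q + 1) (by lia) ((fst φ).1.v n (n + 1) rfl x) r) : _)
  have e₂ := (ConcreteCategory.congr_hom (inr_f_snd_v φ q)
    (N.act h ((snd φ).v n n (add_zero n) x) r) : _)
  rw [mcAct_apply, map_add]
  refine (congrArg₂ (· + ·) e₁ e₂).trans ?_
  exact zero_add _

lemma mc_ext {n : ℤ} {x y : (mappingCone φ).X n} (n' : ℤ) (hn : n + 1 = n')
    (h₁ : (fst φ).1.v n n' hn x = (fst φ).1.v n n' hn y)
    (h₂ : (snd φ).v n n (add_zero n) x = (snd φ).v n n (add_zero n) y) : x = y := by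
  have e := (ConcreteCategory.congr_hom (id_X φ n n' hn) x : _)
  have e' := (ConcreteCategory.congr_hom (id_X φ n n' hn) y : _)
  refine e.symm.trans (Eq.trans ?_ e')
  change (inl φ).v n' n (by lia) ((fst φ).1.v n n' hn x) +
    (inr φ).f n ((snd φ).v n n (add_zero n) x) =
    (inl φ).v n' n (by lia) ((fst φ).1.v n n' hn y) +
      (inr φ).f n ((snd φ).v n n (add_zero n) y)
  rw [h₁, h₂]

lemma fst_d {n n' n'' : ℤ} (hn : n + 1 = n') (hn' : n' + 1 = n'') (x : (mappingCone φ).X n) :
    (fst φ).1.v n' n'' hn' ((mappingCone φ).d n n' x) =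
      - M.cx.d n' n'' ((fst φ).1.v n n' hn x) :=
  (ConcreteCategory.congr_hom (d_fst_v φ n n' n'' hn hn') x : _)

lemma snd_d {n n' : ℤ} (hn : n + 1 = n') (x : (mappingCone φ).X n) :
    (snd φ).v n' n' (add_zero n') ((mappingCone φ).d n n' x) =
      φ.f n' ((fst φ).1.v n n' hn x) + N.cx.d n n' ((snd φ).v n n (add_zero n) x) :=
  (ConcreteCategory.congr_hom (d_snd_v φ n n' hn) x : _)

variable (hφ : Cochain.ofHom φ ∈ lin M N 0)

include hφ in
lemma hom_act {n m p : ℤ} (h : n + m = p) (x : M.cx.X n) (r : R.cx.X m) :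
    φ.f p (M.act h x r) = N.act h (φ.f n x) r := by
  have := hφ n n (add_zero n) m p p h h x r
  simpa only [Cochain.ofHom_v] using this

/-- the mapping cone of a morphism of DG modules -/
noncomputable def coneMod : DGMod R where
  cx := mappingCone φ
  act h := mcAct φ h
  act_one {n} x := by
    refine mc_ext φ (n + 1) rfl ?_ ?_
    · rw [fst_mcAct φ _ rfl rfl, M.act_one]
    · rw [snd_mcAct φ, N.act_one]
  act_mul {n m l nm ml q} h₁ h₂ h₃ h₄ x r s := by
    refine mc_ext φ (q + 1) rfl ?_ ?_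
    · rw [fst_mcAct φ _ (rfl : nm + 1 = nm + 1) rfl, fst_mcAct φ _ (rfl : n + 1 = n + 1) rfl,
        fst_mcAct φ _ (rfl : n + 1 = n + 1) rfl, M.act_mul _ h₂ _ (by lia)]
    · rw [snd_mcAct φ, snd_mcAct φ, snd_mcAct φ, N.act_mul h₁ h₂ h₃ h₄]
  d_act {n m q n' m' q'} h hn hm hq x r := by
    refine mc_ext φ (q' + 1) rfl ?_ ?_
    · rw [fst_d φ hq rfl, fst_mcAct φ h hn hq, M.d_act (n' := n' + 1) (m' := m') _ rfl hm rfl,
        map_add, fst_mcAct φ _ (rfl : n' + 1 = n' + 1) rfl, fst_d φ hn rfl, Units.smul_def,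
        Units.smul_def, map_zsmul, fst_mcAct φ _ hn rfl, map_neg, LinearMap.neg_apply,
        neg_add, ← neg_smul]
      subst hn
      simp [Int.negOnePow_succ]
    · rw [snd_d φ hq, fst_mcAct φ h hn hq, snd_mcAct φ, N.d_act h hn hm hq, map_add,
        snd_mcAct φ, snd_d φ hn, Units.smul_def, Units.smul_def, map_zsmul, snd_mcAct φ,
        hom_act φ hφ, map_add, LinearMap.add_apply, add_assoc]

lemma coneMod_cx : (coneMod φ hφ).cx = mappingCone φ := rfl

lemma fst_inl {n n' : ℤ} (hn : n + 1 = n') (x : M.cx.X n') :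
    (fst φ).1.v n n' hn ((inl φ).v n' n (by lia) x) = x :=
  (ConcreteCategory.congr_hom (inl_v_fst_v φ n' n hn) x : _)

lemma snd_inl {n n' : ℤ} (hn : n + 1 = n') (x : M.cx.X n') :
    (snd φ).v n n (add_zero n) ((inl φ).v n' n (by lia) x) = 0 :=
  (ConcreteCategory.congr_hom (inl_v_snd_v φ n' n (by lia)) x : _)

lemma fst_inr {n n' : ℤ} (hn : n + 1 = n') (x : N.cx.X n) :
    (fst φ).1.v n n' hn ((inr φ).f n x) = 0 :=
  (ConcreteCategory.congr_hom (inr_f_fst_v φ n n' hn) x : _)

lemma snd_inr {n : ℤ} (x : N.cx.X n) :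
    (snd φ).v n n (add_zero n) ((inr φ).f n x) = x :=
  (ConcreteCategory.congr_hom (inr_f_snd_v φ n) x : _)

lemma lin_inl : (inl φ : Cochain M.cx (coneMod φ hφ).cx (-1)) ∈ lin M (coneMod φ hφ) (-1) := by
  intro a b hab m a' b' ha hb x r
  change (inl φ).v a' b' (by lia) (M.act ha x r) = mcAct φ hb ((inl φ).v a b hab x) r
  refine mc_ext φ a' (by lia) ?_ ?_
  · rw [fst_mcAct φ hb (by lia : b + 1 = a) (by lia), fst_inl, fst_inl]
  · rw [snd_mcAct φ hb, snd_inl φ (by lia), snd_inl φ (by lia), map_zero,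
      LinearMap.zero_apply]

lemma lin_inr : (Cochain.ofHom (inr φ) : Cochain N.cx (coneMod φ hφ).cx 0) ∈
    lin N (coneMod φ hφ) 0 := by
  intro a b hab m a' b' ha hb x r
  obtain rfl : a = b := by lia
  obtain rfl : a' = b' := by lia
  change (Cochain.ofHom (inr φ)).v a' a' (add_zero a') (N.act ha x r) =
    mcAct φ hb ((Cochain.ofHom (inr φ)).v a a (add_zero a) x) r
  rw [Cochain.ofHom_v, Cochain.ofHom_v]
  refine mc_ext φ (a' + 1) rfl ?_ ?_
  · rw [fst_mcAct φ hb rfl rfl, fst_inr, fst_inr, map_zero, LinearMap.zero_apply]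
  · rw [snd_mcAct φ hb, snd_inr, snd_inr]

lemma lin_fst : ((fst φ).1 : Cochain (coneMod φ hφ).cx M.cx 1) ∈ lin (coneMod φ hφ) M 1 := by
  intro a b hab m a' b' ha hb x r
  exact fst_mcAct φ ha hab (by lia) x r

lemma lin_snd : (snd φ : Cochain (coneMod φ hφ).cx N.cx 0) ∈ lin (coneMod φ hφ) N 0 := by
  intro a b hab m a' b' ha hb x r
  obtain rfl : a = b := by lia
  obtain rfl : a' = b' := by lia
  exact snd_mcAct φ ha x r

end Cone

end DGMod

/-- a complex of modules whose total space is finitely generated -/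
def CxFin (K : CochainComplex (ModuleCat.{v} k) ℤ) : Prop :=
  (∀ n, Module.Finite k (K.X n)) ∧ {n : ℤ | Nontrivial (K.X n)}.Finite

lemma DGAlg.isFinDim_iff : R.IsFinDim ↔ CxFin R.cx := Iff.rfl

lemma CxFin.of_surj {K L : CochainComplex (ModuleCat.{v} k) ℤ} (hL : CxFin L) (t : ℤ)
    (f : ∀ n, L.X (n + t) →ₗ[k] K.X n) (hf : ∀ n, Function.Surjective (f n)) : CxFin K := by
  refine ⟨fun n => ?_, ?_⟩
  · have := hL.1 (n + t)
    exact Module.Finite.of_surjective _ (hf n)
  · refine (hL.2.preimage (f := fun n => n + t) (fun a _ b _ h => by simpa using h)).subset ?_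
    intro n hn
    have : Nontrivial (K.X n) := hn
    exact (hf n).nontrivial

/-- a quotient, as a graded module, of a shift of a finite complex is finite -/
lemma CxFin.of_cochain {K L : CochainComplex (ModuleCat.{v} k) ℤ} (hL : CxFin L) {t s : ℤ}
    (hts : t + s = 0) (p : Cochain L K s)
    (hp : ∀ (n m : ℤ) (h : m + s = n) (y : K.X n), ∃ x : L.X m, p.v m n h x = y) : CxFin K :=
  hL.of_surj t (fun n => (p.v (n + t) n (by lia)).hom) fun n y => hp n (n + t) (by lia) y

lemma CxFin.of_surj₂ {K L L' : CochainComplex (ModuleCat.{v} k) ℤ} (hL : CxFin L)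
    (hL' : CxFin L') (t : ℤ) (f : ∀ n, L.X (n + t) × L'.X n →ₗ[k] K.X n)
    (hf : ∀ n, Function.Surjective (f n)) : CxFin K := by
  refine ⟨fun n => ?_, ?_⟩
  · have h₁ := hL.1 (n + t)
    have h₂ := hL'.1 n
    exact Module.Finite.of_surjective _ (hf n)
  · refine ((hL.2.preimage (f := fun n => n + t)
      (fun a _ b _ h => by simpa using h)).union hL'.2).subset ?_
    intro n hn
    have : Nontrivial (K.X n) := hn
    have h : Nontrivial (L.X (n + t) × L'.X n) := (hf n).nontrivial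
    by_contra hcon
    simp only [Set.mem_union, Set.mem_preimage, Set.mem_ofPred_eq, not_or,
      not_nontrivial_iff_subsingleton] at hcon
    have := hcon.1
    have := hcon.2
    exact not_subsingleton (L.X (n + t) × L'.X n) inferInstance

open DGMod in
/-- shifts in the DG category of DG modules -/
theorem exists_shift_modDG (M : (modDG R).Obj) (t : ℤ) :
    ∃ (N : (modDG R).Obj) (p : (modDG R).Hom N M t) (r : (modDG R).Hom M N (-t)),
      (modDG R).d t (t + 1) p = 0 ∧ (modDG R).d (-t) (-t + 1) r = 0 ∧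
        (modDG R).comp (add_neg_cancel t) p r = (modDG R).id N ∧
        (modDG R).comp (neg_add_cancel t) r p = (modDG R).id M ∧
        (CxFin (DGMod.cx M) → CxFin (DGMod.cx N)) := by
  refine ⟨shiftMod M t,
    ⟨shI (DGMod.cx M) t, tr_lin_i M ((DGMod.cx M)⟦t⟧) (add_neg_cancel t) (shI (DGMod.cx M) t)
      (shP (DGMod.cx M) t) (δ_shI t _) (δ_shP t _) (shI_shP t _)
      (by rw [shP_shI]; exact lin_id M)⟩,
    ⟨shP (DGMod.cx M) t, tr_lin_p M ((DGMod.cx M)⟦t⟧) (add_neg_cancel t) (shI (DGMod.cx M) t)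
      (shP (DGMod.cx M) t) (δ_shI t _) (δ_shP t _) (shI_shP t _)
      (by rw [shP_shI]; exact lin_id M)⟩,
    Subtype.ext (δ_shI t (DGMod.cx M)), Subtype.ext (δ_shP t (DGMod.cx M)),
    Subtype.ext (shI_shP t (DGMod.cx M)), Subtype.ext (shP_shI t (DGMod.cx M)), fun h => ?_⟩
  exact h.of_surj t (fun n => LinearMap.id) (fun n => Function.surjective_id)

open DGMod in
/-- mapping cones in the DG category of DG modules -/
theorem exists_cone_modDG {a b : (modDG R).Obj} (f : (modDG R).Hom a b 0)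
    (hf : (modDG R).d 0 1 f = 0) :
    ∃ c : (modDG R).Obj, Nonempty (DGCat.Cone f c) ∧
      (CxFin (DGMod.cx a) → CxFin (DGMod.cx b) → CxFin (DGMod.cx c)) := by
  obtain ⟨f, hl⟩ := f
  have hf : δ 0 1 f = 0 := congrArg Subtype.val hf
  obtain ⟨φ, rfl⟩ : ∃ φ : DGMod.cx a ⟶ DGMod.cx b, Cochain.ofHom φ = f := by
    refine ⟨Cocycle.homOf (Cocycle.mk (f : Cochain (DGMod.cx a) (DGMod.cx b) 0) 1 rfl hf), ?_⟩
    rw [Cocycle.cochain_ofHom_homOf_eq_coe]
    rfl
  refine ⟨coneMod φ hl, ⟨{
    inl := ⟨mappingCone.inl φ, lin_inl φ hl⟩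
    inr := ⟨Cochain.ofHom (mappingCone.inr φ), lin_inr φ hl⟩
    fst := ⟨(mappingCone.fst φ).1, lin_fst φ hl⟩
    snd := ⟨mappingCone.snd φ, lin_snd φ hl⟩
    inl_fst := Subtype.ext (mappingCone.inl_fst φ)
    inl_snd := Subtype.ext (mappingCone.inl_snd φ)
    inr_fst := Subtype.ext (mappingCone.inr_fst φ)
    inr_snd := Subtype.ext (mappingCone.inr_snd φ)
    total := Subtype.ext (mappingCone.id φ)
    d_inl := Subtype.ext (by
      change δ (-1) 0 (mappingCone.inl φ) =
        (Cochain.ofHom φ).comp (Cochain.ofHom (mappingCone.inr φ)) (add_zero 0)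
      rw [mappingCone.δ_inl, Cochain.ofHom_comp])
    d_inr := Subtype.ext (δ_ofHom (mappingCone.inr φ))
    d_fst := Subtype.ext ((mappingCone.fst φ).δ_eq_zero 2)
    d_snd := Subtype.ext (mappingCone.δ_snd φ) }⟩, fun ha hb => ?_⟩
  refine ha.of_surj₂ hb 1
    (fun n => LinearMap.coprod ((mappingCone.inl φ).v (n + 1) n (by lia)).hom
      ((mappingCone.inr φ).f n).hom) fun n x => ?_
  refine ⟨((mappingCone.fst φ).1.v n (n + 1) rfl x, (mappingCone.snd φ).v n n (add_zero n) x), ?_⟩
  exact (ConcreteCategory.congr_hom (mappingCone.id_X φ n (n + 1) rfl) x : _)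

end Orl
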