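import Pool.Agent.Work.MP_a6e60d_ag.DG.Equiv2
import Pool.Agent.Work.MP_a6e60d_ag.DG.RichMod
import Pool.Agent.Work.MP_a6e60d_ag.DG.HomFun
import Pool.Agent.Work.MP_a6e60d_ag.DG.Kinj

/-!
MP_a6e60d_ag: if the DG algebra `R` acts strictly on a complex `Q`, `q : Q → J` is a
quasi-isomorphism to a K-injective complex and `R → Hom (Q, J)` is a quasi-isomorphism, then the
DG category of perfect DG modules over `R` is quasi-equivalent to the thick closure of `J`.
-/

open CategoryTheory CochainComplex HomComplex Limits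

namespace Orl

variable {k : Type} [CommRing k] {R : DGAlg.{0} k}

namespace DGMod

/-- evaluation at `1` -/
def ev {M : DGMod R} {n : ℤ} (z : lin R.self M n) : M.cx.X n :=
  (z.1.v 0 n (zero_add n)).hom R.one

/-- the morphism `r ↦ m r` -/
noncomputable def ofElt {M : DGMod R} {n : ℤ} (m : M.cx.X n) : Cochain R.self.cx M.cx n :=
  Cochain.mk fun p q h => ModuleCat.ofHom (M.act (show n + p = q by lia) m)

lemma ofElt_v {M : DGMod R} {n : ℤ} (m : M.cx.X n) (p q : ℤ) (h : p + n = q) (r : R.cx.X p) :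
    (ConcreteCategory.hom ((ofElt m).v p q h)) r = M.act (show n + p = q by lia) m r := rfl

lemma ofElt_lin {M : DGMod R} {n : ℤ} (m : M.cx.X n) : ofElt m ∈ lin R.self M n := by
  intro p q h l p' q' hp hq x r
  exact (M.act_mul (show n + p = q by lia) hp hq (show n + p' = q' by lia) m x r).symm

lemma ev_ofElt {M : DGMod R} {n : ℤ} (m : M.cx.X n) : ev ⟨ofElt m, ofElt_lin m⟩ = m :=
  M.act_one m

lemma ev_inj {M : DGMod R} {n : ℤ} {z z' : lin R.self M n} (h : ev z = ev z') : z = z' := by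
  refine Subtype.ext (Cochain.ext (F := R.self.cx) z.1 z'.1 fun p q hpq =>
    ModuleCat.hom_ext (LinearMap.ext fun r => ?_))
  have h₁ := z.2 0 n (zero_add n) p p q (zero_add p) (show n + p = q by lia) R.one r
  have h₂ := z'.2 0 n (zero_add n) p p q (zero_add p) (show n + p = q by lia) R.one r
  have e : R.self.act (zero_add p) R.one r = r := R.one_mul r
  rw [e] at h₁ h₂
  exact h₁.trans ((congrArg (fun y => M.act (show n + p = q by lia) y r) h).trans h₂.symm)

lemma ev_sub {M : DGMod R} {n : ℤ} (z z' : lin R.self M n) : ev (z - z') = ev z - ev z' := by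
  change ((z.1 - z'.1).v 0 n (zero_add n)).hom R.one = _
  rw [Cochain.sub_v]
  rfl

lemma d_one (R : DGAlg.{0} k) (m : ℤ) : (R.cx.d 0 m).hom R.one = 0 := by
  by_cases h : (0 : ℤ) + 1 = m
  · obtain rfl : m = 1 := by omega
    have := R.d_mul (zero_add 0) (zero_add 1) (zero_add 1) (zero_add 1) R.one R.one
    rw [R.one_mul, Int.negOnePow_zero, one_smul] at this
    have e₁ := R.one_mul (R.cx.d 0 1 R.one)
    have e₂ := R.mul_one (R.cx.d 0 1 R.one)
    rw [e₁, e₂] at this
    exact left_eq_add.1 this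
  · rw [R.cx.shape 0 m h]
    rfl

lemma ev_d {M : DGMod R} (n m : ℤ) (z : lin R.self M n) :
    ev ((modDG R).d (a := R.self) (b := M) n m z) = (M.cx.d n m).hom (ev z) := by
  by_cases h : n + 1 = m
  · change ((δ n m z.1).v 0 m (zero_add m)).hom R.one = _
    rw [δ_v n m h z.1 0 m (zero_add m) n 1 (by lia) (by lia)]
    have e : (z.1.v 1 m (by lia)).hom ((R.cx.d 0 1).hom R.one) = 0 :=
      (congrArg _ (d_one R 1)).trans (map_zero _)
    change (M.cx.d n m).hom ((z.1.v 0 n (zero_add n)).hom R.one) + (m.negOnePow •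
      (z.1.v 1 m (by lia)).hom ((R.cx.d 0 1).hom R.one)) = _
    rw [e, smul_zero, add_zero]
    rfl
  · rw [(modDG R).d_shape n m z h, M.cx.shape n m h]
    rfl

end DGMod

/-- The map `r ↦ q ∘ ρ r` from `R` to `Hom (t, b)` induces isomorphisms on cohomology. -/
structure ActQIso {A : DGCat.{0, 1} k} {t b : A.Obj} (ρ : StrictAct R A t) (q : A.Hom t b 0) :
    Prop where
  inj : ∀ (n : ℤ) (r : R.cx.X n), (R.cx.d n (n + 1)).hom r = 0 →
    (∃ y : A.Hom t b (n - 1), A.d (n - 1) n y = A.comp (add_zero n) (ρ.map r) q) →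
      ∃ s : R.cx.X (n - 1), (R.cx.d (n - 1) n).hom s = r
  surj : ∀ (n : ℤ) (y : A.Hom t b n), A.d n (n + 1) y = 0 →
    ∃ r : R.cx.X n, (R.cx.d n (n + 1)).hom r = 0 ∧
      ∃ h : A.Hom t b (n - 1), A.d (n - 1) n h = y - A.comp (add_zero n) (ρ.map r) q

section

variable {A : DGCat.{0, 1} k} {t b : A.Obj} (ρ : StrictAct R A t) (q : A.Hom t b 0)

/-- the morphism `R → Hom (t, b)` -/
noncomputable def actHom : (modDG R).Hom R.self (homMod ρ b) 0 :=
  ⟨DGMod.ofElt (M := homMod ρ b) q, DGMod.ofElt_lin _⟩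

lemma ev_actHom : DGMod.ev (actHom ρ q) = q := DGMod.ev_ofElt (M := homMod ρ b) q

lemma actHom_closed (hq : IsClosed q) : IsClosed (actHom ρ q) := by
  refine DGMod.ev_inj ((DGMod.ev_d (M := homMod ρ b) 0 (0 + 1) (actHom ρ q)).trans ?_)
  rw [ev_actHom]
  exact hq

lemma ev_postc (n : ℤ) (x : (modDG R).Hom R.self R.self n) :
    DGMod.ev (M := homMod ρ b) (postc (actHom ρ q) R.self n x) =
      A.comp (add_zero n) (ρ.map (DGMod.ev (M := R.self) x)) q := by
  change (((x.1 : Cochain R.self.cx R.self.cx n).comp (actHom ρ q).1 (add_zero n)).v 0 n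
    (zero_add n)).hom R.one = _
  rw [Cochain.comp_v _ _ (add_zero n) 0 n n (zero_add n) (add_zero n)]
  rfl

lemma ev_mixc {b' : A.Obj} (n : ℤ) (y : A.Hom b b' n) :
    DGMod.ev (M := homMod ρ b') (mixc (homFun ρ) (actHom ρ q) b' n y) =
      A.comp (zero_add n) q y := by
  change ((((actHom ρ q).1 : Cochain R.self.cx (homMod ρ b).cx 0).comp (postComp y)
    (zero_add n)).v 0 n (zero_add n)).hom R.one = _
  rw [Cochain.comp_v _ _ (zero_add n) 0 0 n (zero_add 0) (zero_add n)]
  change A.comp _ (DGMod.ev (actHom ρ q)) y = _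
  rw [ev_actHom]

theorem actHom_left (hq : ActQIso ρ q) : QIso (postc (actHom ρ q) R.self) where
  inj n x hx := by
    rintro ⟨g, hg⟩
    have h₁ : (R.cx.d n (n + 1)).hom (DGMod.ev (M := R.self) x) = 0 :=
      (DGMod.ev_d (M := R.self) n (n + 1) x).symm.trans (congrArg _ hx)
    obtain ⟨s, hs⟩ := hq.inj n (DGMod.ev (M := R.self) x) h₁
      ⟨DGMod.ev (M := homMod ρ b) g, by
        rw [← ev_postc, ← hg]
        exact (DGMod.ev_d (M := homMod ρ b) (n - 1) n g).symm⟩
    refine ⟨⟨DGMod.ofElt (M := R.self) s, DGMod.ofElt_lin _⟩, DGMod.ev_inj ?_⟩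
    refine (DGMod.ev_d (M := R.self) (n - 1) n _).trans ?_
    rw [DGMod.ev_ofElt]
    exact hs
  surj n y hy := by
    have h₁ : A.d n (n + 1) (DGMod.ev (M := homMod ρ b) y) = 0 :=
      (DGMod.ev_d (M := homMod ρ b) n (n + 1) y).symm.trans (congrArg _ hy)
    obtain ⟨r, hr, h, hh⟩ := hq.surj n (DGMod.ev (M := homMod ρ b) y) h₁
    refine ⟨⟨DGMod.ofElt (M := R.self) r, DGMod.ofElt_lin _⟩, DGMod.ev_inj ?_,
      ⟨DGMod.ofElt (M := homMod ρ b) h, DGMod.ofElt_lin _⟩, DGMod.ev_inj ?_⟩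
    · refine (DGMod.ev_d (M := R.self) n (n + 1) _).trans ?_
      rw [DGMod.ev_ofElt]
      exact hr
    · refine (DGMod.ev_d (M := homMod ρ b) (n - 1) n _).trans ?_
      rw [DGMod.ev_ofElt]
      refine hh.trans ?_
      have e := ev_postc ρ q n ⟨DGMod.ofElt (M := R.self) r, DGMod.ofElt_lin _⟩
      rw [DGMod.ev_ofElt] at e
      rw [← e]
      exact (DGMod.ev_sub (M := homMod ρ b) y _).symm

theorem actHom_right (h : QIso (prec q b)) : QIso (mixc (homFun ρ) (actHom ρ q) b) where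
  inj n x hx := by
    rintro ⟨g, hg⟩
    refine h.inj n x hx ⟨DGMod.ev (M := homMod ρ b) g, ?_⟩
    rw [prec_apply, ← ev_mixc, ← hg]
    exact (DGMod.ev_d (M := homMod ρ b) (n - 1) n g).symm
  surj n y hy := by
    have h₁ : A.d n (n + 1) (DGMod.ev (M := homMod ρ b) y) = 0 :=
      (DGMod.ev_d (M := homMod ρ b) n (n + 1) y).symm.trans (congrArg _ hy)
    obtain ⟨x, hx, z, hz⟩ := h.surj n _ h₁
    refine ⟨x, hx, ⟨DGMod.ofElt (M := homMod ρ b) z, DGMod.ofElt_lin _⟩, DGMod.ev_inj ?_⟩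
    refine (DGMod.ev_d (M := homMod ρ b) (n - 1) n _).trans ?_
    refine (congrArg _ (DGMod.ev_ofElt (M := homMod ρ b) z)).trans ?_
    refine hz.trans ?_
    rw [prec_apply, ← ev_mixc]
    exact (DGMod.ev_sub (M := homMod ρ b) y _).symm

end

/-- **Morita theorem.** The DG algebra `R` acts strictly on the object `t` of `A`, `q : t → J` is
a closed morphism, `R → Hom (t, J)` and `Hom (J, J) → Hom (t, J)` are quasi-isomorphisms.  Then
the perfect DG modules over `R` form a DG category quasi-equivalent to the thick closure of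
`J`. -/
theorem quasiEquivalent_perfDG {A : DGCat.{0, 1} k} (hA : IsPerfectLike A) {t J : A.Obj}
    (ρ : StrictAct R A t) (q : A.Hom t J 0) (hq : IsClosed q) (h₁ : ActQIso ρ q)
    (h₂ : QIso (prec q J)) :
    QuasiEquivalent (perfDG R) (A.full (DGCat.Thick J)) :=
  quasiEquivalent_thick (homFun ρ) hA (isPerfectLike_modDG R) (actHom ρ q)
    ⟨actHom_closed ρ q hq, actHom_left ρ q h₁, actHom_right ρ q h₂⟩

/-- The Morita theorem for complexes in an abelian category. -/
theorem quasiEquivalent_perfDG_cx {C : Type 1} [Category.{0} C] [Abelian C] [Linear k C]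
    [HasColimitsOfShape (Discrete ℕ) C] {Q J : CochainComplex C ℤ} [J.IsKInjective]
    (ρ : StrictAct R (cxDG k C) Q) (q : Q ⟶ J) [QuasiIso q]
    (h : ActQIso ρ (Cochain.ofHom q)) :
    QuasiEquivalent (perfDG R) ((cxDG k C).full (DGCat.Thick (A := cxDG k C) J)) :=
  quasiEquivalent_perfDG isPerfectLike_cxDG ρ (Cochain.ofHom q) (δ_ofHom _) h
    (prec_qIso_of_quasiIso q)

end Orl
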