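import Pool.Agent.Work.MP_a6e60d_ag.DG.Cat
import Mathlib.LinearAlgebra.Prod

/-!
MP_a6e60d_ag: the roof lemma.  Given DG functors `F : A → E` and `G : B → E` the objects of the
DG category `roofDG F G` are the closed morphisms `q : F a → G b` of degree `0`.
-/

open CategoryTheory

namespace Orl

universe w

variable {k : Type w} [CommRing k]

/-- a closed morphism of degree `0` from `F a` to `G b` -/
structure RoofObj {A B E : DGCat.{0, 1} k} (F : DGFun A E) (G : DGFun B E) where
  /-- the object of the first category -/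
  a : A.Obj
  /-- the object of the second category -/
  b : B.Obj
  /-- the morphism -/
  q : E.Hom (F.obj a) (G.obj b) 0
  closed : E.d 0 1 q = 0

variable {A B E : DGCat.{0, 1} k} (F : DGFun A E) (G : DGFun B E)

/-- the morphisms of degree `n` in the roof category -/
abbrev RoofHom (x y : RoofObj F G) (n : ℤ) : Type :=
  A.Hom x.a y.a n × B.Hom x.b y.b n × E.Hom (F.obj x.a) (G.obj y.b) (n - 1)

/-- the differential of the roof category -/
def roofD (x y : RoofObj F G) (n m : ℤ) (h : n + 1 = m) :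
    RoofHom F G x y n →ₗ[k] RoofHom F G x y m where
  toFun z := (A.d n m z.1, B.d n m z.2.1, - E.d (n - 1) (m - 1) z.2.2 +
    (E.comp (by lia) x.q (G.map z.2.1) - E.comp (by lia) (F.map z.1) y.q))
  map_add' z z' := by
    ext
    · simp
    · simp
    · simp only [Prod.snd_add, Prod.fst_add, map_add, LinearMap.add_apply]
      abel
  map_smul' c z := by
    ext
    · simp
    · simp
    · simp only [Prod.smul_snd, Prod.smul_fst, map_smul, LinearMap.smul_apply, RingHom.id_apply,
        smul_add, smul_sub, smul_neg]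

/-- the composition of the roof category -/
def roofC (x y z : RoofObj F G) (n m p : ℤ) (h : n + m = p) :
    RoofHom F G x y n →ₗ[k] RoofHom F G y z m →ₗ[k] RoofHom F G x z p :=
  LinearMap.mk₂ k (fun s t => (A.comp h s.1 t.1, B.comp h s.2.1 t.2.1,
      E.comp (by lia) (F.map s.1) t.2.2 + m.negOnePow • E.comp (by lia) s.2.2 (G.map t.2.1)))
    (fun s s' t => by
      ext
      · simp
      · simp
      · simp only [Prod.snd_add, Prod.fst_add, map_add, LinearMap.add_apply, smul_add]
        abel)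
    (fun c s t => by
      ext
      · simp
      · simp
      · simp only [Prod.smul_snd, Prod.smul_fst, map_smul, LinearMap.smul_apply, smul_add,
          smul_comm c])
    (fun s t t' => by
      ext
      · simp
      · simp
      · simp only [Prod.snd_add, Prod.fst_add, map_add, smul_add]
        abel)
    (fun c s t => by
      ext
      · simp
      · simp
      · simp only [Prod.smul_snd, Prod.smul_fst, map_smul, smul_add, smul_comm c])

@[simp] lemma roofD_fst (x y : RoofObj F G) (n m : ℤ) (h : n + 1 = m) (z : RoofHom F G x y n) :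
    (roofD F G x y n m h z).1 = A.d n m z.1 := rfl

@[simp] lemma roofD_snd (x y : RoofObj F G) (n m : ℤ) (h : n + 1 = m) (z : RoofHom F G x y n) :
    (roofD F G x y n m h z).2.1 = B.d n m z.2.1 := rfl

lemma roofD_trd (x y : RoofObj F G) (n m : ℤ) (h : n + 1 = m) (z : RoofHom F G x y n) :
    (roofD F G x y n m h z).2.2 = - E.d (n - 1) (m - 1) z.2.2 +
      (E.comp (by lia) x.q (G.map z.2.1) - E.comp (by lia) (F.map z.1) y.q) := rfl

@[simp] lemma roofC_fst (x y z : RoofObj F G) (n m p : ℤ) (h : n + m = p)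
    (s : RoofHom F G x y n) (t : RoofHom F G y z m) :
    (roofC F G x y z n m p h s t).1 = A.comp h s.1 t.1 := rfl

@[simp] lemma roofC_snd (x y z : RoofObj F G) (n m p : ℤ) (h : n + m = p)
    (s : RoofHom F G x y n) (t : RoofHom F G y z m) :
    (roofC F G x y z n m p h s t).2.1 = B.comp h s.2.1 t.2.1 := rfl

lemma roofC_trd (x y z : RoofObj F G) (n m p : ℤ) (h : n + m = p)
    (s : RoofHom F G x y n) (t : RoofHom F G y z m) :
    (roofC F G x y z n m p h s t).2.2 = E.comp (by lia) (F.map s.1) t.2.2 +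
      m.negOnePow • E.comp (by lia) s.2.2 (G.map t.2.1) := rfl

/-- The roof category: the homotopy fibre product (comma category) of `F` and `G`. -/
noncomputable def roofDG : DGCat.{0, 1} k where
  Obj := RoofObj F G
  Hom x y n := RoofHom F G x y n
  d {x y} n m := if h : n + 1 = m then roofD F G x y n m h else 0
  d_shape n m f h := by simp [h]
  d_d {x y} n m p f := by
    by_cases h₁ : n + 1 = m
    swap
    · simp [h₁]
    by_cases h₂ : m + 1 = p
    swap
    · simp [h₂]
    simp only [h₁, h₂, dif_pos]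
    ext
    · simp
    · simp
    · simp only [Prod.snd_zero, roofD_trd, roofD_fst, roofD_snd, map_add, map_neg, map_sub]
      rw [E.d_comp (n' := 1) (m' := m) (by lia) (by lia) h₁ (by lia),
        E.d_comp (n' := m) (m' := 1) (by lia) h₁ (by lia) (by lia), x.closed, y.closed,
        E.d_d, G.map_d, F.map_d]
      simp
  id x := (A.id x.a, B.id x.b, 0)
  comp {x y z n m p} h := roofC F G x y z n m p h
  id_comp {x y n} f := by
    ext
    · simp
    · simp
    · simp [roofC_trd, F.map_id]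
  comp_id {x y n} f := by
    ext
    · simp
    · simp
    · simp [roofC_trd, G.map_id]
  assoc {x y z w n m l nm ml p} h₁ h₂ h₃ h₄ f g h := by
    ext
    · simpa using A.assoc h₁ h₂ h₃ h₄ _ _ _
    · simpa using B.assoc h₁ h₂ h₃ h₄ _ _ _
    · have e1 := E.assoc h₁ (show m + (l - 1) = ml - 1 by lia) (show nm + (l - 1) = p - 1 by lia)
        (show n + (ml - 1) = p - 1 by lia) (F.map f.1) (F.map g.1) h.2.2
      have e2 := E.assoc (show n + (m - 1) = nm - 1 by lia) (show m - 1 + l = ml - 1 by lia)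
        (show nm - 1 + l = p - 1 by lia) (show n + (ml - 1) = p - 1 by lia) (F.map f.1) g.2.2
        (G.map h.2.1)
      have e3 := E.assoc (show n - 1 + m = nm - 1 by lia) h₂ (show nm - 1 + l = p - 1 by lia)
        (show n - 1 + ml = p - 1 by lia) f.2.2 (G.map g.2.1) (G.map h.2.1)
      have e4 : (ml.negOnePow : ℤ) = (l.negOnePow : ℤ) * (m.negOnePow : ℤ) := by
        rw [← h₂, Int.negOnePow_add, Units.val_mul, mul_comm]
      simp only [roofC_trd, roofC_fst, roofC_snd, F.map_comp, G.map_comp, map_add,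
        LinearMap.add_apply, Units.smul_def, map_zsmul, LinearMap.smul_apply, smul_add, smul_smul,
        e1, e2, e3, e4, add_assoc]
  d_comp {x y z n m p n' m' p'} h hn hm hp f g := by
    simp only [hn, hm, hp, dif_pos]
    ext
    · simpa using A.d_comp h hn hm hp _ _
    · simpa using B.d_comp h hn hm hp _ _
    · have e1 := E.d_comp (show n + (m - 1) = p - 1 by lia) hn (show m - 1 + 1 = m' - 1 by lia)
        (show p - 1 + 1 = p' - 1 by lia) (F.map f.1) g.2.2
      have e2 := E.d_comp (show n - 1 + m = p - 1 by lia) (show n - 1 + 1 = n' - 1 by lia) hm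
        (show p - 1 + 1 = p' - 1 by lia) f.2.2 (G.map g.2.1)
      have e3 := E.assoc (show 0 + n = n' - 1 by lia) h (show n' - 1 + m = p' - 1 by lia)
        (show 0 + p = p' - 1 by lia) x.q (G.map f.2.1) (G.map g.2.1)
      have e4 := E.assoc h (show m + 0 = m' - 1 by lia) (show p + 0 = p' - 1 by lia)
        (show n + (m' - 1) = p' - 1 by lia) (F.map f.1) (F.map g.1) z.q
      have e5 := E.assoc (show n + 0 = n' - 1 by lia) (show 0 + m = m' - 1 by lia)
        (show n' - 1 + m = p' - 1 by lia) (show n + (m' - 1) = p' - 1 by lia) (F.map f.1) y.q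
        (G.map g.2.1)
      have s1 : ((m - 1).negOnePow : ℤ) = -(m.negOnePow : ℤ) := by
        rw [Int.negOnePow_sub, Int.negOnePow_one, mul_neg_one, Units.val_neg]
      have s2 : (m'.negOnePow : ℤ) = -(m.negOnePow : ℤ) := by
        rw [← hm, Int.negOnePow_succ, Units.val_neg]
      have s3 : (m.negOnePow : ℤ) * (m.negOnePow : ℤ) = 1 := by
        rw [← Units.val_mul, Int.units_mul_self, Units.val_one]
      simp only [Prod.snd_add, Prod.smul_snd, roofD_trd, roofC_trd, roofD_fst, roofD_snd,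
        roofC_fst, roofC_snd, F.map_comp, G.map_comp, map_add, map_neg, map_sub,
        LinearMap.add_apply, LinearMap.sub_apply, LinearMap.neg_apply, Units.smul_def, map_zsmul,
        F.map_d, G.map_d] at e1 e2 ⊢
      rw [e1, e2, e3, e4, ← e5]
      simp only [smul_add, smul_sub, smul_neg, smul_smul, s1, s2, s3, neg_smul, one_smul]
      abel


@[simp] lemma roofDG_d {x y : RoofObj F G} (n m : ℤ) (h : n + 1 = m) (f : RoofHom F G x y n) :
    (roofDG F G).d (a := x) (b := y) n m f = roofD F G x y n m h f := by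
  change (if h : n + 1 = m then roofD F G x y n m h else 0) f = _
  rw [dif_pos h]

/-- A family of maps between two complexes of morphisms induces isomorphisms on cohomology. -/
structure QIso {A E : DGCat.{0, 1} k} {a b : A.Obj} {c e : E.Obj}
    (φ : ∀ n : ℤ, A.Hom a b n →ₗ[k] E.Hom c e n) : Prop where
  inj : ∀ (n : ℤ) (f : A.Hom a b n), A.d n (n + 1) f = 0 →
    (∃ g : E.Hom c e (n - 1), E.d (n - 1) n g = φ n f) →
      ∃ g : A.Hom a b (n - 1), A.d (n - 1) n g = f
  surj : ∀ (n : ℤ) (g : E.Hom c e n), E.d n (n + 1) g = 0 →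
    ∃ f : A.Hom a b n, A.d n (n + 1) f = 0 ∧
      ∃ h : E.Hom c e (n - 1), E.d (n - 1) n h = g - φ n f

/-- `f ↦ q ∘ F f` -/
def roofL (x : RoofObj F G) (a' : A.Obj) (n : ℤ) :
    A.Hom a' x.a n →ₗ[k] E.Hom (F.obj a') (G.obj x.b) n :=
  ((E.comp (add_zero n)).flip x.q).comp F.map

/-- `g ↦ G g ∘ q` -/
def roofR (x : RoofObj F G) (b' : B.Obj) (n : ℤ) :
    B.Hom x.b b' n →ₗ[k] E.Hom (F.obj x.a) (G.obj b') n :=
  (E.comp (zero_add n) x.q).comp G.map

@[simp] lemma roofL_apply (x : RoofObj F G) (a' : A.Obj) (n : ℤ) (f : A.Hom a' x.a n) :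
    roofL F G x a' n f = E.comp (add_zero n) (F.map f) x.q := rfl

@[simp] lemma roofR_apply (x : RoofObj F G) (b' : B.Obj) (n : ℤ) (g : B.Hom x.b b' n) :
    roofR F G x b' n g = E.comp (zero_add n) x.q (G.map g) := rfl

/-- the projection to the first category -/
noncomputable def roofFst (P : RoofObj F G → Prop) : DGFun ((roofDG F G).full P) A where
  obj x := x.1.a
  map := LinearMap.fst k _ _
  map_d {x y} n m f := by
    by_cases h : n + 1 = m
    · change ((roofDG F G).d n m f).1 = _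
      rw [roofDG_d _ _ n m h]
      rfl
    · change ((roofDG F G).d n m f).1 = _
      rw [(roofDG F G).d_shape n m _ h]
      exact (A.d_shape n m _ h).symm
  map_id x := rfl
  map_comp h f g := rfl

/-- the projection to the second category -/
noncomputable def roofSnd (P : RoofObj F G → Prop) : DGFun ((roofDG F G).full P) B where
  obj x := x.1.b
  map := (LinearMap.fst k _ _).comp (LinearMap.snd k _ _)
  map_d {x y} n m f := by
    by_cases h : n + 1 = m
    · change ((roofDG F G).d n m f).2.1 = _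
      rw [roofDG_d _ _ n m h]
      rfl
    · change ((roofDG F G).d n m f).2.1 = _
      rw [(roofDG F G).d_shape n m _ h]
      exact (B.d_shape n m _ h).symm
  map_id x := rfl
  map_comp h f g := rfl

lemma HEquiv.refl (a : A.Obj) : DGCat.HEquiv a a := by
  have h : A.d 0 1 (A.id a) = 0 := by
    have := A.d_comp (add_zero 0) (zero_add 1) (zero_add 1) (zero_add 1) (A.id a) (A.id a)
    simp at this
    exact this
  refine ⟨A.id a, A.id a, h, h, ⟨0, ?_⟩, ⟨0, ?_⟩⟩ <;> simp


lemma roof_aux (x y : RoofObj F G) (n l : ℤ) (hl : n = l) (z : RoofHom F G x y n) :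
    (- E.d (n - 1) l z.2.2 + (E.comp (by lia) x.q (G.map z.2.1) -
      E.comp (by lia) (F.map z.1) y.q) = 0) ↔
    E.d (n - 1) n z.2.2 = E.comp (zero_add n) x.q (G.map z.2.1) -
      E.comp (add_zero n) (F.map z.1) y.q := by
  subst hl
  rw [neg_add_eq_sub, sub_eq_zero, eq_comm]

lemma roofD_eq_zero (x y : RoofObj F G) (n m : ℤ) (h : n + 1 = m) (z : RoofHom F G x y n) :
    roofD F G x y n m h z = 0 ↔ A.d n m z.1 = 0 ∧ B.d n m z.2.1 = 0 ∧
      E.d (n - 1) n z.2.2 = E.comp (zero_add n) x.q (G.map z.2.1) -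
        E.comp (add_zero n) (F.map z.1) y.q := by
  rw [Prod.ext_iff, Prod.ext_iff, ← roof_aux F G x y n (m - 1) (by lia) z]
  rfl

lemma d_comp_q (x : RoofObj F G) {a' : A.Obj} (n m : ℤ) (f : A.Hom a' x.a n) :
    E.d n m (E.comp (add_zero n) (F.map f) x.q) = E.comp (add_zero m) (F.map (A.d n m f)) x.q := by
  by_cases h : n + 1 = m
  · rw [E.d_comp (add_zero n) h (zero_add 1) h, x.closed, F.map_d]
    simp
  · rw [E.d_shape _ _ _ h, A.d_shape _ _ _ h]
    simp

lemma d_q_comp (x : RoofObj F G) {b' : B.Obj} (n m : ℤ) (g : B.Hom x.b b' n) :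
    E.d n m (E.comp (zero_add n) x.q (G.map g)) = E.comp (zero_add m) x.q (G.map (B.d n m g)) := by
  by_cases h : n + 1 = m
  · rw [E.d_comp (n' := 1) (zero_add n) (zero_add 1) h h, x.closed, G.map_d]
    simp
  · rw [E.d_shape _ _ _ h, B.d_shape _ _ _ h]
    simp

theorem roofFst_isQuasiEquiv (P : RoofObj F G → Prop)
    (h₂ : ∀ x, P x → ∀ y, P y → QIso (roofR F G x y.b)) (hA : ∀ a : A.Obj, ∃ x, P x ∧ x.a = a) :
    (roofFst F G P).IsQuasiEquiv where
  inj {x y} n f hf := by
    rintro ⟨f₁, hf₁⟩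
    obtain ⟨x, hx⟩ := x
    obtain ⟨y, hy⟩ := y
    change A.Hom x.a y.a (n - 1) at f₁
    change RoofHom F G x y n at f
    change A.d (n - 1) n f₁ = f.1 at hf₁
    change (roofDG F G).d n (n + 1) f = 0 at hf
    rw [roofDG_d _ _ n (n + 1) rfl] at hf
    obtain ⟨-, hg, hh⟩ := (roofD_eq_zero F G x y n (n + 1) rfl f).1 hf
    obtain ⟨g₁, hg₁⟩ := (h₂ x hx y hy).inj n f.2.1 hg
      ⟨f.2.2 + E.comp (add_zero (n - 1)) (F.map f₁) y.q, by
        rw [map_add, hh, d_comp_q, hf₁]
        simp⟩
    obtain ⟨g₂, hg₂, z, hz⟩ := (h₂ x hx y hy).surj (n - 1)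
      (f.2.2 + E.comp (add_zero (n - 1)) (F.map f₁) y.q -
        E.comp (zero_add (n - 1)) x.q (G.map g₁)) (by
        rw [map_sub, map_add, d_comp_q, d_q_comp]
        have e : n - 1 + 1 = n := by lia
        rw [e, hh, hf₁, hg₁]
        simp)
    refine ⟨((f₁, g₁ + g₂, - z) : RoofHom F G x y (n - 1)), ?_⟩
    change (roofDG F G).d (n - 1) n _ = f
    rw [roofDG_d _ _ (n - 1) n (by lia)]
    have e : n - 1 + 1 = n := by lia
    rw [e] at hg₂
    refine Prod.ext ?_ (Prod.ext ?_ ?_)
    · exact hf₁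
    · change B.d (n - 1) n (g₁ + g₂) = _
      rw [map_add, hg₁, hg₂, add_zero]
    · rw [roofD_trd, map_neg, hz, neg_neg]
      simp only [roofR_apply, map_add]
      abel
  surj {x y} n f hf := by
    obtain ⟨x, hx⟩ := x
    obtain ⟨y, hy⟩ := y
    change A.Hom x.a y.a n at f
    change A.d n (n + 1) f = 0 at hf
    obtain ⟨g, hg, z, hz⟩ := (h₂ x hx y hy).surj n (E.comp (add_zero n) (F.map f) y.q) (by
      rw [d_comp_q, hf]; simp)
    refine ⟨((f, g, - z) : RoofHom F G x y n), ?_, 0, ?_⟩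
    · change (roofDG F G).d n (n + 1) _ = 0
      rw [roofDG_d _ _ n (n + 1) rfl]
      refine (roofD_eq_zero F G x y n (n + 1) rfl (f, g, - z)).2 ⟨hf, hg, ?_⟩
      simp only [map_neg, hz, roofR_apply, neg_sub]
    · rw [map_zero]
      exact (sub_self f).symm
  ess a := by
    obtain ⟨x, hx, rfl⟩ := hA a
    exact ⟨⟨x, hx⟩, HEquiv.refl _⟩

theorem roofSnd_isQuasiEquiv (P : RoofObj F G → Prop)
    (h₁ : ∀ x, P x → ∀ y, P y → QIso (roofL F G y x.a)) (hB : ∀ b : B.Obj, ∃ x, P x ∧ x.b = b) :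
    (roofSnd F G P).IsQuasiEquiv where
  inj {x y} n f hf := by
    rintro ⟨g₁, hg₁⟩
    obtain ⟨x, hx⟩ := x
    obtain ⟨y, hy⟩ := y
    change B.Hom x.b y.b (n - 1) at g₁
    change RoofHom F G x y n at f
    change B.d (n - 1) n g₁ = f.2.1 at hg₁
    change (roofDG F G).d n (n + 1) f = 0 at hf
    rw [roofDG_d _ _ n (n + 1) rfl] at hf
    obtain ⟨hf, -, hh⟩ := (roofD_eq_zero F G x y n (n + 1) rfl f).1 hf
    obtain ⟨f₁, hf₁⟩ := (h₁ x hx y hy).inj n f.1 hf
      ⟨E.comp (zero_add (n - 1)) x.q (G.map g₁) - f.2.2, by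
        rw [map_sub, hh, d_q_comp, hg₁]
        simp⟩
    obtain ⟨f₂, hf₂, z, hz⟩ := (h₁ x hx y hy).surj (n - 1)
      (E.comp (zero_add (n - 1)) x.q (G.map g₁) - f.2.2 -
        E.comp (add_zero (n - 1)) (F.map f₁) y.q) (by
        rw [map_sub, map_sub, d_comp_q, d_q_comp]
        have e : n - 1 + 1 = n := by lia
        rw [e, hh, hf₁, hg₁]
        simp)
    refine ⟨((f₁ + f₂, g₁, z) : RoofHom F G x y (n - 1)), ?_⟩
    change (roofDG F G).d (n - 1) n _ = f
    rw [roofDG_d _ _ (n - 1) n (by lia)]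
    have e : n - 1 + 1 = n := by lia
    rw [e] at hf₂
    refine Prod.ext ?_ (Prod.ext ?_ ?_)
    · change A.d (n - 1) n (f₁ + f₂) = _
      rw [map_add, hf₁, hf₂, add_zero]
    · exact hg₁
    · rw [roofD_trd, hz]
      simp only [roofL_apply, map_add, LinearMap.add_apply]
      abel
  surj {x y} n g hg := by
    obtain ⟨x, hx⟩ := x
    obtain ⟨y, hy⟩ := y
    change B.Hom x.b y.b n at g
    change B.d n (n + 1) g = 0 at hg
    obtain ⟨f, hf, z, hz⟩ := (h₁ x hx y hy).surj n (E.comp (zero_add n) x.q (G.map g)) (by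
      rw [d_q_comp, hg]; simp)
    refine ⟨((f, g, z) : RoofHom F G x y n), ?_, 0, ?_⟩
    · change (roofDG F G).d n (n + 1) _ = 0
      rw [roofDG_d _ _ n (n + 1) rfl]
      exact (roofD_eq_zero F G x y n (n + 1) rfl (f, g, z)).2 ⟨hf, hg, hz⟩
    · rw [map_zero]
      exact (sub_self g).symm
  ess b := by
    obtain ⟨x, hx, rfl⟩ := hB b
    exact ⟨⟨x, hx⟩, HEquiv.refl _⟩

/-- The roof lemma: two DG categories with enough roofs between them are quasi-equivalent. -/
theorem quasiEquivalent_of_roof (P : RoofObj F G → Prop)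
    (h₁ : ∀ x, P x → ∀ y, P y → QIso (roofL F G y x.a))
    (h₂ : ∀ x, P x → ∀ y, P y → QIso (roofR F G x y.b))
    (hA : ∀ a : A.Obj, ∃ x, P x ∧ x.a = a) (hB : ∀ b : B.Obj, ∃ x, P x ∧ x.b = b) :
    QuasiEquivalent A B :=
  .trans _ _ _ (.symm _ _ (.rel _ _ ⟨_, roofFst_isQuasiEquiv F G P h₂ hA⟩))
    (.rel _ _ ⟨_, roofSnd_isQuasiEquiv F G P h₁ hB⟩)

end Orl
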