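import Pool.Agent.Work.MP_a6e60d_ag.DG.ModSum
import Pool.Agent.Work.MP_a6e60d_ag.Sm.Vect
import Pool.Agent.Work.MP_a6e60d_ag.Sm.ThickF

/-!
MP_a6e60d_ag: tensor products of perfect DG modules; one step of a filtration.
-/

open CategoryTheory CochainComplex HomComplex

namespace Orl

namespace DGMod

noncomputable section

section Step

variable {k : Type} [CommRing k] {E : DGAlg.{0} k} {T₀ T₁ X₁ X₂ : DGMod E}
  {i : (modDG E).Hom T₁ T₀ 0} {j : (modDG E).Hom X₁ X₂ 0} {μ : (modDG E).Hom X₂ T₀ 0}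
  {μ₁ : (modDG E).Hom X₁ T₁ 0} {ε : (modDG E).Hom X₂ X₂ 0} {ε₁ : (modDG E).Hom X₁ X₁ 0}

/-- the fixed points of an endomorphism -/
def fixed (f : (modDG E).Hom X₁ X₁ 0) (n : ℤ) : Submodule k (X₁.cx.X n) where
  carrier := {x | ap f (add_zero n) x = x}
  add_mem' {x y} hx hy := by
    change ap f (add_zero n) (x + y) = x + y
    rw [map_add]
    exact congrArg₂ (· + ·) hx hy
  zero_mem' := map_zero _
  smul_mem' c x hx := by
    change ap f (add_zero n) (c • x) = c • x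
    rw [map_smul]
    exact congrArg (c • ·) hx

lemma fixed_d {f : (modDG E).Hom X₁ X₁ 0} (hf : IsClosed (A := modDG E) f) (n m : ℤ)
    (h : n + 1 = m) (x : X₁.cx.X n) (hx : x ∈ fixed f n) : X₁.cx.d n m x ∈ fixed f m := by
  have := isClosed_iff₀.1 hf n m h x
  rw [show ap f (add_zero n) x = x from hx] at this
  exact this.symm

lemma fixed_act (f : (modDG E).Hom X₁ X₁ 0) {n m p : ℤ} (h : n + m = p) (x : X₁.cx.X n)
    (hx : x ∈ fixed f n) (r : E.cx.X m) : X₁.act h x r ∈ fixed f p := by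
  change ap f (add_zero p) (X₁.act h x r) = X₁.act h x r
  rw [ap_act f (add_zero n) h h x r, show ap f (add_zero n) x = x from hx]

/-- the DG submodule of the fixed points -/
def fix (f : (modDG E).Hom X₁ X₁ 0) (hf : IsClosed (A := modDG E) f) : DGMod E :=
  X₁.sub (fixed f) (fixed_d hf) (fun {_ _ _} h x hx r => fixed_act f h x hx r)

/-- the inclusion of the fixed points -/
def fixι (f : (modDG E).Hom X₁ X₁ 0) (hf : IsClosed (A := modDG E) f) :
    (modDG E).Hom (fix f hf) X₁ 0 :=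
  X₁.subι (fixed f) (fixed_d hf) (fun {_ _ _} h x hx r => fixed_act f h x hx r)

lemma ap_fixι (f : (modDG E).Hom X₁ X₁ 0) (hf : IsClosed (A := modDG E) f) {n : ℤ}
    (x : fixed f n) : ap (fixι f hf) (add_zero n) x = x.1 :=
  ap_subι X₁ (fixed f) (fixed_d hf) (fun {_ _ _} h x hx r => fixed_act f h x hx r) x

lemma fixι_closed (f : (modDG E).Hom X₁ X₁ 0) (hf : IsClosed (A := modDG E) f) :
    IsClosed (A := modDG E) (fixι f hf) :=
  subι_closed X₁ (fixed f) (fixed_d hf) (fun {_ _ _} h x hx r => fixed_act f h x hx r)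

/-- a morphism with values in the fixed points -/
def fixLift (f : (modDG E).Hom X₁ X₁ 0) (hf : IsClosed (A := modDG E) f) {N : DGMod E}
    (g : (modDG E).Hom N X₁ 0) (hg : ∀ (n : ℤ) (x : N.cx.X n), ap g (add_zero n) x ∈ fixed f n) :
    (modDG E).Hom N (fix f hf) 0 :=
  X₁.subLift (fixed f) (fixed_d hf) (fun {_ _ _} h x hx r => fixed_act f h x hx r) g hg

lemma fixLift_closed (f : (modDG E).Hom X₁ X₁ 0) (hf : IsClosed (A := modDG E) f) {N : DGMod E}
    {g : (modDG E).Hom N X₁ 0} (hgc : IsClosed (A := modDG E) g)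
    (hg : ∀ (n : ℤ) (x : N.cx.X n), ap g (add_zero n) x ∈ fixed f n) :
    IsClosed (A := modDG E) (fixLift f hf g hg) :=
  subLift_closed X₁ (fixed f) (fixed_d hf) (fun {_ _ _} h x hx r => fixed_act f h x hx r) hgc hg

lemma ap_fixLift (f : (modDG E).Hom X₁ X₁ 0) (hf : IsClosed (A := modDG E) f) {N : DGMod E}
    (g : (modDG E).Hom N X₁ 0) (hg : ∀ (n : ℤ) (x : N.cx.X n), ap g (add_zero n) x ∈ fixed f n)
    {n : ℤ} (x : N.cx.X n) : ap (fixLift f hf g hg) (add_zero n) x =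
      (⟨ap g (add_zero n) x, hg n x⟩ : fixed f n) :=
  ap_subLift X₁ (fixed f) (fixed_d hf) (fun {_ _ _} h x hx r => fixed_act f h x hx r) g hg x

theorem IsRes.fix (h : X₁.IsRes) {f : (modDG E).Hom X₁ X₁ 0} (hf : IsClosed (A := modDG E) f)
    (hff : ∀ (n : ℤ) (x : X₁.cx.X n), ap f (add_zero n) (ap f (add_zero n) x) =
      ap f (add_zero n) x) : (DGMod.fix f hf).IsRes := by
  refine IsRes.retract h (u := fixι f hf) (v := fixLift f hf f hff) (fixι_closed f hf)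
    (fixLift_closed f hf hf hff) fun n x => ?_
  change fixed f n at x
  rw [ap_fixι f hf x]
  exact (ap_fixLift f hf f hff x.1).trans (Subtype.ext x.2)

theorem IsRes.step (hi : IsClosed (A := modDG E) i) (hj : IsClosed (A := modDG E) j)
    (hμ : IsClosed (A := modDG E) μ) (hμ₁ : IsClosed (A := modDG E) μ₁)
    (hε : IsClosed (A := modDG E) ε) (hε₁ : IsClosed (A := modDG E) ε₁)
    (ii : ∀ (n : ℤ) (x : T₁.cx.X n), ap i (add_zero n) x = 0 → x = 0)
    (ij : ∀ (n : ℤ) (x : X₁.cx.X n), ap j (add_zero n) x = 0 → x = 0)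
    (hc : ∀ (n : ℤ) (x : X₁.cx.X n), ap i (add_zero n) (ap μ₁ (add_zero n) x) =
      ap μ (add_zero n) (ap j (add_zero n) x))
    (hεε : ∀ (n : ℤ) (x : X₂.cx.X n), ap ε (add_zero n) (ap ε (add_zero n) x) =
      ap ε (add_zero n) x)
    (hjε : ∀ (n : ℤ) (x : X₁.cx.X n), ap j (add_zero n) (ap ε₁ (add_zero n) x) =
      ap ε (add_zero n) (ap j (add_zero n) x))
    (hμε : ∀ (n : ℤ) (x : X₂.cx.X n), ap μ (add_zero n) (ap ε (add_zero n) x) =
      ap μ (add_zero n) x)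
    (hker : ∀ (n : ℤ) (z : X₂.cx.X n) (y : T₁.cx.X n), ap ε (add_zero n) z = z →
      ap i (add_zero n) y = ap μ (add_zero n) z → ∃ w, ap j (add_zero n) w = z)
    (hsurj : ∀ (n : ℤ) (x : T₀.cx.X n), ∃ (y : T₁.cx.X n) (z : X₂.cx.X n),
      x = ap i (add_zero n) y + ap μ (add_zero n) z)
    (h₁ : T₁.IsRes) (h₂ : X₁.IsRes) (h₃ : X₂.IsRes) : T₀.IsRes := by
  have inj : ∀ (n : ℤ) (x y : X₁.cx.X n), ap j (add_zero n) x = ap j (add_zero n) y → x = y :=
    fun n x y h => sub_eq_zero.1 (ij n _ (by rw [map_sub, h, sub_self]))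
  have inj' : ∀ (n : ℤ) (x y : T₁.cx.X n), ap i (add_zero n) x = ap i (add_zero n) y → x = y :=
    fun n x y h => sub_eq_zero.1 (ii n _ (by rw [map_sub, h, sub_self]))
  have hε₁ε₁ : ∀ (n : ℤ) (x : X₁.cx.X n), ap ε₁ (add_zero n) (ap ε₁ (add_zero n) x) =
      ap ε₁ (add_zero n) x := fun n x => inj n _ _ (by rw [hjε, hjε, hεε])
  have R₁ := IsRes.fix h₂ hε₁ hε₁ε₁
  have R₂ := IsRes.prod h₁ (IsRes.fix h₃ hε hεε)
  -- the morphism `K₁ → K₂`
  have hj₀ : IsClosed (A := modDG E) ((modDG E).comp (add_zero 0) (fixι ε₁ hε₁) j) :=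
    (fixι_closed ε₁ hε₁).comp hj _
  have hj₁ : ∀ (n : ℤ) (x : fixed ε₁ n), ap ((modDG E).comp (add_zero 0) (fixι ε₁ hε₁) j)
      (add_zero n) (x : (DGMod.fix ε₁ hε₁).cx.X n) = ap j (add_zero n) x.1 := fun n x => by
    refine (ap_comp₀ (fixι ε₁ hε₁) j _).trans ?_
    rw [ap_fixι ε₁ hε₁ x]
  have hjm : ∀ (n : ℤ) (x : (DGMod.fix ε₁ hε₁).cx.X n),
      ap ((modDG E).comp (add_zero 0) (fixι ε₁ hε₁) j) (add_zero n) x ∈ fixed ε n := fun n x => by
    change fixed ε₁ n at x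
    have e := hj₁ n x
    change ap ε (add_zero n) (ap ((modDG E).comp (add_zero 0) (fixι ε₁ hε₁) j) (add_zero n)
      (x : (DGMod.fix ε₁ hε₁).cx.X n)) = _
    rw [e, ← hjε, show ap ε₁ (add_zero n) x.1 = x.1 from x.2]
  obtain ⟨J, hJ, J_apply⟩ : ∃ J : (modDG E).Hom (DGMod.fix ε₁ hε₁) (DGMod.fix ε hε) 0,
      IsClosed (A := modDG E) J ∧ ∀ (n : ℤ) (x : fixed ε₁ n),
        (ap J (add_zero n) (x : (DGMod.fix ε₁ hε₁).cx.X n) : fixed ε n).1 =
          ap j (add_zero n) x.1 :=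
    ⟨fixLift ε hε _ hjm, fixLift_closed ε hε hj₀ hjm, fun n x =>
      (congrArg Subtype.val (ap_fixLift ε hε _ hjm (x : (DGMod.fix ε₁ hε₁).cx.X n))).trans
        (hj₁ n x)⟩
  obtain ⟨P, hP⟩ : ∃ P, P = prodBiprod T₁ (DGMod.fix ε hε) := ⟨_, rfl⟩
  obtain ⟨a, ha, a_apply⟩ : ∃ a : (modDG E).Hom (DGMod.fix ε₁ hε₁) (T₁.prod (DGMod.fix ε hε)) 0,
      IsClosed (A := modDG E) a ∧ ∀ (n : ℤ) (x : fixed ε₁ n),
        ap a (add_zero n) (x : (DGMod.fix ε₁ hε₁).cx.X n) =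
          ((ap μ₁ (add_zero n) x.1, ap J (add_zero n) (x : (DGMod.fix ε₁ hε₁).cx.X n)) :
            T₁.cx.X n × (DGMod.fix ε hε).cx.X n) := by
    refine ⟨(modDG E).comp (add_zero 0) ((modDG E).comp (add_zero 0) (fixι ε₁ hε₁) μ₁) P.i₁ +
      (modDG E).comp (add_zero 0) J P.i₂,
      (((fixι_closed ε₁ hε₁).comp hμ₁ _).comp P.i₁_closed _).add (hJ.comp P.i₂_closed _),
      fun n x => ?_⟩
    rw [ap_add, ap_comp₀, ap_comp₀, ap_comp₀, ap_fixι ε₁ hε₁ x, hP]
    refine (congrArg₂ (· + ·) (ap_prod_i₁ T₁ (DGMod.fix ε hε) _)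
      (ap_prod_i₂ T₁ (DGMod.fix ε hε) _)).trans ?_
    exact Prod.ext (add_zero _) (zero_add _)
  obtain ⟨b, hb, b_apply⟩ : ∃ b : (modDG E).Hom (T₁.prod (DGMod.fix ε hε)) T₀ 0,
      IsClosed (A := modDG E) b ∧ ∀ (n : ℤ) (y : T₁.cx.X n) (z : fixed ε n),
        ap b (add_zero n) ((y, z) : T₁.cx.X n × (DGMod.fix ε hε).cx.X n) =
          ap i (add_zero n) y - ap μ (add_zero n) z.1 := by
    refine ⟨(modDG E).comp (add_zero 0) P.p₁ i -
      (modDG E).comp (add_zero 0) P.p₂ ((modDG E).comp (add_zero 0) (fixι ε hε) μ),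
      (P.p₁_closed.comp hi _).sub (P.p₂_closed.comp ((fixι_closed ε hε).comp hμ _) _),
      fun n y z => ?_⟩
    rw [ap_sub, ap_comp₀, ap_comp₀, ap_comp₀, hP]
    have e₁ := ap_prod_p₁ T₁ (DGMod.fix ε hε) y z
    have e₂ := ap_prod_p₂ T₁ (DGMod.fix ε hε) y z
    refine (congrArg₂ (fun u v => ap i (add_zero n) u - ap μ (add_zero n)
      (ap (fixι ε hε) (add_zero n) v)) e₁ e₂).trans ?_
    rw [ap_fixι ε hε z]
  refine IsRes.of_ses ha hb (fun n x hx => ?_) (fun n x => ?_) (fun n y hy => ?_)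
    (fun n x => ?_) R₁ R₂
  · have h := (a_apply n x).symm.trans hx
    have h' : (ap J (add_zero n) x : fixed ε n) = 0 := congrArg Prod.snd h
    have h'' := congrArg Subtype.val h'
    rw [J_apply n x] at h''
    exact Subtype.ext (ij n _ h'')
  · refine (congrArg _ (a_apply n x)).trans ?_
    refine (b_apply n _ (ap J (add_zero n) x)).trans ?_
    rw [J_apply n x, hc, sub_self]
  · obtain ⟨y, z⟩ := y
    have h := (b_apply n y z).symm.trans hy
    rw [sub_eq_zero] at h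
    change fixed ε n at z
    obtain ⟨w, hw⟩ := hker n z.1 y z.2 h
    have hw' : ap j (add_zero n) (ap ε₁ (add_zero n) w) = z.1 := by
      rw [hjε, hw]
      exact z.2
    refine ⟨(⟨ap ε₁ (add_zero n) w, hε₁ε₁ n w⟩ : fixed ε₁ n), (a_apply n _).trans ?_⟩
    refine Prod.ext ?_ ?_
    · refine inj' n _ _ ?_
      rw [hc]
      exact (congrArg _ hw').trans h.symm
    · refine Subtype.ext ?_
      exact (J_apply n _).trans hw'
  · obtain ⟨y, z, rfl⟩ := hsurj n x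
    refine ⟨((y, (⟨ap ε (add_zero n) (-z), hεε n _⟩ : fixed ε n)) :
      T₁.cx.X n × (DGMod.fix ε hε).cx.X n), (b_apply n _ _).trans ?_⟩
    rw [hμε, map_neg, sub_neg_eq_add]

end Step

section Tens

variable {k : Type} [Field k] {R S : DGAlg.{0} k}

/-- The tensor product over the field `k` of two perfect modules is perfect. -/
theorem IsRes.tens {U : DGMod R} {V : DGMod S} (hU : U.IsRes) (hV : V.IsRes) :
    (U.tens V).IsRes := by
  obtain ⟨T, hT, p, hp⟩ := hU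
  obtain ⟨T', hT', q, hq⟩ := hV
  have h₁ : DGMod.IsQis ((extL R V).map p) := isQis_extL ((isQis_iff_gqis p).2 hp) V
  have h₂ : DGMod.IsQis ((extR T S).map q) := isQis_extR T ((isQis_iff_gqis q).2 hq)
  refine Res.of_qis ((isQis_iff_gqis _).1 h₁) (Res.of_qis ((isQis_iff_gqis _).1 h₂) ?_)
  exact Res.of_thick (thick_tens hT hT')

end Tens

end

end DGMod

end Orl
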