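import Pool.Agent.Work.MP_a6e60d_ag.DG.JMod
import Pool.Agent.Work.MP_a6e60d_ag.DG.Step
import Pool.Agent.Work.MP_a6e60d_ag.DG.Bimod
import Pool.Agent.Work.MP_a6e60d_ag.Sm.Ext

/-!
MP_a6e60d_ag: the bimodule step of the block filtration.
-/

open CategoryTheory TensorProduct CochainComplex HomComplex

namespace Orl

noncomputable section

open DGMod

section inj

variable {k : Type} [Field k]

/-- over a field tensor products preserve injective maps -/
lemma tenLv_injective {K K' : CochainComplex (ModuleCat.{0} k) ℤ}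
    (L : CochainComplex (ModuleCat.{0} k) ℤ) {z : Cochain K K' 0}
    (hz : ∀ (p : ℤ) (x : K.X p), z.v p p (add_zero p) x = 0 → x = 0) {p : ℤ}
    (x : TensX K L p) (hx : tenLv z L (add_zero p) x = 0) : x = 0 := by
  have H : ∀ p : ℤ, ∃ t : K'.X p →ₗ[k] K.X p, ∀ x, t (z.v p p (add_zero p) x) = x := by
    intro p
    obtain ⟨t, ht⟩ := (z.v p p (add_zero p)).hom.exists_leftInverse_of_injective
      (LinearMap.ker_eq_bot'.2 fun x hx => hz p x hx)
    exact ⟨t, fun x => LinearMap.congr_fun ht x⟩
  choose t ht using H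
  let t' : Cochain K' K 0 := Cochain.mk fun p q hpq => ModuleCat.ofHom (t p) ≫
    (Cochain.ofHom (𝟙 K)).v p q hpq
  have e : z.comp t' (add_zero 0) = Cochain.ofHom (𝟙 K) := by
    refine mod_cochain_ext fun p q hpq x => ?_
    obtain rfl : p = q := by omega
    rw [v_comp (add_zero 0) z t' hpq (add_zero p) (add_zero p)]
    change (Cochain.ofHom (𝟙 K)).v p p hpq (t p (z.v p p hpq x)) = _
    rw [ht]
  have e' := tenLv_comp (L := L) (add_zero 0) z t' (add_zero p) (add_zero p) (add_zero p) x
  rw [e, tenLv_id, hx, map_zero] at e'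
  exact e'

/-- extensionality for bilinear maps on tensor products of complexes -/
lemma tens_bil_ext {K L K' L' : CochainComplex (ModuleCat.{0} k) ℤ} {n m : ℤ} {Z : Type*}
    [AddCommGroup Z] [Module k Z] {f g : TensX K L n →ₗ[k] TensX K' L' m →ₗ[k] Z}
    (H : ∀ (i j : ℤ) (h : i + j = n) (x : K.X i) (y : L.X j) (i' j' : ℤ) (h' : i' + j' = m)
      (x' : K'.X i') (y' : L'.X j'), f (tp h x y) (tp h' x' y') = g (tp h x y) (tp h' x' y')) :
    f = g :=
  tens_hom_ext fun i j h x y => tens_hom_ext fun i' j' h' x' y' => H i j h x y i' j' h' x' y'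

end inj

section mu

variable {k : Type} [Field k] {A : DGCat.{0, 1} k} (P U : A.Obj)

/-- the degree `n` part of `Hom (U, P) ⊗ Hom (P, U)` -/
abbrev TX (n : ℤ) : Type := TensX (leftHom A P U).cx (rightHom A P U).cx n

variable {U}

/-- the element `x ⊗ y` of `Hom (U, P) ⊗ Hom (P, U)` -/
def tpH {i j n : ℤ} (h : i + j = n) : A.Hom U P i →ₗ[k] A.Hom P U j →ₗ[k] TX P U n :=
  tp (K := (leftHom A P U).cx) (L := (rightHom A P U).cx) h

variable {P}

lemma tx_ext {n : ℤ} {Z : Type*} [AddCommGroup Z] [Module k Z] {f g : TX P U n →ₗ[k] Z}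
    (H : ∀ (i j : ℤ) (h : i + j = n) (x : A.Hom U P i) (y : A.Hom P U j),
      f (tpH P h x y) = g (tpH P h x y)) : f = g := tens_hom_ext H

variable (P U)

/-- the composition `Hom (U, P) ⊗ Hom (P, U) → Hom (P, P)` -/
def muV (n : ℤ) : TX P U n →ₗ[k] A.Hom P P n :=
  tdesc fun i j hij => (A.comp (a := P) (b := U) (c := P) (n := j) (m := i) (p := n)
    (by lia)).flip

variable {P U}

lemma muV_tp {n i j : ℤ} (h : i + j = n) (x : A.Hom U P i) (y : A.Hom P U j) :
    muV P U n (tpH P h x y) = A.comp (show j + i = n by lia) y x :=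
  tdesc_tp (K := (leftHom A P U).cx) (L := (rightHom A P U).cx) _ h x y

variable (P U)

lemma muV_act {p m q : ℤ} (h : p + m = q) :
    (((leftHom A P U).tens (rightHom A P U)).act h).compr₂ (muV P U q) =
      ((A.endAlg P).diag.toMod.act h).comp (muV P U p) := by
  refine tens_bil_ext fun i j e x y i' j' e' r t => ?_
  change A.Hom U P i at x
  change A.Hom P U j at y
  change A.Hom P P i' at r
  change A.Hom P P j' at t
  change muV P U q (tpair (fun _ _ _ h => (leftHom A P U).act h)
      (fun _ _ _ h => (rightHom A P U).act h) h (tpH P e x y) (tp e' r t)) =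
      (A.endAlg P).diag.bact h (muV P U p (tpH P e x y)) (tp e' r t)
  have h₁ := tpair_tp (fun _ _ _ h => (leftHom A P U).act h)
      (fun _ _ _ h => (rightHom A P U).act h) h e e' (i'' := i + i') (j'' := j + j') rfl rfl x y r t
  have h₂ : muV P U q (tp (K := (leftHom A P U).cx) (L := (rightHom A P U).cx)
      (show i + i' + (j + j') = q by lia)
      ((leftHom A P U).act rfl x r) ((rightHom A P U).act rfl y t)) = (i * i').negOnePow •
      A.comp (show (j + j') + (i + i') = q by lia)
        (A.comp (show j' + j = j + j' by lia) t y) (A.comp rfl x r) := by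
    refine (muV_tp (show i + i' + (j + j') = q by lia) ((leftHom A P U).act rfl x r)
      ((rightHom A P U).act rfl y t)).trans ?_
    exact map_units_smul (A.comp (show (j + j') + (i + i') = q by lia)
        (A.comp (show j' + j = j + j' by lia) t y)) _ (A.comp rfl x r)
  have h₃ := (A.endAlg P).diag.bact_tp h e' (l := i' + p) rfl
    (A.comp (show j + i = p by lia) y x) r t
  refine (congrArg (muV P U q) h₁).trans ?_
  rw [muV_tp e x y]
  refine Eq.trans ?_ h₃.symm
  rw [map_units_smul, h₂, sgn_smul, sgn_congr (b := p * i') (by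
    rw [← e]
    exact ⟨0, by ring⟩)]
  congr 1
  change A.comp _ (A.comp _ t y) (A.comp _ x r) = A.comp (show j' + (i' + p) = q by lia) t
    (A.comp (show p + i' = i' + p by lia) (A.comp (show j + i = p by lia) y x) r)
  rw [A.assoc (show j' + j = j + j' by lia) (show j + (i + i') = i' + p by lia) _
    (show j' + (i' + p) = q by lia), A.assoc (show j + i = p by lia) (rfl : i + i' = i + i')
    _ (show j + (i + i') = i' + p by lia)]

/-- the composition as a morphism of DG bimodules -/
def muH : (modDG ((A.endAlg P).op.tensor (A.endAlg P))).Hom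
    ((leftHom A P U).tens (rightHom A P U)) (A.endAlg P).diag.toMod 0 :=
  mkHom₀ (muV P U) fun p m q h z w => LinearMap.congr_fun₂ (muV_act P U h) z w

lemma muV_d {n m : ℤ} (h : n + 1 = m) : (A.d n m).comp (muV P U n) =
    (muV P U m).comp (tD (leftHom A P U).cx (rightHom A P U).cx h) :=
  tx_ext fun i j e x y => by
    rw [LinearMap.comp_apply, LinearMap.comp_apply]
    have h₁ := muV_tp e x y
    have h₂ := muV_tp (show i + 1 + j = m by lia) (A.d i (i + 1) x) y
    have h₃ := muV_tp (show i + (j + 1) = m by lia) x (A.d j (j + 1) y)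
    have h₄ := tD_tp (K := (leftHom A P U).cx) (L := (rightHom A P U).cx) h e rfl rfl x y
    refine (congrArg (A.d n m) h₁).trans ?_
    refine Eq.trans ?_ (congrArg (muV P U m) h₄).symm
    rw [map_add, map_units_smul]
    refine Eq.trans ?_ (congrArg₂ (fun a b => a + i.negOnePow • b) h₂ h₃).symm
    exact A.d_comp (show j + i = n by lia) rfl rfl h y x

/-- the composition is a closed morphism -/
lemma muH_closed : IsClosed (A := modDG ((A.endAlg P).op.tensor (A.endAlg P))) (muH P U) :=
  isClosed_mkHom₀ _ _ fun n m h z => by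
    refine (LinearMap.congr_fun (muV_d P U h) z).trans ?_
    exact congrArg (muV P U m) (tensCx_d_apply h z).symm

lemma ap_muH {n : ℤ} (z : TX P U n) : ap (muH P U) (add_zero n) z = muV P U n z :=
  ap_mkHom₀ _ _ _

end mu

section eps

variable {k : Type} [Field k] {A : DGCat.{0, 1} k} (P : A.Obj) {U : A.Obj} (s : SepElt U)

lemma apB_sum {E : DGAlg.{0} k} {M N : DGMod E} {ι : Type} (t : Finset ι)
    (f : ι → (modDG E).Hom M N 0) {n : ℤ} (x : M.cx.X n) :
    ap (∑ i ∈ t, f i) (add_zero n) x = ∑ i ∈ t, ap (f i) (add_zero n) x := by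
  classical
  induction t using Finset.induction_on with
  | empty => simp
  | insert a t ha ih => rw [Finset.sum_insert ha, Finset.sum_insert ha, ap_add, ih]

/-- the summand of the idempotent `epsH` -/
def epsQ (q : s.Q) : (modDG ((A.endAlg P).op.tensor (A.endAlg P))).Hom
    ((leftHom A P U).tens (rightHom A P U)) ((leftHom A P U).tens (rightHom A P U)) 0 :=
  (modDG ((A.endAlg P).op.tensor (A.endAlg P))).comp (add_zero 0)
    ((extL (A.endAlg P).op (rightHom A P U)).map (leftMap (s.x q)))
    ((extR (leftHom A P U) (A.endAlg P)).map (rightMap (s.y q)))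

/-- the idempotent `x ⊗ y ↦ ∑ (x_q x) ⊗ (y y_q)` -/
def epsH : (modDG ((A.endAlg P).op.tensor (A.endAlg P))).Hom
    ((leftHom A P U).tens (rightHom A P U)) ((leftHom A P U).tens (rightHom A P U)) 0 :=
  ∑ q, epsQ P s q

/-- the action of `epsH` -/
def epsV (n : ℤ) : TX P U n →ₗ[k] TX P U n := ap (epsH P s) (add_zero n)

lemma epsV_tp {n i j : ℤ} (h : i + j = n) (x : A.Hom U P i) (y : A.Hom P U j) :
    epsV P s n (tpH P h x y) =
      ∑ q, tpH P h (A.comp (zero_add i) (s.x q) x) (A.comp (add_zero j) y (s.y q)) := by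
  refine (apB_sum (M := (leftHom A P U).tens (rightHom A P U))
    (N := (leftHom A P U).tens (rightHom A P U)) Finset.univ (epsQ P s) _).trans ?_
  refine Finset.sum_congr rfl fun q _ => ?_
  have e₁ := tenLv_tp (K := (leftHom A P U).cx) (K' := (leftHom A P U).cx)
    (L := (rightHom A P U).cx) (leftMap (P := P) (s.x q)).1 (add_zero n) h (add_zero i) x y
  have e₂ := tenRv_tp (K := (leftHom A P U).cx) (L' := (rightHom A P U).cx)
    (L := (rightHom A P U).cx) (rightMap (P := P) (s.y q)).1 (add_zero n) h (add_zero j)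
    (A.comp (zero_add i) (s.x q) x) y
  refine (ap_comp₀ (M := (leftHom A P U).tens (rightHom A P U))
    (N := (leftHom A P U).tens (rightHom A P U)) (L := (leftHom A P U).tens (rightHom A P U))
    ((extL (A.endAlg P).op (rightHom A P U)).map (leftMap (s.x q)))
    ((extR (leftHom A P U) (A.endAlg P)).map (rightMap (s.y q))) _).trans ?_
  refine (congrArg (tenRv (leftHom A P U).cx (rightMap (P := P) (s.y q)).1 (add_zero n))
    e₁).trans ?_
  refine Eq.trans e₂ ?_
  rw [zero_mul, Int.negOnePow_zero, one_smul]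
  rfl

omit P in
lemma comp_sep {a c : A.Obj} {i j n : ℤ} (h : j + i = n) (v : A.Hom a U j) (w : A.Hom U c i) :
    ∑ q, A.comp h (A.comp (add_zero j) v (s.y q)) (A.comp (zero_add i) (s.x q) w) =
      A.comp h v w := by
  have e : ∀ q, A.comp h (A.comp (add_zero j) v (s.y q)) (A.comp (zero_add i) (s.x q) w) =
      A.comp h v (A.comp (zero_add i) (A.comp (add_zero 0) (s.y q) (s.x q)) w) := fun q => by
    rw [A.assoc (add_zero j) (zero_add i) h h, A.assoc (add_zero 0) (zero_add i) (zero_add i)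
      (zero_add i)]
  rw [Finset.sum_congr rfl fun q _ => e q, ← map_sum, ← LinearMap.sum_apply, ← map_sum, s.one,
    A.id_comp]

lemma muV_epsV (n : ℤ) : (muV P U n).comp (epsV P s n) = muV P U n :=
  tx_ext fun i j e x y => by
    rw [LinearMap.comp_apply, epsV_tp, map_sum, Finset.sum_congr rfl fun q _ => muV_tp e _ _,
      comp_sep s (show j + i = n by lia) y x, muV_tp e x y]

lemma balT {i j m i' j' n : ℤ} (mi : m + i = i') (jm : j + m = j') (h : i' + j = n)
    (h' : i + j' = n) (c : A.Hom U U m) (hc : m ≠ 0 → c = 0) (w : A.Hom U P i)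
    (v : A.Hom P U j) :
    ∑ q, tpH P h
        (A.comp (zero_add i') (s.x q) (A.comp mi c w)) (A.comp (add_zero j) v (s.y q)) =
      ∑ q, tpH P h'
        (A.comp (zero_add i) (s.x q) w) (A.comp (add_zero j') (A.comp jm v c) (s.y q)) := by
  by_cases hm : m = 0
  · subst hm
    obtain rfl : i = i' := by lia
    obtain rfl : j = j' := by lia
    let f : A.Hom U U 0 →ₗ[k] A.Hom U U 0 →ₗ[k] TX P U n :=
      (tpH P h).compl₁₂ ((A.comp (zero_add i)).flip w) (A.comp (add_zero j) v)
    have H := s.sum_bal f c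
    refine Eq.trans (Finset.sum_congr rfl fun q _ => ?_) (H.trans
      (Finset.sum_congr rfl fun q _ => ?_))
    · change _ = tpH P h
        (A.comp (zero_add i) (A.comp (add_zero 0) (s.x q) c) w) (A.comp (add_zero j) v (s.y q))
      rw [A.assoc (add_zero 0) (zero_add i) (zero_add i) (zero_add i)]
    · change tpH P h (A.comp (zero_add i) (s.x q) w)
          (A.comp (add_zero j) v (A.comp (add_zero 0) c (s.y q))) = _
      rw [A.assoc (add_zero j) (add_zero 0) (add_zero j) (add_zero j)]
  · have h0 := hc hm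
    subst h0
    refine (Finset.sum_eq_zero fun q _ => ?_).trans (Finset.sum_eq_zero fun q _ => ?_).symm
    · rw [map_zero, LinearMap.zero_apply, map_zero, map_zero, LinearMap.zero_apply]
    · rw [map_zero, map_zero, LinearMap.zero_apply, map_zero]

lemma epsV_epsV (n : ℤ) : (epsV P s n).comp (epsV P s n) = epsV P s n :=
  tx_ext fun i j e x y => by
    rw [LinearMap.comp_apply, epsV_tp, map_sum]
    have e₁ : ∀ q, epsV P s n (tpH P e
        (A.comp (zero_add i) (s.x q) x) (A.comp (add_zero j) y (s.y q))) =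
        ∑ q', tpH P e
        (A.comp (zero_add i) (s.x q') x) (A.comp (add_zero j) (A.comp (add_zero j)
          (A.comp (add_zero j) y (s.y q)) (s.x q)) (s.y q')) := fun q =>
      (epsV_tp P s e _ _).trans (balT P s (zero_add i) (add_zero j) e e (s.x q)
        (fun h => absurd rfl h) x _)
    rw [Finset.sum_congr rfl fun q _ => e₁ q, Finset.sum_comm]
    refine Finset.sum_congr rfl fun q' _ => ?_
    rw [← map_sum, ← LinearMap.sum_apply, ← map_sum]
    have e₂ : ∑ q, A.comp (add_zero j) (A.comp (add_zero j) y (s.y q)) (s.x q) = y := by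
      have e₃ := comp_sep s (add_zero j) y (A.id U)
      simpa only [A.comp_id] using e₃
    rw [e₂]

end eps

section sec

variable {k : Type} [Field k] {A : DGCat.{0, 1} k} {r : ℕ} {b : Fin r → A.Obj} {P : A.Obj}
  (hb : IsBlocks b) (D : Decomp b P) (l : Fin r) (s : SepElt (b l))

/-- the section `z ↦ ∑ (x_q ι_a) ⊗ (z π_a y_q)` -/
def secV (n : ℤ) : A.Hom P P n →ₗ[k] TX P (b l) n :=
  ∑ a, ∑ q, (tpH P (show D.deg l a + (n + -D.deg l a) = n by lia)
    (A.comp (zero_add (D.deg l a)) (s.x q) (D.ι l a))).comp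
    (((A.comp (add_zero (n + -D.deg l a))).flip (s.y q)).comp
      ((A.comp (n := n) (m := -D.deg l a) rfl).flip (D.π l a)))

lemma secV_apply {n : ℤ} (z : A.Hom P P n) : secV D l s n z =
    ∑ a, ∑ q, tpH P (show D.deg l a + (n + -D.deg l a) = n by lia)
      (A.comp (zero_add (D.deg l a)) (s.x q) (D.ι l a))
      (A.comp (add_zero (n + -D.deg l a)) (A.comp rfl z (D.π l a)) (s.y q)) := by
  rw [secV, LinearMap.sum_apply]
  refine Finset.sum_congr rfl fun a _ => ?_
  rw [LinearMap.sum_apply]
  rfl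

lemma muV_secV {n : ℤ} (z : A.Hom P P n) : muV P (b l) n (secV D l s n z) =
    ∑ a, A.comp (show n + -D.deg l a + D.deg l a = n by omega)
      (A.comp rfl z (D.π l a)) (D.ι l a) := by
  rw [secV_apply, map_sum]
  refine Finset.sum_congr rfl fun a _ => ?_
  rw [map_sum, Finset.sum_congr rfl fun q _ => muV_tp _ _ _]
  exact comp_sep s _ _ _

lemma secV_of_mem {n : ℤ} {z : A.Hom P P n} (hz : z ∈ D.J P (l + 1) n) :
    secV D l s n z = 0 := by
  rw [secV_apply]
  refine Finset.sum_eq_zero fun a _ => Finset.sum_eq_zero fun q _ => ?_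
  rw [hz l a (Nat.lt_succ_self _), map_zero, LinearMap.zero_apply, map_zero]

include hb in
lemma secV_comp {n i j : ℤ} (h : i + j = n) (x : A.Hom (b l) P i) (y : A.Hom P (b l) j) :
    secV D l s n (A.comp (show j + i = n by lia) y x) =
      ∑ q, tpH P h
        (A.comp (zero_add i) (s.x q) (∑ a, A.comp
          (show i + -D.deg l a + D.deg l a = i by omega)
          (A.comp rfl x (D.π l a)) (D.ι l a)))
        (A.comp (add_zero j) y (s.y q)) := by
  rw [secV_apply]
  have e₁ : ∀ a, ∑ q, tpH P (show D.deg l a + (n + -D.deg l a) = n by lia)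
      (A.comp (zero_add (D.deg l a)) (s.x q) (D.ι l a))
      (A.comp (add_zero (n + -D.deg l a)) (A.comp rfl (A.comp (show j + i = n by lia) y x)
        (D.π l a)) (s.y q)) =
      ∑ q, tpH P h
        (A.comp (zero_add i) (s.x q) (A.comp
          (show i + -D.deg l a + D.deg l a = i by omega)
          (A.comp rfl x (D.π l a)) (D.ι l a)))
        (A.comp (add_zero j) y (s.y q)) := fun a => by
    have e₂ := balT P s (show i + -D.deg l a + D.deg l a = i by omega)
      (show j + (i + -D.deg l a) = n + -D.deg l a by lia) h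
      (show D.deg l a + (n + -D.deg l a) = n by lia) (A.comp rfl x (D.π l a))
      (fun hm => hb.conc _ _ _ _ hm) (D.ι l a) y
    rw [e₂]
    refine Finset.sum_congr rfl fun q _ => ?_
    rw [A.assoc (show j + i = n by lia) rfl rfl (show j + (i + -D.deg l a) = n + -D.deg l a by
      lia)]
  rw [Finset.sum_congr rfl fun a _ => e₁ a, Finset.sum_comm]
  refine Finset.sum_congr rfl fun q _ => ?_
  rw [map_sum, map_sum, LinearMap.sum_apply]

end sec

section step

variable {k : Type} [Field k] {A : DGCat.{0, 1} k} {r : ℕ} {b : Fin r → A.Obj} {P : A.Obj}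
  (hb : IsBlocks b) (D : Decomp b P) (l : Fin r) (s : SepElt (b l))

/-- the inclusion of `J ⊗ Hom (P, U)` in `Hom (U, P) ⊗ Hom (P, U)` -/
def jH : (modDG ((A.endAlg P).op.tensor (A.endAlg P))).Hom
    ((JL hb D (b l) (l + 1)).tens (rightHom A P (b l)))
    ((leftHom A P (b l)).tens (rightHom A P (b l))) 0 :=
  (extL (A.endAlg P).op (rightHom A P (b l))).map (JLι hb D (b l) (l + 1))

/-- the degree `n` part of `J ⊗ Hom (P, U)` -/
abbrev TJ (n : ℤ) : Type := TensX (JL hb D (b l) (l + 1)).cx (rightHom A P (b l)).cx n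

/-- the action of `jH` -/
def jV (n : ℤ) : TJ hb D l n →ₗ[k] TX P (b l) n := ap (jH hb D l) (add_zero n)

/-- the element `x ⊗ y` of `J ⊗ Hom (P, U)` -/
def tpJ {i j n : ℤ} (h : i + j = n) : D.J (b l) (l + 1) i →ₗ[k] A.Hom P (b l) j →ₗ[k]
    TJ hb D l n :=
  tp (K := (JL hb D (b l) (l + 1)).cx) (L := (rightHom A P (b l)).cx) h

lemma tj_ext {n : ℤ} {Z : Type*} [AddCommGroup Z] [Module k Z] {f g : TJ hb D l n →ₗ[k] Z}
    (H : ∀ (i j : ℤ) (h : i + j = n) (x : D.J (b l) (l + 1) i) (y : A.Hom P (b l) j),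
      f (tpJ hb D l h x y) = g (tpJ hb D l h x y)) : f = g := tens_hom_ext H

lemma jV_tp {i j n : ℤ} (h : i + j = n) (x : D.J (b l) (l + 1) i) (y : A.Hom P (b l) j) :
    jV hb D l n (tpJ hb D l h x y) = tpH P h x.1 y := by
  refine (tenLv_tp (K := (JL hb D (b l) (l + 1)).cx) (K' := (leftHom A P (b l)).cx)
    (L := (rightHom A P (b l)).cx) (JLι hb D (b l) (l + 1)).1 (add_zero n) h (add_zero i)
    x y).trans ?_
  refine congrArg (fun t => tpH P h t y) ?_
  exact ap_JLι hb D (b l) (l + 1) x

lemma jV_injective {n : ℤ} (x : TJ hb D l n) (hx : jV hb D l n x = 0) : x = 0 := by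
  refine tenLv_injective (rightHom A P (b l)).cx (z := (JLι hb D (b l) (l + 1)).1)
    (fun p x hx => ?_) x hx
  change D.J (b l) (l + 1) p at x
  exact Subtype.ext ((ap_JLι hb D (b l) (l + 1) x).symm.trans hx)

lemma jH_closed : IsClosed (A := modDG ((A.endAlg P).op.tensor (A.endAlg P))) (jH hb D l) := by
  have h := (extL (A.endAlg P).op (rightHom A P (b l))).map_d 0 1 (JLι hb D (b l) (l + 1))
  rw [JLι_closed hb D (b l) (l + 1) |>.d 1, map_zero] at h
  exact isClosed_of (zero_add 1) h.symm

omit l s in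
lemma leftMapB_closed {U U' : A.Obj} {u : A.Hom U U' 0} (hu : IsClosed u) :
    IsClosed (A := modDG (A.endAlg P).op) (leftMap (P := P) u) :=
  isClosed_iff₀.2 fun n m h x => by
    change A.Hom U' P n at x
    exact d_closed_comp (zero_add n) h h u x hu

omit l s in
lemma rightMapB_closed {V V' : A.Obj} {v : A.Hom V V' 0} (hv : IsClosed v) :
    IsClosed (A := modDG (A.endAlg P)) (rightMap (P := P) v) :=
  isClosed_iff₀.2 fun n m h x => by
    change A.Hom P V n at x
    exact d_comp_closed (add_zero n) h h x v hv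

/-- the induced endomorphism of `J` -/
def leftJ (q : s.Q) : (modDG (A.endAlg P).op).Hom (JL hb D (b l) (l + 1))
    (JL hb D (b l) (l + 1)) 0 :=
  toJL hb D ((modDG (A.endAlg P).op).comp (add_zero 0) (JLι hb D (b l) (l + 1))
    (leftMap (s.x q))) fun n x => by
      change D.J (b l) (l + 1) n at x
      have h₁ := ap_comp₀ (JLι hb D (b l) (l + 1)) (leftMap (P := P) (s.x q)) x
      have h₂ := ap_JLι hb D (b l) (l + 1) x
      rw [h₁, h₂]
      exact Decomp.comp_mem_J (zero_add n) (s.x q) x.2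

lemma ap_leftJ (q : s.Q) {n : ℤ} (x : D.J (b l) (l + 1) n) :
    ap (leftJ hb D l s q) (add_zero n) x =
      (⟨A.comp (zero_add n) (s.x q) x.1, Decomp.comp_mem_J (zero_add n) (s.x q) x.2⟩ :
        D.J (b l) (l + 1) n) := by
  refine (ap_toJL hb D _ _ _).trans (Subtype.ext ?_)
  have h₁ := ap_comp₀ (JLι hb D (b l) (l + 1)) (leftMap (P := P) (s.x q)) x
  have h₂ := ap_JLι hb D (b l) (l + 1) x
  refine h₁.trans ?_
  rw [h₂]
  rfl

/-- a summand of the idempotent on `J ⊗ Hom (P, U)` -/
def epsJQ (q : s.Q) : (modDG ((A.endAlg P).op.tensor (A.endAlg P))).Hom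
    ((JL hb D (b l) (l + 1)).tens (rightHom A P (b l)))
    ((JL hb D (b l) (l + 1)).tens (rightHom A P (b l))) 0 :=
  (modDG ((A.endAlg P).op.tensor (A.endAlg P))).comp (add_zero 0)
    ((extL (A.endAlg P).op (rightHom A P (b l))).map (leftJ hb D l s q))
    ((extR (JL hb D (b l) (l + 1)) (A.endAlg P)).map (rightMap (s.y q)))

/-- the idempotent on `J ⊗ Hom (P, U)` -/
def epsJ : (modDG ((A.endAlg P).op.tensor (A.endAlg P))).Hom
    ((JL hb D (b l) (l + 1)).tens (rightHom A P (b l)))
    ((JL hb D (b l) (l + 1)).tens (rightHom A P (b l))) 0 :=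
  ∑ q, epsJQ hb D l s q

/-- the action of `epsJ` -/
def epsJV (n : ℤ) : TJ hb D l n →ₗ[k] TJ hb D l n := ap (epsJ hb D l s) (add_zero n)

lemma epsJV_tp {n i j : ℤ} (h : i + j = n) (x : D.J (b l) (l + 1) i) (y : A.Hom P (b l) j) :
    epsJV hb D l s n (tpJ hb D l h x y) =
      ∑ q, tpJ hb D l h
        (⟨A.comp (zero_add i) (s.x q) x.1, Decomp.comp_mem_J (zero_add i) (s.x q) x.2⟩ :
          D.J (b l) (l + 1) i) (A.comp (add_zero j) y (s.y q)) := by
  refine (apB_sum (M := (JL hb D (b l) (l + 1)).tens (rightHom A P (b l)))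
    (N := (JL hb D (b l) (l + 1)).tens (rightHom A P (b l))) Finset.univ
    (epsJQ hb D l s) _).trans ?_
  refine Finset.sum_congr rfl fun q _ => ?_
  have e₁ := tenLv_tp (K := (JL hb D (b l) (l + 1)).cx) (K' := (JL hb D (b l) (l + 1)).cx)
    (L := (rightHom A P (b l)).cx) (leftJ hb D l s q).1 (add_zero n) h (add_zero i) x y
  have e₂ := tenRv_tp (K := (JL hb D (b l) (l + 1)).cx) (L' := (rightHom A P (b l)).cx)
    (L := (rightHom A P (b l)).cx) (rightMap (P := P) (s.y q)).1 (add_zero n) h (add_zero j)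
    (ap (leftJ hb D l s q) (add_zero i) x) y
  refine (ap_comp₀ (M := (JL hb D (b l) (l + 1)).tens (rightHom A P (b l)))
    (N := (JL hb D (b l) (l + 1)).tens (rightHom A P (b l)))
    (L := (JL hb D (b l) (l + 1)).tens (rightHom A P (b l)))
    ((extL (A.endAlg P).op (rightHom A P (b l))).map (leftJ hb D l s q))
    ((extR (JL hb D (b l) (l + 1)) (A.endAlg P)).map (rightMap (s.y q))) _).trans ?_
  refine (congrArg (tenRv (JL hb D (b l) (l + 1)).cx (rightMap (P := P) (s.y q)).1
    (add_zero n)) e₁).trans ?_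
  refine Eq.trans e₂ ?_
  rw [zero_mul, Int.negOnePow_zero, one_smul]
  exact congrArg (fun t => tpJ hb D l h t (A.comp (add_zero j) y (s.y q)))
    (ap_leftJ hb D l s q x)

lemma jV_epsJV (n : ℤ) : (jV hb D l n).comp (epsJV hb D l s n) =
    (epsV P s n).comp (jV hb D l n) :=
  tj_ext hb D l fun i j e x y => by
    rw [LinearMap.comp_apply, LinearMap.comp_apply, epsJV_tp, map_sum, jV_tp, epsV_tp]
    exact Finset.sum_congr rfl fun q _ => jV_tp hb D l e _ _

include hb in
lemma closed_block {c : A.Hom (b l) (b l) 0} : IsClosed c := hb.conc _ _ _ _ (by norm_num)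

include hb in
lemma epsH_closed : IsClosed (A := modDG ((A.endAlg P).op.tensor (A.endAlg P)))
    (epsH P s) := by
  have h : ∀ q, IsClosed (A := modDG ((A.endAlg P).op.tensor (A.endAlg P))) (epsQ P s q) :=
    fun q => ((leftMapB_closed (closed_block hb l)).map
      (extL (A.endAlg P).op (rightHom A P (b l)))).comp
      ((rightMapB_closed (closed_block hb l)).map (extR (leftHom A P (b l)) (A.endAlg P))) _
  refine isClosed_of (zero_add 1) ?_
  rw [epsH, map_sum]
  exact Finset.sum_eq_zero fun q _ => (h q).d 1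

lemma leftJ_closed (q : s.Q) : IsClosed (A := modDG (A.endAlg P).op) (leftJ hb D l s q) :=
  toJL_closed hb D ((JLι_closed hb D (b l) (l + 1)).comp
    (leftMapB_closed (closed_block hb l)) _) _

lemma epsJ_closed : IsClosed (A := modDG ((A.endAlg P).op.tensor (A.endAlg P)))
    (epsJ hb D l s) := by
  have h : ∀ q, IsClosed (A := modDG ((A.endAlg P).op.tensor (A.endAlg P)))
      (epsJQ hb D l s q) :=
    fun q => ((leftJ_closed hb D l s q).map
      (extL (A.endAlg P).op (rightHom A P (b l)))).comp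
      ((rightMapB_closed (closed_block hb l)).map
        (extR (JL hb D (b l) (l + 1)) (A.endAlg P))) _
  refine isClosed_of (zero_add 1) ?_
  rw [epsJ, map_sum]
  exact Finset.sum_eq_zero fun q _ => (h q).d 1

lemma epsV_sub_mem {n : ℤ} (z : TX P (b l) n) :
    epsV P s n z - secV D l s n (muV P (b l) n z) ∈ LinearMap.range (jV hb D l n) := by
  have key : (LinearMap.range (jV hb D l n)).mkQ.comp
      (epsV P s n - (secV D l s n).comp (muV P (b l) n)) = 0 := by
    refine tx_ext fun i j e x y => ?_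
    rw [LinearMap.zero_apply, LinearMap.comp_apply, Submodule.mkQ_apply,
      Submodule.Quotient.mk_eq_zero, LinearMap.sub_apply, LinearMap.comp_apply, epsV_tp,
      muV_tp, secV_comp hb D l s e x y, ← Finset.sum_sub_distrib]
    refine Submodule.sum_mem _ fun q _ => ?_
    have hx : x - ∑ a, A.comp (show i + -D.deg l a + D.deg l a = i by omega)
        (A.comp rfl x (D.π l a)) (D.ι l a) ∈ D.J (b l) (l + 1) i :=
      Decomp.sub_sum_mem_J hb l (Decomp.mem_J_block hb l x)
    refine ⟨tpJ hb D l e (⟨_, Decomp.comp_mem_J (zero_add i) (s.x q) hx⟩ :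
      D.J (b l) (l + 1) i) (A.comp (add_zero j) y (s.y q)), ?_⟩
    rw [jV_tp]
    change tpH P e (A.comp (zero_add i) (s.x q) (x - _)) _ = _
    rw [map_sub, map_sub, LinearMap.sub_apply]
  have h := LinearMap.congr_fun key z
  rw [LinearMap.zero_apply, LinearMap.comp_apply, Submodule.mkQ_apply,
      Submodule.Quotient.mk_eq_zero] at h
  exact h

include hb in
lemma muV_mem {n : ℤ} (z : TX P (b l) n) : muV P (b l) n z ∈ D.J P l n := by
  have key : (D.J P l n).mkQ.comp (muV P (b l) n) = 0 := by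
    refine tx_ext fun i j e x y => ?_
    rw [LinearMap.zero_apply, LinearMap.comp_apply, Submodule.mkQ_apply,
      Submodule.Quotient.mk_eq_zero, muV_tp]
    exact Decomp.comp_mem_J _ y (Decomp.mem_J_block hb l x)
  have h := LinearMap.congr_fun key z
  rw [LinearMap.zero_apply, LinearMap.comp_apply, Submodule.mkQ_apply,
      Submodule.Quotient.mk_eq_zero] at h
  exact h

lemma muV_jV_mem {n : ℤ} (z : TJ hb D l n) :
    muV P (b l) n (jV hb D l n z) ∈ D.J P (l + 1) n := by
  have key : (D.J P (l + 1) n).mkQ.comp ((muV P (b l) n).comp (jV hb D l n)) = 0 := by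
    refine tj_ext hb D l fun i j e x y => ?_
    rw [LinearMap.zero_apply, LinearMap.comp_apply, LinearMap.comp_apply, Submodule.mkQ_apply,
      Submodule.Quotient.mk_eq_zero, jV_tp, muV_tp]
    exact Decomp.comp_mem_J _ y x.2
  have h := LinearMap.congr_fun key z
  rw [LinearMap.zero_apply, LinearMap.comp_apply, LinearMap.comp_apply, Submodule.mkQ_apply,
      Submodule.Quotient.mk_eq_zero] at h
  exact h

include s in
/-- **The bimodule step.** -/
theorem isRes_JB_step (h₁ : (JL hb D (b l) (l + 1)).IsRes) (h₂ : (leftHom A P (b l)).IsRes)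
    (h₃ : (rightHom A P (b l)).IsRes) (h₄ : (JB hb D (l + 1)).IsRes) : (JB hb D l).IsRes := by
  have hi : ∀ (n : ℤ) (x : (JB hb D (l + 1)).cx.X n),
      ap (JBι hb D (l + 1)) (add_zero n) x ∈ D.J P l n := fun n x => by
    change D.J P (l + 1) n at x
    rw [ap_JBι hb D (l + 1) x]
    exact Decomp.J_anti (Nat.le_succ _) x.2
  have hμ : ∀ (n : ℤ) (z : TX P (b l) n),
      ap (muH P (b l)) (add_zero n) z ∈ D.J P l n := fun n z => by
    rw [ap_muH]
    exact muV_mem hb D l z
  have aμ₁ : ∀ (n : ℤ) (z : TJ hb D l n),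
      ap ((modDG ((A.endAlg P).op.tensor (A.endAlg P))).comp (add_zero 0) (jH hb D l)
        (muH P (b l))) (add_zero n) z = muV P (b l) n (jV hb D l n z) := fun n z =>
    (ap_comp₀ (jH hb D l) (muH P (b l)) z).trans (ap_muH P (b l) _)
  have hμ₁ : ∀ (n : ℤ) (z : TJ hb D l n),
      ap ((modDG ((A.endAlg P).op.tensor (A.endAlg P))).comp (add_zero 0) (jH hb D l)
        (muH P (b l))) (add_zero n) z ∈ D.J P (l + 1) n := fun n z => by
    rw [aμ₁]
    exact muV_jV_mem hb D l z
  have ai : ∀ (n : ℤ) (x : D.J P (l + 1) n),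
      (ap (toJB hb D (JBι hb D (l + 1)) hi) (add_zero n) x : D.J P l n).1 = x.1 := fun n x =>
    (congrArg Subtype.val (ap_toJB hb D (JBι hb D (l + 1)) hi x)).trans
      (ap_JBι hb D (l + 1) x)
  have aμ : ∀ (n : ℤ) (z : TX P (b l) n),
      (ap (toJB hb D (muH P (b l)) hμ) (add_zero n) z : D.J P l n).1 = muV P (b l) n z :=
    fun n z => (congrArg Subtype.val (ap_toJB hb D (muH P (b l)) hμ z)).trans
      (ap_muH P (b l) z)
  have aμ₁' : ∀ (n : ℤ) (z : TJ hb D l n),
      (ap (toJB hb D ((modDG ((A.endAlg P).op.tensor (A.endAlg P))).comp (add_zero 0)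
        (jH hb D l) (muH P (b l))) hμ₁) (add_zero n) z : D.J P (l + 1) n).1 =
        muV P (b l) n (jV hb D l n z) :=
    fun n z => (congrArg Subtype.val (ap_toJB hb D ((modDG
      ((A.endAlg P).op.tensor (A.endAlg P))).comp (add_zero 0) (jH hb D l)
        (muH P (b l))) hμ₁ z)).trans (aμ₁ n z)
  refine IsRes.step (i := toJB hb D (JBι hb D (l + 1)) hi) (j := jH hb D l)
    (μ := toJB hb D (muH P (b l)) hμ) (μ₁ := toJB hb D ((modDG
      ((A.endAlg P).op.tensor (A.endAlg P))).comp (add_zero 0) (jH hb D l)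
        (muH P (b l))) hμ₁) (ε := epsH P s)
    (ε₁ := epsJ hb D l s) (toJB_closed hb D (JBι_closed hb D (l + 1)) hi) (jH_closed hb D l)
    (toJB_closed hb D (muH_closed P (b l)) hμ)
    (toJB_closed hb D ((jH_closed hb D l).comp (muH_closed P (b l)) _) hμ₁)
    (epsH_closed hb l s) (epsJ_closed hb D l s) ?_ ?_ ?_ ?_ ?_ ?_ ?_ ?_ h₄
    (IsRes.tens h₁ h₃) (IsRes.tens h₂ h₃)
  · intro n x hx
    have h := ai n x
    refine Subtype.ext (h.symm.trans ?_)
    exact congrArg Subtype.val hx
  · intro n x hx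
    exact jV_injective hb D l x hx
  · intro n x
    refine Subtype.ext ((ai n _).trans ((aμ₁' n x).trans (aμ n _).symm))
  · intro n x
    exact LinearMap.congr_fun (epsV_epsV P s n) x
  · intro n x
    exact LinearMap.congr_fun (jV_epsJV hb D l s n) x
  · intro n x
    refine Subtype.ext ((aμ n _).trans (Eq.trans ?_ (aμ n x).symm))
    exact LinearMap.congr_fun (muV_epsV P s n) x
  · intro n z y hz hy
    have h₅ := epsV_sub_mem hb D l s z
    have h₆ : muV P (b l) n z ∈ D.J P (l + 1) n := by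
      have h₇ := congrArg Subtype.val hy
      have h₈ := (ai n y).symm.trans (h₇.trans (aμ n z))
      rw [← h₈]
      exact Subtype.prop (show D.J P (l + 1) n from y)
    rw [secV_of_mem D l s h₆, sub_zero] at h₅
    have h₉ : epsV P s n z = z := hz
    rw [h₉] at h₅
    exact h₅
  · intro n x
    change D.J P l n at x
    have h₅ : x.1 - muV P (b l) n (secV D l s n x.1) ∈ D.J P (l + 1) n := by
      rw [muV_secV]
      exact Decomp.sub_sum_mem_J hb l x.2
    refine ⟨(⟨_, h₅⟩ : D.J P (l + 1) n), secV D l s n x.1, Subtype.ext ?_⟩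
    refine Eq.trans ?_ (congrArg₂ (· + ·) (ai n ⟨_, h₅⟩) (aμ n (secV D l s n x.1))).symm
    exact (sub_add_cancel _ _).symm

end step

end

end Orl
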