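import Pool.Agent.Work.MP_a6e60d_ag.DG.StepL2
import Pool.Agent.Work.MP_a6e60d_ag.DG.StepB
import Pool.Agent.Work.MP_a6e60d_ag.DG.LeftThick

/-!
MP_a6e60d_ag: the endomorphism DG algebra of an object with a decomposition into directed blocks
with separable algebras of endomorphisms is smooth.
-/

open CategoryTheory

namespace Orl

section

variable {k : Type} [Field k] {A : DGCat.{0, 1} k} {r : ℕ} {b : Fin r → A.Obj} {P : A.Obj}
  (hb : IsBlocks b) (D : Decomp b P)

/-- All steps of the filtrations of the left modules `Hom (b j, P)` are perfect. -/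
theorem isRes_JL (s : ∀ j, Nonempty (SepElt (b j)))
    (hL : ∀ j, (leftHom A P (b j)).IsRes) (j : Fin r) (l : ℕ) : (JL hb D (b j) l).IsRes := by
  by_cases hl : r ≤ l
  · exact DGMod.IsRes.of_zero fun n x => Subtype.ext (Decomp.eq_zero_of_mem_J hl
      (show D.J (b j) l n from x).2)
  · suffices H : ∀ (t l : ℕ), l + t = r → ∀ j : Fin r, (JL hb D (b j) l).IsRes from
      H (r - l) l (by omega) j
    intro t
    induction t with
    | zero =>
      intro l hl j
      exact DGMod.IsRes.of_zero fun n x => Subtype.ext (Decomp.eq_zero_of_mem_J hl.ge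
        (show D.J (b j) l n from x).2)
    | succ t ih =>
      intro l hl j
      have h := ih (l + 1) (by omega)
      obtain ⟨s⟩ := s ⟨l, by omega⟩
      exact stepL hb D ⟨l, by omega⟩ j s (hL _) (h _) (h j)

/-- All steps of the filtration of the diagonal bimodule are perfect. -/
theorem isRes_JB (s : ∀ j, Nonempty (SepElt (b j)))
    (hL : ∀ j, (leftHom A P (b j)).IsRes) (hR : ∀ j, (rightHom A P (b j)).IsRes) (l : ℕ) :
    (JB hb D l).IsRes := by
  by_cases hl : r ≤ l
  · exact DGMod.IsRes.of_zero fun n x => Subtype.ext (Decomp.eq_zero_of_mem_J hl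
      (show D.J P l n from x).2)
  · suffices H : ∀ (t l : ℕ), l + t = r → (JB hb D l).IsRes from H (r - l) l (by omega)
    intro t
    induction t with
    | zero =>
      intro l hl
      exact DGMod.IsRes.of_zero fun n x => Subtype.ext (Decomp.eq_zero_of_mem_J hl.ge
        (show D.J P l n from x).2)
    | succ t ih =>
      intro l hl
      obtain ⟨s'⟩ := s ⟨l, by omega⟩
      exact isRes_JB_step hb D ⟨l, by omega⟩ s' (isRes_JL hb D s hL _ _) (hL _) (hR _)
        (ih (l + 1) (by omega))

include hb in
/-- **Smoothness.** The endomorphism DG algebra of an object `P` with a decomposition into directed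
blocks with separable algebras of endomorphisms is smooth if the DG modules `Hom (b j, P)` and
`Hom (P, b j)` are perfect. -/
theorem smooth_of_blocks (D : Decomp b P) (s : ∀ j, Nonempty (SepElt (b j)))
    (hL : ∀ j, (leftHom A P (b j)).IsRes) (hR : ∀ j, (rightHom A P (b j)).IsRes) :
    (A.endAlg P).IsSmooth := by
  have hid : IsClosed (A := modDG ((A.endAlg P).op.tensor (A.endAlg P)))
      ((modDG ((A.endAlg P).op.tensor (A.endAlg P))).id (A.endAlg P).diag.toMod) :=
    IsClosed.id (A := modDG ((A.endAlg P).op.tensor (A.endAlg P))) _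
  have hm : ∀ (n : ℤ) (x : (A.endAlg P).diag.toMod.cx.X n),
      DGMod.ap ((modDG ((A.endAlg P).op.tensor (A.endAlg P))).id (A.endAlg P).diag.toMod)
        (add_zero n) x ∈ D.J P 0 n := fun n x => Decomp.mem_J_zero _
  have key : (A.endAlg P).diag.toMod.IsRes := by
    refine DGMod.IsRes.retract (isRes_JB hb D s hL hR 0) (toJB_closed hb D hid hm)
      (JBι_closed hb D 0) fun n x => ?_
    have e := ap_toJB hb D
      ((modDG ((A.endAlg P).op.tensor (A.endAlg P))).id (A.endAlg P).diag.toMod) hm x
    rw [e]
    exact (ap_JBι hb D 0 _).trans (DGMod.ap_id x)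
  obtain ⟨T, hT, f, hf⟩ := key
  exact ⟨T, f, hT, (DGMod.isQis_iff_gqis f).2 hf⟩

end

end Orl
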