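import Pool.Agent.Work.MP_a6e60d_ag.DG.Smooth
import Pool.Agent.Work.MP_a6e60d_ag.DG.AppRes
import Pool.Agent.Work.MP_a6e60d_ag.Sm.Inst

/-!
MP_a6e60d_ag: the endomorphism DG algebra of a bounded complex of directed objects with separable
algebras of endomorphisms is smooth.
-/

open CategoryTheory CochainComplex HomComplex Limits

namespace Orl

variable {k : Type} [Field k] {C : Type 1} [Category.{0} C] [Abelian C] [Linear k C]
  {r : ℕ} {E : Fin r → C} {P : CochainComplex C ℤ}

/-- **Smoothness for complexes.** Let `E j` be objects with morphisms only from smaller to larger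
indices, finite-dimensional spaces of morphisms and separable algebras of endomorphisms, and `P` a
bounded complex of finite direct sums of the `E j`. If the `E j` have left and right
approximations by objects of the thick closure of `P`, then the DG algebra of endomorphisms of `P`
is smooth. -/
theorem smooth_cx (hdir : ∀ i j : Fin r, j < i → ∀ f : E i ⟶ E j, f = 0)
    (hfin : ∀ i j : Fin r, Module.Finite k (E i ⟶ E j)) (hsep : ∀ j, IsSepAlg k (End (E j)))
    (D : Nonempty (Decomp (A := cxDG k C)
      (fun j => (CochainComplex.singleFunctor C 0).obj (E j)) P))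
    (hL : ∀ j, ∃ (Z Y : CochainComplex C ℤ) (z : (cxDG k C).Hom Z Y 0),
      DGCat.IsRetract (A := cxDG k C) 0 ((CochainComplex.singleFunctor C 0).obj (E j)) Z ∧
      DGCat.Thick (A := cxDG k C) P Y ∧ IsClosed z ∧ QIso (prec z P))
    (hR : ∀ j, ∃ (Z Y : CochainComplex C ℤ) (z : (cxDG k C).Hom Y Z 0),
      DGCat.IsRetract (A := cxDG k C) 0 ((CochainComplex.singleFunctor C 0).obj (E j)) Z ∧
      DGCat.Thick (A := cxDG k C) P Y ∧ IsClosed z ∧ QIso (postc z P)) :
    ((cxDG k C).endAlg P).IsSmooth := by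
  obtain ⟨D⟩ := D
  refine smooth_of_blocks (isBlocks_sgl hdir hfin) D (fun j => exists_sepElt (E j) (hsep j))
    (fun j => ?_) fun j => ?_
  · obtain ⟨Z, Y, z, h₁, h₂, h₃, h₄⟩ := hL j
    exact leftHom_isRes_of (exists_shift_one fun t L => ⟨_, ⟨cxDGShift t L⟩⟩) h₁ h₂ h₃ h₄
  · obtain ⟨Z, Y, z, h₁, h₂, h₃, h₄⟩ := hR j
    exact rightHom_isRes_of h₁ h₂ h₃ h₄

end Orl
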