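import Pool.Agent.Work.MP_a6e60d_ag.DG.Equiv

/-!
MP_a6e60d_ag: homotopy idempotents split in a DG category with cones, shifts and countable
coproducts of copies of an object (the mapping telescope).
-/

open CategoryTheory

namespace Orl

universe w

variable {k : Type w} [CommRing k] {A : DGCat.{0, 1} k}

/-- `S` is the coproduct of countably many copies of `K` -/
structure Pow (K S : A.Obj) where
  /-- the inclusions -/
  ι : ℕ → A.Hom K S 0
  closed : ∀ n, IsClosed (ι n)
  desc : ∀ {c : A.Obj} {m : ℤ} (f : ℕ → A.Hom K c m), ∃ g : A.Hom S c m, ∀ n,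
    A.comp (zero_add m) (ι n) g = f n
  ext : ∀ {c : A.Obj} {m : ℤ} (g g' : A.Hom S c m), (∀ n,
    A.comp (zero_add m) (ι n) g = A.comp (zero_add m) (ι n) g') → g = g'

section

variable {K S L c : A.Obj} (P : Pow K S) {e : A.Hom K K 0} (he : IsClosed e)
  (hee : IsBdry (A.comp (add_zero 0) e e - e)) {σ : A.Hom S S 0}
  (hσ : ∀ n, A.comp (zero_add 0) (P.ι n) σ = P.ι n - A.comp (zero_add 0) e (P.ι (n + 1)))
  (T : DGCat.Cone σ L)

include he hee in
/-- the solution of `c n - e c (n + 1) = r n` up to boundaries -/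
lemma exists_telescope {m : ℤ} (r : ℕ → A.Hom K c m) (hr : ∀ n, IsClosed (r n)) :
    ∃ x : ℕ → A.Hom K c m, (∀ n, IsClosed (x n)) ∧
      ∀ n, IsBdry (r n - (x n - A.comp (zero_add m) e (x (n + 1)))) := by
  have hs : ∀ n, IsClosed (∑ j ∈ Finset.range n, A.comp (zero_add m) e (r j)) := by
    intro n
    induction n with
    | zero => exact map_zero _
    | succ n ih =>
      rw [Finset.sum_range_succ]
      exact ih.add (he.comp (hr n) _)
  refine ⟨fun n => r n - A.comp (zero_add m) e (r n) -
    ∑ j ∈ Finset.range n, A.comp (zero_add m) e (r j), fun n => ?_, fun n => ?_⟩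
  · exact ((hr n).sub (he.comp (hr n) _)).sub (hs n)
  · have h₁ : ∀ y : A.Hom K c m, IsClosed y → IsBdry (A.comp (zero_add m) e
        (A.comp (zero_add m) e y) - A.comp (zero_add m) e y) := by
      intro y hy
      have := IsBdry.comp_right hee hy (zero_add m)
      rw [map_sub, LinearMap.sub_apply,
        A.assoc (add_zero 0) (zero_add m) (zero_add m) (zero_add m)] at this
      exact this
    have h₂ : IsBdry (A.comp (zero_add m) e (∑ j ∈ Finset.range n, A.comp (zero_add m) e (r j)) -
        ∑ j ∈ Finset.range n, A.comp (zero_add m) e (r j)) := by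
      clear hs
      induction n with
      | zero => simpa using isBdry_zero
      | succ n ih =>
        rw [Finset.sum_range_succ, map_add, add_sub_add_comm]
        exact ih.add (h₁ _ (hr n))
    have h₃ := h₁ _ (hr n)
    have h₄ := h₁ _ (hr (n + 1))
    simp only [Finset.sum_range_succ, map_sub, map_add]
    convert ((h₄.add h₂).add h₃).neg using 1
    abel

include he hee hσ in
/-- precomposition with the inclusion of `K` in the telescope is injective on cohomology -/
theorem telescope_inj {m : ℤ} {x : A.Hom L c m} (hx : IsClosed x)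
    (h0 : IsBdry (A.comp (zero_add m) (P.ι 0) (A.comp (zero_add m) T.inr x))) : IsBdry x := by
  obtain ⟨X, hX⟩ : ∃ X : ℕ → A.Hom K c m, ∀ n, X n = A.comp (zero_add m) (P.ι n)
    (A.comp (zero_add m) T.inr x) := ⟨_, fun _ => rfl⟩
  obtain ⟨Y, hY⟩ : ∃ Y : ℕ → A.Hom K c (m - 1), ∀ n, Y n = A.comp (zero_add (m - 1)) (P.ι n)
    (A.comp (show -1 + m = m - 1 by omega) T.inl x) := ⟨_, fun _ => rfl⟩
  have hXc : ∀ n, IsClosed (X n) := fun n => by
    rw [hX]
    exact (P.closed n).comp (IsClosed.comp T.d_inr hx _) _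
  have hσX : ∀ {l : ℤ} (y : A.Hom S c l) (n : ℕ), A.comp (zero_add l) (P.ι n)
      (A.comp (zero_add l) σ y) = A.comp (zero_add l) (P.ι n) y -
        A.comp (zero_add l) e (A.comp (zero_add l) (P.ι (n + 1)) y) := by
    intro l y n
    rw [← A.assoc (zero_add 0) (zero_add l) (zero_add l) (zero_add l), hσ, map_sub,
      LinearMap.sub_apply, A.assoc (add_zero 0) (zero_add l) (zero_add l) (zero_add l)]
  have hdY : ∀ n, A.d (m - 1) m (Y n) =
      m.negOnePow • (X n - A.comp (zero_add m) e (X (n + 1))) := by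
    intro n
    have e₁ : A.d (m - 1) m (A.comp (show -1 + m = m - 1 by omega) T.inl x) =
        m.negOnePow • A.comp (zero_add m) σ (A.comp (zero_add m) T.inr x) := by
      rw [A.d_comp (n' := 0) (m' := m + 1) _ (by omega) rfl (by omega), hx.d, map_zero,
        T.d_inl, A.assoc (add_zero 0) (zero_add m) (zero_add m) (zero_add m)]
      exact zero_add _
    rw [hY, d_closed_comp (m' := m) (p' := m) (zero_add (m - 1)) (by omega) (by omega) _ _
      (P.closed n), e₁, Units.smul_def, map_zsmul, hσX, hX, hX, Units.smul_def]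
  have hsq : ∀ {a b : A.Obj} {l : ℤ} (y : A.Hom a b l),
      m.negOnePow • m.negOnePow • y = y := fun y => by
    rw [Units.smul_def, Units.smul_def, smul_smul, ← Units.val_mul, Int.units_mul_self,
      Units.val_one, one_smul]
  obtain ⟨Y', hY'⟩ : ∃ Y' : ℕ → A.Hom K c (m - 1), ∀ n, Y' n = m.negOnePow • Y n :=
    ⟨_, fun _ => rfl⟩
  have hdY' : ∀ n, A.d (m - 1) m (Y' n) = X n - A.comp (zero_add m) e (X (n + 1)) := by
    intro n
    rw [hY', Units.smul_def, map_zsmul, hdY, ← Units.smul_def, hsq]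
  have h₁ : ∀ y : A.Hom K c m, IsClosed y → IsBdry (A.comp (zero_add m) e
      (A.comp (zero_add m) e y) - A.comp (zero_add m) e y) := by
    intro y hy
    have := IsBdry.comp_right hee hy (zero_add m)
    rw [map_sub, LinearMap.sub_apply,
      A.assoc (add_zero 0) (zero_add m) (zero_add m) (zero_add m)] at this
    exact this
  have hXe : ∀ n, IsBdry (X n - A.comp (zero_add m) e (X (n + 1))) := fun n => .of _ (hdY' n)
  have hXb : ∀ n, IsBdry (X n) := by
    intro n
    induction n with
    | zero => rw [hX]; exact h0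
    | succ n ih =>
      have a₁ : IsBdry (A.comp (zero_add m) e (X (n + 1))) := (hXe n).symm.of_sub ih
      have a₂ := IsBdry.comp_left he (hXe (n + 1)) (zero_add m)
      rw [map_sub] at a₂
      have a₃ := h₁ _ (hXc (n + 2))
      have a₄ := (hXe (n + 1)).trans (a₃.symm.trans a₂.symm)
      exact a₄.of_sub a₁
  have hz : ∀ n, ∃ z : A.Hom K c (m - 1), A.d (m - 1) m z = X n := hXb
  choose z hz using hz
  obtain ⟨v', hv', hr⟩ := exists_telescope he hee (c := c) (m := m - 1)
    (fun n => Y' n - z n + A.comp (zero_add (m - 1)) e (z (n + 1))) (fun n => by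
      refine isClosed_of (m := m) (by omega) ?_
      rw [map_add, map_sub, hdY', hz, d_closed_comp (m' := m) (zero_add (m - 1)) (by omega)
        (by omega) _ _ he, hz]
      abel)
  choose u hu using hr
  obtain ⟨W, hW⟩ := P.desc (fun n => z n + v' n)
  obtain ⟨V, hV⟩ := P.desc (fun n => m.negOnePow • u n)
  have hdW : A.d (m - 1) m W = A.comp (zero_add m) T.inr x := by
    refine P.ext _ _ fun n => ?_
    rw [← hX, ← d_closed_comp (m := m - 1) (p := m - 1) (m' := m) (p' := m)
      (zero_add (m - 1)) (by omega) (by omega) _ _ (P.closed n), hW, map_add, hz, (hv' n).d,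
      add_zero]
  have hdV : A.d (m - 1 - 1) (m - 1) V + m.negOnePow • A.comp (zero_add (m - 1)) σ W =
      A.comp (show -1 + m = m - 1 by omega) T.inl x := by
    refine P.ext _ _ fun n => ?_
    rw [← hY, map_add, ← d_closed_comp (m := m - 1 - 1) (p := m - 1 - 1) (m' := m - 1)
      (p' := m - 1) (zero_add (m - 1 - 1)) (by omega) (by omega) _ _ (P.closed n), hV,
      Units.smul_def, Units.smul_def, map_zsmul, map_zsmul, hu, hσX, hW, hW, map_add,
      ← smul_add]
    have : Y n = m.negOnePow • Y' n := by rw [hY', hsq]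
    rw [this, Units.smul_def]
    congr 1
    abel
  refine ⟨A.comp (zero_add (m - 1)) T.snd W +
    A.comp (show 1 + (m - 1 - 1) = m - 1 by omega) T.fst V, ?_⟩
  have e₁ : A.d (m - 1) m (A.comp (zero_add (m - 1)) T.snd W) =
      A.comp (zero_add m) T.snd (A.d (m - 1) m W) +
        m.negOnePow • A.comp (show 1 + (m - 1) = m by omega) T.fst
          (A.comp (zero_add (m - 1)) σ W) := by
    rw [A.d_comp (n' := 1) (m' := m) (zero_add (m - 1)) (zero_add 1) (by omega) (by omega),
      T.d_snd, map_neg, LinearMap.neg_apply, A.assoc (add_zero 1) (zero_add (m - 1)) _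
        (show 1 + (m - 1) = m by omega), Int.negOnePow_sub, Int.negOnePow_one, mul_neg_one]
    simp
  rw [map_add, e₁, d_closed_comp (m' := m - 1) (p' := m) _ (by omega) (by omega) _ _ T.d_fst, hdW,
    add_assoc, Units.smul_def, ← map_zsmul, ← map_add, ← Units.smul_def, add_comm (_ • _), hdV]
  exact (Cone.decomp T (show -1 + m = m - 1 by omega) x).symm

lemma Pow.isClosed {m : ℤ} {g : A.Hom S c m} (h : ∀ n, IsClosed (A.comp (zero_add m) (P.ι n) g)) :
    IsClosed g := by
  refine P.ext _ _ fun n => ?_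
  rw [map_zero, ← d_closed_comp (zero_add m) rfl rfl _ _ (P.closed n)]
  exact h n

include P he hee in
/-- homotopy idempotents split -/
theorem exists_split (hc : ∀ {a b : A.Obj} (f : A.Hom a b 0), IsClosed f →
    ∃ c, Nonempty (DGCat.Cone f c)) : ∃ (L : A.Obj) (α : A.Hom L K 0) (β : A.Hom K L 0),
      IsClosed α ∧ IsClosed β ∧ IsBdry (A.comp (add_zero 0) α β - A.id L) ∧
        A.comp (add_zero 0) β α = e := by
  obtain ⟨σ, hσ⟩ := P.desc (fun n => P.ι n - A.comp (add_zero 0) e (P.ι (n + 1)))
  have hσc : IsClosed σ := P.isClosed fun n => by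
    rw [hσ]
    exact (P.closed n).sub (he.comp (P.closed _) _)
  obtain ⟨L, ⟨T⟩⟩ := hc σ hσc
  obtain ⟨s, hs⟩ := hee.exists (-1) (neg_add_cancel 1)
  obtain ⟨τ, hτ⟩ := P.desc (fun _ => e)
  obtain ⟨θ, hθ⟩ := P.desc (fun _ => -s)
  have hτc : IsClosed τ := P.isClosed fun n => by
    rw [hτ]
    exact he
  have hσe : ∀ {c : A.Obj} {l : ℤ} (y : A.Hom S c l) (n : ℕ), A.comp (zero_add l) (P.ι n)
      (A.comp (zero_add l) σ y) = A.comp (zero_add l) (P.ι n) y -
        A.comp (zero_add l) e (A.comp (zero_add l) (P.ι (n + 1)) y) := by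
    intro c l y n
    rw [← A.assoc (zero_add 0) (zero_add l) (zero_add l) (zero_add l), hσ, map_sub,
      LinearMap.sub_apply, A.assoc (add_zero 0) (zero_add l) (zero_add l) (zero_add l)]
  have hθd : A.d (-1) 0 θ = A.comp (add_zero 0) σ τ := by
    refine P.ext _ _ fun n => ?_
    rw [hσe, hτ, hτ, ← d_closed_comp (zero_add (-1)) (neg_add_cancel 1) (neg_add_cancel 1) _ _
      (P.closed n), hθ, map_neg, hs]
    abel
  have hβ : IsClosed (A.comp (add_zero 0) (P.ι 0) T.inr) := (P.closed 0).comp T.d_inr _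
  have hα : IsClosed (A.comp (add_zero 0) T.snd τ + A.comp (add_neg_cancel 1) T.fst θ) := by
    refine isClosed_of (zero_add 1) ?_
    rw [map_add, d_comp_closed (add_zero 0) (zero_add 1) (zero_add 1) _ _ (hτc.d 1), T.d_snd,
      d_closed_comp (add_neg_cancel 1) (neg_add_cancel 1) (zero_add 1) _ _ T.d_fst, hθd,
      map_neg, LinearMap.neg_apply, A.assoc (add_zero 1) (add_zero 0) (add_zero 1) (add_zero 1)]
    simp
  have hβα : A.comp (add_zero 0) (A.comp (add_zero 0) (P.ι 0) T.inr)
      (A.comp (add_zero 0) T.snd τ + A.comp (add_neg_cancel 1) T.fst θ) = e := by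
    rw [A.assoc (add_zero 0) (add_zero 0) (add_zero 0) (add_zero 0), map_add,
      ← A.assoc (add_zero 0) (add_zero 0) (add_zero 0) (add_zero 0) T.inr, T.inr_snd,
      ← A.assoc (zero_add 1) (add_neg_cancel 1) (add_neg_cancel 1) (add_zero 0) T.inr, T.inr_fst,
      A.id_comp, map_zero, LinearMap.zero_apply, add_zero, hτ]
  refine ⟨L, _, _, hα, hβ, ?_, hβα⟩
  refine telescope_inj P he hee hσ T ((hα.comp hβ _).sub (.id L)) ?_
  -- `β (α β - 1) = e β - β`
  have h₁ : A.comp (add_zero 0) (P.ι 0) (A.comp (add_zero 0) T.inr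
      (A.comp (add_zero 0) (A.comp (add_zero 0) T.snd τ + A.comp (add_neg_cancel 1) T.fst θ)
        (A.comp (add_zero 0) (P.ι 0) T.inr) - A.id L)) =
      A.comp (add_zero 0) e (A.comp (add_zero 0) (P.ι 0) T.inr) -
        A.comp (add_zero 0) (P.ι 0) T.inr := by
    rw [← A.assoc (add_zero 0) (add_zero 0) (add_zero 0) (add_zero 0) (P.ι 0), map_sub, A.comp_id,
      ← A.assoc (add_zero 0) (add_zero 0) (add_zero 0) (add_zero 0) _ _
        (A.comp (add_zero 0) (P.ι 0) T.inr), hβα]
  rw [h₁]
  have h₂ : IsBdry (A.comp (add_zero 0) (P.ι 0) T.inr -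
      A.comp (add_zero 0) e (A.comp (add_zero 0) (P.ι 1) T.inr)) := by
    rw [← hσe]
    refine .of (A.comp (zero_add (-1)) (P.ι 0) T.inl) ?_
    rw [d_closed_comp (zero_add (-1)) (neg_add_cancel 1) (neg_add_cancel 1) _ _ (P.closed 0),
      T.d_inl]
  have h₃ := IsBdry.comp_left he h₂ (add_zero 0)
  have h₄ := IsBdry.comp_right hee ((P.closed 1).comp (show IsClosed T.inr from T.d_inr)
    (add_zero 0)) (add_zero 0)
  rw [map_sub] at h₃
  rw [map_sub, LinearMap.sub_apply, A.assoc (add_zero 0) (add_zero 0) (add_zero 0)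
    (add_zero 0)] at h₄
  exact (h₃.trans h₄).trans h₂.symm

end

/-- `M` is the shift of `L` by `t` -/
structure Shift (t : ℤ) (L M : A.Obj) where
  /-- the isomorphism of degree `t` -/
  p : A.Hom M L t
  /-- the isomorphism of degree `- t` -/
  r : A.Hom L M (-t)
  p_closed : IsClosed p
  r_closed : IsClosed r
  p_r : A.comp (add_neg_cancel t) p r = A.id M
  r_p : A.comp (neg_add_cancel t) r p = A.id L

/-- A DG category with mapping cones, shifts and countable coproducts of copies of an object is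
closed under the splitting of homotopy idempotents. -/
theorem isPerfectLike_of (hc : ∀ {a b : A.Obj} (f : A.Hom a b 0), IsClosed f →
    ∃ c, Nonempty (DGCat.Cone f c)) (hp : ∀ K : A.Obj, ∃ S, Nonempty (Pow K S))
    (hs : ∀ (t : ℤ) (L : A.Obj), ∃ M, Nonempty (Shift t L M)) : IsPerfectLike A where
  cone := hc
  split {a} e t he hee := by
    obtain ⟨S, ⟨P⟩⟩ := hp a
    obtain ⟨L, α, β, hα, hβ, h₁, h₂⟩ := exists_split P he hee hc
    obtain ⟨M, ⟨sh⟩⟩ := hs t L
    refine ⟨M, A.comp (add_zero t) sh.p α, A.comp (zero_add (-t)) β sh.r,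
      sh.p_closed.comp hα _, hβ.comp sh.r_closed _, ?_, ?_⟩
    · have := IsBdry.comp_left sh.p_closed (IsBdry.comp_right h₁ sh.r_closed (zero_add (-t)))
        (add_neg_cancel t)
      rw [map_sub, LinearMap.sub_apply, map_sub, A.id_comp, sh.p_r] at this
      convert this using 2
      rw [A.assoc (add_zero t) (zero_add (-t)) (add_neg_cancel t) (add_neg_cancel t),
        A.assoc (add_zero 0) (zero_add (-t)) (zero_add (-t)) (zero_add (-t))]
    · convert isBdry_zero using 1
      rw [sub_eq_zero, A.assoc (zero_add (-t)) (neg_add_cancel t) (neg_add_cancel t) (add_zero 0),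
        ← A.assoc (neg_add_cancel t) (add_zero t) (add_zero 0) (neg_add_cancel t) sh.r, sh.r_p,
        A.id_comp, h₂]

end Orl
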