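import Pool.Agent.Work.MP_a6e60d_ag.DG.Step
import Pool.Agent.Work.MP_a6e60d_ag.DG.JMod
import Pool.Agent.Work.MP_a6e60d_ag.DG.LeftThick
import Mathlib.LinearAlgebra.Dimension.Free
import Mathlib.LinearAlgebra.FreeModule.Finite.Basic

/-!
MP_a6e60d_ag: the filtration of the left modules `Hom (U, P)`, `U` a block: the submodules are
perfect.
-/

open CategoryTheory TensorProduct

namespace Orl

noncomputable section

section Sum

variable {k : Type} [CommRing k]

lemma IsClosed.sum {A : DGCat.{0, 1} k} {a b : A.Obj} {n : ℤ} {ι : Type} (s : Finset ι)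
    {f : ι → A.Hom a b n} (h : ∀ i ∈ s, IsClosed (f i)) : IsClosed (∑ i ∈ s, f i) := by
  unfold IsClosed at *
  rw [map_sum]
  exact Finset.sum_eq_zero h

namespace DGMod

variable {E : DGAlg.{0} k} {M N : DGMod E} {ι : Type}

lemma ap_sum {n : ℤ} (s : Finset ι) (f : ι → (modDG E).Hom M N n) {p q : ℤ} (h : p + n = q)
    (x : M.cx.X p) : ap (∑ i ∈ s, f i) h x = ∑ i ∈ s, ap (f i) h x := by
  classical
  induction s using Finset.induction_on with
  | empty => simp
  | insert a s ha ih => rw [Finset.sum_insert ha, Finset.sum_insert ha, ap_add, ih]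

/-- the projections from a power -/
def fproj (M : DGMod E) (i : ι) : (modDG E).Hom (M.fpow ι) M 0 :=
  mkHom₀ (fun _ => LinearMap.proj i) fun _ _ _ _ _ _ => rfl

lemma ap_fproj (i : ι) {n : ℤ} (x : ι → M.cx.X n) : ap (M.fproj i) (add_zero n) x = x i :=
  ap_mkHom₀ (M := M.fpow ι) (N := M) _ (fun _ _ _ _ _ _ => rfl) x

lemma fproj_closed (M : DGMod E) (i : ι) : IsClosed (A := modDG E) (M.fproj i) :=
  isClosed_mkHom₀ _ _ fun _ _ _ _ => rfl

lemma ftuple_act (g : ι → (modDG E).Hom N M 0) (p m q : ℤ) (h : p + m = q) (x : N.cx.X p)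
    (r : E.cx.X m) : LinearMap.pi (fun i => ap (g i) (add_zero q)) (N.act h x r) =
      (M.fpow ι).act h (LinearMap.pi (fun i => ap (g i) (add_zero p)) x) r :=
  funext fun i => ap_act (g i) (add_zero p) h h x r

/-- the morphism to a power with given components -/
def ftuple (g : ι → (modDG E).Hom N M 0) : (modDG E).Hom N (M.fpow ι) 0 :=
  mkHom₀ (fun p => LinearMap.pi fun i => ap (g i) (add_zero p)) (ftuple_act g)

lemma ap_ftuple (g : ι → (modDG E).Hom N M 0) {n : ℤ} (x : N.cx.X n) :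
    ap (ftuple g) (add_zero n) x = fun i => ap (g i) (add_zero n) x :=
  ap_mkHom₀ _ (ftuple_act g) x

lemma ftuple_closed {g : ι → (modDG E).Hom N M 0} (hg : ∀ i, IsClosed (A := modDG E) (g i)) :
    IsClosed (A := modDG E) (ftuple g) :=
  isClosed_mkHom₀ _ _ fun n m h x => funext fun i => isClosed_iff₀.1 (hg i) n m h x

variable [Fintype ι]

/-- the morphism from a power with given components -/
def frow (g : ι → (modDG E).Hom M N 0) : (modDG E).Hom (M.fpow ι) N 0 :=
  ∑ i, (modDG E).comp (add_zero 0) (M.fproj i) (g i)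

lemma ap_frow (g : ι → (modDG E).Hom M N 0) {n : ℤ} (x : ι → M.cx.X n) :
    ap (frow g) (add_zero n) (x : (M.fpow ι).cx.X n) = ∑ i, ap (g i) (add_zero n) (x i) := by
  rw [frow, ap_sum]
  refine Finset.sum_congr rfl fun i _ => ?_
  rw [ap_comp₀, ap_fproj]

lemma frow_closed {g : ι → (modDG E).Hom M N 0} (hg : ∀ i, IsClosed (A := modDG E) (g i)) :
    IsClosed (A := modDG E) (frow g) :=
  IsClosed.sum (A := modDG E) _ fun i _ => (fproj_closed M i).comp (hg i) _

end DGMod

end Sum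

section Dual

variable {k : Type} [Field k] {A : DGCat.{0, 1} k} {a c : A.Obj} (s : SepElt c)
  [Module.Finite k (A.Hom a c 0)]

/-- a basis of the space of morphisms -/
abbrev hbas (a c : A.Obj) [Module.Finite k (A.Hom a c 0)] :
    Module.Basis (Fin (Module.finrank k (A.Hom a c 0))) k (A.Hom a c 0) :=
  Module.finBasis k (A.Hom a c 0)

/-- the coordinates with values in the endomorphisms -/
def sepφ (t : Fin (Module.finrank k (A.Hom a c 0))) : A.Hom a c 0 →ₗ[k] A.Hom c c 0 :=
  ∑ q, LinearMap.smulRight (((hbas a c).coord t).comp ((A.comp (add_zero 0)).flip (s.y q))) (s.x q)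

lemma sepφ_apply (t : Fin (Module.finrank k (A.Hom a c 0))) (v : A.Hom a c 0) :
    sepφ s t v = ∑ q, (hbas a c).coord t (A.comp (add_zero 0) v (s.y q)) • s.x q := by
  rw [sepφ, LinearMap.sum_apply]
  rfl

lemma sum_sepφ (v : A.Hom a c 0) :
    ∑ t, A.comp (add_zero 0) ((hbas a c) t) (sepφ s t v) = v := by
  simp only [sepφ_apply, map_sum, map_smul]
  rw [Finset.sum_comm]
  have h : ∀ q, ∑ t, (hbas a c).coord t (A.comp (add_zero 0) v (s.y q)) •
      A.comp (add_zero 0) ((hbas a c) t) (s.x q) =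
      A.comp (add_zero 0) (A.comp (add_zero 0) v (s.y q)) (s.x q) := fun q => by
    have := (hbas a c).sum_repr (A.comp (add_zero 0) v (s.y q))
    conv_rhs => rw [← this]
    rw [map_sum, LinearMap.sum_apply]
    refine Finset.sum_congr rfl fun t _ => ?_
    rw [map_smul]
    rfl
  rw [Finset.sum_congr rfl fun q _ => h q]
  have h' : ∀ q, A.comp (add_zero 0) (A.comp (add_zero 0) v (s.y q)) (s.x q) =
      A.comp (add_zero 0) v (A.comp (add_zero 0) (s.y q) (s.x q)) := fun q =>
    A.assoc (add_zero 0) (add_zero 0) (add_zero 0) (add_zero 0) _ _ _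
  rw [Finset.sum_congr rfl fun q _ => h' q, ← map_sum, s.one, A.comp_id]

lemma sepφ_comp (t : Fin (Module.finrank k (A.Hom a c 0))) (v : A.Hom a c 0) (e : A.Hom c c 0) :
    sepφ s t (A.comp (add_zero 0) v e) = A.comp (add_zero 0) (sepφ s t v) e := by
  rw [sepφ_apply, sepφ_apply, map_sum, LinearMap.sum_apply]
  have h := s.sum_bal (Z := A.Hom c c 0) (LinearMap.mk₂ k
    (fun x y => (hbas a c).coord t (A.comp (add_zero 0) v y) • x)
    (fun x x' y => by rw [smul_add]) (fun c x y => by rw [smul_comm])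
    (fun x y y' => by rw [map_add, map_add, add_smul])
    (fun c x y => by rw [map_smul, map_smul, smul_assoc])) e
  simp only [LinearMap.mk₂_apply] at h
  refine Eq.trans ?_ (h.symm.trans ?_)
  · refine Finset.sum_congr rfl fun q _ => ?_
    rw [A.assoc (add_zero 0) (add_zero 0) (add_zero 0) (add_zero 0) v e]
  · refine Finset.sum_congr rfl fun q _ => ?_
    rw [map_smul, LinearMap.smul_apply]

end Dual

section StepL

variable {k : Type} [CommRing k] {A : DGCat.{0, 1} k} {r : ℕ} {b : Fin r → A.Obj} {P : A.Obj}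
  (hb : IsBlocks b) (D : Decomp b P)

lemma leftMap_closed {U U' : A.Obj} {u : A.Hom U U' 0} (hu : IsClosed u) :
    IsClosed (A := modDG (A.endAlg P).op) (leftMap (P := P) u) :=
  DGMod.isClosed_iff₀.2 fun n m h x => by
    rw [ap_leftMap, ap_leftMap]
    exact d_closed_comp (zero_add n) h h _ _ hu

include hb in
lemma IsBlocks.closed {i j : Fin r} (f : A.Hom (b i) (b j) 0) : IsClosed f :=
  hb.conc i j _ _ (by omega)

lemma JLmap_mem {U U' : A.Obj} (u : A.Hom U U' 0) (l : ℕ) (n : ℤ)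
    (x : (JL hb D U' l).cx.X n) : DGMod.ap ((modDG (A.endAlg P).op).comp (add_zero 0)
      (JLι hb D U' l) (leftMap u)) (add_zero n) x ∈ D.J U l n := by
  change D.J U' l n at x
  have e := DGMod.ap_comp₀ (JLι hb D U' l) (leftMap (P := P) u) (x : (JL hb D U' l).cx.X n)
  rw [e, ap_JLι hb D U' l x]
  exact Decomp.comp_mem_J (zero_add n) u x.2

/-- precomposition on the submodules -/
def JLmap {U U' : A.Obj} (u : A.Hom U U' 0) (l : ℕ) :
    (modDG (A.endAlg P).op).Hom (JL hb D U' l) (JL hb D U l) 0 :=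
  toJL hb D ((modDG (A.endAlg P).op).comp (add_zero 0) (JLι hb D U' l) (leftMap u))
    (JLmap_mem hb D u l)

lemma ap_JLmap {U U' : A.Obj} (u : A.Hom U U' 0) (l : ℕ) {n : ℤ} (x : D.J U' l n) :
    (DGMod.ap (JLmap hb D u l) (add_zero n) (x : (JL hb D U' l).cx.X n) : D.J U l n).1 =
      A.comp (zero_add n) u x.1 := by
  refine (congrArg Subtype.val (ap_toJL hb D _ (JLmap_mem hb D u l)
    (x : (JL hb D U' l).cx.X n))).trans ?_
  have e := DGMod.ap_comp₀ (JLι hb D U' l) (leftMap (P := P) u) (x : (JL hb D U' l).cx.X n)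
  refine e.trans ?_
  rw [ap_JLι hb D U' l x]
  rfl

lemma JLmap_closed {U U' : A.Obj} {u : A.Hom U U' 0} (hu : IsClosed u) (l : ℕ) :
    IsClosed (A := modDG (A.endAlg P).op) (JLmap hb D u l) :=
  toJL_closed hb D ((JLι_closed hb D U' l).comp (leftMap_closed hu) _) _

lemma JLinc_mem (U : A.Obj) (l : ℕ) (n : ℤ) (x : (JL hb D U (l + 1)).cx.X n) :
    DGMod.ap (JLι hb D U (l + 1)) (add_zero n) x ∈ D.J U l n := by
  change D.J U (l + 1) n at x
  rw [ap_JLι hb D U (l + 1) x]
  exact Decomp.J_anti (Nat.le_succ l) x.2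

/-- the inclusion of one step of the filtration into the previous one -/
def JLinc (U : A.Obj) (l : ℕ) :
    (modDG (A.endAlg P).op).Hom (JL hb D U (l + 1)) (JL hb D U l) 0 :=
  toJL hb D (JLι hb D U (l + 1)) (JLinc_mem hb D U l)

lemma ap_JLinc (U : A.Obj) (l : ℕ) {n : ℤ} (x : D.J U (l + 1) n) :
    (DGMod.ap (JLinc hb D U l) (add_zero n) (x : (JL hb D U (l + 1)).cx.X n) : D.J U l n).1 =
      x.1 := by
  refine (congrArg Subtype.val (ap_toJL hb D (JLι hb D U (l + 1)) (JLinc_mem hb D U l)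
    (x : (JL hb D U (l + 1)).cx.X n))).trans ?_
  exact ap_JLι hb D U (l + 1) x

lemma JLinc_closed (U : A.Obj) (l : ℕ) :
    IsClosed (A := modDG (A.endAlg P).op) (JLinc hb D U l) :=
  toJL_closed hb D (JLι_closed hb D U (l + 1)) (JLinc_mem hb D U l)

lemma sum_coe_J {U : A.Obj} {l : ℕ} {n : ℤ} {ι : Type} (s : Finset ι) (f : ι → D.J U l n) :
    (∑ t ∈ s, f t).1 = ∑ t ∈ s, (f t).1 := map_sum (D.J U l n).subtype f s

end StepL

end

end Orl
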