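import Pool.Agent.Work.MP_a6e60d_ag.DG.StepL

/-!
MP_a6e60d_ag: one step of the filtration of the left modules.
-/

open CategoryTheory

namespace Orl

noncomputable section

variable {k : Type} [CommRing k] {A : DGCat.{0, 1} k} {r : ℕ} {b : Fin r → A.Obj} {P : A.Obj}
  (hb : IsBlocks b) (D : Decomp b P)

section Maps

variable (l j : Fin r) (m : ℕ)

lemma exists_stepJ : ∃ J : (modDG (A.endAlg P).op).Hom ((JL hb D (b l) (l + 1)).fpow (Fin m))
    ((leftHom A P (b l)).fpow (Fin m)) 0, IsClosed (A := modDG (A.endAlg P).op) J ∧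
      ∀ (n : ℤ) (x : Fin m → D.J (b l) (l + 1) n),
        DGMod.ap J (add_zero n) (x : ((JL hb D (b l) (l + 1)).fpow (Fin m)).cx.X n) =
          fun t => (x t).1 := by
  refine ⟨DGMod.ftuple (ι := Fin m) fun t => (modDG (A.endAlg P).op).comp (add_zero 0)
    ((JL hb D (b l) (l + 1)).fproj t) (JLι hb D (b l) (l + 1)), ?_, fun n x => ?_⟩
  · exact DGMod.ftuple_closed fun t =>
      (DGMod.fproj_closed _ t).comp (JLι_closed hb D (b l) (l + 1)) _
  · refine (DGMod.ap_ftuple (ι := Fin m) (fun t => (modDG (A.endAlg P).op).comp (add_zero 0)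
      ((JL hb D (b l) (l + 1)).fproj t) (JLι hb D (b l) (l + 1)))
      (x : ((JL hb D (b l) (l + 1)).fpow (Fin m)).cx.X n)).trans (funext fun t => ?_)
    have e := DGMod.ap_comp₀ ((JL hb D (b l) (l + 1)).fproj t) (JLι hb D (b l) (l + 1))
      (x : ((JL hb D (b l) (l + 1)).fpow (Fin m)).cx.X n)
    have e' := DGMod.ap_fproj (M := JL hb D (b l) (l + 1)) t
      (x : Fin m → (JL hb D (b l) (l + 1)).cx.X n)
    refine (e.trans (congrArg _ e')).trans ?_
    exact ap_JLι hb D (b l) (l + 1) (x t)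

include hb in
lemma exists_stepε (f : Fin m → Fin m → A.Hom (b l) (b l) 0) :
    ∃ ε : (modDG (A.endAlg P).op).Hom ((leftHom A P (b l)).fpow (Fin m))
    ((leftHom A P (b l)).fpow (Fin m)) 0, IsClosed (A := modDG (A.endAlg P).op) ε ∧
      ∀ (n : ℤ) (x : Fin m → A.Hom (b l) P n),
        DGMod.ap ε (add_zero n) (x : ((leftHom A P (b l)).fpow (Fin m)).cx.X n) =
          fun t => ∑ u, A.comp (zero_add n) (f t u) (x u) := by
  refine ⟨DGMod.ftuple (ι := Fin m) fun t => DGMod.frow (ι := Fin m) fun u =>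
    leftMap (P := P) (f t u), ?_, fun n x => ?_⟩
  · exact DGMod.ftuple_closed fun t => DGMod.frow_closed fun u => leftMap_closed (hb.closed _)
  · refine (DGMod.ap_ftuple (ι := Fin m) (fun t => DGMod.frow (ι := Fin m) fun u =>
      leftMap (P := P) (f t u)) (x : ((leftHom A P (b l)).fpow (Fin m)).cx.X n)).trans
      (funext fun t => ?_)
    exact DGMod.ap_frow (M := leftHom A P (b l)) (N := leftHom A P (b l)) _ x

lemma exists_stepε₁ (f : Fin m → Fin m → A.Hom (b l) (b l) 0) :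
    ∃ ε : (modDG (A.endAlg P).op).Hom ((JL hb D (b l) (l + 1)).fpow (Fin m))
    ((JL hb D (b l) (l + 1)).fpow (Fin m)) 0, IsClosed (A := modDG (A.endAlg P).op) ε ∧
      ∀ (n : ℤ) (x : Fin m → D.J (b l) (l + 1) n) (t : Fin m),
        ((DGMod.ap ε (add_zero n) (x : ((JL hb D (b l) (l + 1)).fpow (Fin m)).cx.X n) :
          Fin m → D.J (b l) (l + 1) n) t).1 =
          ∑ u, A.comp (zero_add n) (f t u) (x u).1 := by
  refine ⟨DGMod.ftuple (ι := Fin m) fun t => DGMod.frow (ι := Fin m) fun u =>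
    JLmap hb D (f t u) (l + 1), ?_, fun n x t => ?_⟩
  · exact DGMod.ftuple_closed fun t => DGMod.frow_closed fun u =>
      JLmap_closed hb D (hb.closed _) _
  · have e₁ := congrFun (DGMod.ap_ftuple (ι := Fin m) (fun t => DGMod.frow (ι := Fin m) fun u =>
      JLmap hb D (f t u) (l + 1)) (x : ((JL hb D (b l) (l + 1)).fpow (Fin m)).cx.X n)) t
    have e₂ := DGMod.ap_frow (M := JL hb D (b l) (l + 1)) (N := JL hb D (b l) (l + 1))
      (fun u => JLmap hb D (f t u) (l + 1)) x
    refine (congrArg Subtype.val (e₁.trans e₂)).trans ?_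
    refine (sum_coe_J D _ _).trans (Finset.sum_congr rfl fun u _ => ?_)
    exact ap_JLmap hb D (f t u) (l + 1) (x u)

lemma exists_stepμ (v : Fin m → A.Hom (b j) (b l) 0) :
    ∃ μ : (modDG (A.endAlg P).op).Hom ((leftHom A P (b l)).fpow (Fin m))
    (JL hb D (b j) l) 0, IsClosed (A := modDG (A.endAlg P).op) μ ∧
      ∀ (n : ℤ) (x : Fin m → A.Hom (b l) P n),
        (DGMod.ap μ (add_zero n) (x : ((leftHom A P (b l)).fpow (Fin m)).cx.X n) :
          D.J (b j) l n).1 = ∑ t, A.comp (zero_add n) (v t) (x t) := by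
  have ap' : ∀ (n : ℤ) (x : Fin m → A.Hom (b l) P n),
      DGMod.ap (DGMod.frow (ι := Fin m) fun t => leftMap (P := P) (v t)) (add_zero n)
        (x : ((leftHom A P (b l)).fpow (Fin m)).cx.X n) =
        ∑ t, A.comp (zero_add n) (v t) (x t) := fun n x =>
    DGMod.ap_frow (M := leftHom A P (b l)) (N := leftHom A P (b j)) _ x
  have mem' : ∀ (n : ℤ) (x : ((leftHom A P (b l)).fpow (Fin m)).cx.X n),
      DGMod.ap (DGMod.frow (ι := Fin m) fun t => leftMap (P := P) (v t)) (add_zero n) x ∈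
        D.J (b j) l n := fun n x => by
    rw [ap' n x]
    exact Submodule.sum_mem _ fun t _ => Decomp.comp_mem_J (zero_add n) (v t)
      (Decomp.mem_J_block hb l _)
  refine ⟨toJL hb D (DGMod.frow (ι := Fin m) fun t => leftMap (P := P) (v t)) mem', ?_,
    fun n x => ?_⟩
  · exact toJL_closed hb D (DGMod.frow_closed fun t => leftMap_closed (hb.closed _)) mem'
  · exact (congrArg Subtype.val (ap_toJL hb D _ mem' _)).trans (ap' n x)

lemma exists_stepμ₁ (v : Fin m → A.Hom (b j) (b l) 0) :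
    ∃ μ : (modDG (A.endAlg P).op).Hom ((JL hb D (b l) (l + 1)).fpow (Fin m))
    (JL hb D (b j) (l + 1)) 0, IsClosed (A := modDG (A.endAlg P).op) μ ∧
      ∀ (n : ℤ) (x : Fin m → D.J (b l) (l + 1) n),
        (DGMod.ap μ (add_zero n) (x : ((JL hb D (b l) (l + 1)).fpow (Fin m)).cx.X n) :
          D.J (b j) (l + 1) n).1 = ∑ t, A.comp (zero_add n) (v t) (x t).1 := by
  refine ⟨DGMod.frow (ι := Fin m) fun t => JLmap hb D (v t) (l + 1), ?_, fun n x => ?_⟩
  · exact DGMod.frow_closed fun t => JLmap_closed hb D (hb.closed _) _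
  · have e₂ := DGMod.ap_frow (M := JL hb D (b l) (l + 1)) (N := JL hb D (b j) (l + 1))
      (fun t => JLmap hb D (v t) (l + 1)) x
    refine (congrArg Subtype.val e₂).trans ?_
    refine (sum_coe_J D _ _).trans (Finset.sum_congr rfl fun t _ => ?_)
    exact ap_JLmap hb D (v t) (l + 1) (x t)

end Maps

section Algebra

lemma comp_sum_comp {U V : A.Obj} {m : ℕ} {W : A.Obj} {n : ℤ} (w : A.Hom U V 0)
    (f : Fin m → A.Hom V W 0) (x : Fin m → A.Hom W P n) :
    A.comp (zero_add n) w (∑ u, A.comp (zero_add n) (f u) (x u)) =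
      ∑ u, A.comp (zero_add n) (A.comp (add_zero 0) w (f u)) (x u) := by
  rw [map_sum]
  exact Finset.sum_congr rfl fun u _ =>
    (A.assoc (add_zero 0) (zero_add n) (zero_add n) (zero_add n) w (f u) (x u)).symm

/-- the elementwise identity for iterated sums -/
lemma sum_comp_sum_comp {U V W : A.Obj} {m m' : ℕ} {n : ℤ} (w : Fin m' → A.Hom U V 0)
    (f : Fin m' → Fin m → A.Hom V W 0) (x : Fin m → A.Hom W P n) :
    ∑ t, A.comp (zero_add n) (w t) (∑ u, A.comp (zero_add n) (f t u) (x u)) =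
      ∑ u, A.comp (zero_add n) (∑ t, A.comp (add_zero 0) (w t) (f t u)) (x u) := by
  have h : ∀ t, A.comp (zero_add n) (w t) (∑ u, A.comp (zero_add n) (f t u) (x u)) =
      ∑ u, A.comp (zero_add n) (A.comp (add_zero 0) (w t) (f t u)) (x u) := fun t =>
    comp_sum_comp (w t) (f t) x
  rw [Finset.sum_congr rfl fun t _ => h t, Finset.sum_comm]
  refine Finset.sum_congr rfl fun u _ => ?_
  rw [map_sum, LinearMap.sum_apply]

variable {l j : Fin r} {m : ℕ} {v : Fin m → A.Hom (b j) (b l) 0}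
  {φ : Fin m → (A.Hom (b j) (b l) 0 →ₗ[k] A.Hom (b l) (b l) 0)}
  (vφ : ∀ w, ∑ t, A.comp (add_zero 0) (v t) (φ t w) = w)
  (φc : ∀ t w e, φ t (A.comp (add_zero 0) w e) = A.comp (add_zero 0) (φ t w) e)

include vφ φc in
lemma sum_φ (t : Fin m) (w : A.Hom (b j) (b l) 0) :
    ∑ u, A.comp (add_zero 0) (φ t (v u)) (φ u w) = φ t w := by
  rw [Finset.sum_congr rfl fun u _ => (φc t (v u) (φ u w)).symm, ← map_sum, vφ]

include hb φc in
lemma step_ker {n : ℤ} {z : Fin m → A.Hom (b l) P n}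
    (hz : ∀ t, z t = ∑ u, A.comp (zero_add n) (φ t (v u)) (z u))
    (hy : ∑ t, A.comp (zero_add n) (v t) (z t) ∈ D.J (b j) (l + 1) n) (t : Fin m) :
    z t ∈ D.J (b l) (l + 1) n := fun i a hi => by
  by_cases hil : (i : ℕ) < l
  · exact hb.dir l i _ _ (by rw [Fin.lt_def]; exact hil)
  obtain rfl : i = l := Fin.ext (by omega)
  by_cases hn : n + -D.deg i a = 0
  swap
  · exact hb.conc i i _ _ hn
  have key : A.comp hn (z t) (D.π i a) = 0 := by
    have e : A.comp hn (∑ u, A.comp (zero_add n) (φ t (v u)) (z u)) (D.π i a) =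
        φ t (A.comp hn (∑ u, A.comp (zero_add n) (v u) (z u)) (D.π i a)) := by
      rw [map_sum, LinearMap.sum_apply, map_sum, LinearMap.sum_apply, map_sum]
      refine Finset.sum_congr rfl fun u _ => ?_
      rw [A.assoc (zero_add n) hn hn (add_zero 0), A.assoc (zero_add n) hn hn (add_zero 0), φc]
    rw [hz t, e, Decomp.comp_π_of_mem hy a (Nat.lt_succ_self _) hn, map_zero]
  have gen : ∀ {q : ℤ} (h : n + -D.deg i a = q), q = 0 → A.comp h (z t) (D.π i a) = 0 := by
    rintro q h rfl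
    exact key
  exact gen rfl hn

include hb vφ in
lemma step_surj {n : ℤ} {x : A.Hom (b j) P n} (hx : x ∈ D.J (b j) l n) :
    ∃ z : Fin m → A.Hom (b l) P n,
      x - ∑ t, A.comp (zero_add n) (v t) (z t) ∈ D.J (b j) (l + 1) n := by
  classical
  let z : Fin m → A.Hom (b l) P n := fun t => ∑ a : D.I l,
    if h : n + -D.deg l a = 0 then
      A.comp (show 0 + D.deg l a = n by omega) (φ t (A.comp h x (D.π l a))) (D.ι l a) else 0
  refine ⟨z, ?_⟩
  have e : ∑ t, A.comp (zero_add n) (v t) (z t) =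
      ∑ a, A.comp (show n + -D.deg l a + D.deg l a = n by omega)
      (A.comp rfl x (D.π l a)) (D.ι l a) := by
    have e₁ : ∀ t, A.comp (zero_add n) (v t) (z t) = ∑ a : D.I l,
        if h : n + -D.deg l a = 0 then
          A.comp (show 0 + D.deg l a = n by omega)
            (A.comp (add_zero 0) (v t) (φ t (A.comp h x (D.π l a)))) (D.ι l a) else 0 :=
      fun t => by
      refine (map_sum _ _ _).trans (Finset.sum_congr rfl fun a _ => ?_)
      split_ifs with h
      · exact (A.assoc (add_zero 0) _ _ (zero_add n) _ _ _).symm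
      · exact map_zero _
    rw [Finset.sum_congr rfl fun t _ => e₁ t, Finset.sum_comm]
    refine Finset.sum_congr rfl fun a _ => ?_
    by_cases h : n + -D.deg l a = 0
    · simp only [dif_pos h]
      rw [← LinearMap.sum_apply, ← map_sum, vφ]
      have gen : ∀ {q : ℤ} (h' : n + -D.deg l a = q) (h'' : q + D.deg l a = n) (hq : q = 0),
          A.comp (show 0 + D.deg l a = n by omega) (A.comp h x (D.π l a)) (D.ι l a) =
            A.comp h'' (A.comp h' x (D.π l a)) (D.ι l a) := by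
        rintro q h' h'' rfl
        rfl
      exact gen rfl _ h
    · simp only [dif_neg h]
      rw [hb.conc j l _ (A.comp rfl x (D.π l a)) h, map_zero, LinearMap.zero_apply]
      exact Finset.sum_const_zero
  rw [e]
  exact Decomp.sub_sum_mem_J hb l hx

end Algebra

section Main

variable {l j : Fin r} {m : ℕ} {v : Fin m → A.Hom (b j) (b l) 0}
  {φ : Fin m → (A.Hom (b j) (b l) 0 →ₗ[k] A.Hom (b l) (b l) 0)}

theorem stepL_aux (vφ : ∀ w, ∑ t, A.comp (add_zero 0) (v t) (φ t w) = w)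
    (φc : ∀ t w e, φ t (A.comp (add_zero 0) w e) = A.comp (add_zero 0) (φ t w) e)
    (hM : (leftHom A P (b l)).IsRes) (hM₁ : (JL hb D (b l) (l + 1)).IsRes)
    (h : (JL hb D (b j) (l + 1)).IsRes) : (JL hb D (b j) l).IsRes := by
  obtain ⟨J, hJ, J_ap⟩ := exists_stepJ hb D l m
  obtain ⟨ε, hε, ε_ap⟩ := exists_stepε (P := P) hb l m fun t u => φ t (v u)
  obtain ⟨ε₁, hε₁, ε₁_ap⟩ := exists_stepε₁ hb D l m fun t u => φ t (v u)
  obtain ⟨μ, hμ, μ_ap⟩ := exists_stepμ hb D l j m v
  obtain ⟨μ₁, hμ₁, μ₁_ap⟩ := exists_stepμ₁ hb D l j m v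
  refine DGMod.IsRes.step (T₀ := JL hb D (b j) l) (T₁ := JL hb D (b j) (l + 1))
    (X₁ := (JL hb D (b l) (l + 1)).fpow (Fin m)) (X₂ := (leftHom A P (b l)).fpow (Fin m))
    (i := JLinc hb D (b j) l) (j := J) (μ := μ) (μ₁ := μ₁) (ε := ε) (ε₁ := ε₁)
    (JLinc_closed hb D (b j) l) hJ hμ hμ₁ hε hε₁ ?_ ?_ ?_ ?_ ?_ ?_ ?_ ?_
    h (hM₁.fpow m) (hM.fpow m)
  · intro n x hx
    change D.J (b j) (l + 1) n at x
    refine Subtype.ext ?_
    exact (ap_JLinc hb D (b j) l x).symm.trans (congrArg Subtype.val hx)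
  · intro n x hx
    change Fin m → D.J (b l) (l + 1) n at x
    refine funext fun t => Subtype.ext ?_
    exact congrFun ((J_ap n x).symm.trans hx) t
  · intro n x
    change Fin m → D.J (b l) (l + 1) n at x
    refine Subtype.ext ?_
    refine (ap_JLinc hb D (b j) l _).trans ((μ₁_ap n x).trans ?_)
    refine Eq.trans ?_ (congrArg (fun z => (DGMod.ap μ (add_zero n) z : D.J (b j) l n).1)
      (J_ap n x)).symm
    exact (μ_ap n _).symm
  · intro n x
    change Fin m → A.Hom (b l) P n at x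
    refine (congrArg (DGMod.ap ε (add_zero n)) (ε_ap n x)).trans ((ε_ap n _).trans ?_)
    refine Eq.trans (funext fun t => ?_) (ε_ap n x).symm
    refine (sum_comp_sum_comp (fun u => φ t (v u)) (fun u w => φ u (v w)) x).trans ?_
    exact Finset.sum_congr rfl fun u _ => by rw [sum_φ vφ φc]
  · intro n x
    change Fin m → D.J (b l) (l + 1) n at x
    refine (J_ap n _).trans (Eq.trans (funext fun t => ?_)
      (congrArg (DGMod.ap ε (add_zero n)) (J_ap n x)).symm)
    exact (ε₁_ap n x t).trans (congrFun (ε_ap n _) t).symm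
  · intro n x
    change Fin m → A.Hom (b l) P n at x
    refine Subtype.ext ?_
    refine (congrArg (fun z => (DGMod.ap μ (add_zero n) z : D.J (b j) l n).1)
      (ε_ap n x)).trans ((μ_ap n _).trans (Eq.trans ?_ (μ_ap n x).symm))
    refine (sum_comp_sum_comp v (fun t u => φ t (v u)) x).trans ?_
    exact Finset.sum_congr rfl fun u _ => by rw [vφ]
  · intro n z y hz hy
    change Fin m → A.Hom (b l) P n at z
    change D.J (b j) (l + 1) n at y
    have hz' : ∀ t, z t = ∑ u, A.comp (zero_add n) (φ t (v u)) (z u) := fun t =>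
      (congrFun hz t).symm.trans (congrFun (ε_ap n z) t)
    have hy' : y.1 = ∑ t, A.comp (zero_add n) (v t) (z t) :=
      (ap_JLinc hb D (b j) l y).symm.trans ((congrArg Subtype.val hy).trans (μ_ap n z))
    have hy'' : ∑ t, A.comp (zero_add n) (v t) (z t) ∈ D.J (b j) (l + 1) n := hy' ▸ y.2
    have hw := step_ker (D := D) hb φc hz' hy''
    exact ⟨fun t => (⟨z t, hw t⟩ : D.J (b l) (l + 1) n), J_ap n _⟩
  · intro n x
    change D.J (b j) l n at x
    obtain ⟨z, hz⟩ := step_surj hb D vφ x.2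
    refine ⟨(⟨_, hz⟩ : D.J (b j) (l + 1) n), z, Subtype.ext ?_⟩
    have e₁ := ap_JLinc hb D (b j) l (⟨_, hz⟩ : D.J (b j) (l + 1) n)
    have e₂ := μ_ap n z
    refine Eq.trans ?_ (congrArg₂ (· + ·) e₁ e₂).symm
    exact (sub_add_cancel _ _).symm

end Main

end

section Field

variable {k : Type} [Field k] {A : DGCat.{0, 1} k} {r : ℕ} {b : Fin r → A.Obj} {P : A.Obj}
  (hb : IsBlocks b) (D : Decomp b P)

/-- One step: if the endomorphisms of the block `b l` are a separable algebra, then the step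
`l` of the filtration of `Hom (b j, P)` is perfect if the next steps are. -/
theorem stepL (l j : Fin r) (s : SepElt (b l)) (hM : (leftHom A P (b l)).IsRes)
    (hM₁ : (JL hb D (b l) (l + 1)).IsRes) (h : (JL hb D (b j) (l + 1)).IsRes) :
    (JL hb D (b j) l).IsRes := by
  have := hb.fin j l
  exact stepL_aux hb D (sum_sepφ (a := b j) s) (sepφ_comp (a := b j) s) hM hM₁ h

end Field

end Orl
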