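import Pool.Agent.Work.MP_a6e60d_ag.DG.Equiv

/-!
MP_a6e60d_ag: countable powers, the telescope and the splitting of homotopy idempotents.
-/

open CategoryTheory

namespace Orl

universe w

variable {k : Type w} [CommRing k]

/-- `s` is the countable power `x ^ ℕ` of the object `x` of a DG category. -/
structure PowN (A : DGCat.{0, 1} k) (x s : A.Obj) where
  /-- the projections -/
  p : ℕ → A.Hom s x 0
  closed : ∀ i, IsClosed (p i)
  /-- the morphism with given components -/
  lift : ∀ {w : A.Obj} {m : ℤ}, (ℕ → A.Hom w x m) → A.Hom w s m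
  fac : ∀ {w : A.Obj} {m : ℤ} (a : ℕ → A.Hom w x m) (i : ℕ),
    A.comp (add_zero m) (lift a) (p i) = a i
  ext : ∀ {w : A.Obj} {m : ℤ} (y y' : A.Hom w s m),
    (∀ i, A.comp (add_zero m) y (p i) = A.comp (add_zero m) y' (p i)) → y = y'

namespace PowN

variable {A : DGCat.{0, 1} k} {x s : A.Obj} (S : PowN A x s)

lemma comp_lift {w w' : A.Obj} {m n l : ℤ} (h : m + n = l) (f : A.Hom w w' m)
    (a : ℕ → A.Hom w' x n) : A.comp h f (S.lift a) = S.lift (fun i => A.comp h f (a i)) := by
  refine S.ext _ _ fun i => ?_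
  rw [S.fac, A.assoc h (add_zero n) (add_zero l) h, S.fac]

lemma d_lift {w : A.Obj} {m n : ℤ} (a : ℕ → A.Hom w x m) :
    A.d m n (S.lift a) = S.lift (fun i => A.d m n (a i)) := by
  refine S.ext _ _ fun i => ?_
  by_cases h : m + 1 = n
  · rw [S.fac, ← d_comp_closed (add_zero m) h h (S.lift a) (S.p i) ((S.closed i).d 1), S.fac]
  · rw [A.d_shape _ _ _ h, S.fac, A.d_shape _ _ _ h, map_zero, LinearMap.zero_apply]

end PowN

section Tel

variable {A : DGCat.{0, 1} k} {x s c : A.Obj} (S : PowN A x s) (e : A.Hom x x 0)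

/-- the map `1 - shift ∘ e` of the telescope -/
def telMap : A.Hom s s 0 := S.lift fun i => S.p i - A.comp (add_zero 0) (S.p (i + 1)) e

lemma telMap_p (i : ℕ) : A.comp (add_zero 0) (telMap S e) (S.p i) =
    S.p i - A.comp (add_zero 0) (S.p (i + 1)) e := S.fac _ _

lemma telMap_closed (he : IsClosed e) : IsClosed (telMap S e) := by
  unfold IsClosed telMap
  rw [S.d_lift]
  refine S.ext _ _ fun i => ?_
  rw [S.fac, map_sub, d_comp_closed (add_zero 0) rfl rfl _ _ (he.d 1), (S.closed i).d,
    (S.closed (i + 1)).d]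
  simp

/-- A closed morphism to the cone of the telescope map is a boundary if all its components are
boundaries. -/
lemma tel_bdry {e : A.Hom x x 0} (he : IsClosed e) (h : A.Hom x x (-1))
    (hh : A.d (-1) 0 h = A.comp (add_zero 0) e e - e) (K : DGCat.Cone (telMap S e) c)
    {w : A.Obj} {m : ℤ} (z : A.Hom w c m) (hz : IsClosed z)
    (hb : ∀ i, IsBdry (A.comp (add_zero (m + 1)) (A.comp rfl z K.fst) (S.p i))) :
    IsBdry z := by
  have hb' : ∀ i, ∃ y : A.Hom w x m, A.d m (m + 1) y =
      A.comp (add_zero (m + 1)) (A.comp rfl z K.fst) (S.p i) :=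
    fun i => (hb i).exists m rfl
  choose y hy using hb'
  set t : A.Hom w s m := S.lift y with ht
  have dt : A.d m (m + 1) t = A.comp rfl z K.fst := by
    refine S.ext _ _ fun i => ?_
    rw [ht, S.d_lift, S.fac, hy]
  set l : ℤ := m - 1 with hl
  have dti : A.d l m (A.comp (show m + -1 = l by omega) t K.inl) =
      A.comp (add_zero m) (A.comp (add_zero m) t (telMap S e)) K.inr -
        A.comp (show m + 1 + -1 = m by omega) (A.comp rfl z K.fst) K.inl := by
    rw [A.d_comp (n' := m + 1) (m' := 0) _ rfl (by norm_num) (by omega), K.d_inl, dt,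
      A.assoc (add_zero m) (add_zero 0) (add_zero m) (add_zero m)]
    simp [sub_eq_add_neg, Int.negOnePow_neg]
  set z₁ : A.Hom w c m := z + A.d l m (A.comp (show m + -1 = l by omega) t K.inl) with hz₁
  have cz₁ : IsClosed z₁ := hz.add (A.d_d _ _ _ _)
  set b : A.Hom w s m := A.comp (add_zero m) z K.snd +
    A.comp (add_zero m) t (telMap S e) with hbdef
  have ez₁ : z₁ = A.comp (add_zero m) b K.inr := by
    have hzd := Cone.decomp' K (rfl : m + 1 = m + 1) z
    rw [hz₁, dti, hbdef, map_add, LinearMap.add_apply]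
    nth_rewrite 1 [hzd]
    abel
  have cb : IsClosed b := by
    have h1 : A.comp (add_zero m) (A.comp (add_zero m) b K.inr) K.snd = b := by
      rw [A.assoc (add_zero m) (add_zero 0) (add_zero m) (add_zero m), K.inr_snd, A.comp_id]
    have h2 : IsClosed (A.comp (add_zero m) b K.inr) := ez₁ ▸ cz₁
    unfold IsClosed at h2 ⊢
    rw [d_comp_closed (add_zero m) rfl rfl b K.inr K.d_inr] at h2
    have h3 := congrArg (fun u => A.comp (add_zero (m + 1)) u K.snd) h2
    simp only [map_zero, LinearMap.zero_apply] at h3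
    rwa [A.assoc (add_zero (m + 1)) (add_zero 0) (add_zero (m + 1)) (add_zero (m + 1)), K.inr_snd,
      A.comp_id] at h3
  clear_value b z₁
  -- the components of `b`
  let bi : ℕ → A.Hom w x m := fun i => A.comp (add_zero m) b (S.p i)
  have cbi : ∀ i, IsClosed (bi i) := fun i => cb.comp (S.closed i) _
  let c' : ℕ → A.Hom w x m := fun i => bi i - A.comp (add_zero m) (bi i) e -
    ∑ j ∈ Finset.range i, A.comp (add_zero m) (bi j) e
  have cc' : ∀ i, IsClosed (c' i) := by
    intro i
    refine ((cbi i).sub ((cbi i).comp he _)).sub ?_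
    unfold IsClosed
    rw [map_sum]
    exact Finset.sum_eq_zero fun j _ => (cbi j).comp he (add_zero m)
  let c'' : ℕ → A.Hom w x l := fun i => - ∑ j ∈ Finset.range (i + 2),
    A.comp (show m + -1 = l by omega) (bi j) h
  have key : ∀ i, bi i = (c' i - A.comp (add_zero m) (c' (i + 1)) e) + A.d l m (c'' i) := by
    intro i
    have e1 : A.d l m (c'' i) = - ∑ j ∈ Finset.range (i + 2),
        (A.comp (add_zero m) (A.comp (add_zero m) (bi j) e) e - A.comp (add_zero m) (bi j) e) := by
      simp only [c'', map_neg, map_sum]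
      congr 1
      refine Finset.sum_congr rfl fun j _ => ?_
      rw [d_closed_comp (m' := 0) _ (by norm_num) (by omega) _ _ (cbi j), hh, map_sub,
        ← A.assoc (add_zero m) (add_zero 0) (add_zero m) (add_zero m) (bi j) e e]
    have e2 : A.comp (add_zero m) (c' (i + 1)) e = A.comp (add_zero m) (bi (i + 1)) e -
        A.comp (add_zero m) (A.comp (add_zero m) (bi (i + 1)) e) e -
        ∑ j ∈ Finset.range (i + 1), A.comp (add_zero m) (A.comp (add_zero m) (bi j) e) e := by
      simp only [c', map_sub, LinearMap.sub_apply, map_sum, LinearMap.sum_apply]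
    rw [e1, e2, Finset.sum_sub_distrib]
    simp only [c', Finset.sum_range_succ]
    abel
  refine IsBdry.of (m := l) (A.comp (show m + -1 = l by omega) (S.lift c') K.inl +
    A.comp (add_zero l) (S.lift c'') K.inr - A.comp (show m + -1 = l by omega) t K.inl) ?_
  have cl' : IsClosed (S.lift c') := by
    unfold IsClosed
    rw [S.d_lift]
    refine S.ext _ _ fun i => ?_
    rw [S.fac, (cc' i)]
    simp
  have eb : b = A.comp (add_zero m) (S.lift c') (telMap S e) + A.d l m (S.lift c'') := by
    refine S.ext _ _ fun i => ?_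
    rw [map_add, LinearMap.add_apply, S.d_lift, S.fac, telMap, S.comp_lift, S.fac, map_sub, S.fac,
      ← A.assoc (add_zero m) (add_zero 0) (add_zero m) (add_zero m), S.fac]
    exact key i
  rw [map_sub, map_add, d_closed_comp (m' := 0) _ (by norm_num) (by omega) _ _ cl', K.d_inl,
    d_comp_closed (n' := m) (add_zero l) (by omega) (by omega) _ _ K.d_inr,
    ← A.assoc (add_zero m) (add_zero 0) (add_zero m) (add_zero m), ← LinearMap.add_apply,
    ← map_add, ← eb, ← ez₁, hz₁]
  abel

/-- The telescope splits the homotopy idempotent `e`, up to a shift. -/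
lemma tel_split {e : A.Hom x x 0} (he : IsClosed e)
    (hee : IsBdry (A.comp (add_zero 0) e e - e)) (K : DGCat.Cone (telMap S e) c) :
    ∃ (p : A.Hom c x 1) (r : A.Hom x c (-1)), IsClosed p ∧ IsClosed r ∧
      IsBdry (A.comp (add_neg_cancel 1) p r - A.id c) ∧
      IsBdry (A.comp (neg_add_cancel 1) r p - e) := by
  obtain ⟨h, hh⟩ := hee.exists (-1) (by norm_num)
  have cfst : IsClosed K.fst := isClosed_of (by norm_num) K.d_fst
  -- the map to the telescope
  set σ : A.Hom x s 0 := S.lift fun _ => e with hσ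
  set ρ : A.Hom x s (-1) := S.lift fun _ => h with hρ
  have cσ : IsClosed σ := by
    unfold IsClosed
    rw [hσ, S.d_lift]
    refine S.ext _ _ fun i => ?_
    rw [S.fac, he]
    simp
  have dρ : A.d (-1) 0 ρ = - A.comp (add_zero 0) σ (telMap S e) := by
    refine S.ext _ _ fun i => ?_
    rw [hρ, S.d_lift, S.fac, telMap, S.comp_lift, map_neg, LinearMap.neg_apply, S.fac, map_sub,
      ← A.assoc (add_zero 0) (add_zero 0) (add_zero 0) (add_zero 0), hσ, S.fac, S.fac, hh]
    abel
  set r : A.Hom x c (-1) := A.comp (zero_add (-1)) σ K.inl + A.comp (add_zero (-1)) ρ K.inr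
    with hr
  set p : A.Hom c x 1 := A.comp (add_zero 1) K.fst (S.p 0) with hp
  have cp : IsClosed p := cfst.comp (S.closed 0) _
  have cr : IsClosed r := by
    refine isClosed_of (m := 0) (by norm_num) ?_
    rw [hr, map_add, d_closed_comp (m' := 0) _ (by norm_num) (by norm_num) _ _ cσ, K.d_inl,
      d_comp_closed (n' := 0) (add_zero (-1)) (by norm_num) (by norm_num) _ _ K.d_inr, dρ,
      map_neg, LinearMap.neg_apply, A.assoc (add_zero 0) (add_zero 0) (add_zero 0) (add_zero 0),
      add_neg_cancel]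
  have rfst : A.comp (neg_add_cancel 1) r K.fst = σ := by
    rw [hr, map_add, LinearMap.add_apply,
      A.assoc (zero_add (-1)) (neg_add_cancel 1) (neg_add_cancel 1) (add_zero 0), K.inl_fst,
      A.assoc (add_zero (-1)) (zero_add 1) (neg_add_cancel 1) (neg_add_cancel 1), K.inr_fst,
      A.comp_id, map_zero, add_zero]
  have rp : A.comp (neg_add_cancel 1) r p = e := by
    rw [hp, ← A.assoc (neg_add_cancel 1) (add_zero 1) (add_zero 0) (neg_add_cancel 1), rfst, hσ,
      S.fac]
  refine ⟨p, r, cp, cr, ?_, by rw [rp, sub_self]; exact isBdry_zero⟩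
  refine tel_bdry S he h hh K _ ((cp.comp cr _).sub (IsClosed.id c)) fun i => ?_
  -- the two morphisms `fst . p_i` and `fst . p_(i+1) . e` are homotopic
  have step : ∀ i, IsBdry (A.comp (add_zero 1) K.fst (S.p i) -
      A.comp (add_zero 1) (A.comp (add_zero 1) K.fst (S.p (i + 1))) e) := by
    intro i
    refine IsBdry.of (m := 0) (- A.comp (add_zero 0) K.snd (S.p i)) ?_
    rw [map_neg, d_comp_closed (n' := 1) (add_zero 0) (by norm_num) (by norm_num) _ _
      ((S.closed i).d 1), K.d_snd, map_neg, LinearMap.neg_apply, neg_neg,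
      A.assoc (add_zero 1) (add_zero 0) (add_zero 1) (add_zero 1), telMap_p, map_sub,
      A.assoc (add_zero 1) (add_zero 0) (add_zero 1) (add_zero 1)]
  have cfp : ∀ i, IsClosed (A.comp (add_zero 1) K.fst (S.p i)) := fun i =>
    cfst.comp (S.closed i) _
  -- `fst . p_i . e ~ fst . p_(i+1) . e`
  have step2 : ∀ i, IsBdry (A.comp (add_zero 1) (A.comp (add_zero 1) K.fst (S.p i)) e -
      A.comp (add_zero 1) (A.comp (add_zero 1) K.fst (S.p (i + 1))) e) := by
    intro i
    have h1 := (step i).comp_right he (add_zero 1)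
    rw [map_sub, LinearMap.sub_apply,
      A.assoc (add_zero 1) (add_zero 0) (add_zero 1) (add_zero 1) _ e e] at h1
    have h2 := hee.comp_left (cfp (i + 1)) (add_zero 1)
    rw [map_sub] at h2
    exact h1.trans h2
  have step3 : ∀ i, IsBdry (A.comp (add_zero 1) (A.comp (add_zero 1) K.fst (S.p 0)) e -
      A.comp (add_zero 1) (A.comp (add_zero 1) K.fst (S.p i)) e) := by
    intro i
    induction i with
    | zero => rw [sub_self]; exact isBdry_zero
    | succ i ih => exact ih.trans (step2 i)
  have fin := (step3 (i + 1)).trans (step i).symm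
  have e1 : A.comp (add_zero (0 + 1)) (A.comp rfl (A.comp (add_neg_cancel 1) p r - A.id c)
      K.fst) (S.p i) = A.comp (show (1 : ℤ) + 0 = 0 + 1 by norm_num)
        (A.comp (add_zero 1) K.fst (S.p 0)) e -
      A.comp (show (1 : ℤ) + 0 = 0 + 1 by norm_num) K.fst (S.p i) := by
    rw [map_sub, LinearMap.sub_apply, map_sub, LinearMap.sub_apply,
      A.assoc (add_neg_cancel 1) (neg_add_cancel 1) rfl (show (1 : ℤ) + 0 = 0 + 1 by norm_num),
      rfst, A.assoc (show (1 : ℤ) + 0 = 0 + 1 by norm_num) (add_zero 0) (add_zero (0 + 1))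
        (show (1 : ℤ) + 0 = 0 + 1 by norm_num), hσ, S.fac]
    congr 1
    rw [A.assoc rfl (show (1 : ℤ) + 0 = 0 + 1 by norm_num) (add_zero (0 + 1)) (zero_add (0 + 1)),
      A.id_comp]
  rw [e1]
  exact fin

end Tel

/-- In a DG category with mapping cones, shifts and countable powers homotopy idempotents
split. -/
theorem isPerfectLike_of_powN {A : DGCat.{0, 1} k}
    (hc : ∀ {a b : A.Obj} (f : A.Hom a b 0), IsClosed f → ∃ c, Nonempty (DGCat.Cone f c))
    (hs : ∀ (a : A.Obj) (t : ℤ), ∃ (b : A.Obj) (s : A.Hom b a t) (s' : A.Hom a b (-t)),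
      IsClosed s ∧ IsClosed s' ∧ A.comp (add_neg_cancel t) s s' = A.id b ∧
        A.comp (neg_add_cancel t) s' s = A.id a)
    (hp : ∀ a : A.Obj, ∃ s : A.Obj, Nonempty (PowN A a s)) : IsPerfectLike A := by
  refine ⟨hc, ?_⟩
  intro a e t he hee
  obtain ⟨s, ⟨S⟩⟩ := hp a
  obtain ⟨c, ⟨K⟩⟩ := hc (telMap S e) (telMap_closed S e he)
  obtain ⟨p, r, cp, cr, h1, h2⟩ := tel_split S he hee K
  obtain ⟨b, u, v, cu, cv, huv, hvu⟩ := hs c (t - 1)
  refine ⟨b, A.comp (show t - 1 + 1 = t by omega) u p,
    A.comp (show -1 + -(t - 1) = -t by omega) r v, cu.comp cp _, cr.comp cv _, ?_, ?_⟩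
  · have h3 := (h1.comp_right cv (show 0 + -(t - 1) = -(t - 1) by omega)).comp_left cu
      (add_neg_cancel (t - 1))
    rw [map_sub, LinearMap.sub_apply, map_sub, A.id_comp, huv,
      A.assoc (add_neg_cancel 1) (show -1 + -(t - 1) = -t by omega)
        (show 0 + -(t - 1) = -(t - 1) by omega) (show 1 + -t = -(t - 1) by omega),
      ← A.assoc (show t - 1 + 1 = t by omega) (show 1 + -t = -(t - 1) by omega)
        (add_neg_cancel t) (add_neg_cancel (t - 1))] at h3
    exact h3
  · rw [A.assoc (show -1 + -(t - 1) = -t by omega) (show -(t - 1) + t = 1 by omega)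
      (neg_add_cancel t) (neg_add_cancel 1),
      ← A.assoc (neg_add_cancel (t - 1)) (show t - 1 + 1 = t by omega) (zero_add 1)
        (show -(t - 1) + t = 1 by omega), hvu, A.id_comp]
    exact h2

/-- A full DG subcategory which is closed under mapping cones and shifted homotopy direct
summands inherits mapping cones and the splitting of homotopy idempotents. -/
theorem IsPerfectLike.full {A : DGCat.{0, 1} k} (hA : IsPerfectLike A) {P : A.Obj → Prop}
    (hc : ∀ {a b c : A.Obj} (f : A.Hom a b 0), IsClosed f → DGCat.Cone f c → P a → P b → P c)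
    (hr : ∀ {a b : A.Obj} (t : ℤ), DGCat.IsRetract t b a → P a → P b) :
    IsPerfectLike (A.full P) := by
  refine ⟨?_, ?_⟩
  · rintro ⟨a, ha⟩ ⟨b, hb⟩ f hf
    obtain ⟨c, ⟨K⟩⟩ := hA.cone (a := a) (b := b) f hf
    exact ⟨⟨c, hc (a := a) (b := b) f hf K ha hb⟩, ⟨{ K with }⟩⟩
  · rintro ⟨a, ha⟩ e t he hee
    obtain ⟨b, p, r, cp, cr, h1, h2⟩ := hA.split (a := a) e t he hee
    exact ⟨⟨b, hr t ⟨p, r, cp, cr, h1⟩ ha⟩, p, r, cp, cr, h1, h2⟩

end Orl
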