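import Pool.Agent.Work.MP_a6e60d_ag.DG.Mod
import Mathlib.LinearAlgebra.DirectSum.TensorProduct

/-!
MP_a6e60d_ag: tensor products of complexes, of DG algebras and of DG modules; the opposite DG
algebra; DG bimodules as right DG modules over the tensor product; smooth DG algebras.
-/

open CategoryTheory CochainComplex HomComplex TensorProduct DirectSum

namespace Orl

universe v w

variable {k : Type w} [CommRing k]

section Cx

/-- the pairs of integers with sum `n` -/
abbrev Bideg (n : ℤ) : Type := {q : ℤ × ℤ // q.1 + q.2 = n}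

variable (K L : CochainComplex (ModuleCat.{v} k) ℤ)

/-- the part of degree `n` of the tensor product of the complexes `K` and `L` -/
abbrev TensX (n : ℤ) : Type v := ⨁ q : Bideg n, (K.X q.1.1 ⊗[k] L.X q.1.2)

variable {K L}

/-- the element `x ⊗ y` of degree `n = i + j` of the tensor product -/
def tp {i j n : ℤ} (h : i + j = n) : K.X i →ₗ[k] L.X j →ₗ[k] TensX K L n :=
  (TensorProduct.mk k (K.X i) (L.X j)).compr₂
    (DirectSum.lof k (Bideg n) (fun q => (K.X q.1.1 ⊗[k] L.X q.1.2)) ⟨(i, j), h⟩)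

/-- linear maps out of the tensor product -/
def tdesc {n : ℤ} {Z : Type*} [AddCommGroup Z] [Module k Z]
    (f : ∀ (i j : ℤ) (_ : i + j = n), K.X i →ₗ[k] L.X j →ₗ[k] Z) : TensX K L n →ₗ[k] Z :=
  DirectSum.toModule k (Bideg n) Z (fun q => TensorProduct.lift (f q.1.1 q.1.2 q.2))

@[simp] lemma tdesc_tp {n : ℤ} {Z : Type*} [AddCommGroup Z] [Module k Z]
    (f : ∀ (i j : ℤ) (_ : i + j = n), K.X i →ₗ[k] L.X j →ₗ[k] Z) {i j : ℤ} (h : i + j = n)
    (x : K.X i) (y : L.X j) : tdesc f (tp h x y) = f i j h x y := by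
  change DirectSum.toModule k (Bideg n) Z (fun q => TensorProduct.lift (f q.1.1 q.1.2 q.2))
    (DirectSum.lof k (Bideg n) (fun q => (K.X q.1.1 ⊗[k] L.X q.1.2)) ⟨(i, j), h⟩
      (x ⊗ₜ[k] y)) = _
  rw [DirectSum.toModule_lof, TensorProduct.lift.tmul]

lemma tens_hom_ext {n : ℤ} {Z : Type*} [AddCommGroup Z] [Module k Z]
    {f g : TensX K L n →ₗ[k] Z} (H : ∀ (i j : ℤ) (h : i + j = n) (x : K.X i) (y : L.X j),
      f (tp h x y) = g (tp h x y)) : f = g := by
  refine DirectSum.linearMap_ext _ fun q => ?_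
  obtain ⟨⟨i, j⟩, h⟩ := q
  refine TensorProduct.ext' fun x y => ?_
  exact H i j h x y

lemma tens_induction {n : ℤ} {P : TensX K L n → Prop} (z : TensX K L n) (h0 : P 0)
    (ht : ∀ (i j : ℤ) (h : i + j = n) (x : K.X i) (y : L.X j), P (tp h x y))
    (ha : ∀ z z', P z → P z' → P (z + z')) : P z := by
  induction z using DirectSum.induction_on with
  | zero => exact h0
  | of q x =>
    obtain ⟨⟨i, j⟩, h⟩ := q
    induction x using TensorProduct.induction_on with
    | zero => rw [map_zero]; exact h0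
    | tmul x y => exact ht i j h x y
    | add x y hx hy => rw [map_add]; exact ha _ _ hx hy
  | add z z' hz hz' => exact ha _ _ hz hz'

variable (K L) in
/-- the differential of the tensor product, `d (x ⊗ y) = d x ⊗ y + (-1) ^ |x| x ⊗ d y` -/
def tD {n m : ℤ} (h : n + 1 = m) : TensX K L n →ₗ[k] TensX K L m :=
  tdesc fun i j hij =>
    (tp (i := i + 1) (j := j) (by lia)).comp (K.d i (i + 1)).hom +
      i.negOnePow • (tp (i := i) (j := j + 1) (by lia)).compl₂ (L.d j (j + 1)).hom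

lemma tD_tp {n m : ℤ} (h : n + 1 = m) {i j i' j' : ℤ} (hij : i + j = n) (hi : i + 1 = i')
    (hj : j + 1 = j') (x : K.X i) (y : L.X j) :
    tD K L h (tp hij x y) = tp (by lia) (K.d i i' x) y +
      i.negOnePow • tp (by lia) x (L.d j j' y) := by
  subst hi hj
  rw [tD, tdesc_tp]
  rfl

lemma tD_tD {n m p : ℤ} (h : n + 1 = m) (h' : m + 1 = p) (z : TensX K L n) :
    tD K L h' (tD K L h z) = 0 := by
  have dK : ∀ (a b c : ℤ) (x : K.X a), K.d b c (K.d a b x) = 0 := fun a b c x => by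
    rw [← ModuleCat.comp_apply, K.d_comp_d]; rfl
  have dL : ∀ (a b c : ℤ) (x : L.X a), L.d b c (L.d a b x) = 0 := fun a b c x => by
    rw [← ModuleCat.comp_apply, L.d_comp_d]; rfl
  induction z using tens_induction with
  | h0 => simp
  | ht i j hij x y =>
    rw [tD_tp h hij rfl rfl, map_add, Units.smul_def, map_zsmul, tD_tp h' _ rfl rfl,
      tD_tp h' _ rfl rfl, dK, dL]
    have e : ((i + 1).negOnePow : ℤ) = - (i.negOnePow : ℤ) := by
      rw [Int.negOnePow_succ, Units.val_neg]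
    simp only [Units.smul_def, e, map_zero, LinearMap.zero_apply, smul_zero, zero_add, add_zero,
      neg_smul]
    abel
  | ha z z' hz hz' => rw [map_add, map_add, hz, hz', add_zero]

variable (K L) in
/-- the tensor product of two complexes -/
@[simps X]
def tensCx : CochainComplex (ModuleCat.{v} k) ℤ where
  X n := ModuleCat.of k (TensX K L n)
  d n m := if h : n + 1 = m then ModuleCat.ofHom (tD K L h) else 0
  shape n m h := dif_neg h
  d_comp_d' n m p h h' := by
    have h₁ : n + 1 = m := h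
    have h₂ : m + 1 = p := h'
    rw [dif_pos h₁, dif_pos h₂, ← ModuleCat.ofHom_comp]
    exact congrArg ModuleCat.ofHom (LinearMap.ext fun z => tD_tD h₁ h₂ z)

lemma tensCx_d {n m : ℤ} (h : n + 1 = m) : (tensCx K L).d n m = ModuleCat.ofHom (tD K L h) :=
  dif_pos h

lemma tensCx_d_apply {n m : ℤ} (h : n + 1 = m) (z : TensX K L n) :
    (ConcreteCategory.hom ((tensCx K L).d n m)) z = tD K L h z := by
  rw [tensCx_d h]
  rfl

end Cx

section Pair

variable {K K' K'' L L' L'' : CochainComplex (ModuleCat.{v} k) ℤ}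

/-- a family of bilinear maps between the homogeneous parts of complexes, of degree `0` -/
abbrev GBil (K K' K'' : CochainComplex (ModuleCat.{v} k) ℤ) : Type v :=
  ∀ (n m p : ℤ) (_ : n + m = p), K.X n →ₗ[k] K'.X m →ₗ[k] K''.X p

/-- the tensor product of two graded bilinear maps:
`(x ⊗ y, r ⊗ s) ↦ (-1) ^ (|y| |r|) a (x, r) ⊗ b (y, s)` -/
def tpair (a : GBil K K' K'') (b : GBil L L' L'') {n m p : ℤ} (h : n + m = p) :
    TensX K L n →ₗ[k] TensX K' L' m →ₗ[k] TensX K'' L'' p :=
  tdesc fun i j hij => LinearMap.mk₂ k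
    (fun x y => tdesc fun i' j' hij' => (j * i').negOnePow •
      (tp (K := K'') (L := L'') (i := i + i') (j := j + j') (n := p) (by lia)).compl₁₂
        (a i i' (i + i') rfl x) (b j j' (j + j') rfl y))
    (fun x x' y => tens_hom_ext fun i' j' hij' r s => by simp)
    (fun c x y => tens_hom_ext fun i' j' hij' r s => by
      simp [smul_comm c])
    (fun x y y' => tens_hom_ext fun i' j' hij' r s => by simp)
    (fun c x y => tens_hom_ext fun i' j' hij' r s => by
      simp [smul_comm c])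

lemma tpair_tp (a : GBil K K' K'') (b : GBil L L' L'') {n m p : ℤ} (h : n + m = p)
    {i j i' j' i'' j'' : ℤ} (hij : i + j = n) (hij' : i' + j' = m) (hi : i + i' = i'')
    (hj : j + j' = j'') (x : K.X i) (y : L.X j) (r : K'.X i') (s : L'.X j') :
    tpair a b h (tp hij x y) (tp hij' r s) =
      (j * i').negOnePow • tp (by lia) (a i i' i'' hi x r) (b j j' j'' hj y s) := by
  subst hi hj
  rw [tpair, tdesc_tp, LinearMap.mk₂_apply, tdesc_tp]
  rfl

/-- associativity of tensor products of graded bilinear maps -/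
lemma tpair_assoc {K₁ K₂ K₃ K₁₂ K₂₃ K₀ L₁ L₂ L₃ L₁₂ L₂₃ L₀ : CochainComplex (ModuleCat.{v} k) ℤ}
    (a₁ : GBil K₁₂ K₃ K₀) (a₂ : GBil K₁ K₂ K₁₂) (a₃ : GBil K₁ K₂₃ K₀) (a₄ : GBil K₂ K₃ K₂₃)
    (b₁ : GBil L₁₂ L₃ L₀) (b₂ : GBil L₁ L₂ L₁₂) (b₃ : GBil L₁ L₂₃ L₀) (b₄ : GBil L₂ L₃ L₂₃)
    (ha : ∀ {n m l nm ml p : ℤ} (h₁ : n + m = nm) (h₂ : m + l = ml) (h₃ : nm + l = p)
      (h₄ : n + ml = p) (x : K₁.X n) (y : K₂.X m) (z : K₃.X l),
      a₁ _ _ _ h₃ (a₂ _ _ _ h₁ x y) z = a₃ _ _ _ h₄ x (a₄ _ _ _ h₂ y z))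
    (hb : ∀ {n m l nm ml p : ℤ} (h₁ : n + m = nm) (h₂ : m + l = ml) (h₃ : nm + l = p)
      (h₄ : n + ml = p) (x : L₁.X n) (y : L₂.X m) (z : L₃.X l),
      b₁ _ _ _ h₃ (b₂ _ _ _ h₁ x y) z = b₃ _ _ _ h₄ x (b₄ _ _ _ h₂ y z))
    {n m l nm ml p : ℤ} (h₁ : n + m = nm) (h₂ : m + l = ml) (h₃ : nm + l = p)
      (h₄ : n + ml = p) (x : TensX K₁ L₁ n) (y : TensX K₂ L₂ m) (z : TensX K₃ L₃ l) :
    tpair a₁ b₁ h₃ (tpair a₂ b₂ h₁ x y) z = tpair a₃ b₃ h₄ x (tpair a₄ b₄ h₂ y z) := by
  induction x using tens_induction with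
  | h0 => simp
  | ha x x' hx hx' => simp only [map_add, LinearMap.add_apply, hx, hx']
  | ht i₁ j₁ e₁ x x' =>
    induction y using tens_induction with
    | h0 => simp
    | ha y y' hy hy' => simp only [map_add, LinearMap.add_apply, hy, hy']
    | ht i₂ j₂ e₂ y y' =>
      induction z using tens_induction with
      | h0 => simp
      | ha z z' hz hz' => simp only [map_add, hz, hz']
      | ht i₃ j₃ e₃ z z' =>
        rw [tpair_tp a₂ b₂ h₁ e₁ e₂ rfl rfl, tpair_tp a₄ b₄ h₂ e₂ e₃ rfl rfl]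
        simp only [Units.smul_def, map_zsmul, LinearMap.smul_apply]
        rw [tpair_tp a₁ b₁ h₃ _ e₃ (i'' := i₁ + i₂ + i₃) (j'' := j₁ + j₂ + j₃) rfl rfl,
          tpair_tp a₃ b₃ h₄ e₁ _ (i'' := i₁ + i₂ + i₃) (j'' := j₁ + j₂ + j₃) (by lia) (by lia),
          ha rfl rfl rfl (by lia), hb rfl rfl rfl (by lia), Units.smul_def, Units.smul_def,
          smul_smul, smul_smul, ← Units.val_mul, ← Units.val_mul, ← Int.negOnePow_add,
          ← Int.negOnePow_add]
        congr 3
        ring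

/-- the Leibniz rule for tensor products of graded bilinear maps -/
lemma tpair_d (a : GBil K K' K'') (b : GBil L L' L'')
    (ha : ∀ {n m p n' m' p' : ℤ} (h : n + m = p) (hn : n + 1 = n') (hm : m + 1 = m')
      (_ : p + 1 = p') (x : K.X n) (y : K'.X m), K''.d p p' (a _ _ _ h x y) =
        a _ _ _ (by lia) (K.d n n' x) y + n.negOnePow • a _ _ _ (by lia) x (K'.d m m' y))
    (hb : ∀ {n m p n' m' p' : ℤ} (h : n + m = p) (hn : n + 1 = n') (hm : m + 1 = m')
      (_ : p + 1 = p') (x : L.X n) (y : L'.X m), L''.d p p' (b _ _ _ h x y) =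
        b _ _ _ (by lia) (L.d n n' x) y + n.negOnePow • b _ _ _ (by lia) x (L'.d m m' y))
    {n m p n' m' p' : ℤ} (h : n + m = p) (hn : n + 1 = n') (hm : m + 1 = m') (hp : p + 1 = p')
    (x : TensX K L n) (y : TensX K' L' m) :
    tD K'' L'' hp (tpair a b h x y) = tpair a b (by lia) (tD K L hn x) y +
      n.negOnePow • tpair a b (by lia) x (tD K' L' hm y) := by
  induction x using tens_induction with
  | h0 => simp
  | ha x x' hx hx' =>
    simp only [map_add, LinearMap.add_apply, hx, hx', smul_add]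
    abel
  | ht i₁ j₁ e₁ x x' =>
    induction y using tens_induction with
    | h0 => simp
    | ha y y' hy hy' =>
      simp only [map_add, hy, hy', smul_add]
      abel
    | ht i₂ j₂ e₂ y y' =>
      rw [tpair_tp a b h e₁ e₂ rfl rfl, tD_tp hn e₁ rfl rfl, tD_tp hm e₂ rfl rfl]
      simp only [Units.smul_def, map_zsmul, map_add, LinearMap.add_apply, LinearMap.smul_apply]
      rw [tD_tp hp _ rfl rfl, ha rfl rfl rfl rfl, hb rfl rfl rfl rfl,
        tpair_tp a b _ _ e₂ (i'' := i₁ + i₂ + 1) (j'' := j₁ + j₂) (by lia) (by lia),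
        tpair_tp a b _ _ e₂ (i'' := i₁ + i₂) (j'' := j₁ + j₂ + 1) (by lia) (by lia),
        tpair_tp a b _ e₁ _ (i'' := i₁ + i₂ + 1) (j'' := j₁ + j₂) (by lia) (by lia),
        tpair_tp a b _ e₁ _ (i'' := i₁ + i₂) (j'' := j₁ + j₂ + 1) (by lia) (by lia)]
      have e : (n.negOnePow : ℤ) = i₁.negOnePow * j₁.negOnePow := by
        rw [← e₁, Int.negOnePow_add, Units.val_mul]
      rw [e]
      simp only [Units.smul_def, map_add, map_zsmul, LinearMap.add_apply, LinearMap.smul_apply,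
        smul_add, smul_smul, mul_add, add_mul, mul_one, one_mul, Int.negOnePow_add, Units.val_mul]
      rcases Int.units_eq_one_or i₁.negOnePow with s1 | s1 <;>
      rcases Int.units_eq_one_or j₁.negOnePow with s2 | s2 <;>
      rcases Int.units_eq_one_or i₂.negOnePow with s3 | s3 <;>
      rcases Int.units_eq_one_or (j₁ * i₂).negOnePow with s4 | s4 <;>
      · simp only [s1, s2, s3, s4, Units.val_one, Units.val_neg, mul_one, one_mul, mul_neg,
          neg_mul, neg_neg, one_smul, neg_smul]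
        abel

lemma tpair_one_left (a : GBil K K' K') (b : GBil L L' L') (e : K.X 0) (f : L.X 0)
    (ha : ∀ (n : ℤ) (x : K'.X n), a _ _ _ (zero_add n) e x = x)
    (hb : ∀ (n : ℤ) (x : L'.X n), b _ _ _ (zero_add n) f x = x) {n : ℤ} (z : TensX K' L' n) :
    tpair a b (zero_add n) (tp (add_zero 0) e f) z = z := by
  induction z using tens_induction with
  | h0 => simp
  | ha z z' hz hz' => rw [map_add, hz, hz']
  | ht i j h x y =>
    rw [tpair_tp _ _ _ _ h (zero_add i) (zero_add j), ha, hb, zero_mul, Int.negOnePow_zero,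
      one_smul]

lemma tpair_one_right (a : GBil K K' K) (b : GBil L L' L) (e : K'.X 0) (f : L'.X 0)
    (ha : ∀ (n : ℤ) (x : K.X n), a _ _ _ (add_zero n) x e = x)
    (hb : ∀ (n : ℤ) (x : L.X n), b _ _ _ (add_zero n) x f = x) {n : ℤ} (z : TensX K L n) :
    tpair a b (add_zero n) z (tp (add_zero 0) e f) = z := by
  induction z using tens_induction with
  | h0 => simp
  | ha z z' hz hz' => rw [map_add, LinearMap.add_apply, hz, hz']
  | ht i j h x y =>
    rw [tpair_tp _ _ _ h _ (add_zero i) (add_zero j), ha, hb, mul_zero, Int.negOnePow_zero,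
      one_smul]

end Pair

/-- the tensor product of two DG algebras -/
def DGAlg.tensor (R S : DGAlg.{v} k) : DGAlg.{v} k where
  cx := tensCx R.cx S.cx
  mul {n m p} h := tpair (fun _ _ _ h => R.mul h) (fun _ _ _ h => S.mul h) h
  one := tp (add_zero 0) R.one S.one
  one_mul {n} z := tpair_one_left _ _ _ _ (fun _ x => R.one_mul x) (fun _ x => S.one_mul x) z
  mul_one {n} z := tpair_one_right _ _ _ _ (fun _ x => R.mul_one x) (fun _ x => S.mul_one x) z
  mul_assoc h₁ h₂ h₃ h₄ x y z := tpair_assoc _ _ _ _ _ _ _ _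
    (fun h₁ h₂ h₃ h₄ x y z => R.mul_assoc h₁ h₂ h₃ h₄ x y z)
    (fun h₁ h₂ h₃ h₄ x y z => S.mul_assoc h₁ h₂ h₃ h₄ x y z) h₁ h₂ h₃ h₄ x y z
  d_mul {n m p n' m' p'} h hn hm hp x y := by
    rw [tensCx_d_apply hp, tensCx_d_apply hn, tensCx_d_apply hm]
    exact tpair_d _ _ (fun h hn hm hp x y => R.d_mul h hn hm hp x y)
      (fun h hn hm hp x y => S.d_mul h hn hm hp x y) h hn hm hp x y

/-- the tensor product (over `k`) of two right DG modules -/
def DGMod.tens {R S : DGAlg.{v} k} (M : DGMod R) (N : DGMod S) : DGMod (R.tensor S) where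
  cx := tensCx M.cx N.cx
  act {n m p} h := tpair (fun _ _ _ h => M.act h) (fun _ _ _ h => N.act h) h
  act_one {n} z := tpair_one_right _ _ _ _ (fun _ x => M.act_one x) (fun _ x => N.act_one x) z
  act_mul h₁ h₂ h₃ h₄ x y z := tpair_assoc _ _ _ _ _ _ _ _
    (fun h₁ h₂ h₃ h₄ x y z => M.act_mul h₁ h₂ h₃ h₄ x y z)
    (fun h₁ h₂ h₃ h₄ x y z => N.act_mul h₁ h₂ h₃ h₄ x y z) h₁ h₂ h₃ h₄ x y z
  d_act {n m p n' m' p'} h hn hm hp x y := by
    rw [tensCx_d_apply hp, tensCx_d_apply hn]
    change _ = _ + n.negOnePow • tpair _ _ _ _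
      ((ConcreteCategory.hom ((tensCx R.cx S.cx).d m m')) y)
    rw [tensCx_d_apply hm]
    exact tpair_d _ _ (fun h hn hm hp x y => M.d_act h hn hm hp x y)
      (fun h hn hm hp x y => N.d_act h hn hm hp x y) h hn hm hp x y

/-- the opposite DG algebra: the new product of `x` and `y` is `(-1) ^ (|x| |y|) y x` -/
def DGAlg.op (R : DGAlg.{v} k) : DGAlg.{v} k where
  cx := R.cx
  mul {n m p} h := (n * m).negOnePow • (R.mul (n := m) (m := n) (p := p) (by lia)).flip
  one := R.one
  one_mul x := by simp [R.mul_one]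
  mul_one x := by simp [R.one_mul]
  mul_assoc {n m l nm ml p} h₁ h₂ h₃ h₄ x y z := by
    simp only [Units.smul_def, LinearMap.smul_apply, LinearMap.flip_apply, map_zsmul, smul_smul]
    rw [R.mul_assoc (show l + m = ml by lia) (show m + n = nm by lia) (by lia) (by lia) z y x,
      ← Units.val_mul, ← Units.val_mul, ← Int.negOnePow_add, ← Int.negOnePow_add]
    congr 3
    subst h₁ h₂
    ring
  d_mul {n m p n' m' p'} h hn hm hp x y := by
    subst hn hm
    simp only [Units.smul_def, LinearMap.smul_apply, LinearMap.flip_apply, map_zsmul]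
    rw [R.d_mul (show m + n = p by lia) rfl rfl hp y x]
    simp only [Units.smul_def, smul_add, smul_smul, mul_add, add_mul, _root_.mul_one,
      _root_.one_mul, Int.negOnePow_add, Units.val_mul]
    rcases Int.units_eq_one_or n.negOnePow with s1 | s1 <;>
    rcases Int.units_eq_one_or m.negOnePow with s2 | s2 <;>
    rcases Int.units_eq_one_or (n * m).negOnePow with s3 | s3 <;>
    · simp only [s1, s2, s3, Units.val_one, Units.val_neg, _root_.mul_one, _root_.one_mul, mul_neg,
        neg_mul, neg_neg, one_smul, neg_smul]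
      abel

end Orl
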