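import Pool.Agent.Work.MP_a6e60d_ag.DG.Mod
import Pool.Agent.Work.MP_a6e60d_ag.Def.Alg

/-!
MP_a6e60d_ag: translation of DG algebras and right DG modules to the definitions of the statement.
-/

open CategoryTheory CochainComplex HomComplex

attribute [-instance] CategoryTheory.catToReflQuiver

namespace Orl

universe v w

variable {k : Type w} [CommRing k]

/-- a complex in the category of modules as a complex of modules -/
def ofCC (K : CochainComplex (ModuleCat.{v} k) ℤ) : FdDG.Cx.{v} k where
  X := K.X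
  d n m := (K.d n m).hom
  shape n m h := by
    rw [K.shape n m h]
    rfl
  d_d n m p x := by
    rw [← LinearMap.comp_apply, ← ModuleCat.hom_comp, K.d_comp_d]
    rfl

lemma ofCC_toCC (K : CochainComplex (ModuleCat.{v} k) ℤ) : (ofCC K).toCC = K := rfl

/-- a DG algebra as a DG algebra of the statement -/
def DGAlg.toFd (R : DGAlg.{v} k) : FdDG.DGAlg.{v} k where
  K := ofCC R.cx
  mul :=
    { mul := fun h => R.mul h
      leibniz := fun h hp hq hr a b => R.d_mul h hp hq hr a b }
  one := R.one
  assoc _ _ _ _ _ _ h₁ h₂ h₃ h₄ a b c := R.mul_assoc h₁ h₃ h₂ h₄ a b c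
  one_mul _ b := R.one_mul b
  mul_one _ a := R.mul_one a

/-- a right DG module as a right DG module of the statement -/
def DGMod.toFd {R : DGAlg.{v} k} (M : DGMod R) : FdDG.DGMod R.toFd where
  K := ofCC M.cx
  act :=
    { mul := fun h => M.act h
      leibniz := fun h hp hq hr a b => M.d_act h hp hq hr a b }
  assoc _ _ _ _ _ _ h₁ h₂ h₃ h₄ a b c := M.act_mul h₁ h₃ h₂ h₄ a b c
  act_one _ a := M.act_one a

lemma isFinDim_toFd {R : DGAlg.{v} k} :
    R.toFd.IsFinDim ↔ Module.Finite k (DirectSum ℤ fun n => R.cx.X n) := Iff.rfl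

/-- homogeneous maps -/
lemma isHom_toFd {R : DGAlg.{v} k} {M N : DGMod R} {n : ℤ} {z : Cochain M.cx N.cx n} :
    FdDG.DGMod.IsHom M.toFd N.toFd (n := n) z ↔ z ∈ DGMod.lin M N n := by
  constructor
  · intro h p q hpq m p' q' hp hq x r
    exact h hpq (by lia) hp hq x r
  · intro h p q s p' q' hpq hpq' hp hq x a
    exact h p q hpq s p' q' hp hq x a

end Orl
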