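import Pool.Agent.Work.MP_a6e60d_ag.DG.ToAlg

/-!
MP_a6e60d_ag: translation of DG categories, quasi-equivalences and categories of perfect DG modules
to the definitions of the statement.
-/

open CategoryTheory CochainComplex HomComplex

attribute [-instance] CategoryTheory.catToReflQuiver

universe v u u' w

namespace FdDG

variable {k : Type w} [CommRing k]

section Functor

variable {D E : DGCat.{v, u} k} (F : DGFunctor D E)

theorem CxHom.app_add {A B : Cx.{v} k} (φ : CxHom A B) (n : ℤ) (x y : A.X n) :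
    CxHom.app φ n (x + y) = CxHom.app φ n x + CxHom.app φ n y := map_add (φ.f n) x y

theorem CxHom.app_zero {A B : Cx.{v} k} (φ : CxHom A B) (n : ℤ) :
    CxHom.app φ n (0 : A.X n) = 0 := map_zero (φ.f n)

theorem CxHom.app_d {A B : Cx.{v} k} (φ : CxHom A B) (n m : ℤ) (x : A.X n) :
    CxHom.app φ m (A.d n m x) = B.d n m (CxHom.app φ n x) := φ.comm n m x

/-- the action of a DG functor on morphisms -/
def DGFunctor.mp {X Y : D.Obj} {n : ℤ} (f : (D.Hom X Y).X n) :
    (E.Hom (F.obj X) (F.obj Y)).X n := CxHom.app (F.map X Y) n f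

theorem DGFunctor.mp_cmp {X Y Z : D.Obj} {p q r : ℤ} (h : p + q = r) (g : (D.Hom Y Z).X p)
    (f : (D.Hom X Y).X q) : F.mp (D.cmp h g f) = E.cmp h (F.mp g) (F.mp f) := F.map_comp h g f

theorem DGFunctor.mp_one (X : D.Obj) : F.mp (D.one X) = E.one (F.obj X) := F.map_one X

theorem DGFunctor.mp_add {X Y : D.Obj} {n : ℤ} (f g : (D.Hom X Y).X n) :
    F.mp (f + g) = F.mp f + F.mp g := CxHom.app_add _ _ _ _

theorem DGFunctor.mp_zero {X Y : D.Obj} {n : ℤ} :
    F.mp (0 : (D.Hom X Y).X n) = 0 := CxHom.app_zero _ _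

theorem DGFunctor.mp_d {X Y : D.Obj} (n m : ℤ) (f : (D.Hom X Y).X n) :
    F.mp ((D.Hom X Y).d n m f) = (E.Hom (F.obj X) (F.obj Y)).d n m (F.mp f) :=
  CxHom.app_d _ _ _ _

theorem DGFunctor.closed {X Y : D.Obj} {n : ℤ} {f : (D.Hom X Y).X n} (hf : D.Closed f) :
    E.Closed (F.mp f) := by
  have h : (D.Hom X Y).d n (n + 1) f = 0 := hf
  change (E.Hom _ _).d n (n + 1) (F.mp f) = 0
  rw [← F.mp_d, h, F.mp_zero]

theorem DGFunctor.homotopic {X Y : D.Obj} {n : ℤ} {f g : (D.Hom X Y).X n}
    (h : D.Homotopic f g) : E.Homotopic (F.mp f) (F.mp g) := by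
  obtain ⟨z, hz⟩ := h
  exact ⟨F.mp z, by rw [hz, F.mp_add, F.mp_d]⟩

theorem DGFunctor.isSummand {X Y : D.Obj} (h : D.IsSummandOfShift X Y) :
    E.IsSummandOfShift (F.obj X) (F.obj Y) := by
  obtain ⟨n, a, b, ha, hb, h⟩ := h
  refine ⟨n, F.mp a, F.mp b, F.closed ha, F.closed hb, ?_⟩
  rw [← F.mp_cmp, ← F.mp_one]
  exact F.homotopic h

/-- the image of a cone -/
def DGFunctor.isCone {X Y Z : D.Obj} {f : (D.Hom X Y).X 0} (c : D.IsCone f Z) :
    E.IsCone (F.mp f) (F.obj Z) where
  inl := F.mp c.inl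
  inr := F.mp c.inr
  fst := F.mp c.fst
  snd := F.mp c.snd
  fst_inl := by rw [← F.mp_cmp, c.fst_inl, F.mp_one]
  snd_inr := by rw [← F.mp_cmp, c.snd_inr, F.mp_one]
  snd_inl := by rw [← F.mp_cmp, c.snd_inl, F.mp_zero]
  fst_inr := by rw [← F.mp_cmp, c.fst_inr, F.mp_zero]
  total := by rw [← F.mp_cmp, ← F.mp_cmp, ← F.mp_add, c.total, F.mp_one]
  d_inl := by
    rw [← F.mp_cmp, ← c.d_inl]
    exact (F.mp_d _ _ _).symm
  d_inr := F.closed c.d_inr

theorem DGFunctor.thick {S : D.Obj → Prop} {T : E.Obj → Prop} (h : ∀ X, S X → T (F.obj X))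
    {X : D.Obj} (hX : D.Thick S X) : E.Thick T (F.obj X) := by
  induction hX with
  | of X hX => exact .of _ (h X hX)
  | cone X Y Z f _ _ hf c h1 h2 =>
    obtain ⟨c⟩ := c
    exact .cone _ _ _ (F.mp f) h1 h2 (F.closed hf) ⟨F.isCone c⟩
  | summand X Y _ hY h1 => exact .summand _ _ h1 (F.isSummand hY)

/-- the restriction of a DG functor to full DG subcategories -/
def DGFunctor.full (P : D.Obj → Prop) (Q : E.Obj → Prop) (h : ∀ X, P X → Q (F.obj X)) :
    DGFunctor (D.full P) (E.full Q) where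
  obj X := ⟨F.obj X.1, h X.1 X.2⟩
  map X Y := F.map X.1 Y.1
  map_comp h g f := F.map_comp h g f
  map_one X := F.map_one X.1

theorem DGCat.equivalent_refl (D : DGCat.{v, u} k) (X : D.Obj) : D.Equivalent X X := by
  have h1 : D.Closed (D.one X) := by
    have e := (D.comp X X X).leibniz (add_zero 0) (zero_add 1) (zero_add 1) (zero_add 1)
      (D.one X) (D.one X)
    have e1 : (D.comp X X X).mul (add_zero 0) (D.one X) (D.one X) = D.one X :=
      D.one_comp X X 0 (D.one X)
    have e2 : (D.comp X X X).mul (show (0 : ℤ) + 1 = 1 by lia) (D.one X)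
        ((D.Hom X X).d 0 1 (D.one X)) = (D.Hom X X).d 0 1 (D.one X) :=
      D.one_comp X X 1 _
    have e3 : (D.comp X X X).mul (show (1 : ℤ) + 0 = 1 by lia)
        ((D.Hom X X).d 0 1 (D.one X)) (D.one X) = (D.Hom X X).d 0 1 (D.one X) :=
      D.comp_one X X 1 _
    rw [e1, e2, e3] at e
    have e' : (D.Hom X X).d 0 1 (D.one X) = 0 := by simpa using e
    exact e'
  refine ⟨D.one X, D.one X, h1, h1, ?_, ?_⟩ <;>
  · refine ⟨0, ?_⟩
    rw [map_zero, add_zero]
    exact D.one_comp X X 0 (D.one X)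

theorem QIso.of_bijective {A B : Cx.{v} k} (φ : CxHom A B)
    (h : ∀ n, Function.Bijective (CxHom.app φ n)) : QIso A.d B.d (CxHom.app φ) := by
  refine ⟨fun n x _ hx => ?_, fun n y hy => ?_⟩
  · obtain ⟨z, hz⟩ := hx
    obtain ⟨z', rfl⟩ := (h _).2 z
    refine ⟨z', (h n).1 ?_⟩
    rw [hz, zero_add, zero_add, CxHom.app_d]
  · obtain ⟨x, rfl⟩ := (h n).2 y
    refine ⟨x, (h _).1 ?_, 0, ?_⟩
    · rw [CxHom.app_d, CxHom.app_zero]
      exact hy
    · rw [map_zero, add_zero]

theorem DGFunctor.isQuasiEquivalence_of_bijective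
    (hF : ∀ (X Y : D.Obj) (n : ℤ), Function.Bijective (F.mp : (D.Hom X Y).X n → _))
    (hobj : ∀ Y, ∃ X, F.obj X = Y) : F.IsQuasiEquivalence :=
  ⟨fun X Y => QIso.of_bijective _ (hF X Y), fun Y => by
    obtain ⟨X, rfl⟩ := hobj Y
    exact ⟨X, E.equivalent_refl _⟩⟩

end Functor

section Sub

variable {D : DGCat.{v, u} k} {O : Type u'} {F : O → D.Obj}
  {S : ∀ (X Y : O) (n : ℤ), (D.Hom (F X) (F Y)).X n → Prop} (h : D.IsSub F S)

theorem DGCat.IsSub.subVal_cmp {X Y Z : O} {p q r : ℤ} (e : p + q = r)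
    (g : (h.toDGCat.Hom Y Z).X p) (f : (h.toDGCat.Hom X Y).X q) :
    subVal (h.sub X Z) (h.toDGCat.cmp e g f) =
      D.cmp e (subVal (h.sub Y Z) g) (subVal (h.sub X Y) f) :=
  subVal_subPairing _ _ _ _ h.comp e g f

theorem DGCat.IsSub.subVal_one (X : O) :
    subVal (h.sub X X) (h.toDGCat.one X) = D.one (F X) := subVal_subElt _ _ (h.one X)

end Sub

end FdDG

namespace Orl

variable {k : Type w} [CommRing k]

/-- a DG category as a DG category of the statement -/
def DGCat.toFd (A : DGCat.{v, u} k) : FdDG.DGCat.{v, u} k where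
  Obj := A.Obj
  Hom a b :=
    { X := fun n => ModuleCat.of k (A.Hom a b n)
      d := fun n m => A.d n m
      shape := fun n m h => LinearMap.ext fun x => A.d_shape n m x h
      d_d := fun n m l x => A.d_d n m l x }
  comp a b c :=
    { mul := fun {p q r} h => (A.comp (show q + p = r by lia)).flip
      leibniz := fun {p q r p' q' r'} h hp hq hr g f => by
        exact A.d_comp (show q + p = r by lia) hq hp hr f g }
  one a := A.id a
  assoc a b c e _ _ _ _ _ _ h₁ h₂ h₃ h₄ h g f :=
    (A.assoc (by lia) (by lia) (by lia) (by lia) f g h).symm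
  one_comp a b p f := A.comp_id f
  comp_one a b p f := A.id_comp f

/-- a DG functor as a DG functor of the statement -/
def DGFun.toFd {A B : DGCat.{v, u} k} (F : DGFun A B) : FdDG.DGFunctor A.toFd B.toFd where
  obj := F.obj
  map a b :=
    { f := fun n => F.map
      comm := fun n m x => F.map_d n m x }
  map_comp h g f := F.map_comp _ f g
  map_one a := F.map_id a

theorem DGFun.IsQuasiEquiv.toFd {A B : DGCat.{v, u} k} {F : DGFun A B} (h : F.IsQuasiEquiv) :
    F.toFd.IsQuasiEquivalence := by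
  refine ⟨fun a b => ⟨fun n x hx hx' => ?_, fun n y hy => ?_⟩, fun b => ?_⟩
  · obtain ⟨z, hz⟩ := hx'
    obtain ⟨g, hg⟩ := h.inj n x hx ⟨z, by
      rw [zero_add] at hz
      exact hz.symm⟩
    exact ⟨g, by rw [zero_add]; exact hg.symm⟩
  · obtain ⟨f, hf, z, hz⟩ := h.surj n y hy
    refine ⟨f, hf, z, ?_⟩
    exact (sub_eq_iff_eq_add'.mp hz.symm)
  · obtain ⟨a, f, g, hf, hg, ⟨h1, e1⟩, ⟨h2, e2⟩⟩ := h.ess b
    refine ⟨a, f, g, hf, hg, ⟨h1, ?_⟩, ⟨h2, ?_⟩⟩
    · exact (sub_eq_iff_eq_add'.mp e1.symm)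
    · exact (sub_eq_iff_eq_add'.mp e2.symm)

theorem QuasiEquivalent.toFd {A B : DGCat.{v, u} k} (h : QuasiEquivalent A B) :
    FdDG.QuasiEquivalent A.toFd B.toFd := by
  induction h with
  | rel A B h => exact .rel _ _ ⟨h.choose.toFd, h.choose_spec.toFd⟩
  | refl A => exact .refl _
  | symm A B _ ih => exact .symm _ _ ih
  | trans A B C _ _ h1 h2 => exact .trans _ _ _ h1 h2

section Thick

variable {A : DGCat.{v, u} k}

theorem toFd_isSummand {t : ℤ} {a b : A.Obj} (h : DGCat.IsRetract t a b) :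
    A.toFd.IsSummandOfShift b a := by
  obtain ⟨p, r, hp, hr, z, hz⟩ := h
  exact ⟨t, p, r, hp, hr, z, sub_eq_iff_eq_add'.mp hz.symm⟩

theorem isRetract_of_toFd {a b : A.Obj} (h : A.toFd.IsSummandOfShift b a) :
    ∃ t : ℤ, DGCat.IsRetract t a b := by
  obtain ⟨t, p, r, hp, hr, z, hz⟩ := h
  exact ⟨t, p, r, hp, hr, z, (sub_eq_iff_eq_add'.mpr hz).symm⟩

/-- a cone as a cone of the statement -/
def toFd_isCone {a b c : A.Obj} {f : A.Hom a b 0} (e : DGCat.Cone f c) :
    A.toFd.IsCone (X := a) (Y := b) f c where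
  inl := e.inl
  inr := e.inr
  fst := e.fst
  snd := e.snd
  fst_inl := e.inl_fst
  snd_inr := e.inr_snd
  snd_inl := e.inl_snd
  fst_inr := e.inr_fst
  total := e.total
  d_inl := e.d_inl
  d_inr := e.d_inr

theorem DGCat.d_id (A : DGCat.{v, u} k) (a : A.Obj) : A.d 0 1 (A.id a) = 0 := by
  have e := A.d_comp (add_zero 0) (zero_add 1) (zero_add 1) (zero_add 1) (A.id a) (A.id a)
  rw [A.id_comp, A.id_comp, A.comp_id] at e
  simpa using e

/-- a cone of the statement as a cone -/
def coneOfFd {a b c : A.Obj} {f : A.Hom a b 0} (e : A.toFd.IsCone (X := a) (Y := b) f c) :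
    DGCat.Cone f c := by
  have inl_fst : A.comp (neg_add_cancel 1) e.inl e.fst = A.id a := e.fst_inl
  have inl_snd : A.comp (add_zero (-1)) e.inl e.snd = 0 := e.snd_inl
  have inr_fst : A.comp (zero_add 1) e.inr e.fst = 0 := e.fst_inr
  have inr_snd : A.comp (add_zero 0) e.inr e.snd = A.id b := e.snd_inr
  have total : A.comp (add_neg_cancel 1) e.fst e.inl + A.comp (add_zero 0) e.snd e.inr =
    A.id c := e.total
  have d_inl : A.d (-1) 0 e.inl = A.comp (add_zero 0) f e.inr := e.d_inl
  have d_inr : A.d 0 1 e.inr = 0 := e.d_inr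
  exact
    { inl := e.inl
      inr := e.inr
      fst := e.fst
      snd := e.snd
      inl_fst := inl_fst
      inl_snd := inl_snd
      inr_fst := inr_fst
      inr_snd := inr_snd
      total := total
      d_inl := d_inl
      d_inr := d_inr
      d_fst := by
        have h1 : A.comp (show (-1 : ℤ) + 2 = 1 by lia) e.inl (A.d 1 2 e.fst) = 0 := by
          have h := A.d_comp (neg_add_cancel 1) (neg_add_cancel 1) rfl (zero_add 1) e.inl e.fst
          rw [inl_fst, A.d_id, d_inl, A.assoc (add_zero 0) (zero_add 1) _ (zero_add 1) f e.inr e.fst,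
            inr_fst, map_zero, smul_zero, add_zero] at h
          exact h.symm
        have h2 : A.comp (show (0 : ℤ) + 2 = 2 by lia) e.inr (A.d 1 2 e.fst) = 0 := by
          have h := A.d_comp (zero_add 1) (zero_add 1) rfl rfl e.inr e.fst
          rw [inr_fst, map_zero, d_inr, map_zero, LinearMap.zero_apply, smul_zero, add_zero] at h
          exact h.symm
        rw [← A.id_comp (A.d 1 2 e.fst), ← total, map_add, LinearMap.add_apply,
          A.assoc (add_neg_cancel 1) (show (-1 : ℤ) + 2 = 1 by lia) _ (show (1 : ℤ) + 1 = 2 by lia),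
          A.assoc (add_zero 0) (show (0 : ℤ) + 2 = 2 by lia) _ (show (0 : ℤ) + 2 = 2 by lia),
          h1, h2, map_zero, map_zero, add_zero]
      d_snd := by
        have h1 : A.comp (show (-1 : ℤ) + 1 = 0 by lia) e.inl (A.d 0 1 e.snd) = - f := by
          have h := A.d_comp (add_zero (-1)) (neg_add_cancel 1) (zero_add 1) (neg_add_cancel 1)
            e.inl e.snd
          rw [inl_snd, map_zero, d_inl, A.assoc (add_zero 0) (add_zero 0) _ (add_zero 0) f e.inr
            e.snd, inr_snd, A.comp_id, Int.negOnePow_zero, one_smul] at h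
          exact eq_neg_of_add_eq_zero_left h.symm
        have h2 : A.comp (show (0 : ℤ) + 1 = 1 by lia) e.inr (A.d 0 1 e.snd) = 0 := by
          have h := A.d_comp (add_zero 0) (zero_add 1) (zero_add 1) (zero_add 1) e.inr e.snd
          rw [inr_snd, A.d_id, d_inr, map_zero, LinearMap.zero_apply, smul_zero, add_zero] at h
          exact h.symm
        rw [← A.id_comp (A.d 0 1 e.snd), ← total, map_add, LinearMap.add_apply,
          A.assoc (add_neg_cancel 1) (show (-1 : ℤ) + 1 = 0 by lia) _ (add_zero 1),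
          A.assoc (add_zero 0) (show (0 : ℤ) + 1 = 1 by lia) _ (show (0 : ℤ) + 1 = 1 by lia),
          h1, h2, map_zero, map_neg, add_zero] }

theorem thick_toFd {g a : A.Obj} (h : DGCat.Thick g a) : A.toFd.Thick (fun x => x = g) a := by
  induction h with
  | gen => exact .of _ rfl
  | cone f hf e _ _ h1 h2 => exact .cone _ _ _ f h1 h2 hf ⟨toFd_isCone e⟩
  | retract t h _ h1 => exact .summand _ _ h1 (toFd_isSummand h)

theorem thick_of_toFd {g : A.Obj} {a : A.toFd.Obj} (h : A.toFd.Thick (fun x => x = g) a) :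
    DGCat.Thick (A := A) g a := by
  induction h with
  | of X hX => exact hX ▸ .gen
  | cone X Y Z f _ _ hf c h1 h2 => exact .cone f hf (coneOfFd c.some) h1 h2
  | summand X Y _ hY h1 =>
    obtain ⟨t, ht⟩ := isRetract_of_toFd hY
    exact .retract t ht h1

theorem thick_toFd_iff {g a : A.Obj} : A.toFd.Thick (fun x => x = g) a ↔ DGCat.Thick g a :=
  ⟨thick_of_toFd, thick_toFd⟩

end Thick

section Complexes

variable {C : Type u} [Category.{v} C] [Preadditive C] [Linear k C]

/-- the identity of the DG category of complexes -/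
noncomputable def cxFd : FdDG.DGFunctor (cxDG k C).toFd (FdDG.complexes k C) where
  obj X := X
  map X Y :=
    { f := fun n => LinearMap.id
      comm := fun n m x => rfl }
  map_comp h g f := rfl
  map_one X := rfl

theorem quasiEquivalent_cxFd (P : CochainComplex C ℤ → Prop) :
    FdDG.QuasiEquivalent ((cxDG k C).full P).toFd ((FdDG.complexes k C).full P) := by
  refine .rel _ _ ⟨(cxFd (k := k) (C := C)).full P P (fun _ h => h), ?_⟩
  exact FdDG.DGFunctor.isQuasiEquivalence_of_bijective _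
    (fun X Y n => Function.bijective_id) (fun Y => ⟨Y, rfl⟩)

end Complexes

section Modules

variable {R : DGAlg.{v} k}

/-- a right DG module of the statement as a right DG module -/
def DGMod.ofFd (M : FdDG.DGMod R.toFd) : DGMod R where
  cx := M.K.toCC
  act h := M.act.mul h
  act_one x := M.act_one _ x
  act_mul h₁ h₂ h₃ h₄ x r s := M.assoc h₁ h₃ h₂ h₄ x r s
  d_act h hn hm hp x r := M.act.leibniz h hn hm hp x r

theorem DGMod.toFd_ofFd (M : FdDG.DGMod R.toFd) : (DGMod.ofFd M).toFd = M := rfl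

theorem DGMod.ofFd_toFd (M : DGMod R) : DGMod.ofFd M.toFd = M := rfl

/-- a homogeneous map of right DG modules as a homogeneous map of the statement -/
noncomputable def linFd {M N : DGMod R} {n : ℤ} (z : DGMod.lin M N n) :
    ((FdDG.DGMod.cat R.toFd).Hom M.toFd N.toFd).X n :=
  FdDG.subElt ((FdDG.DGMod.isSub R.toFd).sub M.toFd N.toFd) z.1 (isHom_toFd.2 z.2)

/-- a homogeneous map of the statement as a homogeneous map of right DG modules -/
noncomputable def fdLin {M N : DGMod R} {n : ℤ}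
    (x : ((FdDG.DGMod.cat R.toFd).Hom M.toFd N.toFd).X n) : DGMod.lin M N n :=
  ⟨FdDG.subVal ((FdDG.DGMod.isSub R.toFd).sub M.toFd N.toFd) x,
    isHom_toFd.1 (FdDG.subVal_mem ((FdDG.DGMod.isSub R.toFd).sub M.toFd N.toFd) x)⟩

theorem fdLin_linFd {M N : DGMod R} {n : ℤ} (z : DGMod.lin M N n) : fdLin (linFd z) = z :=
  Subtype.ext (FdDG.subVal_subElt _ _ _)

theorem fdLin_injective {M N : DGMod R} {n : ℤ} :
    Function.Injective (fdLin : ((FdDG.DGMod.cat R.toFd).Hom M.toFd N.toFd).X n → _) :=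
  fun x y h => FdDG.subVal_injective _ _ (congrArg Subtype.val h)

theorem linFd_fdLin {M N : DGMod R} {n : ℤ}
    (x : ((FdDG.DGMod.cat R.toFd).Hom M.toFd N.toFd).X n) : linFd (fdLin x) = x :=
  fdLin_injective (fdLin_linFd _)

/-- the DG category of right DG modules of the statement and the DG category of right DG
modules -/
noncomputable def fdMod (R : DGAlg.{v} k) :
    FdDG.DGFunctor (FdDG.DGMod.cat R.toFd) (modDG R).toFd where
  obj M := DGMod.ofFd M
  map M N :=
    { f := fun n =>
        { toFun := fun x => fdLin (M := DGMod.ofFd M) (N := DGMod.ofFd N) x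
          map_add' := fun x y => Subtype.ext (FdDG.subVal_add _ x y)
          map_smul' := fun c x => Subtype.ext (FdDG.subVal_smul _ c x) }
      comm := fun n m x => Subtype.ext (FdDG.subVal_d _ n m x) }
  map_comp h g f := Subtype.ext ((FdDG.DGMod.isSub R.toFd).subVal_cmp h g f)
  map_one M := Subtype.ext ((FdDG.DGMod.isSub R.toFd).subVal_one M)

theorem fdMod_mp (M N : DGMod R) {n : ℤ} (x : ((FdDG.DGMod.cat R.toFd).Hom M.toFd N.toFd).X n) :
    (fdMod R).mp (X := M.toFd) (Y := N.toFd) x = fdLin (M := M) (N := N) x := rfl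

theorem linFd_add {M N : DGMod R} {n : ℤ} (z z' : DGMod.lin M N n) :
    linFd (z + z') = linFd z + linFd z' := by
  apply (fdLin_injective (M := M) (N := N))
  rw [fdLin_linFd]
  refine Eq.trans ?_ ((fdMod R).mp_add (X := M.toFd) (Y := N.toFd) (linFd z) (linFd z')).symm
  rw [fdMod_mp, fdMod_mp, fdLin_linFd, fdLin_linFd]
  rfl

theorem linFd_smul {M N : DGMod R} {n : ℤ} (c : k) (z : DGMod.lin M N n) :
    linFd (c • z) = c • linFd z := by
  apply (fdLin_injective (M := M) (N := N))
  rw [fdLin_linFd]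
  refine Eq.trans ?_ (map_smul (((fdMod R).map M.toFd N.toFd).f n) c (linFd z)).symm
  change c • z = c • fdLin (linFd z)
  rw [fdLin_linFd]

/-- the DG category of right DG modules and the DG category of right DG modules of the
statement -/
noncomputable def modFd (R : DGAlg.{v} k) :
    FdDG.DGFunctor (modDG R).toFd (FdDG.DGMod.cat R.toFd) where
  obj M := DGMod.toFd M
  map M N :=
    { f := fun n =>
        { toFun := fun z => linFd (M := M) (N := N) z
          map_add' := linFd_add (M := M) (N := N)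
          map_smul' := linFd_smul (M := M) (N := N) }
      comm := fun n m z => fdLin_injective (M := M) (N := N) (by
        refine (fdLin_linFd _).trans ?_
        refine Eq.trans ?_
          ((fdMod R).mp_d (X := DGMod.toFd M) (Y := DGMod.toFd N) n m (linFd z)).symm
        rw [fdMod_mp, fdLin_linFd]
        rfl) }
  map_comp {X Y Z p q r} h g f := fdLin_injective (M := X) (N := Z) (by
    refine (fdLin_linFd _).trans ?_
    refine Eq.trans ?_ ((fdMod R).mp_cmp (X := DGMod.toFd X) (Y := DGMod.toFd Y)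
      (Z := DGMod.toFd Z) h (linFd g) (linFd f)).symm
    rw [fdMod_mp, fdMod_mp, fdLin_linFd, fdLin_linFd]
    rfl)
  map_one M := fdLin_injective (M := M) (N := M) (by
    refine (fdLin_linFd _).trans ?_
    exact ((fdMod R).mp_one (DGMod.toFd M)).symm)

theorem bijective_modFd (R : DGAlg.{v} k) (M N : (modDG R).toFd.Obj) (n : ℤ) :
    Function.Bijective ((modFd R).mp : (((modDG R).toFd).Hom M N).X n → _) :=
  ⟨fun x y h => by
    have h' : fdLin (M := M) (N := N) (linFd (M := M) (N := N) x) =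
      fdLin (M := M) (N := N) (linFd (M := M) (N := N) y) := congrArg _ h
    rw [fdLin_linFd, fdLin_linFd] at h'
    exact h', fun y => ⟨fdLin (M := M) (N := N) y, linFd_fdLin (M := M) (N := N) y⟩⟩

theorem thick_modFd {R : DGAlg.{v} k} {M : DGMod R} :
    (FdDG.DGMod.cat R.toFd).Thick (fun X => X = FdDG.DGMod.self R.toFd) (DGMod.toFd M) ↔
      DGCat.Thick (A := modDG R) R.self M := by
  refine ⟨fun h => thick_of_toFd ?_, fun h => ?_⟩
  · exact (fdMod R).thick (T := fun x => x = R.self) (by rintro X rfl; rfl) h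
  · exact (modFd R).thick (T := fun X => X = FdDG.DGMod.self R.toFd) (by rintro X rfl; rfl)
      (thick_toFd h)

/-- the DG category of perfect DG modules -/
theorem quasiEquivalent_perfFd (R : DGAlg.{v} k) :
    FdDG.QuasiEquivalent (perfDG R).toFd R.toFd.perf := by
  refine .rel _ _ ⟨(modFd R).full (fun M => DGCat.Thick (A := modDG R) R.self M)
    ((FdDG.DGMod.cat R.toFd).Thick fun M => M = FdDG.DGMod.self R.toFd)
    (fun _ h => thick_modFd.2 h), ?_⟩
  exact FdDG.DGFunctor.isQuasiEquivalence_of_bijective _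
    (fun X Y n => bijective_modFd R X.1 Y.1 n)
    (fun Y => ⟨⟨DGMod.ofFd Y.1, thick_modFd.1 Y.2⟩, rfl⟩)

end Modules

section Final

/-- quasi-equivalences with the category of perfect DG modules over R -/
theorem QuasiEquivalent.toFd_perf {k : Type v} [CommRing k] {C : Type (v + 1)} [Category.{v} C]
    [Preadditive C] [Linear k C] {P : CochainComplex C ℤ → Prop} {R : DGAlg.{v} k}
    (h : QuasiEquivalent ((cxDG k C).full P) (perfDG R)) :
    FdDG.QuasiEquivalent ((FdDG.complexes k C).full P) R.toFd.perf :=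
  .trans _ _ _ (.symm _ _ (quasiEquivalent_cxFd P)) (.trans _ _ _ h.toFd (quasiEquivalent_perfFd R))

end Final

end Orl
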