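import Pool.Agent.Work.MP_a6e60d_ag.DG.ToAlg
import Pool.Agent.Work.MP_a6e60d_ag.DG.Elem

/-!
MP_a6e60d_ag: smooth DG algebras are smooth in the sense of the definitions of the statement.  A
right DG module over the tensor product of the opposite algebra of R and of R is a DG bimodule.
-/

open CategoryTheory CochainComplex HomComplex TensorProduct DirectSum

attribute [-instance] CategoryTheory.catToReflQuiver

namespace Orl

universe v w

variable {k : Type w} [CommRing k]

namespace DGAlg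

variable (R : DGAlg.{v} k)

/-- the product of the tensor product of the opposite algebra of `R` and of `R` -/
abbrev emul {n m p : ℤ} (h : n + m = p) :
    TensX R.cx R.cx n →ₗ[k] TensX R.cx R.cx m →ₗ[k] TensX R.cx R.cx p :=
  tpair R.opMul (fun _ _ _ h => R.mul h) h

/-- the element `a ⊗ 1` -/
def il {n : ℤ} (a : R.cx.X n) : TensX R.cx R.cx n := tp (add_zero n) a R.one

/-- the element `1 ⊗ b` -/
def ir {n : ℤ} (b : R.cx.X n) : TensX R.cx R.cx n := tp (zero_add n) R.one b

lemma il_add {n : ℤ} (a a' : R.cx.X n) : R.il (a + a') = R.il a + R.il a' := by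
  rw [il, map_add, LinearMap.add_apply]
  rfl

lemma il_smul {n : ℤ} (c : k) (a : R.cx.X n) : R.il (c • a) = c • R.il a := by
  rw [il, map_smul, LinearMap.smul_apply]
  rfl

lemma ir_add {n : ℤ} (a a' : R.cx.X n) : R.ir (a + a') = R.ir a + R.ir a' := by
  rw [ir, map_add]
  rfl

lemma ir_smul {n : ℤ} (c : k) (a : R.cx.X n) : R.ir (c • a) = c • R.ir a := by
  rw [ir, map_smul]
  rfl

lemma opMul_apply {n m p : ℤ} (h : n + m = p) (h' : m + n = p) (a : R.cx.X n) (b : R.cx.X m) :
    R.opMul n m p h a b = (n * m).negOnePow • R.mul h' b a := rfl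

lemma ir_ir {n m p : ℤ} (h : n + m = p) (b : R.cx.X n) (c : R.cx.X m) :
    R.emul h (R.ir b) (R.ir c) = R.ir (R.mul h b c) := by
  rw [ir, ir, tpair_tp _ _ h (zero_add n) (zero_add m) (add_zero 0) h, mul_zero,
    Int.negOnePow_zero, one_smul, R.opMul_apply (add_zero 0) (add_zero 0), R.one_mul, mul_zero,
    Int.negOnePow_zero, one_smul]
  rfl

lemma il_ir {n m p : ℤ} (h : n + m = p) (a : R.cx.X n) (b : R.cx.X m) :
    R.emul h (R.il a) (R.ir b) = tp h a b := by
  rw [il, ir, tpair_tp _ _ h (add_zero n) (zero_add m) (add_zero n) (zero_add m), mul_zero,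
    Int.negOnePow_zero, one_smul, R.opMul_apply (add_zero n) (zero_add n), R.one_mul, mul_zero,
    Int.negOnePow_zero, one_smul, R.one_mul]

lemma ir_il {n m p : ℤ} (h : n + m = p) (h' : m + n = p) (b : R.cx.X n) (a : R.cx.X m) :
    R.emul h (R.ir b) (R.il a) = (n * m).negOnePow • tp h' a b := by
  rw [il, ir, tpair_tp _ _ h (zero_add n) (add_zero m) (zero_add m) (add_zero n),
    R.opMul_apply (zero_add m) (add_zero m), R.mul_one, zero_mul, Int.negOnePow_zero, one_smul,
    R.mul_one]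

lemma il_il {n m p : ℤ} (h : n + m = p) (h' : m + n = p) (a : R.cx.X n) (a' : R.cx.X m) :
    R.emul h (R.il a) (R.il a') = (n * m).negOnePow • R.il (R.mul h' a' a) := by
  rw [il, il, tpair_tp _ _ h (add_zero n) (add_zero m) h (add_zero 0), zero_mul,
    Int.negOnePow_zero, one_smul]
  simp only [R.mul_one, Units.smul_def, map_zsmul, LinearMap.smul_apply, LinearMap.flip_apply]
  rfl

lemma d_ir {n m : ℤ} (h : n + 1 = m) (b : R.cx.X n) :
    tD R.cx R.cx h (R.ir b) = R.ir (R.cx.d n m b) := by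
  rw [ir, tD_tp h (zero_add n) rfl h, R.d_one, map_zero, LinearMap.zero_apply, zero_add,
    Int.negOnePow_zero, one_smul]
  rfl

lemma d_il {n m : ℤ} (h : n + 1 = m) (a : R.cx.X n) :
    tD R.cx R.cx h (R.il a) = R.il (R.cx.d n m a) := by
  rw [il, tD_tp h (add_zero n) h rfl, R.d_one, map_zero, smul_zero, add_zero]
  rfl

end DGAlg

namespace DGMod

variable {R : DGAlg.{v} k}

section

variable (M : DGMod (R.op.tensor R))

/-- the action, as a bilinear map -/
def bac {n m p : ℤ} (h : n + m = p) : M.cx.X n →ₗ[k] TensX R.cx R.cx m →ₗ[k] M.cx.X p :=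
  M.act h

lemma bac_emul {n m l nm ml p : ℤ} (h₁ : n + m = nm) (h₂ : m + l = ml) (h₃ : nm + l = p)
    (h₄ : n + ml = p) (x : M.cx.X n) (y : TensX R.cx R.cx m) (z : TensX R.cx R.cx l) :
    M.bac h₃ (M.bac h₁ x y) z = M.bac h₄ x (R.emul h₂ y z) :=
  M.act_mul h₁ h₂ h₃ h₄ x y z

lemma bac_il_one {n : ℤ} (x : M.cx.X n) : M.bac (add_zero n) x (R.il R.one) = x :=
  M.act_one x

lemma bac_ir_one {n : ℤ} (x : M.cx.X n) : M.bac (add_zero n) x (R.ir R.one) = x :=
  M.act_one x

lemma d_bac {n m p n' m' p' : ℤ} (h : n + m = p) (hn : n + 1 = n') (hm : m + 1 = m')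
    (hp : p + 1 = p') (x : M.cx.X n) (y : TensX R.cx R.cx m) :
    M.cx.d p p' (M.bac h x y) = M.bac (by lia) (M.cx.d n n' x) y +
      n.negOnePow • M.bac (by lia) x (tD R.cx R.cx hm y) := by
  refine (M.d_act h hn hm hp x y).trans ?_
  congr 3
  exact tensCx_d_apply (K := R.cx) (L := R.cx) hm y

/-- the right action -/
def rb {n m p : ℤ} (h : n + m = p) (x : M.cx.X n) (b : R.cx.X m) : M.cx.X p :=
  M.bac h x (R.ir b)

/-- the left action -/
def lb {n m p : ℤ} (h : n + m = p) (a : R.cx.X n) (x : M.cx.X m) : M.cx.X p :=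
  (n * m).negOnePow • M.bac (show m + n = p by lia) x (R.il a)

lemma rb_add {n m p : ℤ} (h : n + m = p) (x : M.cx.X n) (b b' : R.cx.X m) :
    M.rb h x (b + b') = M.rb h x b + M.rb h x b' := by
  rw [rb, R.ir_add, map_add]
  rfl

lemma add_rb {n m p : ℤ} (h : n + m = p) (x x' : M.cx.X n) (b : R.cx.X m) :
    M.rb h (x + x') b = M.rb h x b + M.rb h x' b := by
  rw [rb, map_add, LinearMap.add_apply]
  rfl

lemma rb_smul {n m p : ℤ} (h : n + m = p) (c : k) (x : M.cx.X n) (b : R.cx.X m) :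
    M.rb h x (c • b) = c • M.rb h x b := by
  rw [rb, R.ir_smul, map_smul]
  rfl

lemma smul_rb {n m p : ℤ} (h : n + m = p) (c : k) (x : M.cx.X n) (b : R.cx.X m) :
    M.rb h (c • x) b = c • M.rb h x b := by
  rw [rb, map_smul, LinearMap.smul_apply]
  rfl

lemma lb_add {n m p : ℤ} (h : n + m = p) (a : R.cx.X n) (x x' : M.cx.X m) :
    M.lb h a (x + x') = M.lb h a x + M.lb h a x' := by
  rw [lb, map_add, LinearMap.add_apply, smul_add]
  rfl

lemma add_lb {n m p : ℤ} (h : n + m = p) (a a' : R.cx.X n) (x : M.cx.X m) :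
    M.lb h (a + a') x = M.lb h a x + M.lb h a' x := by
  rw [lb, R.il_add, map_add, smul_add]
  rfl

lemma lb_smul {n m p : ℤ} (h : n + m = p) (c : k) (a : R.cx.X n) (x : M.cx.X m) :
    M.lb h a (c • x) = c • M.lb h a x := by
  rw [lb, map_smul, LinearMap.smul_apply, smul_comm]
  rfl

lemma smul_lb {n m p : ℤ} (h : n + m = p) (c : k) (a : R.cx.X n) (x : M.cx.X m) :
    M.lb h (c • a) x = c • M.lb h a x := by
  rw [lb, R.il_smul, map_smul, smul_comm]
  rfl

lemma d_rb {n m p n' m' p' : ℤ} (h : n + m = p) (hn : n + 1 = n') (hm : m + 1 = m')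
    (hp : p + 1 = p') (x : M.cx.X n) (b : R.cx.X m) :
    M.cx.d p p' (M.rb h x b) = M.rb (by lia) (M.cx.d n n' x) b +
      n.negOnePow • M.rb (by lia) x (R.cx.d m m' b) := by
  rw [rb, M.d_bac h hn hm hp, R.d_ir hm]
  rfl

lemma d_lb {n m p n' m' p' : ℤ} (h : n + m = p) (hn : n + 1 = n') (hm : m + 1 = m')
    (hp : p + 1 = p') (a : R.cx.X n) (x : M.cx.X m) :
    M.cx.d p p' (M.lb h a x) = M.lb (by lia) (R.cx.d n n' a) x +
      n.negOnePow • M.lb (by lia) a (M.cx.d m m' x) := by
  rw [lb, lb, lb, Units.smul_def, map_zsmul, M.d_bac (show m + n = p by lia) hm hn hp x,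
    R.d_il hn, ← Units.smul_def, smul_add, smul_smul, smul_smul, add_comm]
  congr 2
  · rw [← Int.negOnePow_add, ← hn]
    congr 1
    ring
  · rw [← Int.negOnePow_add, ← hm, Int.negOnePow_eq_iff]
    exact ⟨-n, by ring⟩

lemma rb_rb {n m l nm ml p : ℤ} (h₁ : n + m = nm) (h₂ : nm + l = p) (h₃ : m + l = ml)
    (h₄ : n + ml = p) (x : M.cx.X n) (b : R.cx.X m) (c : R.cx.X l) :
    M.rb h₂ (M.rb h₁ x b) c = M.rb h₄ x (R.mul h₃ b c) := by
  rw [rb, rb, M.bac_emul h₁ h₃ h₂ h₄, R.ir_ir]
  rfl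

lemma rb_one {n : ℤ} (x : M.cx.X n) : M.rb (add_zero n) x R.one = x := M.bac_ir_one x

lemma lb_lb {p q r s t e : ℤ} (h₁ : p + q = s) (h₂ : s + r = e) (h₃ : q + r = t)
    (h₄ : p + t = e) (a : R.cx.X p) (b : R.cx.X q) (x : M.cx.X r) :
    M.lb h₂ (R.mul h₁ a b) x = M.lb h₄ a (M.lb h₃ b x) := by
  rw [lb, lb, lb, Units.smul_def (q * r).negOnePow, map_zsmul, LinearMap.smul_apply,
    ← Units.smul_def, M.bac_emul (show r + q = t by lia) (show q + p = s by lia)
      (show t + p = e by lia) (show r + s = e by lia), R.il_il (show q + p = s by lia) h₁,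
    Units.smul_def (q * p).negOnePow, map_zsmul, ← Units.smul_def, smul_smul, smul_smul]
  congr 1
  rw [← Int.negOnePow_add, ← Int.negOnePow_add, ← h₁, ← h₃, Int.negOnePow_eq_iff]
  exact ⟨- (p * q), by ring⟩

lemma one_lb {n : ℤ} (x : M.cx.X n) : M.lb (zero_add n) R.one x = x := by
  rw [lb, M.bac_il_one, zero_mul, Int.negOnePow_zero, one_smul]

/-- `(a x) b` in terms of the action of the tensor product -/
lemma rb_lb {p q r s e f : ℤ} (h₁ : p + q = s) (h₂ : s + r = e) (h₃ : p + r = f)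
    (h₄ : q + f = e) (a : R.cx.X p) (x : M.cx.X q) (b : R.cx.X r) :
    M.rb h₂ (M.lb h₁ a x) b = (p * q).negOnePow • M.bac h₄ x (tp h₃ a b) := by
  rw [rb, lb, Units.smul_def, map_zsmul, LinearMap.smul_apply, ← Units.smul_def,
    M.bac_emul (show q + p = s by lia) h₃ h₂ h₄, R.il_ir]

lemma lb_rb {p q r s t e : ℤ} (h₁ : p + q = s) (h₂ : s + r = e) (h₃ : q + r = t)
    (h₄ : p + t = e) (a : R.cx.X p) (x : M.cx.X q) (b : R.cx.X r) :
    M.rb h₂ (M.lb h₁ a x) b = M.lb h₄ a (M.rb h₃ x b) := by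
  rw [M.rb_lb h₁ h₂ rfl (show q + (p + r) = e by lia), rb, lb,
    M.bac_emul h₃ (show r + p = p + r by lia) (show t + p = e by lia)
      (show q + (p + r) = e by lia), R.ir_il (show r + p = p + r by lia) rfl,
    Units.smul_def (r * p).negOnePow, map_zsmul, ← Units.smul_def, smul_smul]
  congr 1
  rw [← Int.negOnePow_add, ← h₃, Int.negOnePow_eq_iff]
  exact ⟨- (p * r), by ring⟩

/-- a right DG module over the tensor product as a DG bimodule of the statement -/
def toBi : FdDG.DGBimod R.toFd where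
  K := ofCC M.cx
  act :=
    { mul := fun h => LinearMap.mk₂ k (M.rb h) (fun x x' b => M.add_rb h x x' b)
        (fun c x b => M.smul_rb h c x b) (fun x b b' => M.rb_add h x b b')
        (fun c x b => M.rb_smul h c x b)
      leibniz := fun h hp hq hr x b => M.d_rb h hp hq hr x b }
  assoc _ _ _ _ _ _ h₁ h₂ h₃ h₄ x b c := M.rb_rb h₁ h₂ h₃ h₄ x b c
  act_one _ x := M.rb_one x
  lact :=
    { mul := fun h => LinearMap.mk₂ k (M.lb h) (fun a a' x => M.add_lb h a a' x)
        (fun c a x => M.smul_lb h c a x) (fun a x x' => M.lb_add h a x x')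
        (fun c a x => M.lb_smul h c a x)
      leibniz := fun h hp hq hr a x => M.d_lb h hp hq hr a x }
  lassoc _ _ _ _ _ _ h₁ h₂ h₃ h₄ a b x := M.lb_lb h₁ h₂ h₃ h₄ a b x
  one_lact _ x := M.one_lb x
  lact_act _ _ _ _ _ _ h₁ h₂ h₃ h₄ a x b := M.lb_rb h₁ h₂ h₃ h₄ a x b

lemma rmul_toBi {p q r : ℤ} (h : p + q = r) (x : M.cx.X p) (b : R.cx.X q) :
    M.toBi.rmul h x b = M.rb h x b := rfl

lemma lmul_toBi {p q r : ℤ} (h : p + q = r) (a : R.cx.X p) (x : M.cx.X q) :
    M.toBi.lmul h a x = M.lb h a x := rfl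

end

section

variable {M N : DGMod (R.op.tensor R)} {n : ℤ} {z : Cochain M.cx N.cx n}

lemma z_bac (hz : z ∈ lin M N n) {p q s p' q' : ℤ} (h : p + n = q) (h' : p' + n = q')
    (hp : p + s = p') (hq : q + s = q') (x : M.cx.X p) (y : TensX R.cx R.cx s) :
    z.v p' q' h' (M.bac hp x y) = N.bac hq (z.v p q h x) y :=
  hz p q h s p' q' hp hq x y

lemma z_rb (hz : z ∈ lin M N n) {p q s p' q' : ℤ} (h : p + n = q) (h' : p' + n = q')
    (hp : p + s = p') (hq : q + s = q') (x : M.cx.X p) (b : R.cx.X s) :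
    z.v p' q' h' (M.rb hp x b) = N.rb hq (z.v p q h x) b :=
  z_bac hz h h' hp hq x _

lemma z_lb (hz : z ∈ lin M N n) {p q s p' q' : ℤ} (h : p + n = q) (h' : p' + n = q')
    (hp : s + p = p') (hq : s + q = q') (a : R.cx.X s) (x : M.cx.X p) :
    z.v p' q' h' (M.lb hp a x) = (n * s).negOnePow • N.lb hq a (z.v p q h x) := by
  rw [lb, Units.smul_def, map_zsmul, ← Units.smul_def, z_bac hz h h' (show p + s = p' by lia)
    (show q + s = q' by lia), lb, smul_smul]
  congr 1
  rw [← Int.negOnePow_add, ← h, Int.negOnePow_eq_iff]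
  exact ⟨- (n * s), by ring⟩

lemma isHom_toBi (hz : z ∈ lin M N n) : FdDG.DGBimod.IsHom M.toBi N.toBi (n := n) z :=
  ⟨fun _ _ _ _ _ h h' hp hq x b => z_rb hz h h' hp hq x b,
    fun _ _ _ _ _ h h' hp hq a x => z_lb hz h h' hp hq a x⟩

end

/-- the product `x b` in a bimodule -/
def fr (N : FdDG.DGBimod R.toFd) {p q r : ℤ} (h : p + q = r) (x : N.K.X p) (b : R.cx.X q) :
    N.K.X r := N.rmul h x b

/-- the product `a x` in a bimodule -/
def fl (N : FdDG.DGBimod R.toFd) {p q r : ℤ} (h : p + q = r) (a : R.cx.X p) (x : N.K.X q) :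
    N.K.X r := N.lmul h a x

lemma fr_smul (N : FdDG.DGBimod R.toFd) {p q r : ℤ} (h : p + q = r) (c : ℤˣ) (x : N.K.X p)
    (b : R.cx.X q) : fr N h (c • x) b = c • fr N h x b :=
  FdDG.units_smul_rmul N.toDGMod h c x b

lemma fl_smul (N : FdDG.DGBimod R.toFd) {p q r : ℤ} (h : p + q = r) (c : ℤˣ) (a : R.cx.X p)
    (x : N.K.X q) : fl N h a (c • x) = c • fl N h a x :=
  FdDG.lmul_units_smul N h c a x

lemma fr_fr (N : FdDG.DGBimod R.toFd) {p q r s t e : ℤ} (h₁ : p + q = s) (h₂ : s + r = e)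
    (h₃ : q + r = t) (h₄ : p + t = e) (x : N.K.X p) (b : R.cx.X q) (c : R.cx.X r) :
    fr N h₂ (fr N h₁ x b) c = fr N h₄ x (R.mul h₃ b c) :=
  N.assoc h₁ h₂ h₃ h₄ x b c

lemma fl_fl (N : FdDG.DGBimod R.toFd) {p q r s t e : ℤ} (h₁ : p + q = s) (h₂ : s + r = e)
    (h₃ : q + r = t) (h₄ : p + t = e) (a : R.cx.X p) (b : R.cx.X q) (x : N.K.X r) :
    fl N h₂ (R.mul h₁ a b) x = fl N h₄ a (fl N h₃ b x) :=
  N.lassoc h₁ h₂ h₃ h₄ a b x

lemma fl_fr (N : FdDG.DGBimod R.toFd) {p q r s t e : ℤ} (h₁ : p + q = s) (h₂ : s + r = e)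
    (h₃ : q + r = t) (h₄ : p + t = e) (a : R.cx.X p) (x : N.K.X q) (b : R.cx.X r) :
    fr N h₂ (fl N h₁ a x) b = fl N h₄ a (fr N h₃ x b) :=
  N.lact_act h₁ h₂ h₃ h₄ a x b

/-- the values of the morphism from the free bimodule of rank one with value `x` at the
generator -/
def frMap (N : FdDG.DGBimod R.toFd) {n : ℤ} (x : N.K.X n) (p q : ℤ) (h : p + n = q) :
    TensX R.cx R.cx p →ₗ[k] N.K.X q :=
  tdesc fun i j hij => (n * i).negOnePow •
    (N.act.mul (show (i + n) + j = q by lia)).comp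
      ((N.lact.mul (p := i) (q := n) (r := i + n) rfl).flip x)

lemma frMap_tp (N : FdDG.DGBimod R.toFd) {n : ℤ} (x : N.K.X n) {p q i j l : ℤ} (h : p + n = q)
    (hij : i + j = p) (hl : i + n = l) (hq : l + j = q) (a : R.cx.X i) (b : R.cx.X j) :
    frMap N x p q h (tp hij a b) = (n * i).negOnePow • fr N hq (fl N hl a x) b := by
  subst hl
  exact tdesc_tp _ hij a b

/-- the morphism from the free bimodule of rank one with value `x` at the generator -/
def frHom (N : FdDG.DGBimod R.toFd) {n : ℤ} (x : N.K.X n) :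
    FdDG.Cx.Map (R.op.tensor R).self.toBi.K N.K n :=
  Cochain.mk fun p q h => ModuleCat.ofHom (frMap N x p q h)

lemma val_frHom (N : FdDG.DGBimod R.toFd) {n : ℤ} (x : N.K.X n) {p q : ℤ} (h : p + n = q)
    (z : TensX R.cx R.cx p) : FdDG.val (frHom N x) h z = frMap N x p q h z := rfl

lemma emul_ir {p q r : ℤ} (h : p + q = r) {i j j' : ℤ} (hij : i + j = p) (hj : j + q = j')
    (hr : i + j' = r) (a : R.cx.X i) (b : R.cx.X j) (c : R.cx.X q) :
    R.emul h (tp hij a b) (R.ir c) = tp hr a (R.mul hj b c) := by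
  rw [DGAlg.ir, tpair_tp _ _ h hij (zero_add q) (add_zero i) hj, mul_zero, Int.negOnePow_zero,
    one_smul, R.opMul_apply (add_zero i) (zero_add i), R.one_mul, mul_zero, Int.negOnePow_zero,
    one_smul]

lemma emul_il {p q r : ℤ} (h : p + q = r) {i j i' : ℤ} (hij : i + j = p) (hi : q + i = i')
    (hr : i' + j = r) (a : R.cx.X i) (b : R.cx.X j) (c : R.cx.X q) :
    R.emul h (tp hij a b) (R.il c) = (p * q).negOnePow • tp hr (R.mul hi c a) b := by
  rw [DGAlg.il, tpair_tp _ _ h hij (add_zero q) (show i + q = i' by lia) (add_zero j),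
    R.opMul_apply (show i + q = i' by lia) hi, R.mul_one, Units.smul_def (i * q).negOnePow,
    map_zsmul, LinearMap.smul_apply, ← Units.smul_def, smul_smul, ← Int.negOnePow_add]
  congr 2
  rw [← hij]
  ring

/-- the right action on the free module -/
def selfR {p s p' : ℤ} (hp : p + s = p') (c : R.cx.X s) :
    TensX R.cx R.cx p →ₗ[k] TensX R.cx R.cx p' := (R.emul hp).flip (R.ir c)

/-- the left action on the free module -/
def selfL {p s p' : ℤ} (hp : s + p = p') (c : R.cx.X s) :
    TensX R.cx R.cx p →ₗ[k] TensX R.cx R.cx p' :=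
  (s * p).negOnePow • (R.emul (show p + s = p' by lia)).flip (R.il c)

lemma selfR_tp {p s p' : ℤ} (hp : p + s = p') (c : R.cx.X s) {i j j' : ℤ} (hij : i + j = p)
    (hj : j + s = j') (hr : i + j' = p') (a : R.cx.X i) (b : R.cx.X j) :
    selfR hp c (tp hij a b) = tp hr a (R.mul hj b c) := emul_ir hp hij hj hr a b c

lemma selfL_tp {p s p' : ℤ} (hp : s + p = p') (c : R.cx.X s) {i j i' : ℤ} (hij : i + j = p)
    (hi : s + i = i') (hr : i' + j = p') (a : R.cx.X i) (b : R.cx.X j) :
    selfL hp c (tp hij a b) = tp hr (R.mul hi c a) b := by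
  change (s * p).negOnePow • R.emul (show p + s = p' by lia) (tp hij a b) (R.il c) = _
  rw [emul_il _ hij hi hr, smul_smul, ← Int.negOnePow_add, Int.negOnePow_even, one_smul]
  exact ⟨s * p, by ring⟩

lemma isHom_frHom (N : FdDG.DGBimod R.toFd) {n : ℤ} (x : N.K.X n) :
    FdDG.DGBimod.IsHom (R.op.tensor R).self.toBi N (frHom N x) := by
  constructor
  · intro p q s p' q' h h' hp hq z (c : R.cx.X s)
    have key : (frMap N x p' q' h').comp (selfR hp c) =
        ((N.act.mul hq).flip c).comp (frMap N x p q h) := by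
      refine tens_hom_ext fun i j hij a b => ?_
      change frMap N x p' q' h' (selfR hp c (tp hij a b)) =
        fr N hq (frMap N x p q h (tp hij a b)) c
      rw [selfR_tp hp c hij rfl (show i + (j + s) = p' by lia),
        frMap_tp N x h' (show i + (j + s) = p' by lia) rfl (show i + n + (j + s) = q' by lia),
        frMap_tp N x h hij rfl (show i + n + j = q by lia), fr_smul,
        fr_fr N (show i + n + j = q by lia) hq rfl (show i + n + (j + s) = q' by lia)]
    exact LinearMap.congr_fun key z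
  · intro p q s p' q' h h' hp hq (c : R.cx.X s) z
    have key : (frMap N x p' q' h').comp (selfL hp c) =
        (n * s).negOnePow • (N.lact.mul hq c).comp (frMap N x p q h) := by
      refine tens_hom_ext fun i j hij a b => ?_
      change frMap N x p' q' h' (selfL hp c (tp hij a b)) =
        (n * s).negOnePow • fl N hq c (frMap N x p q h (tp hij a b))
      rw [selfL_tp hp c hij rfl (show s + i + j = p' by lia),
        frMap_tp N x h' (show s + i + j = p' by lia) rfl (show s + i + n + j = q' by lia),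
        frMap_tp N x h hij rfl (show i + n + j = q by lia), fl_smul, smul_smul,
        fl_fl N rfl rfl rfl (show s + (i + n) = s + i + n by lia),
        ← fl_fr N (show s + (i + n) = s + i + n by lia) (show s + i + n + j = q' by lia)
          (show i + n + j = q by lia) hq, mul_add, Int.negOnePow_add]
    exact LinearMap.congr_fun key z

/-- the free module of rank one is the free bimodule of rank one -/
lemma isFree_self : FdDG.DGBimod.IsFree (R.op.tensor R).self.toBi := by
  refine ⟨tp (add_zero 0) R.one R.one, (R.op.tensor R).d_one _, fun N n x =>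
    ⟨frHom N x, ⟨isHom_frHom N x, ?_⟩, ?_⟩⟩
  · refine (frMap_tp N x (zero_add n) (add_zero 0) (zero_add n) (add_zero n) R.one R.one).trans ?_
    rw [mul_zero, Int.negOnePow_zero, one_smul]
    exact (N.act_one n _).trans (N.one_lact n x)
  · rintro g ⟨hg, hx⟩
    refine FdDG.map_ext fun p q h z => ?_
    have key : ∀ (i j : ℤ) (hij : i + j = p) (a : R.cx.X i) (b : R.cx.X j),
        FdDG.val g h (tp hij a b) = frMap N x p q h (tp hij a b) := by
      intro i j hij a b
      have e₁ : selfL (add_zero i) a (tp (add_zero 0) R.one R.one) =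
          tp (add_zero i) a R.one := by
        rw [selfL_tp (add_zero i) a (add_zero 0) (add_zero i) (add_zero i), R.mul_one]
      have e₂ : selfR hij b (tp (add_zero i) a R.one) = tp hij a b := by
        rw [selfR_tp hij b (add_zero i) (zero_add j) hij, R.one_mul]
      have h₁ : FdDG.val g h (selfR hij b (tp (add_zero i) a R.one)) =
          fr N (show i + n + j = q by lia) (FdDG.val g rfl (tp (add_zero i) a R.one)) b :=
        hg.1 (show i + n = i + n from rfl) h hij (show i + n + j = q by lia)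
          (tp (add_zero i) a R.one) b
      have h₂ : FdDG.val g rfl (selfL (add_zero i) a (tp (add_zero 0) R.one R.one)) =
          (n * i).negOnePow • fl N rfl a
            (FdDG.val g (zero_add n) (tp (add_zero 0) R.one R.one)) :=
        hg.2 (zero_add n) (show i + n = i + n from rfl) (add_zero i)
          (show i + n = i + n from rfl) a (tp (add_zero 0) R.one R.one)
      rw [e₂] at h₁
      rw [e₁, hx] at h₂
      rw [frMap_tp N x h hij rfl (show i + n + j = q by lia)]
      refine h₁.trans ?_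
      rw [h₂, fr_smul]
    exact LinearMap.congr_fun (tens_hom_ext (K := R.cx) (L := R.cx) (f := (g.v p q h).hom)
      (g := frMap N x p q h) key) z

/-- a morphism of DG modules over the tensor product as a morphism of DG bimodules of the
statement -/
noncomputable def toBiHom {M N : DGMod (R.op.tensor R)} {n : ℤ}
    (f : (modDG (R.op.tensor R)).Hom M N n) :
    ((FdDG.DGBimod.cat R.toFd).Hom M.toBi N.toBi).X n :=
  FdDG.subElt ((FdDG.DGBimod.isSub R.toFd).sub M.toBi N.toBi) (n := n) f.1 (isHom_toBi f.2)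

lemma subVal_toBiHom {M N : DGMod (R.op.tensor R)} {n : ℤ}
    (f : (modDG (R.op.tensor R)).Hom M N n) :
    FdDG.subVal ((FdDG.DGBimod.isSub R.toFd).sub M.toBi N.toBi) (toBiHom f) = f.1 :=
  FdDG.subVal_subElt _ _ _

lemma toBiHom_comp {M N L : DGMod (R.op.tensor R)} {n m p : ℤ} (h : m + n = p) (h' : n + m = p)
    (f : (modDG (R.op.tensor R)).Hom M N n) (g : (modDG (R.op.tensor R)).Hom N L m) :
    (FdDG.DGBimod.cat R.toFd).cmp h (toBiHom g) (toBiHom f) =
      toBiHom ((modDG (R.op.tensor R)).comp h' f g) := by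
  apply FdDG.subVal_injective ((FdDG.DGBimod.isSub R.toFd).sub M.toBi L.toBi)
  refine (FdDG.subVal_subPairing _ _ _ _ (FdDG.DGBimod.isSub R.toFd).comp h _ _).trans ?_
  rw [subVal_toBiHom, subVal_toBiHom, subVal_toBiHom]
  rfl

lemma toBiHom_id (M : DGMod (R.op.tensor R)) :
    toBiHom ((modDG (R.op.tensor R)).id M) = (FdDG.DGBimod.cat R.toFd).one M.toBi := rfl

lemma toBiHom_d {M N : DGMod (R.op.tensor R)} (n m : ℤ)
    (f : (modDG (R.op.tensor R)).Hom M N n) :
    ((FdDG.DGBimod.cat R.toFd).Hom M.toBi N.toBi).d n m (toBiHom f) =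
      toBiHom ((modDG (R.op.tensor R)).d n m f) := by
  apply FdDG.subVal_injective ((FdDG.DGBimod.isSub R.toFd).sub M.toBi N.toBi)
  refine (FdDG.subVal_d _ n m _).trans ?_
  rw [subVal_toBiHom, subVal_toBiHom]
  rfl

lemma toBiHom_add {M N : DGMod (R.op.tensor R)} {n : ℤ}
    (f g : (modDG (R.op.tensor R)).Hom M N n) : toBiHom f + toBiHom g = toBiHom (f + g) := by
  apply FdDG.subVal_injective ((FdDG.DGBimod.isSub R.toFd).sub M.toBi N.toBi)
  refine (FdDG.subVal_add _ _ _).trans ?_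
  rw [subVal_toBiHom, subVal_toBiHom, subVal_toBiHom]
  rfl

lemma toBiHom_zero {M N : DGMod (R.op.tensor R)} {n : ℤ} :
    toBiHom (0 : (modDG (R.op.tensor R)).Hom M N n) = 0 := by
  apply FdDG.subVal_injective ((FdDG.DGBimod.isSub R.toFd).sub M.toBi N.toBi)
  rw [subVal_toBiHom]
  exact (FdDG.subVal_zero ((FdDG.DGBimod.isSub R.toFd).sub M.toBi N.toBi)).symm

lemma closed_toBiHom {M N : DGMod (R.op.tensor R)} {n : ℤ}
    (f : (modDG (R.op.tensor R)).Hom M N n) (hf : (modDG (R.op.tensor R)).d n (n + 1) f = 0) :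
    (FdDG.DGBimod.cat R.toFd).Closed (toBiHom f) := by
  refine (toBiHom_d n (n + 1) f).trans ?_
  rw [hf]
  exact toBiHom_zero

lemma thick_toBi {T : (modDG (R.op.tensor R)).Obj}
    (hT : DGCat.Thick (A := modDG (R.op.tensor R)) (R.op.tensor R).self T) :
    (FdDG.DGBimod.cat R.toFd).Thick FdDG.DGBimod.IsFree (DGMod.toBi T) := by
  induction hT with
  | gen => exact .of _ isFree_self
  | @cone a b c f hf e _ _ iha ihb =>
    refine FdDG.DGCat.Thick.cone (D := FdDG.DGBimod.cat R.toFd) (DGMod.toBi a) (DGMod.toBi b)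
      (DGMod.toBi c) (toBiHom f) iha ihb (closed_toBiHom f hf) ⟨?_⟩
    exact
      { inl := toBiHom e.inl
        inr := toBiHom e.inr
        fst := toBiHom e.fst
        snd := toBiHom e.snd
        fst_inl := (toBiHom_comp _ _ _ _).trans (congrArg toBiHom e.inl_fst)
        snd_inr := (toBiHom_comp _ _ _ _).trans (congrArg toBiHom e.inr_snd)
        snd_inl := (toBiHom_comp _ _ _ _).trans ((congrArg toBiHom e.inl_snd).trans toBiHom_zero)
        fst_inr := (toBiHom_comp _ _ _ _).trans ((congrArg toBiHom e.inr_fst).trans toBiHom_zero)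
        total := by
          refine (congrArg₂ (· + ·) (toBiHom_comp _ (add_neg_cancel 1) _ _)
            (toBiHom_comp _ (add_zero 0) _ _)).trans ?_
          exact (toBiHom_add _ _).trans (congrArg toBiHom e.total)
        d_inl := (toBiHom_d _ _ _).trans ((congrArg toBiHom e.d_inl).trans
          (toBiHom_comp _ _ _ _).symm)
        d_inr := closed_toBiHom _ e.d_inr }
  | @retract a b t h _ ihb =>
    obtain ⟨p, r, hp, hr, x, hx⟩ := h
    refine FdDG.DGCat.Thick.summand (D := FdDG.DGBimod.cat R.toFd) (DGMod.toBi b)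
      (DGMod.toBi a) ihb ⟨t, toBiHom p, toBiHom r, closed_toBiHom p hp, closed_toBiHom r hr,
        toBiHom x, ?_⟩
    rw [toBiHom_comp (neg_add_cancel t) (add_neg_cancel t)]
    have := congrArg toBiHom (sub_eq_iff_eq_add'.1 hx.symm)
    rw [← toBiHom_add] at this
    refine this.trans (congrArg₂ (· + ·) (toBiHom_id a) (toBiHom_d _ _ _).symm)

lemma diag_rb {p q r : ℤ} (h : p + q = r) (x : R.cx.X p) (b : R.cx.X q) :
    R.diag.toMod.rb h x b = R.mul h x b := by
  refine (R.diag.bact_tp h (zero_add q) (zero_add p) x R.one b).trans ?_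
  rw [mul_zero, Int.negOnePow_zero, one_smul]
  change R.mul h (R.mul (zero_add p) R.one x) b = R.mul h x b
  rw [R.one_mul]

lemma diag_lb {p q r : ℤ} (h : p + q = r) (a : R.cx.X p) (x : R.cx.X q) :
    R.diag.toMod.lb h a x = R.mul h a x := by
  have key : R.diag.bact (show q + p = r by lia) x (R.il a) =
      (q * p).negOnePow • R.mul h a x := by
    refine (R.diag.bact_tp (show q + p = r by lia) (add_zero p) h x a R.one).trans ?_
    change (q * p).negOnePow • R.mul (add_zero r) (R.mul h a x) R.one = _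
    rw [R.mul_one]
  have key' : ∀ y : R.cx.X r, (p * q).negOnePow • (q * p).negOnePow • y = y := fun y => by
    rw [smul_smul, ← Int.negOnePow_add, Int.negOnePow_even _ ⟨p * q, by ring⟩, one_smul]
  exact (congrArg ((p * q).negOnePow • ·) key).trans (key' _)

lemma isHom_diag {T : DGMod (R.op.tensor R)} {n : ℤ}
    {z : Cochain T.cx R.diag.toMod.cx n} (hz : z ∈ lin T R.diag.toMod n) :
    FdDG.DGBimod.IsHom T.toBi (FdDG.DGBimod.diag R.toFd) (n := n) z := by
  constructor
  · intro p q s p' q' h h' hp hq x b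
    exact (z_rb hz h h' hp hq x b).trans (diag_rb hq _ _)
  · intro p q s p' q' h h' hp hq a x
    exact (z_lb hz h h' hp hq a x).trans (congrArg ((n * s).negOnePow • ·) (diag_lb hq _ _))

end DGMod

/-- a smooth DG algebra is smooth in the sense of the statement -/
theorem DGAlg.IsSmooth.toFd {R : DGAlg.{v} k} (hR : R.IsSmooth) : R.toFd.IsSmooth := by
  obtain ⟨T, f, hT, hf⟩ := hR
  refine ⟨T.toBi, DGMod.thick_toBi hT, f.1, DGMod.isHom_diag f.2,
    congrArg Subtype.val hf.closed, fun n x hx => ?_, fun n y hy => ?_⟩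
  · rintro ⟨z, hz⟩
    obtain ⟨w, hw⟩ := hf.inj n x hx ⟨z, (hz.trans (zero_add _)).symm⟩
    exact ⟨w, hw.symm.trans (zero_add _).symm⟩
  · obtain ⟨x, hx, z, hz⟩ := hf.surj n y hy
    exact ⟨x, hx, z, (sub_eq_iff_eq_add'.1 hz.symm)⟩

end Orl
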